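import Pool.Agent.Helper58.Coded

set_option autoImplicit false

namespace Pool.Agent.Helper58

open Function Turing

section fin

variable {A β γ : Type} [Enc A] [Enc β] [Enc γ]

/-- functions on a finite type -/
theorem PTf.ofFinite [Finite A] (g : A → β) : PTf g := by
  classical
  rcases isEmpty_or_nonempty A with h | ⟨⟨a0⟩⟩
  · exact PTf.of_enc_eq (fun a => (h.false a).elim)
  · have key : ∀ l : List A, PTf (fun x => if x ∈ l then g x else g a0) := by
      intro l
      induction l with
      | nil => exact (PTf.const (g a0)).congr (fun x => by simp)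
      | cons a l ih =>
        have h1 : PTf (fun x => if x = a then g a else (if x ∈ l then g x else g a0)) :=
          PTf.ite (PTf.decEq PTf.id (PTf.const a)) (PTf.const _) ih
        refine h1.congr (fun x => ?_)
        by_cases hx : x = a
        · subst hx; simp
        · by_cases hl : x ∈ l
          · simp [hx, hl]
          · simp [hx, hl]
    cases nonempty_fintype A
    refine (key Finset.univ.toList).congr (fun x => ?_)
    simp

/-- functions on the natural numbers constant from some point on -/
theorem PTf.ofBounded (g : ℕ → β) (b0 : β) (n : ℕ) : PTf (fun i : ℕ => if i < n then g i else b0) := by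
  classical
  induction n with
  | zero => exact (PTf.const b0).congr (fun x => by simp)
  | succ n ih =>
    have h1 : PTf (fun i : ℕ => if i = n then g n else (if i < n then g i else b0)) :=
      PTf.ite (PTf.decEq PTf.id (PTf.const n)) (PTf.const _) ih
    refine h1.congr (fun i => ?_)
    by_cases h : i = n
    · subst h; simp
    · by_cases h2 : i < n
      · have : i < n + 1 := by omega
        simp [h, h2, this]
      · have : ¬ i < n + 1 := by omega
        simp [h, h2, this]

end fin

lemma run_inT {K : Type} [DecidableEq K] [Fintype K] {Γ : K → Type} {Λ σ : Type} (C : Coding Γ)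
    (m : Λ → TM2.Stmt Γ Λ σ) (hm : ∀ l, StIn C (m l)) : ∀ (n : ℕ) (c c' : TM2.Cfg Γ Λ σ),
    (flip bind (TM2.step m))^[n] (some c) = some c' → InT C c.stk → InT C c'.stk := by
  intro n
  induction n with
  | zero =>
    intro c c' h hin
    have : c = c' := by simpa using h
    rw [← this]; exact hin
  | succ n ih =>
    intro c c' h hin
    rw [iterate_succ_apply] at h
    obtain ⟨l, v, S⟩ := c
    cases l with
    | none =>
      exfalso
      have e : (flip bind (TM2.step m)) (some (⟨none, v, S⟩ : TM2.Cfg Γ Λ σ)) = none := rfl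
      rw [e] at h
      have : ∀ n, (flip bind (TM2.step m))^[n] (none : Option (TM2.Cfg Γ Λ σ)) = none := by
        intro n
        induction n with
        | zero => rfl
        | succ n ih => rw [iterate_succ_apply']; rw [ih]; rfl
      rw [this] at h
      exact absurd h (by simp)
    | some l =>
      have e : (flip bind (TM2.step m)) (some (⟨some l, v, S⟩ : TM2.Cfg Γ Λ σ))
          = some (TM2.stepAux (m l) v S) := rfl
      rw [e] at h
      have h1 := (simSt_exec C (fun _ => 0) (fun _ => []) 0 (m l) v S (hm l) hin).2
      exact ih _ _ h h1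

/-- polynomial time functions in the sense of Mathlib are computed by stack programs -/
theorem ptf_of_polyTime {A B α β : Type} [Fintype A] [Enc A] [Enc B] (ea : α → List A)
    (eb : β → List B) (hea : Injective ea) {f : α → β} (h : PolyTime ea eb f) :
    PTf (fun x : Coded ea hea => eb (f x.val)) := by
  classical
  obtain ⟨H⟩ := h
  letI := H.tm.kFin
  letI := H.tm.ΛFin
  letI := H.tm.σFin
  letI := H.tm.Γk₀Fin
  obtain ⟨C, hC⟩ := exists_coding H.tm.Γ ((⋃ l, pushedS (H.tm.m l)) ∪
    Set.range (fun a : H.tm.Γ H.tm.k₀ => (⟨H.tm.k₀, a⟩ : Σ k, H.tm.Γ k)))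
    ((Set.finite_iUnion (fun l => pushedS_finite _)).union (Set.finite_range _))
  have hin : ∀ a : H.tm.Γ H.tm.k₀, a ∈ C.T H.tm.k₀ := fun a => hC _ _ (Or.inr ⟨a, rfl⟩)
  have hm : ∀ l, StIn C (H.tm.m l) := fun l =>
    stIn_of_pushed C _ (fun k a ha => hC k a (Or.inl (Set.mem_iUnion.2 ⟨l, ha⟩)))
  set ι : A → ℕ := fun a => C.e H.tm.k₀ (H.inputAlphabet.symm a) with hι
  have hιinj : Injective ι := by
    intro a b hab
    have h1 := C.dec _ _ (hin (H.inputAlphabet.symm a))
    have h2 := C.dec _ _ (hin (H.inputAlphabet.symm b))
    rw [hι] at hab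
    simp only at hab
    rw [hab, h2] at h1
    exact (H.inputAlphabet.symm.injective (Option.some.inj h1)).symm
  let D := {l : List ℕ // ∃ a : α, (ea a).map ι = l}
  let ch : D → α := fun x => x.2.choose
  have hch : ∀ x : D, (ea (ch x)).map ι = x.1 := fun x => x.2.choose_spec
  let inp : D → List (H.tm.Γ H.tm.k₀) := fun x => (ea (ch x)).map H.inputAlphabet.symm
  let out : D → List (H.tm.Γ H.tm.k₁) := fun x => (eb (f (ch x))).map H.outputAlphabet.symm
  have hrun : ∀ x : D, ∃ n ≤ H.time.eval (x.1.length), (flip bind (TM2.step H.tm.m))^[n]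
      (some (⟨some H.tm.main, H.tm.initialState, single H.tm.k₀ (inp x)⟩ :
        TM2.Cfg H.tm.Γ H.tm.Λ H.tm.σ))
        = some ⟨none, H.tm.initialState, single H.tm.k₁ (out x)⟩ := by
    intro x
    obtain ⟨⟨n, h2⟩, hle⟩ := H.outputsFun (ch x)
    refine ⟨n, ?_, ?_⟩
    · rw [← hch x, List.length_map]
      exact hle
    · have i1 : initList H.tm (List.map H.inputAlphabet.invFun (ea (ch x)))
          = (⟨some H.tm.main, H.tm.initialState, single H.tm.k₀ (inp x)⟩ :
            TM2.Cfg H.tm.Γ H.tm.Λ H.tm.σ) := by
        unfold initList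
        congr 1
        funext k
        by_cases hk : k = H.tm.k₀
        · subst hk
          rw [dif_pos rfl]
          unfold single
          rw [update_self]
          rfl
        · rw [dif_neg hk]
          unfold single
          rw [update_of_ne hk]
      have i2 : haltList H.tm (List.map H.outputAlphabet.invFun (eb (f (ch x))))
          = (⟨none, H.tm.initialState, single H.tm.k₁ (out x)⟩ :
            TM2.Cfg H.tm.Γ H.tm.Λ H.tm.σ) := by
        unfold haltList
        congr 1
        funext k
        by_cases hk : k = H.tm.k₁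
        · subst hk
          rw [dif_pos rfl]
          unfold single
          rw [update_self]
          rfl
        · rw [dif_neg hk]
          unfold single
          rw [update_of_ne hk]
      rw [i1] at h2
      simp only [Option.map_some] at h2
      rw [i2] at h2
      exact h2
  have hfinQ : ∃ (NQ : ℕ) (qe : H.tm.Λ × H.tm.σ → ℕ) (qd : ℕ → Option (H.tm.Λ × H.tm.σ)),
      ∀ x, qe x < NQ ∧ qd (qe x) = some x := by
    obtain ⟨n, e, d, hh⟩ := exists_code (Set.univ : Set (H.tm.Λ × H.tm.σ)) (Set.finite_univ)
    exact ⟨n, e, d, fun x => hh x (Set.mem_univ _)⟩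
  obtain ⟨NQ, qe, qd, hq⟩ := hfinQ
  have hlen : PTf (fun x : D => x.1.length) := PTf.length (PTf.val PTf.id)
  have hlenPB : PB (fun x : D => x.1.length) :=
    hlen.sz_le.mono (fun x => by rw [sz_nat]; omega)
  have hG := ptf_of_run C qe H.tm.k₀ H.tm.k₁ H.tm.m H.tm.main H.tm.initialState qd NQ
    (fun x => (hq x).2) (fun x => (hq x).1) hm inp out
    (fun x => by
      show enc x.1 = _
      rw [← hch x, List.map_map]; rfl)
    (fun x a _ => hin a) (fun x : D => H.time.eval (x.1.length)) (hlenPB.poly H.time) hrun
  -- the output symbols have codes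
  have hout : ∀ x, ∀ a ∈ out x, a ∈ C.T H.tm.k₁ := by
    intro x a ha
    obtain ⟨n, _, hr⟩ := hrun x
    have h1 := run_inT C H.tm.m hm n _ _ hr (by
      intro k b hb
      have hb' : b ∈ (single H.tm.k₀ (inp x) : ∀ k, List (H.tm.Γ k)) k := hb
      unfold single at hb'
      by_cases hk : k = H.tm.k₀
      · subst hk; exact hin b
      · rw [update_of_ne hk] at hb'; simp at hb')
    apply h1 H.tm.k₁ a
    show a ∈ (single H.tm.k₁ (out x) : ∀ k, List (H.tm.Γ k)) H.tm.k₁
    unfold single
    rw [update_self]; exact ha
  -- decoding of the output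
  let g : ℕ → List B := fun i => ((C.d H.tm.k₁ i).map H.outputAlphabet).toList
  let dl : ℕ → List B := fun i => if i < C.n H.tm.k₁ then g i else []
  have hdl : PTf dl := PTf.ofBounded g [] _
  have hflat : ∀ x : D, ((out x).map (C.e H.tm.k₁)).flatMap dl = eb (f (ch x)) := by
    intro x
    have h1 : ∀ a ∈ out x, dl (C.e H.tm.k₁ a) = [H.outputAlphabet a] := by
      intro a ha
      have hT := hout x a ha
      show (if C.e H.tm.k₁ a < C.n H.tm.k₁ then
        ((C.d H.tm.k₁ (C.e H.tm.k₁ a)).map H.outputAlphabet).toList else []) = _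
      rw [if_pos (C.lt _ _ hT), C.dec _ _ hT]
      rfl
    rw [List.flatMap_map]
    have h2 : (out x).flatMap (fun a => dl (C.e H.tm.k₁ a)) = (out x).flatMap (fun a => [H.outputAlphabet a]) :=
      List.flatMap_congr h1
    rw [h2, ← List.map_eq_flatMap]
    show ((eb (f (ch x))).map H.outputAlphabet.symm).map H.outputAlphabet = _
    rw [List.map_map]
    simp
  have hF : PTf (fun x : D => eb (f (ch x))) := by
    have h1 : PTf (fun x : D => ((out x).map (C.e H.tm.k₁)).flatMap dl) :=
      PTf.flatMap hG (PTf.comp hdl (PTf.snd PTf.id))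
    exact h1.congr (fun x => (hflat x).symm)
  -- encoding of the input
  let ix : Coded ea hea → D := fun x => ⟨(ea x.val).map ι, x.val, rfl⟩
  have hix : PTf ix := by
    have h1 : PTf (fun x : Coded ea hea => ea x.val) := PTf.of_enc_eq (fun _ => rfl)
    have h2 : PTf (fun x : Coded ea hea => (ea x.val).map ι) :=
      PTf.map h1 (PTf.comp (PTf.ofFinite ι) (PTf.snd PTf.id))
    exact h2.recode (i := fun c => c) (fun _ => rfl) (fun _ => rfl)
  have hch2 : ∀ x : Coded ea hea, ch (ix x) = x.val := by
    intro x
    have h1 := hch (ix x)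
    exact hea (List.map_injective_iff.2 hιinj h1)
  exact (PTf.comp hF hix).congr (fun x => by rw [hch2])

/-- functions computed by stack programs are polynomial time in the sense of Mathlib -/
theorem polyTime_of_ptf {A α β : Type} [Fintype A] (ea : α → List A) (φ : A → Bool × Bool)
    (hinj : Injective (fun a => (ea a).map φ)) (eb : β → List Bool) {f : α → β}
    (hf : PTf (fun x : Coded (fun a => (ea a).map φ) hinj => eb (f x.val))) : PolyTime ea eb f := by
  rw [ptf_iff] at hf
  obtain ⟨⟨l, hl⟩, c, w, T, hb, ⟨k, hk⟩, hr⟩ := hf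
  refine ToTM.computable2 (N := w + 2) ea eb f (fun a => (φ a).1) (fun a => (φ a).2)
    (Cmd.seq (Cmd.push 0 false) (Cmd.seq (tr2 1 0 (fun p => true :: (enc p).code))
      (Cmd.seq (c 0) (unpack 0)))) (by omega) ?_
    (Polynomial.X + 4 + (8 * Polynomial.X + 2) ^ k + (8 * Polynomial.X + 2) ^ l) ?_
  · exact ⟨by show 0 < w + 2 + 1; omega, below_tr2 (by omega) (by omega) _, (hb 0).mono (by omega),
      below_unpack (by omega)⟩
  · intro x s hs1 hs2
    set y : Coded (fun a => (ea a).map φ) hinj := ⟨x⟩ with hy
    have h0 : Exec (Cmd.push 0 false) s (update s 0 [false]) 0 := by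
      apply exec_push
      rw [hs2 0 (by omega)]
    have e0 : (update s 0 [false]) 1 = ((ea x).map φ).reverse.flatMap (fun p : Bool × Bool => [p.2, p.1]) := by
      rw [update_of_ne (by omega), hs1]
      unfold ToTM.bits2
      induction ea x with
      | nil => rfl
      | cons a t ih =>
        rw [List.flatMap_cons, List.reverse_append, ih]
        simp
    have h1 := tr2_exec (k := 1) (l := 0) (by omega) (fun p => true :: (enc p).code) _ _ e0
    rw [List.reverse_reverse, update_self, flatMap_code] at h1
    have e1 : update (update (update s 0 [false]) 0 (enc ((ea x).map φ)).code) 1 []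
        = st4 (fun _ => []) 0 (enc y).code [] [] [] := by
      funext j
      by_cases h1 : j = 1
      · subst h1; rw [update_self]; simp [st4]
      · rw [update_of_ne h1, update_idem]
        by_cases h0 : j = 0
        · subst h0; rw [update_self]; simp [st4]; rfl
        · rw [update_of_ne h0, hs2 j h1]
          unfold st4
          split_ifs <;> rfl
    rw [e1] at h1
    obtain ⟨t, ht, h3⟩ := hr 0 (fun _ => []) y
    have h4 := unpack_exec (fun _ => []) 0 (eb (f x))
    refine ⟨_, _, ?_, exec_seq h0 (exec_seq h1 (exec_seq h3 h4)), ?_, ?_⟩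
    · have hszy : sz y ≤ 8 * (ea x).length + 1 := by
        show sz ((ea x).map φ) ≤ _
        induction ea x with
        | nil => simp [sz_lnil]
        | cons a t ih =>
          rw [List.map_cons, sz_lcons, List.length_cons, sz_prod]
          have := sz_bool (φ a).1
          have := sz_bool (φ a).2
          omega
      have h5 := hk y
      have h7 : sz (eb (f x)) ≤ (sz y + 1) ^ l := hl y
      have h8 := length_lt_sz (eb (f x))
      have h9 : (sz y + 1) ^ k ≤ (8 * (ea x).length + 2) ^ k := Nat.pow_le_pow_left (by omega) k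
      have h10 : (sz y + 1) ^ l ≤ (8 * (ea x).length + 2) ^ l := Nat.pow_le_pow_left (by omega) l
      simp only [List.length_reverse, List.length_map, Polynomial.eval_add, Polynomial.eval_X,
        Polynomial.eval_pow, Polynomial.eval_mul, Polynomial.eval_ofNat]
      omega
    · rw [st4_0]
    · intro j hj
      unfold st4
      split_ifs <;> rfl

end Pool.Agent.Helper58
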