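import Pool.Agent.Helper58.Trees

set_option autoImplicit false

namespace Pool.Agent.Helper58

/-- A search problem: instances and candidate solutions, both encoded by bit strings, and the
relation `rel x y` saying that `y` is a solution of the instance `x`. -/
structure SearchProblem where
  Inst : Type
  Sol : Type
  encI : Inst → List Bool
  encS : Sol → List Bool
  encI_inj : Function.Injective encI
  encS_inj : Function.Injective encS
  rel : Inst → Sol → Prop

/-- `f` is computable in polynomial time with respect to the encodings `ea` and `eb`, by one of
the multi-stack Turing machines of Mathlib. -/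
def PolyTime {A B α β : Type} (ea : α → List A) (eb : β → List B) (f : α → β) : Prop :=
  Nonempty (Turing.TM2ComputableInPolyTime ea eb f)

/-- Encoding of a pair, over the alphabet with two copies of each bit. -/
def pairCode {α β : Type} (ea : α → List Bool) (eb : β → List Bool) (p : α × β) :
    List (Bool ⊕ Bool) :=
  (ea p.1).map Sum.inl ++ (eb p.2).map Sum.inr

/-- Polynomial time reduction of the search problem `Q` to the search problem `R`: a polynomial
time map `f` of instances, and a polynomial time map `g` that turns each solution `y` of `f x` into
a solution `g (x, y)` of `x`. -/
def Reduces (Q R : SearchProblem) : Prop :=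
  ∃ (f : Q.Inst → R.Inst) (g : Q.Inst × R.Sol → Q.Sol),
    PolyTime Q.encI R.encI f ∧ PolyTime (pairCode Q.encI R.encS) Q.encS g ∧
    ∀ x y, R.rel (f x) y → Q.rel x (g (x, y))

end Pool.Agent.Helper58
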