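import Pool.Agent.Helper58.PolyLib
import Pool.Agent.Helper58.CmdTM
import Pool.Agent.Helper58.Search

set_option autoImplicit false

namespace Pool.Agent.Helper58

open Function

/-- from stack programs to Mathlib's machines -/
theorem PTf.polyTime {α β α' β' A : Type} [Enc α] [Enc β] [Fintype A] (ea : α' → List A)
    (eb : β' → List Bool) (F : α' → β') (φ : A → Bool) (pre : List Bool) {f : α → β} (hf : PTf f)
    (i : α' → α) (hi : ∀ x, (enc (i x)).code = pre ++ (ea x).map φ)
    (ho : ∀ x, eb (F x) = (enc (f (i x))).code) : PolyTime ea eb F := by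
  rw [ptf_iff] at hf
  obtain ⟨_, c, w, T, hb, ⟨k, hk⟩, hr⟩ := hf
  refine ToTM.computable (N := w + 2) ea eb F φ
    (Cmd.seq (mv 1 0) (Cmd.seq (pushL 0 pre) (c 0))) (by omega) ?_
    (Polynomial.X + 1 + (Polynomial.X + Polynomial.C pre.length + 1) ^ k) ?_
  · exact ⟨below_mv (by omega) (by omega), below_pushL (by omega) _, (hb 0).mono (by omega)⟩
  · intro x s hs1 hs2
    have h1 := mv_exec (k := 1) (l := 0) (by omega) _ s hs1
    have e1 : update (update s 0 ((((ea x).map φ).reverse).reverse ++ s 0)) 1 []
        = st4 (fun _ => []) 0 ((ea x).map φ) [] [] [] := by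
      funext j
      by_cases h1 : j = 1
      · subst h1; rw [update_self]; simp [st4]
      · rw [update_of_ne h1]
        by_cases h0 : j = 0
        · subst h0; rw [update_self, hs2 0 (by omega)]; simp [st4]
        · rw [update_of_ne h0, hs2 j h1]
          unfold st4
          split_ifs <;> rfl
    rw [e1] at h1
    have h2 := pushL_exec (fun _ => []) 0 pre ((ea x).map φ)
    rw [← hi x] at h2
    obtain ⟨t, ht, h3⟩ := hr 0 (fun _ => []) (i x)
    refine ⟨_, _, ?_, exec_seq h1 (exec_seq h2 h3), ?_, ?_⟩
    · have h4 : sz (i x) = pre.length + (ea x).length := by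
        unfold sz; rw [hi]; simp
      have h5 := hk (i x)
      rw [h4] at h5
      simp only [List.length_reverse, List.length_map, Polynomial.eval_add, Polynomial.eval_X,
        Polynomial.eval_one, Polynomial.eval_pow, Polynomial.eval_C]
      have h6 : (pre.length + (ea x).length + 1) = ((ea x).length + pre.length + 1) := by ring
      rw [h6] at h5
      omega
    · rw [st4_0, ho]
    · intro j hj
      unfold st4
      split_ifs <;> rfl

end Pool.Agent.Helper58
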