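import Pool.Agent.Helper58.Poly

set_option autoImplicit false

namespace Pool.Agent.Helper58

open Function

attribute [fun_prop] PTf

/-! ### instances -/

instance encDTree : Enc DTree := ⟨fun x => x, fun _ _ h => h⟩
instance encBool : Enc Bool := ⟨DTree.ofBool, DTree.ofBool_inj⟩
instance encNat : Enc ℕ := ⟨DTree.ofNat, DTree.ofNat_inj⟩
instance encUnit : Enc Unit := ⟨fun _ => DTree.nil, fun _ _ _ => rfl⟩

section inst
variable {α β : Type} [Enc α] [Enc β]

instance encList : Enc (List α) := ⟨DTree.ofList enc, DTree.ofList_inj Enc.inj⟩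
instance encProd : Enc (α × β) := ⟨fun p => DTree.cons (enc p.1) (enc p.2), by
  rintro ⟨a, b⟩ ⟨c, d⟩ h
  simp only [DTree.cons.injEq] at h
  rw [Enc.inj h.1, Enc.inj h.2]⟩

lemma enc_pair (a : α) (b : β) : enc (a, b) = DTree.cons (enc a) (enc b) := rfl
lemma enc_lnil : enc ([] : List α) = DTree.nil := rfl
lemma enc_lcons (a : α) (l : List α) : enc (a :: l) = DTree.cons (enc a) (enc l) := rfl
lemma enc_true : enc true = DTree.cons DTree.nil DTree.nil := rfl
lemma enc_false : enc false = DTree.nil := rfl
lemma enc_zero : enc (0 : ℕ) = DTree.nil := rfl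
lemma enc_succ (n : ℕ) : enc (n + 1) = DTree.cons DTree.nil (enc n) := rfl

lemma sz_pair (a : α) (b : β) : sz (a, b) = sz a + sz b + 1 := by
  unfold sz; rw [enc_pair]; simp [DTree.code]
lemma sz_prod (p : α × β) : sz p = sz p.1 + sz p.2 + 1 := sz_pair p.1 p.2
lemma sz_lnil : sz ([] : List α) = 1 := rfl
lemma sz_lcons (a : α) (l : List α) : sz (a :: l) = sz a + sz l + 1 := by
  unfold sz; rw [enc_lcons]; simp [DTree.code]
lemma sz_true : sz true = 3 := rfl
lemma sz_false : sz false = 1 := rfl
lemma sz_bool (b : Bool) : sz b ≤ 3 := by cases b <;> simp [sz_true, sz_false]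
lemma sz_zero : sz (0 : ℕ) = 1 := rfl
lemma sz_succ (n : ℕ) : sz (n + 1) = sz n + 2 := by
  unfold sz; rw [enc_succ]; simp [DTree.code]
lemma sz_nat (n : ℕ) : sz n = 2 * n + 1 := by
  induction n with
  | zero => rfl
  | succ n ih => rw [sz_succ, ih]; ring
lemma sz_append (l m : List α) : sz (l ++ m) + 1 = sz l + sz m := by
  induction l with
  | nil => simp [sz_lnil]; ring
  | cons a l ih => rw [List.cons_append, sz_lcons, sz_lcons]; omega
lemma sz_reverse (l : List α) : sz l.reverse = sz l := by
  induction l with
  | nil => rfl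
  | cons a l ih =>
    have := sz_append l.reverse [a]
    rw [List.reverse_cons, sz_lcons]
    rw [sz_lcons, sz_lnil] at this
    omega
lemma length_lt_sz (l : List α) : 2 * l.length < sz l := by
  induction l with
  | nil => simp [sz_lnil]
  | cons a l ih =>
    rw [sz_lcons, List.length_cons]
    have := sz_pos a
    omega
lemma sz_drop_le (l : List α) (i : ℕ) : sz (l.drop i) ≤ sz l := by
  have h1 := sz_append (l.take i) (l.drop i)
  rw [List.take_append_drop] at h1
  have := sz_pos (l.take i)
  omega
lemma sz_take_le (l : List α) (i : ℕ) : sz (l.take i) ≤ sz l := by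
  have h1 := sz_append (l.take i) (l.drop i)
  rw [List.take_append_drop] at h1
  have := sz_pos (l.drop i)
  omega
lemma sz_mem_le (l : List α) (a : α) (h : a ∈ l) : sz a < sz l := by
  induction l with
  | nil => simp at h
  | cons b l ih =>
    rw [sz_lcons]
    rcases List.mem_cons.1 h with h | h
    · subst h; omega
    · have := ih h; omega
omit [Enc α] in
lemma sz_flatMap_le (l : List α) (f : α → List β) (B : ℕ) (h : ∀ a ∈ l, sz (f a) ≤ B) :
    sz (l.flatMap f) ≤ l.length * B + 1 := by
  induction l with
  | nil => simp [sz_lnil]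
  | cons a l ih =>
    rw [List.flatMap_cons, List.length_cons]
    have h1 := sz_append (f a) (l.flatMap f)
    have h2 := ih (fun x hx => h x (List.mem_cons_of_mem _ hx))
    have h3 := h a (List.mem_cons_self)
    have h4 : (l.length + 1) * B = l.length * B + B := by ring
    omega
end inst

/-! ### closure, fun_prop form -/

section lib

variable {α β γ δ : Type} [Enc α] [Enc β] [Enc γ] [Enc δ]

@[fun_prop] theorem ptf_id : PTf (fun a : α => a) := PTf.id
@[fun_prop] theorem ptf_const (b : β) : PTf (fun _ : α => b) := PTf.const b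
@[fun_prop] theorem ptf_comp {g : β → γ} {f : α → β} (hg : PTf g) (hf : PTf f) :
    PTf (fun a => g (f a)) := PTf.comp hg hf

theorem PTf.congr {f g : α → β} (hf : PTf f) (h : ∀ a, g a = f a) : PTf g := by
  have : g = f := funext h
  rw [this]; exact hf

/-- change of types with the same codes -/
theorem PTf.recode {f : α → β} {g : γ → δ} {i : γ → α} (hf : PTf f)
    (hi : ∀ c, enc (i c) = enc c) (h : ∀ c, enc (g c) = enc (f (i c))) : PTf g := by
  obtain ⟨h1, c, w, T, hb, hT, hr⟩ := hf.comp (PTf.of_enc_eq hi)
  refine ⟨h1.mono (fun a => by unfold sz; rw [h a]), c, w, T, hb, hT, fun r s a h2 h3 => ?_⟩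
  rw [h a]
  exact hr r s a h2 h3

@[fun_prop] theorem PTf.pair {f : α → β} {g : α → γ} (hf : PTf f) (hg : PTf g) :
    PTf (fun a => (f a, g a)) := PTf.of_cons hf hg (fun _ => rfl)

@[fun_prop] theorem PTf.fst {f : α → β × γ} (hf : PTf f) : PTf (fun a => (f a).1) :=
  PTf.comp (g := fun p : β × γ => p.1) (PTf.of_left (fun a => ⟨enc a.2, rfl⟩)) hf

@[fun_prop] theorem PTf.snd {f : α → β × γ} (hf : PTf f) : PTf (fun a => (f a).2) :=
  PTf.comp (g := fun p : β × γ => p.2) (PTf.of_right (fun a => ⟨enc a.1, rfl⟩)) hf

@[fun_prop] theorem PTf.cons {f : α → β} {g : α → List β} (hf : PTf f) (hg : PTf g) :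
    PTf (fun a => f a :: g a) := PTf.of_cons hf hg (fun _ => rfl)

@[fun_prop] theorem PTf.succ {f : α → ℕ} (hf : PTf f) : PTf (fun a => f a + 1) :=
  PTf.of_cons (PTf.const ()) hf (fun _ => rfl)

theorem PTf.val {p : α → Prop} {f : α → β} (hf : PTf f) : PTf (fun a : {a : α // p a} => f a.1) :=
  PTf.comp hf (PTf.of_enc_eq (fun _ => rfl))

/-- case distinction on a list -/
def lcase {α β : Type} (l : List α) (b : β) (g : α → List α → β) : β :=
  match l with
  | [] => b
  | a :: t => g a t

theorem enc_list_eq_nil {l : List α} : l = [] ↔ enc l = DTree.nil := by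
  cases l with
  | nil => simp [enc_lnil]
  | cons a l => simp [enc_lcons]

@[fun_prop] theorem PTf.lcase {l : γ → List α} {f : γ → β} {g : γ → α → List α → β} (hl : PTf l)
    (hf : PTf f) (hg : PTf (fun p : γ × (α × List α) => g p.1 p.2.1 p.2.2)) :
    PTf (fun x => lcase (l x) (f x) (g x)) := by
  refine PTf.ite_nil (t := l) (p := fun x => l x = []) hl (fun _ => enc_list_eq_nil) ?_ ?_
  · refine (PTf.val hf).congr ?_
    rintro ⟨a, ha⟩
    simp only [ha, Helper58.lcase]
  · let φ : {x : γ // ¬ l x = []} → γ × (α × List α) := fun x => (x.1, ((l x.1).head x.2, (l x.1).tail))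
    have hφ : PTf φ := by
      refine PTf.of_cons (PTf.val PTf.id) (PTf.val hl) ?_
      rintro ⟨a, ha⟩
      show DTree.cons _ (DTree.cons _ _) = _
      congr 1
      rw [← enc_lcons, List.cons_head_tail]
    refine (PTf.comp hg hφ).congr ?_
    rintro ⟨a, ha⟩
    simp only [φ]
    obtain ⟨b, t, hbt⟩ := List.exists_cons_of_ne_nil ha
    simp only [hbt, Helper58.lcase, List.head_cons, List.tail_cons]

/-- case distinction on a natural number -/
def ncase {β : Type} (n : ℕ) (b : β) (g : ℕ → β) : β :=
  match n with
  | 0 => b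
  | k + 1 => g k

@[fun_prop] theorem PTf.ncase {n : γ → ℕ} {f : γ → β} {g : γ → ℕ → β} (hn : PTf n)
    (hf : PTf f) (hg : PTf (fun p : γ × ℕ => g p.1 p.2)) :
    PTf (fun x => ncase (n x) (f x) (g x)) := by
  refine PTf.ite_nil (t := n) (p := fun x => n x = 0) hn ?_ ?_ ?_
  · intro x
    cases n x with
    | zero => simp [enc_zero]
    | succ k => simp [enc_succ]
  · refine (PTf.val hf).congr ?_
    rintro ⟨a, ha⟩
    simp only [ha, Helper58.ncase]
  · let φ : {x : γ // ¬ n x = 0} → γ × ℕ := fun x => (x.1, n x.1 - 1)
    have hψ : PTf (fun x : {x : γ // ¬ n x = 0} => (⟨n x.1, x.2⟩ : {m : ℕ // ¬ m = 0})) :=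
      (PTf.val hn).recode (i := fun c => c) (fun _ => rfl) (fun _ => rfl)
    have hχ : PTf (fun m : {m : ℕ // ¬ m = 0} => m.1 - 1) := by
      refine PTf.of_right ?_
      rintro ⟨m, hm⟩
      obtain ⟨k, rfl⟩ : ∃ k, m = k + 1 := ⟨m - 1, by omega⟩
      exact ⟨DTree.nil, rfl⟩
    have hφ : PTf φ := PTf.pair (PTf.val PTf.id) (PTf.comp hχ hψ)
    refine (PTf.comp hg hφ).congr ?_
    rintro ⟨a, ha⟩
    simp only [φ]
    obtain ⟨k, hk⟩ : ∃ k, n a = k + 1 := ⟨n a - 1, by omega⟩
    simp only [hk, Helper58.ncase, Nat.add_sub_cancel]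

/-- conditionals -/
@[fun_prop] theorem PTf.cond {p : γ → Bool} {f g : γ → β} (hp : PTf p) (hf : PTf f) (hg : PTf g) :
    PTf (fun x => bif p x then f x else g x) := by
  refine PTf.ite_nil (t := p) (p := fun x => p x = false) hp ?_ ?_ ?_
  · intro x
    cases p x <;> simp [enc_true, enc_false]
  · refine (PTf.val hg).congr ?_
    rintro ⟨a, ha⟩
    simp only [ha, cond_false]
  · refine (PTf.val hf).congr ?_
    rintro ⟨a, ha⟩
    simp only [Bool.not_eq_false] at ha
    simp only [ha, cond_true]

@[fun_prop] theorem PTf.ite {p : γ → Prop} [DecidablePred p] {f g : γ → β}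
    (hp : PTf (fun x => decide (p x))) (hf : PTf f) (hg : PTf g) :
    PTf (fun x => if p x then f x else g x) := by
  refine (PTf.cond hp hf hg).congr ?_
  intro a
  by_cases h : p a <;> simp [h]

@[fun_prop] theorem PTf.and {p q : γ → Bool} (hp : PTf p) (hq : PTf q) : PTf (fun x => p x && q x) :=
  (PTf.cond hp hq (PTf.const false)).congr (fun a => by cases p a <;> simp)

@[fun_prop] theorem PTf.or {p q : γ → Bool} (hp : PTf p) (hq : PTf q) : PTf (fun x => p x || q x) :=
  (PTf.cond hp (PTf.const true) hq).congr (fun a => by cases p a <;> simp)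

@[fun_prop] theorem PTf.not {p : γ → Bool} (hp : PTf p) : PTf (fun x => !p x) :=
  (PTf.cond hp (PTf.const false) (PTf.const true)).congr (fun a => by cases p a <;> simp)

@[fun_prop] theorem PTf.decEq [DecidableEq α] {f g : γ → α} (hf : PTf f) (hg : PTf g) :
    PTf (fun x => decide (f x = g x)) :=
  PTf.comp (g := fun p : α × α => decide (p.1 = p.2))
    (PTf.of_eq_test (fun a => ⟨enc a.1, enc a.2, rfl, by simp [Enc.inj.eq_iff]⟩) enc_true enc_false)
    (hf.pair hg)

/-- folding over a list -/
theorem PTf.foldl {l : γ → List α} {init : γ → β} {step : γ → β → α → β} {B : γ → ℕ}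
    (hl : PTf l) (hi : PTf init) (hs : PTf (fun p : γ × (β × α) => step p.1 p.2.1 p.2.2))
    (hB : PB B) (hb : ∀ x i, sz (((l x).take i).foldl (step x) (init x)) ≤ B x) :
    PTf (fun x => (l x).foldl (step x) (init x)) := by
  let F : γ × (β × List α) → γ × (β × List α) := fun s =>
    Helper58.lcase s.2.2 s (fun a t => (s.1, (step s.1 s.2.1 a, t)))
  have hF : PTf F := by
    have h1 : PTf (fun p : (γ × (β × List α)) × (α × List α) =>
        (p.1.1, (step p.1.1 p.1.2.1 p.2.1, p.2.2))) := by
      have h2 := PTf.comp hs (f := fun p : (γ × (β × List α)) × (α × List α) =>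
        (p.1.1, (p.1.2.1, p.2.1))) (by fun_prop)
      fun_prop
    exact PTf.lcase (by fun_prop) (by fun_prop) h1
  have key : ∀ (i : ℕ) (x : γ) (b : β) (m : List α),
      F^[i] (x, (b, m)) = (x, ((m.take i).foldl (step x) b, m.drop i)) := by
    intro i
    induction i with
    | zero => intro x b m; simp
    | succ i ih =>
      intro x b m
      rw [iterate_succ_apply]
      cases m with
      | nil =>
        have : F (x, (b, [])) = (x, (b, [])) := rfl
        rw [this, ih]; simp
      | cons a m =>
        have : F (x, (b, a :: m)) = (x, (step x b a, m)) := rfl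
        rw [this, ih]; simp
  have h2 := PTf.iterSz (f := F) (n := l) (init := fun x => (x, (init x, l x))) hF hl (by fun_prop)
    (B := fun x => sz x + (B x + sz (l x) + 1) + 1)
    ((PB.size.add ((hB.add hl.sz_le).add (PB.const 1))).add (PB.const 1)) (by
      intro x i _
      rw [key, sz_pair, sz_pair]
      have h3 := hb x i
      have h4 := sz_drop_le (l x) i
      omega)
  refine (PTf.fst (PTf.snd h2)).congr ?_
  intro x
  rw [key]
  simp only
  rw [List.take_of_length_le]
  have := length_lt_sz (l x)
  omega

omit [Enc α] in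
lemma foldl_cons_eq (l m : List α) : l.foldl (fun acc a => a :: acc) m = l.reverse ++ m := by
  induction l generalizing m with
  | nil => rfl
  | cons a l ih => rw [List.foldl_cons, ih]; simp

theorem PTf.revAppend {l m : γ → List α} (hl : PTf l) (hm : PTf m) :
    PTf (fun x => (l x).reverse ++ m x) := by
  have := PTf.foldl (step := fun _ acc a => a :: acc) (B := fun x => sz (l x) + sz (m x)) hl hm
    (by fun_prop) (hl.sz_le.add hm.sz_le) (by
      intro x i
      rw [foldl_cons_eq]
      have h1 := sz_append ((l x).take i).reverse (m x)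
      have h2 := sz_take_le (l x) i
      rw [sz_reverse] at h1
      omega)
  exact this.congr (fun x => by rw [foldl_cons_eq])

@[fun_prop] theorem PTf.reverse {l : γ → List α} (hl : PTf l) : PTf (fun x => (l x).reverse) :=
  (PTf.revAppend hl (PTf.const [])).congr (fun x => by simp)

@[fun_prop] theorem PTf.append {l m : γ → List α} (hl : PTf l) (hm : PTf m) :
    PTf (fun x => l x ++ m x) :=
  (PTf.revAppend hl.reverse hm).congr (fun x => by simp)

omit [Enc β] [Enc α] in
lemma foldl_append_eq (f : α → List β) (l : List α) (m : List β) :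
    l.foldl (fun acc a => acc ++ f a) m = m ++ l.flatMap f := by
  induction l generalizing m with
  | nil => simp
  | cons a l ih => rw [List.foldl_cons, ih]; simp

@[fun_prop] theorem PTf.flatMap {l : γ → List α} {f : γ → α → List β} (hl : PTf l)
    (hf : PTf (fun p : γ × α => f p.1 p.2)) : PTf (fun x => (l x).flatMap (f x)) := by
  obtain ⟨k, hk⟩ := hf.sz_le
  have := PTf.foldl (step := fun x acc a => acc ++ f x a) (init := fun _ => [])
    (B := fun x => sz (l x) * (sz x + sz (l x) + 2) ^ k + 1) hl (PTf.const _)
    (by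
      have h2 := PTf.comp hf (f := fun p : γ × (List β × α) => (p.1, p.2.2)) (by fun_prop)
      fun_prop)
    ((hl.sz_le.mul (((PB.size.add hl.sz_le).add (PB.const 2)).pow k)).add (PB.const 1)) (by
      intro x i
      rw [foldl_append_eq, List.nil_append]
      have h1 := sz_flatMap_le ((l x).take i) (f x) ((sz x + sz (l x) + 2) ^ k) (by
        intro a ha
        refine (hk (x, a)).trans (Nat.pow_le_pow_left ?_ k)
        rw [sz_pair]
        have := sz_mem_le (l x) a (List.mem_of_mem_take ha)
        omega)
      have h2 : ((l x).take i).length ≤ sz (l x) := by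
        have h3 := length_lt_sz (l x)
        have h4 := List.length_take_le i (l x)
        have h5 : ((l x).take i).length ≤ (l x).length := by
          rw [List.length_take]; exact Nat.min_le_right _ _
        omega
      have h3 : ((l x).take i).length * (sz x + sz (l x) + 2) ^ k
          ≤ sz (l x) * (sz x + sz (l x) + 2) ^ k := Nat.mul_le_mul_right _ h2
      omega)
  exact this.congr (fun x => by rw [foldl_append_eq, List.nil_append])

@[fun_prop] theorem PTf.map {l : γ → List α} {f : γ → α → β} (hl : PTf l)
    (hf : PTf (fun p : γ × α => f p.1 p.2)) : PTf (fun x => (l x).map (f x)) := by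
  have := PTf.flatMap (f := fun x a => [f x a]) hl (by fun_prop)
  exact this.congr (fun x => by rw [List.map_eq_flatMap])

@[fun_prop] theorem PTf.filter {l : γ → List α} {f : γ → α → Bool} (hl : PTf l)
    (hf : PTf (fun p : γ × α => f p.1 p.2)) : PTf (fun x => (l x).filter (f x)) := by
  have := PTf.flatMap (f := fun x a => bif f x a then [a] else []) hl (by fun_prop)
  refine this.congr (fun x => ?_)
  induction l x with
  | nil => rfl
  | cons a m ih =>
    rw [List.flatMap_cons, ← ih, List.filter_cons]
    cases f x a <;> simp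

@[fun_prop] theorem PTf.any {l : γ → List α} {f : γ → α → Bool} (hl : PTf l)
    (hf : PTf (fun p : γ × α => f p.1 p.2)) : PTf (fun x => (l x).any (f x)) := by
  have := PTf.foldl (step := fun x acc a => acc || f x a) (init := fun _ => false)
    (B := fun x => 3) hl (PTf.const _)
    (by
      have h2 := PTf.comp hf (f := fun p : γ × (Bool × α) => (p.1, p.2.2)) (by fun_prop)
      fun_prop)
    (PB.const 3) (fun x i => sz_bool _)
  refine this.congr (fun x => ?_)
  have : ∀ (m : List α) (b : Bool), m.foldl (fun acc a => acc || f x a) b = (b || m.any (f x)) := by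
    intro m
    induction m with
    | nil => simp
    | cons a m ih => intro b; rw [List.foldl_cons, ih]; simp [Bool.or_assoc]
  rw [this]; simp

@[fun_prop] theorem PTf.all {l : γ → List α} {f : γ → α → Bool} (hl : PTf l)
    (hf : PTf (fun p : γ × α => f p.1 p.2)) : PTf (fun x => (l x).all (f x)) := by
  have : PTf (fun x => !(l x).any (fun a => !f x a)) := by fun_prop
  refine this.congr (fun x => ?_)
  induction l x with
  | nil => rfl
  | cons a m ih => simp [ih]

lemma enc_replicate_unit (n : ℕ) : enc (List.replicate n ()) = enc n := by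
  induction n with
  | zero => rfl
  | succ n ih => rw [List.replicate_succ, enc_lcons, ih]; rfl

@[fun_prop] theorem PTf.units {n : γ → ℕ} (hn : PTf n) : PTf (fun x => List.replicate (n x) ()) :=
  hn.recode (i := fun c => c) (fun _ => rfl) (fun _ => enc_replicate_unit _)

theorem PTf.lengthUnit {l : γ → List Unit} (hl : PTf l) : PTf (fun x => (l x).length) :=
  hl.recode (i := fun c => c) (fun _ => rfl) (fun c => by
    rw [← enc_replicate_unit]
    congr 1
    symm
    rw [List.eq_replicate_iff]
    exact ⟨rfl, fun _ _ => rfl⟩)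

@[fun_prop] theorem PTf.length {l : γ → List α} (hl : PTf l) : PTf (fun x => (l x).length) := by
  have : PTf (fun x => (l x).map (fun _ => ())) := by fun_prop
  exact (PTf.lengthUnit this).congr (fun x => by simp)

@[fun_prop] theorem PTf.add {m n : γ → ℕ} (hm : PTf m) (hn : PTf n) : PTf (fun x => m x + n x) := by
  have : PTf (fun x => (List.replicate (m x) () ++ List.replicate (n x) ()).length) := by fun_prop
  exact this.congr (fun x => by simp)

@[fun_prop] theorem PTf.replicate {n : γ → ℕ} {f : γ → α} (hn : PTf n) (hf : PTf f) :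
    PTf (fun x => List.replicate (n x) (f x)) := by
  have : PTf (fun x => (List.replicate (n x) ()).map (fun _ => f x)) := by fun_prop
  exact this.congr (fun x => by simp)

omit [Enc α] in
lemma foldl_zipIdx (l : List α) (acc : List (α × ℕ)) :
    l.foldl (fun acc a => acc ++ [(a, acc.length)]) acc = acc ++ l.zipIdx acc.length := by
  induction l generalizing acc with
  | nil => simp
  | cons a l ih => rw [List.foldl_cons, ih]; simp [List.zipIdx_cons]

lemma sz_zipIdx_le (l : List α) (k : ℕ) : sz (l.zipIdx k) ≤ sz l + l.length * (2 * (k + l.length) + 2) := by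
  induction l generalizing k with
  | nil => exact Nat.le_add_right _ _
  | cons a l ih =>
    rw [List.zipIdx_cons, sz_lcons, sz_pair, sz_nat, sz_lcons, List.length_cons]
    have h := ih (k + 1)
    have h2 : k + 1 + l.length = k + (l.length + 1) := by ring
    rw [h2] at h
    have h3 : (l.length + 1) * (2 * (k + (l.length + 1)) + 2)
      = l.length * (2 * (k + (l.length + 1)) + 2) + (2 * (k + (l.length + 1)) + 2) := by ring
    omega

@[fun_prop] theorem PTf.zipIdx {l : γ → List α} (hl : PTf l) : PTf (fun x => (l x).zipIdx) := by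
  have := PTf.foldl (step := fun _ (acc : List (α × ℕ)) a => acc ++ [(a, acc.length)])
    (init := fun _ => []) (B := fun x => sz (l x) + sz (l x) * (2 * sz (l x) + 2)) hl (PTf.const _)
    (by fun_prop)
    (hl.sz_le.add (hl.sz_le.mul (((PB.const 2).mul hl.sz_le).add (PB.const 2)))) (by
      intro x i
      rw [foldl_zipIdx, List.nil_append, List.length_nil]
      have h1 := sz_zipIdx_le ((l x).take i) 0
      have h2 := sz_take_le (l x) i
      have h3 := length_lt_sz ((l x).take i)
      have h4 : ((l x).take i).length ≤ sz (l x) := by omega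
      have h5 : ((l x).take i).length * (2 * (0 + ((l x).take i).length) + 2)
        ≤ sz (l x) * (2 * sz (l x) + 2) := Nat.mul_le_mul h4 (by omega)
      omega)
  exact this.congr (fun x => by rw [foldl_zipIdx, List.nil_append, List.length_nil])

@[fun_prop] theorem PTf.range {n : γ → ℕ} (hn : PTf n) : PTf (fun x => List.range (n x)) := by
  have : PTf (fun x => ((List.replicate (n x) ()).zipIdx).map (fun p => p.2)) := by fun_prop
  refine this.congr (fun x => ?_)
  apply List.ext_getElem
  · simp
  · intro i h1 h2
    simp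

end lib

end Pool.Agent.Helper58
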