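import Mathlib

set_option autoImplicit false

namespace Pool.Agent.Helper58

/-- A Boolean circuit of NAND gates. If it is fed with `n` input bits, the wires `0,…,n-1` are
the inputs, and the `k`-th gate `(a, b)` defines wire `n + k` as the NAND of the wires `a` and `b`;
`outs` lists the output wires. -/
structure Circuit where
  gates : List (ℕ × ℕ)
  outs : List ℕ

/-- The values of all wires of the circuit on input `x`. -/
def Circuit.wires (C : Circuit) (x : List Bool) : List Bool :=
  C.gates.foldl (fun w g => w ++ [!(w.getD g.1 false && w.getD g.2 false)]) x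

/-- The output of the circuit on input `x`. -/
def Circuit.eval (C : Circuit) (x : List Bool) : List Bool :=
  C.outs.map (fun o => (C.wires x).getD o false)

/-- The circuit is well formed with `n` inputs and `n` outputs: every gate refers to inputs or to
earlier gates, every output wire exists, and there are `n` output wires. -/
def Circuit.WellFormed (C : Circuit) (n : ℕ) : Prop :=
  (∀ k a b, C.gates[k]? = some (a, b) → a < n + k ∧ b < n + k) ∧
  (∀ o ∈ C.outs, o < n + C.gates.length) ∧ C.outs.length = n

/-- Raw data of an instance of End of the Line. -/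
structure EOLData where
  n : ℕ
  succ : Circuit
  pred : Circuit

/-- The word of `n` zeros. -/
def zeroWord (n : ℕ) : List Bool := List.replicate n false

/-- Validity: both circuits map `n` bits to `n` bits, and `pred(0ⁿ) = 0ⁿ ≠ succ(0ⁿ)`. -/
def EOLData.Valid (I : EOLData) : Prop :=
  I.succ.WellFormed I.n ∧ I.pred.WellFormed I.n ∧
  I.pred.eval (zeroWord I.n) = zeroWord I.n ∧ I.succ.eval (zeroWord I.n) ≠ zeroWord I.n

/-- `x` solves the End of the Line instance `I`: it is an `n`-bit string with
`pred(succ x) ≠ x` or `succ(pred x) ≠ x ≠ 0ⁿ`. -/
def EOLData.Solves (I : EOLData) (x : List Bool) : Prop :=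
  x.length = I.n ∧
  (I.pred.eval (I.succ.eval x) ≠ x ∨ (I.succ.eval (I.pred.eval x) ≠ x ∧ x ≠ zeroWord I.n))

end Pool.Agent.Helper58
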