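import Mathlib

set_option autoImplicit false

namespace Pool.Agent.Helper58

/-- structured stack programs -/
inductive Cmd
  | skip : Cmd
  | push : ℕ → Bool → Cmd
  | popCase : ℕ → Cmd → Cmd → Cmd → Cmd
  | seq : Cmd → Cmd → Cmd
  | loop : ℕ → Cmd → Cmd

/-- stack contents -/
abbrev Stk := ℕ → List Bool

/-- `Exec c s s' t`: program `c` started in `s` ends in `s'` after `t` loop tests -/
inductive Exec : Cmd → Stk → Stk → ℕ → Prop
  | skip (s : Stk) : Exec Cmd.skip s s 0
  | push (k : ℕ) (b : Bool) (s : Stk) : Exec (Cmd.push k b) s (Function.update s k (b :: s k)) 0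
  | popE (k : ℕ) (e f t : Cmd) (s s' : Stk) (n : ℕ) (h : s k = []) (he : Exec e s s' n) :
      Exec (Cmd.popCase k e f t) s s' n
  | popF (k : ℕ) (e f t : Cmd) (s s' : Stk) (n : ℕ) (l : List Bool) (h : s k = false :: l)
      (he : Exec f (Function.update s k l) s' n) : Exec (Cmd.popCase k e f t) s s' n
  | popT (k : ℕ) (e f t : Cmd) (s s' : Stk) (n : ℕ) (l : List Bool) (h : s k = true :: l)
      (he : Exec t (Function.update s k l) s' n) : Exec (Cmd.popCase k e f t) s s' n
  | seq (c d : Cmd) (s s' s'' : Stk) (n m : ℕ) (h1 : Exec c s s' n) (h2 : Exec d s' s'' m) :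
      Exec (Cmd.seq c d) s s'' (n + m)
  | loopE (k : ℕ) (c : Cmd) (s : Stk) (h : s k = []) : Exec (Cmd.loop k c) s s 1
  | loopS (k : ℕ) (c : Cmd) (s s' s'' : Stk) (n m : ℕ) (h : s k ≠ []) (h1 : Exec c s s' n)
      (h2 : Exec (Cmd.loop k c) s' s'' m) : Exec (Cmd.loop k c) s s'' (n + m + 1)

/-- all stacks used by the program have index below `N` -/
def Cmd.Below (N : ℕ) : Cmd → Prop
  | Cmd.skip => True
  | Cmd.push k _ => k < N
  | Cmd.popCase k e f t => k < N ∧ e.Below N ∧ f.Below N ∧ t.Below N
  | Cmd.seq c d => c.Below N ∧ d.Below N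
  | Cmd.loop k c => k < N ∧ c.Below N

lemma Cmd.Below.mono {N M : ℕ} (h : N ≤ M) : ∀ {c : Cmd}, c.Below N → c.Below M
  | Cmd.skip, _ => trivial
  | Cmd.push _ _, hc => lt_of_lt_of_le hc h
  | Cmd.popCase _ _ _ _, hc => ⟨lt_of_lt_of_le hc.1 h, hc.2.1.mono h, hc.2.2.1.mono h, hc.2.2.2.mono h⟩
  | Cmd.seq _ _, hc => ⟨hc.1.mono h, hc.2.mono h⟩
  | Cmd.loop _ _, hc => ⟨lt_of_lt_of_le hc.1 h, hc.2.mono h⟩

namespace ToTM

open Turing

/-- loop heads of a program -/
def Lab : Cmd → Type
  | Cmd.skip => Empty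
  | Cmd.push _ _ => Empty
  | Cmd.popCase _ e f t => Lab e ⊕ (Lab f ⊕ Lab t)
  | Cmd.seq c d => Lab c ⊕ Lab d
  | Cmd.loop _ c => Option (Lab c)

instance labFintype : (c : Cmd) → Fintype (Lab c)
  | Cmd.skip => inferInstanceAs (Fintype Empty)
  | Cmd.push _ _ => inferInstanceAs (Fintype Empty)
  | Cmd.popCase _ e f t =>
    haveI := labFintype e
    haveI := labFintype f
    haveI := labFintype t
    inferInstanceAs (Fintype (Lab e ⊕ (Lab f ⊕ Lab t)))
  | Cmd.seq c d =>
    haveI := labFintype c
    haveI := labFintype d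
    inferInstanceAs (Fintype (Lab c ⊕ Lab d))
  | Cmd.loop _ c =>
    haveI := labFintype c
    inferInstanceAs (Fintype (Option (Lab c)))

/-- stack alphabets: the input stack `none` has alphabet `A`, the work stacks are binary -/
@[reducible] def Gam (A : Type) (N : ℕ) : Option (Fin (N + 1)) → Type
  | none => A
  | some _ => Bool

/-- index of a work stack -/
@[reducible] def ix (N k : ℕ) : Option (Fin (N + 1)) := some (Fin.ofNat (N + 1) k)

variable (A : Type) (N : ℕ) (Λ : Type)

/-- statements -/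
abbrev St := TM2.Stmt (Gam A N) Λ (Option Bool)

variable {A N Λ}

/-- translation of a program followed by the statement `K` -/
def run : (c : Cmd) → (Lab c → Λ) → St A N Λ → St A N Λ
  | Cmd.skip, _, K => K
  | Cmd.push k b, _, K => TM2.Stmt.push (ix N k) (fun _ => b) K
  | Cmd.popCase k e f t, ι, K =>
    TM2.Stmt.pop (ix N k) (fun _ o => o)
      (TM2.Stmt.branch (fun v => v.isNone)
        (TM2.Stmt.load (fun _ => none) (run e (fun l => ι (Sum.inl l)) K))
        (TM2.Stmt.branch (fun v => v == some false)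
          (TM2.Stmt.load (fun _ => none) (run f (fun l => ι (Sum.inr (Sum.inl l))) K))
          (TM2.Stmt.load (fun _ => none) (run t (fun l => ι (Sum.inr (Sum.inr l))) K))))
  | Cmd.seq c d, ι, K => run c (fun l => ι (Sum.inl l)) (run d (fun l => ι (Sum.inr l)) K)
  | Cmd.loop _ _, ι, _ => TM2.Stmt.goto (fun _ => ι none)

/-- statements at the loop heads -/
def body : (c : Cmd) → (Lab c → Λ) → St A N Λ → Lab c → St A N Λ
  | Cmd.skip, _, K, _ => K
  | Cmd.push _ _, _, K, _ => K
  | Cmd.popCase _ e _ _, ι, K, Sum.inl l => body e (fun l => ι (Sum.inl l)) K l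
  | Cmd.popCase _ _ f _, ι, K, Sum.inr (Sum.inl l) => body f (fun l => ι (Sum.inr (Sum.inl l))) K l
  | Cmd.popCase _ _ _ t, ι, K, Sum.inr (Sum.inr l) => body t (fun l => ι (Sum.inr (Sum.inr l))) K l
  | Cmd.seq c d, ι, K, Sum.inl l => body c (fun l => ι (Sum.inl l)) (run d (fun l => ι (Sum.inr l)) K) l
  | Cmd.seq _ d, ι, K, Sum.inr l => body d (fun l => ι (Sum.inr l)) K l
  | Cmd.loop k c, ι, K, none =>
    TM2.Stmt.peek (ix N k) (fun _ o => o)
      (TM2.Stmt.branch (fun v => v.isNone)
        (TM2.Stmt.load (fun _ => none) K)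
        (TM2.Stmt.load (fun _ => none) (run c (fun l => ι (some l)) (TM2.Stmt.goto (fun _ => ι none)))))
  | Cmd.loop _ c, ι, _, some l => body c (fun l => ι (some l)) (TM2.Stmt.goto (fun _ => ι none)) l

/-- stack contents of the machine -/
def toS (A : Type) (N : ℕ) (inp : List A) (s : Stk) : ∀ k, List (Gam A N k)
  | none => inp
  | some i => s i

lemma toS_ix (inp : List A) (s : Stk) {k : ℕ} (hk : k < N + 1) : toS A N inp s (ix N k) = s k := by
  show s (Fin.ofNat (N + 1) k : ℕ) = s k
  congr 1
  exact Nat.mod_eq_of_lt hk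

lemma toS_update (inp : List A) (s : Stk) {k : ℕ} (hk : k < N + 1) (l : List Bool) :
    Function.update (β := fun k => List (Gam A N k)) (toS A N inp s) (ix N k) l
      = toS A N inp (Function.update s k l) := by
  funext j
  have h3 : ((Fin.ofNat (N + 1) k : Fin (N + 1)) : ℕ) = k := Nat.mod_eq_of_lt hk
  by_cases hj : j = ix N k
  · subst hj
    refine (Function.update_self _ _ _).trans ?_
    show l = Function.update s k l ((Fin.ofNat (N + 1) k : Fin (N + 1)) : ℕ)
    rw [h3, Function.update_self]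
  · refine (Function.update_of_ne hj _ _).trans ?_
    rcases j with _ | j
    · rfl
    · show s j = Function.update s k l j
      rw [Function.update_of_ne]
      intro h
      apply hj
      congr 1
      apply Fin.ext
      rw [h3]; exact h

/-- configurations -/
abbrev Cf (A : Type) (N : ℕ) (Λ : Type) := TM2.Cfg (Gam A N) Λ (Option Bool)

/-- `n`-step reachability -/
def Reach (m : Λ → St A N Λ) (n : ℕ) (a b : Cf A N Λ) : Prop :=
  (flip bind (TM2.step m))^[n] (some a) = some b

lemma Reach.refl (m : Λ → St A N Λ) (a : Cf A N Λ) : Reach m 0 a a := rfl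

lemma Reach.trans {m : Λ → St A N Λ} {n n' : ℕ} {a b c : Cf A N Λ} (h1 : Reach m n a b)
    (h2 : Reach m n' b c) : Reach m (n + n') a c := by
  unfold Reach at *
  have : n + n' = n' + n := Nat.add_comm _ _
  simp only [this, Function.iterate_add_apply, h1, h2]

lemma Reach.step {m : Λ → St A N Λ} {l : Λ} {v : Option Bool} {S : ∀ k, List (Gam A N k)} :
    Reach m 1 ⟨some l, v, S⟩ (TM2.stepAux (m l) v S) := by
  rfl

theorem run_correct (m : Λ → St A N Λ) (inp : List A) {c : Cmd} {s s' : Stk} {t : ℕ}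
    (h : Exec c s s' t) : ∀ (ι : Lab c → Λ) (K : St A N Λ), c.Below (N + 1) →
      (∀ l, m (ι l) = body c ι K l) →
      ∃ n ≤ t, Reach m n (TM2.stepAux (run c ι K) none (toS A N inp s))
        (TM2.stepAux K none (toS A N inp s')) := by
  induction h with
  | skip s => intro ι K _ _; exact ⟨0, le_rfl, Reach.refl _ _⟩
  | push k b s =>
    intro ι K hb _
    refine ⟨0, le_rfl, ?_⟩
    show Reach m 0 (TM2.stepAux K none (Function.update (toS A N inp s) (ix N k)
      (b :: toS A N inp s (ix N k)))) _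
    rw [toS_ix _ _ hb, toS_update _ _ hb]
    exact Reach.refl _ _
  | popE k e f t s s' n h he ih =>
    intro ι K hb hm
    obtain ⟨n', hn', hr⟩ := ih (fun l => ι (Sum.inl l)) K hb.2.1 (fun l => hm (Sum.inl l))
    refine ⟨n', hn', ?_⟩
    have e1 : TM2.stepAux (run (Cmd.popCase k e f t) ι K) none (toS A N inp s)
        = TM2.stepAux (run e (fun l => ι (Sum.inl l)) K) none (toS A N inp s) := by
      simp only [run, TM2.stepAux]
      rw [toS_ix _ _ hb.1, h]
      simp only [List.head?_nil, List.tail_nil, Option.isNone_none, cond_true]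
      congr 1
      rw [toS_update _ _ hb.1]
      congr 1
      rw [← h]; exact Function.update_eq_self _ _
    rw [e1]; exact hr
  | popF k e f t s s' n l h he ih =>
    intro ι K hb hm
    obtain ⟨n', hn', hr⟩ := ih (fun l => ι (Sum.inr (Sum.inl l))) K hb.2.2.1
      (fun l => hm (Sum.inr (Sum.inl l)))
    refine ⟨n', hn', ?_⟩
    have e1 : TM2.stepAux (run (Cmd.popCase k e f t) ι K) none (toS A N inp s)
        = TM2.stepAux (run f (fun l => ι (Sum.inr (Sum.inl l))) K) none
          (toS A N inp (Function.update s k l)) := by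
      simp only [run, TM2.stepAux]
      rw [toS_ix _ _ hb.1, h]
      simp only [List.head?_cons, List.tail_cons, Option.isNone_some, cond_false, beq_self_eq_true,
        cond_true]
      rw [toS_update _ _ hb.1]
    rw [e1]; exact hr
  | popT k e f t s s' n l h he ih =>
    intro ι K hb hm
    obtain ⟨n', hn', hr⟩ := ih (fun l => ι (Sum.inr (Sum.inr l))) K hb.2.2.2
      (fun l => hm (Sum.inr (Sum.inr l)))
    refine ⟨n', hn', ?_⟩
    have e1 : TM2.stepAux (run (Cmd.popCase k e f t) ι K) none (toS A N inp s)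
        = TM2.stepAux (run t (fun l => ι (Sum.inr (Sum.inr l))) K) none
          (toS A N inp (Function.update s k l)) := by
      simp only [run, TM2.stepAux]
      rw [toS_ix _ _ hb.1, h]
      simp only [List.head?_cons, List.tail_cons, Option.isNone_some, cond_false]
      have : (some true == some false) = false := rfl
      rw [this]
      simp only [cond_false]
      rw [toS_update _ _ hb.1]
    rw [e1]; exact hr
  | seq c d s s' s'' n n' h1 h2 ih1 ih2 =>
    intro ι K hb hm
    obtain ⟨a, ha, hr1⟩ := ih1 (fun l => ι (Sum.inl l)) (run d (fun l => ι (Sum.inr l)) K) hb.1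
      (fun l => hm (Sum.inl l))
    obtain ⟨b, hb', hr2⟩ := ih2 (fun l => ι (Sum.inr l)) K hb.2 (fun l => hm (Sum.inr l))
    exact ⟨a + b, Nat.add_le_add ha hb', hr1.trans hr2⟩
  | loopE k c s h =>
    intro ι K hb hm
    refine ⟨1, le_rfl, ?_⟩
    have e1 : TM2.stepAux (run (Cmd.loop k c) ι K) none (toS A N inp s)
        = ⟨some (ι none), none, toS A N inp s⟩ := rfl
    rw [e1]
    have e2 : TM2.stepAux (m (ι none)) none (toS A N inp s) = TM2.stepAux K none (toS A N inp s) := by
      rw [hm none]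
      simp only [body, TM2.stepAux]
      rw [toS_ix _ _ hb.1, h]
      simp
    rw [← e2]
    exact Reach.step
  | loopS k c s s' s'' n n' h h1 h2 ih1 ih2 =>
    intro ι K hb hm
    obtain ⟨a, ha, hr1⟩ := ih1 (fun l => ι (some l)) (TM2.Stmt.goto (fun _ => ι none)) hb.2
      (fun l => hm (some l))
    obtain ⟨b, hb', hr2⟩ := ih2 ι K hb hm
    refine ⟨1 + a + b, by omega, ?_⟩
    have e1 : TM2.stepAux (run (Cmd.loop k c) ι K) none (toS A N inp s)
        = ⟨some (ι none), none, toS A N inp s⟩ := rfl
    have e2 : TM2.stepAux (m (ι none)) none (toS A N inp s)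
        = TM2.stepAux (run c (fun l => ι (some l)) (TM2.Stmt.goto (fun _ => ι none))) none
          (toS A N inp s) := by
      rw [hm none]
      simp only [body, TM2.stepAux]
      rw [toS_ix _ _ hb.1]
      obtain ⟨x, l, hx⟩ := List.exists_cons_of_ne_nil h
      rw [hx]
      simp
    have r0 : Reach m 1 (TM2.stepAux (run (Cmd.loop k c) ι K) none (toS A N inp s))
        (TM2.stepAux (run c (fun l => ι (some l)) (TM2.Stmt.goto (fun _ => ι none))) none
          (toS A N inp s)) := by
      rw [e1, ← e2]; exact Reach.step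
    exact (r0.trans hr1).trans hr2

end ToTM

end Pool.Agent.Helper58
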