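import Pool.Agent.Helper58.CmdTM

set_option autoImplicit false

namespace Pool.Agent.Helper58

namespace ToTM

open Turing

variable {A : Type} {N : ℕ}

/-- the transition table: first move two bits of each input symbol to stack 1, then run the
program -/
def table2 (φ₁ φ₂ : A → Bool) (P : Cmd) : Option (Lab P) → St A N (Option (Lab P))
  | none => TM2.Stmt.peek none (fun _ o => o.map φ₁)
      (TM2.Stmt.branch (fun v => v.isNone)
        (run P some TM2.Stmt.halt)
        (TM2.Stmt.push (ix N 1) (fun v => v.getD false)
          (TM2.Stmt.pop none (fun _ o => o.map φ₂)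
            (TM2.Stmt.push (ix N 1) (fun v => v.getD false)
              (TM2.Stmt.load (fun _ => none) (TM2.Stmt.goto (fun _ => none)))))))
  | some l => body P some TM2.Stmt.halt l

/-- the machine of a program -/
def machine2 [Fintype A] (N : ℕ) (φ₁ φ₂ : A → Bool) (P : Cmd) : FinTM2 where
  K := Option (Fin (N + 1))
  k₀ := none
  k₁ := some 0
  Γ := Gam A N
  Λ := Option (Lab P)
  main := none
  σ := Option Bool
  initialState := none
  Γk₀Fin := inferInstanceAs (Fintype A)
  m := table2 φ₁ φ₂ P

/-- the two bits of the symbols -/
def bits2 (φ₁ φ₂ : A → Bool) (l : List A) : List Bool := l.flatMap (fun a => [φ₁ a, φ₂ a])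

lemma front2 (φ₁ φ₂ : A → Bool) (P : Cmd) (hN : 1 < N + 1) (inp : List A) : ∀ (s : Stk),
    Reach (table2 (N := N) φ₁ φ₂ P) (inp.length + 1) ⟨some none, none, toS A N inp s⟩
      (TM2.stepAux (run P some TM2.Stmt.halt) none
        (toS A N [] (Function.update s 1 ((bits2 φ₁ φ₂ inp).reverse ++ s 1)))) := by
  induction inp with
  | nil =>
    intro s
    have e1 : Function.update s 1 ((bits2 φ₁ φ₂ ([] : List A)).reverse ++ s 1) = s := by
      simp [bits2]
    rw [e1]
    have e2 : TM2.stepAux (table2 (N := N) φ₁ φ₂ P none) none (toS A N [] s)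
        = TM2.stepAux (run P some TM2.Stmt.halt) none (toS A N [] s) := by
      simp only [table2, TM2.stepAux]
      have h0 : toS A N [] s none = [] := rfl
      rw [h0]
      simp only [List.head?_nil, Option.map_none, Option.isNone_none, cond_true]
    rw [← e2]
    exact Reach.step
  | cons a inp ih =>
    intro s
    have h1 := ih (Function.update s 1 (φ₂ a :: φ₁ a :: s 1))
    have e1 : Function.update (Function.update s 1 (φ₂ a :: φ₁ a :: s 1)) 1
        ((bits2 φ₁ φ₂ inp).reverse ++ (Function.update s 1 (φ₂ a :: φ₁ a :: s 1)) 1)
        = Function.update s 1 ((bits2 φ₁ φ₂ (a :: inp)).reverse ++ s 1) := by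
      rw [Function.update_idem, Function.update_self]
      simp [bits2]
    rw [e1] at h1
    have e2 : TM2.stepAux (table2 (N := N) φ₁ φ₂ P none) none (toS A N (a :: inp) s)
        = ⟨some none, none, toS A N inp (Function.update s 1 (φ₂ a :: φ₁ a :: s 1))⟩ := by
      simp only [table2, TM2.stepAux]
      have h0 : toS A N (a :: inp) s none = a :: inp := rfl
      rw [h0]
      simp only [List.head?_cons, Option.map_some, Option.isNone_some, cond_false,
        Option.getD_some]
      rw [toS_ix _ _ hN, toS_update _ _ hN]
      have h4 : toS A N (a :: inp) (Function.update s 1 (φ₁ a :: s 1)) none = a :: inp := rfl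
      rw [h4]
      simp only [List.head?_cons, Option.map_some, List.tail_cons, Option.getD_some]
      congr 1
      have h2 : Function.update (β := fun k => List (Gam A N k))
          (toS A N (a :: inp) (Function.update s 1 (φ₁ a :: s 1))) none inp
          = toS A N inp (Function.update s 1 (φ₁ a :: s 1)) := by
        funext k
        rcases k with _ | k
        · rw [Function.update_self]; rfl
        · rw [Function.update_of_ne (by simp)]; rfl
      rw [h2, toS_ix _ _ hN, toS_update _ _ hN, Function.update_self, Function.update_idem]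
    have r1 : Reach (table2 (N := N) φ₁ φ₂ P) 1 ⟨some none, none, toS A N (a :: inp) s⟩
        ⟨some none, none, toS A N inp (Function.update s 1 (φ₂ a :: φ₁ a :: s 1))⟩ := by
      rw [← e2]; exact Reach.step
    have := r1.trans h1
    rw [show 1 + (inp.length + 1) = (a :: inp).length + 1 by simp; omega] at this
    exact this

theorem computable2 [Fintype A] {α β : Type} (ea : α → List A) (eb : β → List Bool) (f : α → β)
    (φ₁ φ₂ : A → Bool) (P : Cmd) (hN : 1 < N + 1) (hP : P.Below (N + 1)) (T : Polynomial ℕ)
    (h : ∀ x, ∀ s : Stk, s 1 = (bits2 φ₁ φ₂ (ea x)).reverse → (∀ k, k ≠ 1 → s k = []) →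
      ∃ s' : Stk, ∃ t, t ≤ T.eval (ea x).length ∧ Exec P s s' t ∧ s' 0 = eb (f x) ∧
        ∀ k, k ≠ 0 → s' k = []) :
    Nonempty (TM2ComputableInPolyTime ea eb f) := by
  refine ⟨{ tm := machine2 N φ₁ φ₂ P, inputAlphabet := Equiv.refl A, outputAlphabet := Equiv.refl Bool,
            time := T + Polynomial.X + 1, outputsFun := ?_ }⟩
  intro x
  have key : ∃ n ≤ (T + Polynomial.X + 1).eval (ea x).length,
      (flip bind (machine2 N φ₁ φ₂ P).step)^[n]
        (some (initList (machine2 N φ₁ φ₂ P) (List.map id (ea x))))
        = some (haltList (machine2 N φ₁ φ₂ P) (List.map id (eb (f x)))) := by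
    set s0 : Stk := Function.update (fun _ => []) 1 ((bits2 φ₁ φ₂ (ea x)).reverse) with hs0
    obtain ⟨s', t, ht, hex, ho1, ho2⟩ := h x s0 (by rw [hs0, Function.update_self])
      (fun k hk => by rw [hs0, Function.update_of_ne hk])
    have r1 := front2 (N := N) φ₁ φ₂ P hN (ea x) (fun _ => [])
    have e1 : Function.update (fun _ => [] : Stk) 1 ((bits2 φ₁ φ₂ (ea x)).reverse ++ (fun _ => [] : Stk) 1)
        = s0 := by rw [hs0]; simp
    rw [e1] at r1
    obtain ⟨n, hn, r2⟩ := run_correct (table2 (N := N) φ₁ φ₂ P) [] hex some TM2.Stmt.halt hP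
      (fun l => rfl)
    have r3 := r1.trans r2
    refine ⟨(ea x).length + 1 + n, ?_, ?_⟩
    · simp only [Polynomial.eval_add, Polynomial.eval_X, Polynomial.eval_one]
      omega
    · have i1 : initList (machine2 N φ₁ φ₂ P) (List.map id (ea x))
          = (⟨some none, none, toS A N (ea x) (fun _ => [])⟩ : Cf A N (Option (Lab P))) := by
        unfold initList machine2
        simp only [List.map_id]
        congr 1
        funext k
        rcases k with _ | k
        · rfl
        · rfl
      have i2 : haltList (machine2 N φ₁ φ₂ P) (List.map id (eb (f x)))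
          = (TM2.stepAux TM2.Stmt.halt none (toS A N [] s') : Cf A N (Option (Lab P))) := by
        unfold haltList machine2
        simp only [List.map_id, TM2.stepAux]
        congr 1
        funext k
        rcases k with _ | k
        · rfl
        · by_cases hk : k = 0
          · subst hk
            show eb (f x) = s' 0
            rw [ho1]
          · have hk' : (some k : Option (Fin (N + 1))) ≠ some 0 := by simpa using hk
            rw [dif_neg hk']
            show [] = s' k
            rw [ho2 k (by
              intro h0; apply hk; exact Fin.ext (by simpa using h0))]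
      rw [i1, i2]
      exact r3
  exact ⟨⟨key.choose, key.choose_spec.2⟩, key.choose_spec.1⟩

end ToTM

end Pool.Agent.Helper58
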