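import Pool.Agent.Helper58.PolyLib

set_option autoImplicit false

namespace Pool.Agent.Helper58

open Function

/-- from the code of a list of bits to the bits -/
def unpackLoop (r : ℕ) : Cmd :=
  Cmd.loop r (pop2 r Cmd.skip (pop2 r (Cmd.push (r + 1) false)
    (Cmd.seq (pop2 r Cmd.skip Cmd.skip) (Cmd.seq (pop2 r Cmd.skip Cmd.skip) (Cmd.push (r + 1) true)))))

def unpack (r : ℕ) : Cmd := Cmd.seq (unpackLoop r) (mv (r + 1) r)

lemma unpackLoop_exec (s : Stk) (r : ℕ) (l : List Bool) : ∀ acc : List Bool,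
    Exec (unpackLoop r) (st4 s r (enc l).code acc [] []) (st4 s r [] (l.reverse ++ acc) [] [])
      (l.length + 2) := by
  induction l with
  | nil =>
    intro acc
    refine (Exec.loopS _ _ _ (st4 s r [] acc [] []) _ 0 1 ?_ ?_ (Exec.loopE _ _ _ ?_)).of_eq ?_ ?_
    · rw [st4_0]; exact List.cons_ne_nil _ _
    · apply Exec.popF _ _ _ _ _ _ _ [] (st4_0 _ _ _ _ _ _)
      rw [st4_u0]; exact Exec.skip _
    · rw [st4_0]
    · simp
    · simp
  | cons b l ih =>
    intro acc
    have h := ih (b :: acc)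
    have hc : (enc (b :: l)).code = true :: ((enc b).code ++ (enc l).code) := rfl
    refine (Exec.loopS _ _ _ (st4 s r (enc l).code (b :: acc) [] []) _ 0 _ ?_ ?_ h).of_eq ?_ ?_
    · rw [st4_0]; exact List.cons_ne_nil _ _
    · apply Exec.popT _ _ _ _ _ _ _ ((enc b).code ++ (enc l).code) (st4_0 _ _ _ _ _ _)
      rw [st4_u0]
      cases b
      · apply Exec.popF _ _ _ _ _ _ _ (enc l).code (st4_0 _ _ _ _ _ _)
        rw [st4_u0]
        apply exec_push
        rw [st4_1, st4_u1]
      · apply Exec.popT _ _ _ _ _ _ _ (false :: false :: (enc l).code) (st4_0 _ _ _ _ _ _)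
        rw [st4_u0]
        refine exec_seq (n := 0) (m := 0) (s' := st4 s r (false :: (enc l).code) acc [] []) ?_
          (exec_seq (n := 0) (m := 0) (s' := st4 s r (enc l).code acc [] []) ?_ ?_)
        · apply Exec.popF _ _ _ _ _ _ _ (false :: (enc l).code) (st4_0 _ _ _ _ _ _)
          rw [st4_u0]; exact Exec.skip _
        · apply Exec.popF _ _ _ _ _ _ _ (enc l).code (st4_0 _ _ _ _ _ _)
          rw [st4_u0]; exact Exec.skip _
        · apply exec_push
          rw [st4_1, st4_u1]
    · simp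
    · simp

lemma unpack_exec (s : Stk) (r : ℕ) (l : List Bool) :
    Exec (unpack r) (st4 s r (enc l).code [] [] []) (st4 s r l [] [] []) (2 * l.length + 3) := by
  have h1 := unpackLoop_exec s r l []
  have h2 := mv_exec (k := r + 1) (l := r) (by omega) (l.reverse ++ [])
    (st4 s r [] (l.reverse ++ []) [] []) (st4_1 _ _ _ _ _ _)
  rw [st4_0, st4_u0, st4_u1] at h2
  refine (exec_seq h1 h2).of_eq ?_ (by simp; omega)
  simp

lemma below_unpack {r N : ℕ} (h : r + 1 < N) : (unpack r).Below N := by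
  have h1 : r < N := by omega
  refine ⟨?_, below_mv (by omega) (by omega)⟩
  simp [unpackLoop, pop2, Cmd.Below, h, h1]

end Pool.Agent.Helper58
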