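import Pool.Agent.Helper58.Sim2
import Pool.Agent.Helper58.CmdTM2
import Pool.Agent.Helper58.Unpack

set_option autoImplicit false

namespace Pool.Agent.Helper58

open Function Turing

/-- elements of `α` encoded by the list `ea a` -/
structure Coded {α A : Type} (ea : α → List A) (h : Injective ea) where
  val : α

instance encCoded {α A : Type} [Enc A] (ea : α → List A) (h : Injective ea) : Enc (Coded ea h) where
  enc x := enc (ea x.val)
  inj := by
    rintro ⟨a⟩ ⟨b⟩ hab
    have := h (Enc.inj hab)
    simp only at this
    rw [this]

section gadgets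

/-- transfer from stack `k` to stack `l`, replacing the bit `b` by the word `w b` -/
def tr (k l : ℕ) (w : Bool → List Bool) : Cmd :=
  Cmd.loop k (pop2 k (pushL l (w false)) (pushL l (w true)))

lemma tr_exec {k l : ℕ} (hkl : k ≠ l) (w : Bool → List Bool) : ∀ (L : List Bool) (s : Stk), s k = L →
    Exec (tr k l w) s (update (update s l (L.reverse.flatMap w ++ s l)) k []) (L.length + 1) := by
  intro L
  induction L with
  | nil =>
    intro s hs
    have e : update (update s l (([] : List Bool).reverse.flatMap w ++ s l)) k [] = s := by
      funext j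
      simp only [List.reverse_nil, List.flatMap_nil, List.nil_append, update_eq_self]
      by_cases hj : j = k
      · subst hj; rw [update_self, hs]
      · rw [update_of_ne hj]
    rw [e]
    exact Exec.loopE _ _ _ hs
  | cons b L ih =>
    intro s hs
    set s1 : Stk := update (update s k L) l (w b ++ s l) with hs1
    have h1 : Exec (pop2 k (pushL l (w false)) (pushL l (w true))) s s1 0 := by
      have h2 := pushL_exec' l (update s k L) (w b)
      rw [update_of_ne hkl.symm] at h2
      cases b
      · exact Exec.popF _ _ _ _ _ _ _ L hs h2
      · exact Exec.popT _ _ _ _ _ _ _ L hs h2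
    have h2 := ih s1 (by rw [hs1, update_of_ne hkl, update_self])
    refine (Exec.loopS _ _ _ _ _ _ _ (by rw [hs]; simp) h1 h2).of_eq ?_ (by simp)
    funext j
    by_cases hj : j = k
    · subst hj; rw [update_self, update_self]
    · rw [update_of_ne hj, update_of_ne hj]
      by_cases hj2 : j = l
      · subst hj2
        rw [update_self, update_self, hs1, update_self]
        simp
      · rw [update_of_ne hj2, update_of_ne hj2, hs1, update_of_ne hj2, update_of_ne hj]

/-- transfer of pairs of bits -/
def tr2 (k l : ℕ) (w : Bool × Bool → List Bool) : Cmd :=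
  Cmd.loop k (pop2 k
    (pop2 k (pushL l (w (false, false))) (pushL l (w (true, false))))
    (pop2 k (pushL l (w (false, true))) (pushL l (w (true, true)))))

lemma tr2_exec {k l : ℕ} (hkl : k ≠ l) (w : Bool × Bool → List Bool) :
    ∀ (L : List (Bool × Bool)) (s : Stk), s k = L.flatMap (fun p => [p.2, p.1]) →
    Exec (tr2 k l w) s (update (update s l (L.reverse.flatMap w ++ s l)) k []) (L.length + 1) := by
  intro L
  induction L with
  | nil =>
    intro s hs
    have e : update (update s l (([] : List (Bool × Bool)).reverse.flatMap w ++ s l)) k [] = s := by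
      funext j
      simp only [List.reverse_nil, List.flatMap_nil, List.nil_append, update_eq_self]
      by_cases hj : j = k
      · subst hj; rw [update_self, hs]; rfl
      · rw [update_of_ne hj]
    rw [e]
    exact Exec.loopE _ _ _ hs
  | cons p L ih =>
    intro s hs
    obtain ⟨t, b⟩ := p
    set R := L.flatMap (fun p : Bool × Bool => [p.2, p.1]) with hR
    have hs' : s k = b :: t :: R := by rw [hs, List.flatMap_cons]; rfl
    set s1 : Stk := update (update s k R) l (w (t, b) ++ s l) with hs1
    have h1 : Exec (pop2 k
        (pop2 k (pushL l (w (false, false))) (pushL l (w (true, false))))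
        (pop2 k (pushL l (w (false, true))) (pushL l (w (true, true))))) s s1 0 := by
      have h2 := pushL_exec' l (update s k R) (w (t, b))
      rw [update_of_ne hkl.symm] at h2
      have h3 : update (update s k (t :: R)) k R = update s k R := update_idem _ _ _
      cases b
      · refine Exec.popF _ _ _ _ _ _ _ (t :: R) hs' ?_
        cases t
        · exact Exec.popF _ _ _ _ _ _ _ R (update_self _ _ _) (by rw [h3]; exact h2)
        · exact Exec.popT _ _ _ _ _ _ _ R (update_self _ _ _) (by rw [h3]; exact h2)
      · refine Exec.popT _ _ _ _ _ _ _ (t :: R) hs' ?_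
        cases t
        · exact Exec.popF _ _ _ _ _ _ _ R (update_self _ _ _) (by rw [h3]; exact h2)
        · exact Exec.popT _ _ _ _ _ _ _ R (update_self _ _ _) (by rw [h3]; exact h2)
    have h2 := ih s1 (by rw [hs1, update_of_ne hkl, update_self])
    refine (Exec.loopS _ _ _ _ _ _ _ (by rw [hs']; simp) h1 h2).of_eq ?_ (by simp)
    funext j
    by_cases hj : j = k
    · subst hj; rw [update_self, update_self]
    · rw [update_of_ne hj, update_of_ne hj]
      by_cases hj2 : j = l
      · subst hj2
        rw [update_self, update_self, hs1, update_self]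
        simp
      · rw [update_of_ne hj2, update_of_ne hj2, hs1, update_of_ne hj2, update_of_ne hj]

lemma below_tr {k l N : ℕ} (hk : k < N) (hl : l < N) (w : Bool → List Bool) : (tr k l w).Below N :=
  ⟨hk, hk, trivial, below_pushL hl _, below_pushL hl _⟩

lemma below_tr2 {k l N : ℕ} (hk : k < N) (hl : l < N) (w : Bool × Bool → List Bool) :
    (tr2 k l w).Below N :=
  ⟨hk, hk, trivial, ⟨hk, trivial, below_pushL hl _, below_pushL hl _⟩,
    ⟨hk, trivial, below_pushL hl _, below_pushL hl _⟩⟩

lemma flatMap_code {A : Type} [Enc A] (l : List A) :
    l.flatMap (fun a => true :: (enc a).code) ++ [false] = (enc l).code := by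
  induction l with
  | nil => rfl
  | cons a l ih =>
    rw [List.flatMap_cons, List.append_assoc, ih]; rfl

end gadgets

section

variable {α β γ : Type} [Enc α] [Enc β] [Enc γ]

/-- from a value to its code, as a list of bits -/
theorem PTf.code {h : α → β} (hh : PTf h) : PTf (fun a => (enc (h a)).code) := by
  have key : PTf (fun b : β => (enc b).code) := by
    refine PTf.intro (fun r => Cmd.seq (mv r (r + 1)) (Cmd.seq (Cmd.push r false)
      (tr (r + 1) r (fun b => true :: (enc b).code)))) 2 (fun b => 2 * sz b + 2) ?_ ?_ ?_
    · intro r
      exact ⟨below_mv (by omega) (by omega), by show r < r + 2; omega, below_tr (by omega) (by omega) _⟩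
    · exact ((PB.const 2).mul PB.size).add (PB.const 2)
    · intro r s b
      have h1 := mv_exec (k := r) (l := r + 1) (by omega) (enc b).code
        (st4 s r (enc b).code [] [] []) (st4_0 _ _ _ _ _ _)
      rw [st4_1, st4_u1, st4_u0, List.append_nil] at h1
      have h2 := Exec.push r false (st4 s r [] (enc b).code.reverse [] [])
      rw [st4_0, st4_u0] at h2
      have h3 := tr_exec (k := r + 1) (l := r) (by omega) (fun b => true :: (enc b).code)
        (enc b).code.reverse (st4 s r [false] (enc b).code.reverse [] []) (st4_1 _ _ _ _ _ _)
      rw [st4_0, st4_u0, st4_u1, List.reverse_reverse, flatMap_code] at h3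
      refine ⟨_, ?_, exec_seq h1 (exec_seq h2 h3)⟩
      simp only [List.length_reverse]
      have : (enc b).code.length = sz b := rfl
      omega
  exact key.comp hh

/-- from the code of a value, as a list of bits, to the value -/
theorem PTf.of_code {h : α → β} (hh : PTf (fun a => (enc (h a)).code)) : PTf h := by
  rw [ptf_iff] at hh
  obtain ⟨hs, c, w, T, hb, hT, hr⟩ := hh
  refine PTf.intro (fun r => Cmd.seq (c r) (unpack r)) (w + 2)
    (fun a => T a + (2 * sz (enc (h a)).code + 3)) ?_ ?_ ?_
  · intro r
    exact ⟨(hb r).mono (by omega), below_unpack (by omega)⟩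
  · exact hT.add (((PB.const 2).mul hs).add (PB.const 3))
  · intro r s a
    obtain ⟨t, ht, h1⟩ := hr r s a
    have h2 := unpack_exec s r (enc (h a)).code
    refine ⟨_, ?_, exec_seq h1 h2⟩
    have := length_lt_sz (enc (h a)).code
    beta_reduce
    omega

end

end Pool.Agent.Helper58
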