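import Mathlib

set_option autoImplicit false

namespace Pool.Agent.Helper58

/-- Finite binary trees, used as the universal data type for instances and solutions. -/
inductive DTree
  | nil : DTree
  | cons : DTree → DTree → DTree
  deriving DecidableEq

namespace DTree

/-- Preorder code of a tree as a bit string. -/
def code : DTree → List Bool
  | nil => [false]
  | cons a b => true :: (a.code ++ b.code)

/-- Numbers in unary. -/
def ofNat : ℕ → DTree
  | 0 => nil
  | k + 1 => cons nil (ofNat k)

/-- Truth values. -/
def ofBool : Bool → DTree
  | false => nil
  | true => cons nil nil

/-- Lists. -/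
def ofList {α : Type} (f : α → DTree) : List α → DTree
  | [] => nil
  | a :: l => cons (f a) (ofList f l)

end DTree

/-- the equations of `Helper58.DTree.code`, made here once -/
theorem eqn_DTree_code : True := by
  have h1 := @_root_.Pool.Agent.Helper58.DTree.code.eq_1
  have h2 := @_root_.Pool.Agent.Helper58.DTree.code.eq_2
  have h3 := @_root_.Pool.Agent.Helper58.DTree.code.eq_def
  trivial

end Pool.Agent.Helper58
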