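import Pool.Agent.Helper58.Cmd
import Pool.Agent.Helper58.DTree

set_option autoImplicit false

namespace Pool.Agent.Helper58

open Function

/-- two-valued pop -/
def pop2 (k : ℕ) (f t : Cmd) : Cmd := Cmd.popCase k Cmd.skip f t

/-- move stack `k` onto stack `l` (reversing) -/
def mv (k l : ℕ) : Cmd := Cmd.loop k (pop2 k (Cmd.push l false) (Cmd.push l true))

/-- clear stack `k` -/
def clr (k : ℕ) : Cmd := Cmd.loop k (pop2 k Cmd.skip Cmd.skip)

/-- move stack `k` onto both stacks `l` and `m` -/
def cp (k l m : ℕ) : Cmd :=
  Cmd.loop k (pop2 k (Cmd.seq (Cmd.push l false) (Cmd.push m false))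
    (Cmd.seq (Cmd.push l true) (Cmd.push m true)))

lemma Exec.of_eq {c : Cmd} {s s' s'' : Stk} {n m : ℕ} (h : Exec c s s' n) (h1 : s' = s'') (h2 : n = m) :
    Exec c s s'' m := by subst h1; subst h2; exact h

lemma exec_push (k : ℕ) (b : Bool) (s s' : Stk) (h : s' = update s k (b :: s k)) :
    Exec (Cmd.push k b) s s' 0 := by rw [h]; exact Exec.push k b s

lemma mv_exec {k l : ℕ} (hkl : k ≠ l) : ∀ (L : List Bool) (s : Stk), s k = L →
    Exec (mv k l) s (update (update s l (L.reverse ++ s l)) k []) (L.length + 1) := by
  intro L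
  induction L with
  | nil =>
    intro s hs
    have e : update (update s l (([] : List Bool).reverse ++ s l)) k [] = s := by
      funext j
      simp only [List.reverse_nil, List.nil_append, update_eq_self]
      by_cases hj : j = k
      · subst hj; rw [update_self, hs]
      · rw [update_of_ne hj]
    rw [e]
    exact Exec.loopE _ _ _ hs
  | cons b L ih =>
    intro s hs
    set s1 : Stk := update (update s k L) l (b :: s l) with hs1
    have h1 : Exec (pop2 k (Cmd.push l false) (Cmd.push l true)) s s1 0 := by
      cases b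
      · apply Exec.popF _ _ _ _ _ _ _ L hs
        apply exec_push
        rw [hs1, update_of_ne hkl.symm]
      · apply Exec.popT _ _ _ _ _ _ _ L hs
        apply exec_push
        rw [hs1, update_of_ne hkl.symm]
    have h2 := ih s1 (by rw [hs1, update_of_ne hkl, update_self])
    refine (Exec.loopS _ _ _ _ _ _ _ (by rw [hs]; simp) h1 h2).of_eq ?_ (by simp)
    funext j
    by_cases hj : j = k
    · subst hj; rw [update_self, update_self]
    · rw [update_of_ne hj, update_of_ne hj]
      by_cases hj2 : j = l
      · subst hj2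
        rw [update_self, update_self, hs1, update_self]
        simp
      · rw [update_of_ne hj2, update_of_ne hj2, hs1, update_of_ne hj2, update_of_ne hj]

lemma clr_exec {k : ℕ} : ∀ (L : List Bool) (s : Stk), s k = L →
    Exec (clr k) s (update s k []) (L.length + 1) := by
  intro L
  induction L with
  | nil =>
    intro s hs
    have e : update s k [] = s := by rw [← hs]; exact update_eq_self _ _
    rw [e]
    exact Exec.loopE _ _ _ hs
  | cons b L ih =>
    intro s hs
    have h1 : Exec (pop2 k Cmd.skip Cmd.skip) s (update s k L) 0 := by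
      cases b
      · exact Exec.popF _ _ _ _ _ _ _ L hs (Exec.skip _)
      · exact Exec.popT _ _ _ _ _ _ _ L hs (Exec.skip _)
    have h2 := ih (update s k L) (by rw [update_self])
    refine (Exec.loopS _ _ _ _ _ _ _ (by rw [hs]; simp) h1 h2).of_eq ?_ (by simp)
    rw [update_idem]

lemma cp_exec {k l m : ℕ} (hkl : k ≠ l) (hkm : k ≠ m) (hlm : l ≠ m) : ∀ (L : List Bool) (s : Stk),
    s k = L → Exec (cp k l m) s
      (update (update (update s l (L.reverse ++ s l)) m (L.reverse ++ s m)) k []) (L.length + 1) := by
  intro L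
  induction L with
  | nil =>
    intro s hs
    have e : update (update (update s l (([] : List Bool).reverse ++ s l)) m
        (([] : List Bool).reverse ++ s m)) k [] = s := by
      funext j
      simp only [List.reverse_nil, List.nil_append, update_eq_self]
      by_cases hj : j = k
      · subst hj; rw [update_self, hs]
      · rw [update_of_ne hj]
    rw [e]
    exact Exec.loopE _ _ _ hs
  | cons b L ih =>
    intro s hs
    set s1 : Stk := update (update (update s k L) l (b :: s l)) m (b :: s m) with hs1
    have h1 : Exec (pop2 k (Cmd.seq (Cmd.push l false) (Cmd.push m false))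
        (Cmd.seq (Cmd.push l true) (Cmd.push m true))) s s1 0 := by
      cases b
      · apply Exec.popF _ _ _ _ _ _ _ L hs
        refine (Exec.seq _ _ _ _ _ _ _ (Exec.push _ _ _) (Exec.push _ _ _)).of_eq ?_ rfl
        rw [hs1, update_of_ne hkl.symm, update_of_ne hlm.symm, update_of_ne hkm.symm]
      · apply Exec.popT _ _ _ _ _ _ _ L hs
        refine (Exec.seq _ _ _ _ _ _ _ (Exec.push _ _ _) (Exec.push _ _ _)).of_eq ?_ rfl
        rw [hs1, update_of_ne hkl.symm, update_of_ne hlm.symm, update_of_ne hkm.symm]
    have h2 := ih s1 (by rw [hs1, update_of_ne hkm, update_of_ne hkl, update_self])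
    refine (Exec.loopS _ _ _ _ _ _ _ (by rw [hs]; simp) h1 h2).of_eq ?_ (by simp)
    funext j
    by_cases hj : j = k
    · subst hj; rw [update_self, update_self]
    · rw [update_of_ne hj, update_of_ne hj]
      by_cases hj2 : j = m
      · subst hj2
        rw [update_self, update_self, hs1, update_self]
        simp
      · rw [update_of_ne hj2, update_of_ne hj2]
        by_cases hj3 : j = l
        · subst hj3
          rw [update_self, update_self, hs1, update_of_ne hlm, update_self]
          simp
        · rw [update_of_ne hj3, update_of_ne hj3, hs1, update_of_ne hj2, update_of_ne hj3,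
            update_of_ne hj]

/-! ### gadgets at offset `r`: the stacks above the used ones are empty -/

/-- state with two given stacks and empty stacks above -/
def st2 (s : Stk) (r : ℕ) (a b : List Bool) : Stk := fun k =>
  if k < r then s k else if k = r then a else if k = r + 1 then b else []

def st4 (s : Stk) (r : ℕ) (a b c d : List Bool) : Stk := fun k =>
  if k < r then s k else if k = r then a else if k = r + 1 then b else
  if k = r + 2 then c else if k = r + 3 then d else []

lemma st2_eq (s : Stk) (r : ℕ) (a b : List Bool) : st2 s r a b = st4 s r a b [] [] := by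
  funext k; unfold st2 st4; split_ifs <;> rfl

lemma st4_0 (s : Stk) (r : ℕ) (a b c d : List Bool) : st4 s r a b c d r = a := by
  unfold st4; simp
lemma st4_1 (s : Stk) (r : ℕ) (a b c d : List Bool) : st4 s r a b c d (r + 1) = b := by
  unfold st4; simp
lemma st4_2 (s : Stk) (r : ℕ) (a b c d : List Bool) : st4 s r a b c d (r + 2) = c := by
  unfold st4; simp
lemma st4_3 (s : Stk) (r : ℕ) (a b c d : List Bool) : st4 s r a b c d (r + 3) = d := by
  unfold st4; simp

lemma st4_u0 (s : Stk) (r : ℕ) (a b c d e : List Bool) :
    update (st4 s r a b c d) r e = st4 s r e b c d := by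
  funext k; simp only [update_apply]; unfold st4; split_ifs <;> first | rfl | omega
lemma st4_u1 (s : Stk) (r : ℕ) (a b c d e : List Bool) :
    update (st4 s r a b c d) (r + 1) e = st4 s r a e c d := by
  funext k; simp only [update_apply]; unfold st4; split_ifs <;> first | rfl | omega
lemma st4_u2 (s : Stk) (r : ℕ) (a b c d e : List Bool) :
    update (st4 s r a b c d) (r + 2) e = st4 s r a b e d := by
  funext k; simp only [update_apply]; unfold st4; split_ifs <;> first | rfl | omega
lemma st4_u3 (s : Stk) (r : ℕ) (a b c d e : List Bool) :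
    update (st4 s r a b c d) (r + 3) e = st4 s r a b c e := by
  funext k; simp only [update_apply]; unfold st4; split_ifs <;> first | rfl | omega

/-- initial states are of this form -/
lemma st4_init (s : Stk) (r : ℕ) (h : ∀ k, r < k → s k = []) : s = st4 s r (s r) [] [] [] := by
  funext k
  unfold st4
  split_ifs with h1 h2 h3 h4 h5
  · rfl
  · rw [h2]
  · rw [h3]; exact h _ (by omega)
  · rw [h4]; exact h _ (by omega)
  · rw [h5]; exact h _ (by omega)
  · exact h _ (by omega)

lemma st4_final (s : Stk) (r : ℕ) (h : ∀ k, r < k → s k = []) (a : List Bool) :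
    st4 s r a [] [] [] = update s r a := by
  conv_rhs => rw [st4_init s r h]
  rw [st4_u0]

/-- program sequencing helper -/
lemma exec_seq {c d : Cmd} {s s' s'' : Stk} {n m : ℕ} (h1 : Exec c s s' n) (h2 : Exec d s' s'' m) :
    Exec (Cmd.seq c d) s s'' (n + m) := Exec.seq _ _ _ _ _ _ _ h1 h2

def dup (r : ℕ) : Cmd := Cmd.seq (mv r (r + 2)) (cp (r + 2) r (r + 1))

lemma dup_exec (s : Stk) (r : ℕ) (a : List Bool) :
    Exec (dup r) (st4 s r a [] [] []) (st4 s r a a [] []) (2 * a.length + 2) := by
  have h1 := mv_exec (k := r) (l := r + 2) (by omega) a (st4 s r a [] [] []) (st4_0 _ _ _ _ _ _)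
  rw [st4_2, st4_u2, st4_u0] at h1
  have h2 := cp_exec (k := r + 2) (l := r) (m := r + 1) (by omega) (by omega) (by omega)
    (a.reverse ++ []) (st4 s r [] [] (a.reverse ++ []) []) (st4_2 _ _ _ _ _ _)
  rw [st4_0, st4_1, st4_u0, st4_u1, st4_u2] at h2
  refine (exec_seq h1 h2).of_eq ?_ (by simp; omega)
  simp

def swp (r : ℕ) : Cmd :=
  Cmd.seq (mv r (r + 2)) (Cmd.seq (mv (r + 1) (r + 3)) (Cmd.seq (mv (r + 2) (r + 1)) (mv (r + 3) r)))

lemma swp_exec (s : Stk) (r : ℕ) (a b : List Bool) :
    Exec (swp r) (st4 s r a b [] []) (st4 s r b a [] []) (2 * a.length + 2 * b.length + 4) := by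
  have h1 := mv_exec (k := r) (l := r + 2) (by omega) a (st4 s r a b [] []) (st4_0 _ _ _ _ _ _)
  rw [st4_2, st4_u2, st4_u0] at h1
  have h2 := mv_exec (k := r + 1) (l := r + 3) (by omega) b (st4 s r [] b (a.reverse ++ []) [])
    (st4_1 _ _ _ _ _ _)
  rw [st4_3, st4_u3, st4_u1] at h2
  have h3 := mv_exec (k := r + 2) (l := r + 1) (by omega) (a.reverse ++ [])
    (st4 s r [] [] (a.reverse ++ []) (b.reverse ++ [])) (st4_2 _ _ _ _ _ _)
  rw [st4_1, st4_u1, st4_u2] at h3
  have h4 := mv_exec (k := r + 3) (l := r) (by omega) (b.reverse ++ [])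
    (st4 s r [] ((a.reverse ++ []).reverse ++ []) [] (b.reverse ++ [])) (st4_3 _ _ _ _ _ _)
  rw [st4_0, st4_u0, st4_u3] at h4
  refine (exec_seq h1 (exec_seq h2 (exec_seq h3 h4))).of_eq ?_ (by simp; omega)
  simp

/-- move stack `r+1` down to the empty stack `r` -/
def dwn (r : ℕ) : Cmd := Cmd.seq (mv (r + 1) (r + 2)) (mv (r + 2) r)

lemma dwn_exec (s : Stk) (r : ℕ) (a : List Bool) :
    Exec (dwn r) (st4 s r [] a [] []) (st4 s r a [] [] []) (2 * a.length + 2) := by
  have h1 := mv_exec (k := r + 1) (l := r + 2) (by omega) a (st4 s r [] a [] []) (st4_1 _ _ _ _ _ _)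
  rw [st4_2, st4_u2, st4_u1] at h1
  have h2 := mv_exec (k := r + 2) (l := r) (by omega) (a.reverse ++ [])
    (st4 s r [] [] (a.reverse ++ []) []) (st4_2 _ _ _ _ _ _)
  rw [st4_0, st4_u0, st4_u2] at h2
  refine (exec_seq h1 h2).of_eq ?_ (by simp; omega)
  simp

/-- join the two codes -/
def joinc (r : ℕ) : Cmd :=
  Cmd.seq (mv r (r + 2)) (Cmd.seq (mv (r + 1) (r + 3)) (Cmd.seq (mv (r + 3) r)
    (Cmd.seq (mv (r + 2) r) (Cmd.push r true))))

lemma joinc_exec (s : Stk) (r : ℕ) (a b : List Bool) :
    Exec (joinc r) (st4 s r a b [] []) (st4 s r (true :: (a ++ b)) [] [] [])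
      (2 * a.length + 2 * b.length + 4) := by
  have h1 := mv_exec (k := r) (l := r + 2) (by omega) a (st4 s r a b [] []) (st4_0 _ _ _ _ _ _)
  rw [st4_2, st4_u2, st4_u0] at h1
  have h2 := mv_exec (k := r + 1) (l := r + 3) (by omega) b (st4 s r [] b (a.reverse ++ []) [])
    (st4_1 _ _ _ _ _ _)
  rw [st4_3, st4_u3, st4_u1] at h2
  have h3 := mv_exec (k := r + 3) (l := r) (by omega) (b.reverse ++ [])
    (st4 s r [] [] (a.reverse ++ []) (b.reverse ++ [])) (st4_3 _ _ _ _ _ _)
  rw [st4_0, st4_u0, st4_u3] at h3
  have h4 := mv_exec (k := r + 2) (l := r) (by omega) (a.reverse ++ [])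
    (st4 s r ((b.reverse ++ []).reverse ++ []) [] (a.reverse ++ []) []) (st4_2 _ _ _ _ _ _)
  rw [st4_0, st4_u0, st4_u2] at h4
  have h5 := Exec.push r true
    (st4 s r ((a.reverse ++ []).reverse ++ ((b.reverse ++ []).reverse ++ [])) [] [] [])
  rw [st4_0, st4_u0] at h5
  refine (exec_seq h1 (exec_seq h2 (exec_seq h3 (exec_seq h4 h5)))).of_eq ?_ (by simp; omega)
  simp

/-- body of the extraction loop -/
def exBody (r : ℕ) : Cmd :=
  pop2 r (Cmd.seq (Cmd.push (r + 1) false) (pop2 (r + 2) Cmd.skip Cmd.skip))
    (Cmd.seq (Cmd.push (r + 1) true) (Cmd.push (r + 2) true))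

/-- extraction of one tree code -/
lemma extract_exec (r : ℕ) (x : DTree) : ∀ (s : Stk) (rest old : List Bool) (c : ℕ) (s'' : Stk) (t : ℕ),
    Exec (Cmd.loop (r + 2) (exBody r))
      (st4 s r rest (x.code.reverse ++ old) (List.replicate c true) []) s'' t →
    Exec (Cmd.loop (r + 2) (exBody r))
      (st4 s r (x.code ++ rest) old (List.replicate (c + 1) true) []) s'' (t + x.code.length) := by
  induction x with
  | nil =>
    intro s rest old c s'' t h
    have h1 : Exec (exBody r) (st4 s r (DTree.nil.code ++ rest) old (List.replicate (c + 1) true) [])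
        (st4 s r rest (DTree.nil.code.reverse ++ old) (List.replicate c true) []) 0 := by
      apply Exec.popF _ _ _ _ _ _ _ rest (by rw [st4_0]; rfl)
      rw [st4_u0]
      have h2 := Exec.push (r + 1) false (st4 s r rest old (List.replicate (c + 1) true) [])
      rw [st4_1, st4_u1] at h2
      refine exec_seq h2 (m := 0) ?_
      apply Exec.popT _ _ _ _ _ _ _ (List.replicate c true) (by rw [st4_2]; rfl)
      rw [st4_u2]
      exact Exec.skip _
    refine (Exec.loopS _ _ _ _ _ _ _ (by rw [st4_2]; simp) h1 h).of_eq rfl (by simp [DTree.code])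
  | cons a b iha ihb =>
    intro s rest old c s'' t h
    have hb := ihb s rest ((true :: a.code).reverse ++ old) c s'' t (by
      refine Eq.mp ?_ h
      congr 2
      simp [DTree.code])
    have ha := iha s (b.code ++ rest) (true :: old) (c + 1) s'' (t + b.code.length) (by
      refine Eq.mp ?_ hb
      congr 2
      simp)
    have h1 : Exec (exBody r)
        (st4 s r ((DTree.cons a b).code ++ rest) old (List.replicate (c + 1) true) [])
        (st4 s r (a.code ++ (b.code ++ rest)) (true :: old) (List.replicate (c + 1 + 1) true) []) 0 := by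
      apply Exec.popT _ _ _ _ _ _ _ (a.code ++ (b.code ++ rest)) (by rw [st4_0]; simp [DTree.code])
      rw [st4_u0]
      have h2 := Exec.push (r + 1) true (st4 s r (a.code ++ (b.code ++ rest)) old
        (List.replicate (c + 1) true) [])
      rw [st4_1, st4_u1] at h2
      have h3 := Exec.push (r + 2) true (st4 s r (a.code ++ (b.code ++ rest)) (true :: old)
        (List.replicate (c + 1) true) [])
      rw [st4_2, st4_u2] at h3
      exact (exec_seq h2 h3).of_eq (by rw [← List.replicate_succ]) rfl
    refine (Exec.loopS _ _ _ _ _ _ _ (by rw [st4_2]; simp) h1 ha).of_eq rfl ?_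
    simp [DTree.code]; omega

/-- extraction program: from `code a ++ rest` on stack `r` to `rest` on `r` and the reversed code
of `a` on `r+1` -/
def extract (r : ℕ) : Cmd := Cmd.seq (Cmd.push (r + 2) true) (Cmd.loop (r + 2) (exBody r))

lemma extract_spec (s : Stk) (r : ℕ) (a : DTree) (rest : List Bool) :
    Exec (extract r) (st4 s r (a.code ++ rest) [] [] []) (st4 s r rest a.code.reverse [] [])
      (a.code.length + 1) := by
  have h0 := Exec.push (r + 2) true (st4 s r (a.code ++ rest) [] [] [])
  rw [st4_2, st4_u2] at h0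
  have hE : Exec (Cmd.loop (r + 2) (exBody r)) (st4 s r rest (a.code.reverse ++ []) (List.replicate 0 true) [])
      (st4 s r rest (a.code.reverse ++ []) (List.replicate 0 true) []) 1 :=
    Exec.loopE _ _ _ (by rw [st4_2]; rfl)
  have h1 := extract_exec r a s rest [] 0 _ 1 hE
  refine (exec_seq h0 h1).of_eq ?_ (by omega)
  simp

/-- push a list -/
def pushL (r : ℕ) : List Bool → Cmd
  | [] => Cmd.skip
  | b :: l => Cmd.seq (pushL r l) (Cmd.push r b)

lemma pushL_exec (s : Stk) (r : ℕ) (l a : List Bool) :
    Exec (pushL r l) (st4 s r a [] [] []) (st4 s r (l ++ a) [] [] []) 0 := by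
  induction l with
  | nil => exact Exec.skip _
  | cons b l ih =>
    have h := Exec.push r b (st4 s r (l ++ a) [] [] [])
    rw [st4_0, st4_u0] at h
    exact exec_seq ih h

/-- body of the comparison loop: compares stack `r+1` with stack `r+3`, marking stack `r+2` -/
def cmpBody (r : ℕ) : Cmd :=
  pop2 (r + 1)
    (Cmd.popCase (r + 3) (Cmd.push (r + 2) true) Cmd.skip (Cmd.push (r + 2) true))
    (Cmd.popCase (r + 3) (Cmd.push (r + 2) true) (Cmd.push (r + 2) true) Cmd.skip)

lemma cmp_exec (s : Stk) (r : ℕ) (a : List Bool) : ∀ (l m : List Bool) (k : ℕ),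
    ∃ k', Exec (Cmd.loop (r + 1) (cmpBody r)) (st4 s r a l (List.replicate k true) m)
      (st4 s r a [] (List.replicate k' true) (m.drop l.length)) (l.length + 1) ∧
      (k' = 0 ↔ k = 0 ∧ l <+: m) ∧ k' ≤ k + l.length := by
  intro l
  induction l with
  | nil =>
    intro m k
    refine ⟨k, Exec.loopE _ _ _ (by rw [st4_1]), by simp, by simp⟩
  | cons b l ih =>
    intro m k
    rcases m with _ | ⟨c, m⟩
    · obtain ⟨k', h1, h2, hk'⟩ := ih [] (k + 1)
      refine ⟨k', ?_, ?_, by simp only [List.length_cons]; omega⟩
      · have h3 : Exec (cmpBody r) (st4 s r a (b :: l) (List.replicate k true) [])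
            (st4 s r a l (List.replicate (k + 1) true) []) 0 := by
          cases b
          · apply Exec.popF _ _ _ _ _ _ _ l (by rw [st4_1])
            rw [st4_u1]
            apply Exec.popE _ _ _ _ _ _ _ (by rw [st4_3])
            apply exec_push
            rw [st4_2, st4_u2]; rfl
          · apply Exec.popT _ _ _ _ _ _ _ l (by rw [st4_1])
            rw [st4_u1]
            apply Exec.popE _ _ _ _ _ _ _ (by rw [st4_3])
            apply exec_push
            rw [st4_2, st4_u2]; rfl
        refine (Exec.loopS _ _ _ _ _ _ _ (by rw [st4_1]; simp) h3 h1).of_eq ?_ (by simp)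
        simp
      · constructor
        · intro h; have := (h2.1 h).1; omega
        · rintro ⟨_, h⟩; simp at h
    · by_cases hbc : b = c
      · obtain ⟨k', h1, h2, hk'⟩ := ih m k
        refine ⟨k', ?_, ?_, by simp only [List.length_cons]; omega⟩
        · have h3 : Exec (cmpBody r) (st4 s r a (b :: l) (List.replicate k true) (c :: m))
              (st4 s r a l (List.replicate k true) m) 0 := by
            subst hbc
            cases b
            · apply Exec.popF _ _ _ _ _ _ _ l (by rw [st4_1])
              rw [st4_u1]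
              apply Exec.popF _ _ _ _ _ _ _ m (by rw [st4_3])
              rw [st4_u3]; exact Exec.skip _
            · apply Exec.popT _ _ _ _ _ _ _ l (by rw [st4_1])
              rw [st4_u1]
              apply Exec.popT _ _ _ _ _ _ _ m (by rw [st4_3])
              rw [st4_u3]; exact Exec.skip _
          refine (Exec.loopS _ _ _ _ _ _ _ (by rw [st4_1]; simp) h3 h1).of_eq ?_ (by simp)
          simp
        · rw [h2, List.cons_prefix_cons]; simp [hbc]
      · obtain ⟨k', h1, h2, hk'⟩ := ih m (k + 1)
        refine ⟨k', ?_, ?_, by simp only [List.length_cons]; omega⟩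
        · have h3 : Exec (cmpBody r) (st4 s r a (b :: l) (List.replicate k true) (c :: m))
              (st4 s r a l (List.replicate (k + 1) true) m) 0 := by
            cases b
            · apply Exec.popF _ _ _ _ _ _ _ l (by rw [st4_1])
              rw [st4_u1]
              have hc : c = true := by cases c; exact absurd rfl hbc; rfl
              subst hc
              apply Exec.popT _ _ _ _ _ _ _ m (by rw [st4_3])
              rw [st4_u3]
              apply exec_push
              rw [st4_2, st4_u2]; rfl
            · apply Exec.popT _ _ _ _ _ _ _ l (by rw [st4_1])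
              rw [st4_u1]
              have hc : c = false := by cases c; rfl; exact absurd rfl hbc
              subst hc
              apply Exec.popF _ _ _ _ _ _ _ m (by rw [st4_3])
              rw [st4_u3]
              apply exec_push
              rw [st4_2, st4_u2]; rfl
          refine (Exec.loopS _ _ _ _ _ _ _ (by rw [st4_1]; simp) h3 h1).of_eq ?_ (by simp)
          simp
        · constructor
          · intro h; have := (h2.1 h).1; omega
          · rintro ⟨_, h⟩; rw [List.cons_prefix_cons] at h; exact absurd h.1 hbc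

end Pool.Agent.Helper58
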