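import Pool.Agent.Helper58.NetSem

set_option autoImplicit false

namespace Pool.Agent.Helper58

noncomputable section

variable {I : EOLData} {z : Nm → ℝ}

/-- position on side `s` -/
def qpos (I : EOLData) (z : Nm → ℝ) (s : ℕ) : ℝ := 2 ^ I.n * (z [1, s] + 1) / 2

/-- position of sample `j` on side `s` -/
def qsam (I : EOLData) (z : Nm → ℝ) (j s : ℕ) : ℝ := 2 ^ I.n * (z [3, j, s, 0] + 1) / 2

/-- sample `j` is clean on side `s` -/
def Clean (I : EOLData) (z : Nm → ℝ) (j s : ℕ) : Prop :=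
  ∀ k : ℕ, 0 < k → k < 2 ^ I.n → (2:ℝ) ^ (-15 : ℤ) ≤ |qsam I z j s - k|

lemma main_mem {s : ℕ} (hs : s < 2) : gMain s ∈ net I := by
  simp only [net, List.mem_cons]
  interval_cases s
  · left; rfl
  · right; left; rfl

lemma z1_bound (h : IsSol (net I) z) {s : ℕ} (hs : s < 2) : -1 ≤ z [1, s] ∧ z [1, s] ≤ 1 :=
  h.bound (main_mem hs)

lemma qpos_bound (h : IsSol (net I) z) {s : ℕ} (hs : s < 2) :
    0 ≤ qpos I z s ∧ qpos I z s ≤ 2 ^ I.n := by
  have hb := z1_bound h hs
  have hp : (0:ℝ) < 2 ^ I.n := by positivity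
  unfold qpos
  constructor
  · apply div_nonneg _ (by norm_num)
    apply mul_nonneg hp.le; linarith
  · rw [div_le_iff₀ (by norm_num)]
    apply mul_le_mul_of_nonneg_left _ hp.le; linarith

lemma qsam_eq (h : IsSol (net I) z) {j s : ℕ} (hj : j < 8) (hs : s < 2) :
    qsam I z j s = min (2 ^ I.n) (qpos I z s + j / 2 ^ 13) := by
  have hb := z1_bound h hs
  have hp : (0:ℝ) < 2 ^ I.n := by positivity
  unfold qsam qpos
  rw [dig_start h hj hs]
  have hj0 : (0:ℝ) ≤ j * (1 / 2 ^ (I.n + 12)) := by positivity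
  have e : (2:ℝ) ^ I.n * (z [1, s] + j * (1 / 2 ^ (I.n + 12)) + 1) / 2
      = 2 ^ I.n * (z [1, s] + 1) / 2 + j / 2 ^ 13 := by
    rw [pow_add]; field_simp; ring
  rcases le_total 1 (z [1, s] + j * (1 / 2 ^ (I.n + 12))) with hc | hc
  · rw [clamp_of_ge hc, min_eq_left]
    · ring
    · rw [← e, le_div_iff₀ (by norm_num)]
      apply mul_le_mul_of_nonneg_left _ hp.le; linarith
  · rw [clamp_of_mem (by linarith) hc, e, min_eq_right]
    rw [← e, div_le_iff₀ (by norm_num)]
    apply mul_le_mul_of_nonneg_left _ hp.le; linarith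

lemma clean_cell (h : IsSol (net I) z) {j s : ℕ} (hj : j < 8) (hs : s < 2) (hc : Clean I z j s) :
    ∃ a : ℕ, a < 2 ^ I.n ∧ (a : ℝ) ≤ qsam I z j s ∧ qsam I z j s ≤ a + 1 ∧
      z [3, j, s, I.n] = 2 * (qsam I z j s - a) - 1 ∧ Exact I z j s (word I.n a) := by
  have hq := qsam_eq h hj hs
  have hb := qpos_bound h hs
  have hp : (0:ℝ) < 2 ^ I.n := by positivity
  have := digits I.n (2 ^ (I.n + 14)) (qsam I z j s) (fun i => z [3, j, s, i])
    (fun i => z (bitN I.n j s i)) le_rfl (by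
      rw [hq]; apply le_min hp.le
      have : (0:ℝ) ≤ j / 2 ^ 13 := by positivity
      linarith) (by rw [hq]; exact min_le_left _ _) hc
    (by
      unfold qsam; field_simp; ring)
    (fun i hi => amp_val h hj hs hi _ le_rfl)
    (fun i hi => dig_step h hj hs hi)
  obtain ⟨a, h1, h2, h3, h4, h5⟩ := this
  exact ⟨a, h1, h2, h3, h4, word_length _ _, h5⟩

/-- at most one sample is not clean on a given side -/
lemma unclean_unique (h : IsSol (net I) z) {s : ℕ} (hs : s < 2) {j j' : ℕ} (hj : j < 8) (hj' : j' < 8)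
    (hlt : j < j') (hc : ¬ Clean I z j s) (hc' : ¬ Clean I z j' s) : False := by
  unfold Clean at hc hc'
  push Not at hc hc'
  obtain ⟨k, hk0, hk1, hk⟩ := hc
  obtain ⟨k', hk0', hk1', hk'⟩ := hc'
  have e15 : (2:ℝ) ^ (-15 : ℤ) = 1 / 32768 := by norm_num
  rw [e15, abs_lt] at hk hk'
  rw [qsam_eq h hj hs] at hk
  rw [qsam_eq h hj' hs] at hk'
  have hkM : (k : ℝ) + 1 ≤ 2 ^ I.n := by exact_mod_cast hk1
  have hkM' : (k' : ℝ) + 1 ≤ 2 ^ I.n := by exact_mod_cast hk1'
  have m1 : min ((2:ℝ) ^ I.n) (qpos I z s + j / 2 ^ 13) = qpos I z s + j / 2 ^ 13 := by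
    apply min_eq_right
    by_contra hcon
    push Not at hcon
    rw [min_eq_left hcon.le] at hk; linarith [hk.2]
  have m2 : min ((2:ℝ) ^ I.n) (qpos I z s + j' / 2 ^ 13) = qpos I z s + j' / 2 ^ 13 := by
    apply min_eq_right
    by_contra hcon
    push Not at hcon
    rw [min_eq_left hcon.le] at hk'; linarith [hk'.2]
  rw [m1] at hk
  rw [m2] at hk'
  have j1 : (j : ℝ) + 1 ≤ j' := by exact_mod_cast hlt
  have j2 : (j' : ℝ) ≤ 7 := by exact_mod_cast (by omega : j' ≤ 7)
  have j0 : (0:ℝ) ≤ j := by positivity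
  norm_num at hk hk'
  rcases lt_trichotomy k k' with hkk | hkk | hkk
  · have : (k : ℝ) + 1 ≤ k' := by exact_mod_cast hkk
    linarith [hk.1, hk.2, hk'.1, hk'.2]
  · subst hkk
    linarith [hk.1, hk.2, hk'.1, hk'.2]
  · have : (k' : ℝ) + 1 ≤ k := by exact_mod_cast hkk
    linarith [hk.1, hk.2, hk'.1, hk'.2]

lemma sum_flatMap_lits {α : Type} (l : List α) (g : α → List Lit) (f : Lit → ℝ) :
    ((l.flatMap g).map f).sum = (l.map (fun a => ((g a).map f).sum)).sum := by
  induction l with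
  | nil => simp
  | cons a l ih => simp [List.flatMap_cons, ih]

lemma main_eq (h : IsSol (net I) z) {s : ℕ} (hs : s < 2) :
    z [1, s] = clamp (z [1, s] + ∑ j ∈ Finset.range 8, ((waveL s j).map (lval z)).sum) := by
  have := h.2 _ (main_mem (I := I) hs)
  simp only [gMain, List.map_cons, List.sum_cons, lval_lp] at this
  rw [sum_flatMap_lits] at this
  have e : ((List.range 8).map (fun a => ((waveL s a).map (lval z)).sum)).sum
      = ∑ j ∈ Finset.range 8, ((waveL s j).map (lval z)).sum := by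
    simp only [Finset.sum_range_succ, Finset.sum_range_zero, List.range_succ, List.range_zero,
      List.map_append, List.map_cons, List.map_nil, List.sum_append, List.sum_cons, List.sum_nil]
    simp
  rw [e] at this
  exact this

lemma clamp_fix_pos {x w : ℝ} (h : x = clamp (x + w)) (hw : 0 < w) : x = 1 := by
  rcases clamp_cases (x + w) with ⟨h1, h2⟩ | ⟨h1, h2⟩ | ⟨h1, h1', h2⟩
  · rw [h, h2]
  · rw [h2] at h; rw [h] at h1; linarith
  · rw [h2] at h; linarith

lemma clamp_fix_neg {x w : ℝ} (h : x = clamp (x + w)) (hw : w < 0) : x = -1 := by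
  rcases clamp_cases (x + w) with ⟨h1, h2⟩ | ⟨h1, h2⟩ | ⟨h1, h1', h2⟩
  · rw [h2] at h; rw [h] at h1; linarith
  · rw [h, h2]
  · rw [h2] at h; linarith

lemma majority (w : ℕ → ℝ) (c : ℝ) (G : Finset ℕ) (hG : G ⊆ Finset.range 8) (hcard : 6 ≤ G.card)
    (hb : ∀ j ∈ Finset.range 8, -1 ≤ w j ∧ w j ≤ 1) (hg : ∀ j ∈ G, |w j - c| ≤ 1/4) :
    (c = 1 → 0 < ∑ j ∈ Finset.range 8, w j) ∧ (c = -1 → ∑ j ∈ Finset.range 8, w j < 0) := by
  have hsplit : ∑ j ∈ Finset.range 8, w j = ∑ j ∈ Finset.range 8 \ G, w j + ∑ j ∈ G, w j :=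
    (Finset.sum_sdiff hG).symm
  have hc : (Finset.range 8 \ G).card = 8 - G.card := by
    rw [Finset.card_sdiff_of_subset hG, Finset.card_range]
  have hc8 : G.card ≤ 8 := by
    have := Finset.card_le_card hG; simpa using this
  have hcR : ((Finset.range 8 \ G).card : ℝ) ≤ 2 := by
    rw [hc]; exact_mod_cast (by omega : 8 - G.card ≤ 2)
  have hcG : (6:ℝ) ≤ G.card := by exact_mod_cast hcard
  constructor
  · intro h1
    have a1 : (G.card : ℝ) * (3/4) ≤ ∑ j ∈ G, w j := by
      rw [← nsmul_eq_mul]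
      apply Finset.card_nsmul_le_sum
      intro j hj
      have := (abs_le.1 (hg j hj)).1
      linarith
    have a2 : ((Finset.range 8 \ G).card : ℝ) * (-1) ≤ ∑ j ∈ Finset.range 8 \ G, w j := by
      rw [← nsmul_eq_mul]
      apply Finset.card_nsmul_le_sum
      intro j hj
      exact (hb j (Finset.sdiff_subset hj)).1
    rw [hsplit]; linarith
  · intro h1
    have a1 : ∑ j ∈ G, w j ≤ (G.card : ℝ) * (-3/4) := by
      rw [← nsmul_eq_mul]
      apply Finset.sum_le_card_nsmul
      intro j hj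
      have := (abs_le.1 (hg j hj)).2
      linarith
    have a2 : ∑ j ∈ Finset.range 8 \ G, w j ≤ ((Finset.range 8 \ G).card : ℝ) * 1 := by
      rw [← nsmul_eq_mul]
      apply Finset.sum_le_card_nsmul
      intro j hj
      exact (hb j (Finset.sdiff_subset hj)).2
    rw [hsplit]; linarith

lemma waveC_bound (a : Circ2) : -1 ≤ waveC a ∧ waveC a ≤ 1 := ⟨neg_one_le_clamp _, clamp_le_one _⟩
lemma waveS_bound (a : Circ2) : -1 ≤ waveS a ∧ waveS a ≤ 1 := ⟨neg_one_le_clamp _, clamp_le_one _⟩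

lemma cell_unique {a w : ℕ} {q : ℝ} (h1 : (a : ℝ) ≤ q) (h2 : q ≤ a + 1) (h3 : (w : ℝ) < q)
    (h4 : q < w + 1) : a = w := by
  have e1 : (a : ℝ) < w + 1 := by linarith
  have e2 : (w : ℝ) < a + 1 := by linarith
  have e1' : a < w + 1 := by exact_mod_cast e1
  have e2' : w < a + 1 := by exact_mod_cast e2
  omega

theorem net_decode (hI : I.Valid) (h : IsSol (net I) z) :
    ∃ j < 8, (∃ w, Exact I z j 0 w ∧ z [7, j, 0, 0] ≠ 0) ∨
      (∃ w, Exact I z j 1 w ∧ z [7, j, 1, 0] ≠ 0 ∧ z [7, j, 6, 0] ≠ 0) := by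
  classical
  obtain ⟨hS, hP, hp0, hs0⟩ := hI
  set M : ℕ := 2 ^ I.n with hM
  have hMR : (M : ℝ) = 2 ^ I.n := by rw [hM]; push_cast; rfl
  have hM1 : 1 ≤ M := Nat.one_le_two_pow
  have word0 : word I.n 0 = zeroWord I.n := by
    have e := word_wval (zeroWord I.n) I.n (by simp [zeroWord])
    unfold zeroWord at e ⊢
    rw [wval_replicate_false] at e
    exact e
  have hSn : ∀ v < M, Sn I v < M := by
    intro v _
    have := wval_lt (I.succ.eval (word I.n v))
    rw [eval_length _ _ hS] at this; exact this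
  have hPn : ∀ v < M, Pn I v < M := by
    intro v _
    have := wval_lt (I.pred.eval (word I.n v))
    rw [eval_length _ _ hP] at this; exact this
  have hP0 : Pn I 0 = 0 := by
    unfold Pn; rw [word0, hp0]; unfold zeroWord; exact wval_replicate_false _
  have hS0 : Sn I 0 ≠ 0 := by
    intro hh
    apply hs0
    unfold Sn at hh
    rw [word0] at hh
    apply wval_inj
    · rw [eval_length _ _ hS]; simp [zeroWord]
    · rw [hh]; unfold zeroWord; exact (wval_replicate_false _).symm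
  -- clean samples
  set B : ℕ → Finset ℕ := fun s => (Finset.range 8).filter (fun j => ¬ Clean I z j s) with hB
  have hBcard : ∀ s < 2, (B s).card ≤ 1 := by
    intro s hs
    rw [Finset.card_le_one]
    intro a ha b hb
    simp only [hB, Finset.mem_filter, Finset.mem_range] at ha hb
    rcases lt_trichotomy a b with hab | hab | hab
    · exact (unclean_unique h hs ha.1 hb.1 hab ha.2 hb.2).elim
    · exact hab
    · exact (unclean_unique h hs hb.1 ha.1 hab hb.2 ha.2).elim
  set G : Finset ℕ := Finset.range 8 \ (B 0 ∪ B 1) with hG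
  have hGsub : G ⊆ Finset.range 8 := Finset.sdiff_subset
  have hGcard : 6 ≤ G.card := by
    have h1 := Finset.le_card_sdiff (B 0 ∪ B 1) (Finset.range 8)
    have h2 := Finset.card_union_le (B 0) (B 1)
    have h3 := hBcard 0 (by norm_num)
    have h4 := hBcard 1 (by norm_num)
    rw [Finset.card_range] at h1
    rw [hG]; omega
  have hGclean : ∀ j ∈ G, j < 8 ∧ Clean I z j 0 ∧ Clean I z j 1 := by
    intro j hj
    simp only [hG, hB, Finset.mem_sdiff, Finset.mem_union, Finset.mem_filter, Finset.mem_range] at hj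
    refine ⟨hj.1, ?_, ?_⟩
    · by_contra hc; exact hj.2 (Or.inl ⟨hj.1, hc⟩)
    · by_contra hc; exact hj.2 (Or.inr ⟨hj.1, hc⟩)
  set x := qpos I z 0 with hx
  set y := qpos I z 1 with hy
  have hxb := qpos_bound h (s := 0) (by norm_num)
  have hyb := qpos_bound h (s := 1) (by norm_num)
  rw [← hx, ← hMR] at hxb
  rw [← hy, ← hMR] at hyb
  set Ps := Psi M (Sn I) (Pn I) with hPs
  -- distance of the samples
  have hdist : ∀ j < 8, ∀ s < 2, qpos I z s ≤ qsam I z j s ∧
      qsam I z j s ≤ qpos I z s + 7 / 8192 := by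
    intro j hj s hs
    rw [qsam_eq h hj hs]
    have hb := qpos_bound h hs
    have hj7 : (j : ℝ) ≤ 7 := by exact_mod_cast (by omega : j ≤ 7)
    constructor
    · apply le_min hb.2
      have : (0:ℝ) ≤ j / 2 ^ 13 := by positivity
      linarith
    · refine (min_le_right _ _).trans ?_
      have : (j : ℝ) / 2 ^ 13 ≤ 7 / 8192 := by
        rw [div_le_div_iff₀ (by positivity) (by norm_num)]; norm_num; linarith
      linarith
  -- waves at clean samples
  have hwave : ∀ j ∈ G, |waveC (psiv z j : Circ2) - waveC (Ps x y : Circ2)| ≤ 1/4 ∧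
      |waveS (psiv z j : Circ2) - waveS (Ps x y : Circ2)| ≤ 1/4 := by
    intro j hj
    obtain ⟨hj8, hc0, hc1⟩ := hGclean j hj
    obtain ⟨a, ha, ha1, ha2, ha3, ha4⟩ := clean_cell h hj8 (by norm_num) hc0
    obtain ⟨u, hu, hu1, hu2, hu3, hu4⟩ := clean_cell h hj8 (by norm_num) hc1
    have hv := psiv_clean h hS hP hj8 a u ha hu (qsam I z j 0) (qsam I z j 1) ha1 ha2 hu1 hu2
      ha3 hu3 ha4 hu4
    have hl := psi_local M (Sn I) (Pn I) hPn a u ha hu (qsam I z j 0) (qsam I z j 1) ha1 ha2 hu1 hu2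
    rw [← hv] at hl
    rw [← hl, ← hPs]
    have d0 := hdist j hj8 0 (by norm_num)
    have d1 := hdist j hj8 1 (by norm_num)
    rw [← hx] at d0
    rw [← hy] at d1
    have a0 : |qsam I z j 0 - x| ≤ 7 / 8192 := by
      rw [abs_of_nonneg (by linarith)]; linarith
    have a1 : |qsam I z j 1 - y| ≤ 7 / 8192 := by
      rw [abs_of_nonneg (by linarith)]; linarith
    have hlip := Psi_lip M (Sn I) (Pn I) hSn (qsam I z j 0) (qsam I z j 1) x y (by linarith)
      (by linarith)
    rw [← hPs] at hlip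
    constructor
    · refine (waveC_lip _ _).trans ?_
      linarith
    · refine (waveS_lip _ _).trans ?_
      linarith
  have mC := majority (fun j => waveC (psiv z j : Circ2)) (waveC (Ps x y : Circ2)) G hGsub hGcard
    (fun j _ => waveC_bound _) (fun j hj => (hwave j hj).1)
  have mS := majority (fun j => waveS (psiv z j : Circ2)) (waveS (Ps x y : Circ2)) G hGsub hGcard
    (fun j _ => waveS_bound _) (fun j hj => (hwave j hj).2)
  have eX : z [1, 0] = clamp (z [1, 0] + ∑ j ∈ Finset.range 8, waveC (psiv z j : Circ2)) := by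
    have := main_eq h (s := 0) (by norm_num)
    rw [Finset.sum_congr rfl (fun j hj => waveL0 h (Finset.mem_range.1 hj))] at this
    exact this
  have eY : z [1, 1] = clamp (z [1, 1] + ∑ j ∈ Finset.range 8, waveS (psiv z j : Circ2)) := by
    have := main_eq h (s := 1) (by norm_num)
    rw [Finset.sum_congr rfl (fun j hj => waveL1 h (Finset.mem_range.1 hj))] at this
    exact this
  have main := topo M (Sn I) (Pn I) hM1 hSn hPn hP0 hS0 x y hxb.1 hyb.1
    (by
      intro hc
      have := clamp_fix_pos eX (mC.1 hc)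
      rw [hx]; unfold qpos; rw [this, hMR]; ring)
    (by
      intro hc
      have := clamp_fix_neg eX (mC.2 hc)
      rw [hx]; unfold qpos; rw [this]; ring)
    (by
      intro hc
      have := clamp_fix_pos eY (mS.1 hc)
      rw [hy]; unfold qpos; rw [this, hMR]; ring)
    (by
      intro hc
      have := clamp_fix_neg eY (mS.2 hc)
      rw [hy]; unfold qpos; rw [this]; ring)
  have hGne : G.Nonempty := Finset.card_pos.1 (by omega)
  obtain ⟨j, hj⟩ := hGne
  obtain ⟨hj8, hc0, hc1⟩ := hGclean j hj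
  obtain ⟨a, ha, ha1, ha2, ha3, ha4⟩ := clean_cell h hj8 (by norm_num) hc0
  obtain ⟨u, hu, hu1, hu2, hu3, hu4⟩ := clean_cell h hj8 (by norm_num) hc1
  have d0 := hdist j hj8 0 (by norm_num)
  have d1 := hdist j hj8 1 (by norm_num)
  rw [← hx] at d0
  rw [← hy] at d1
  refine ⟨j, hj8, ?_⟩
  rcases main with ⟨hx0, w, hw, hw0, hw1, hw2⟩ | ⟨hy0, v, hv, hv1, hv2⟩
  · right
    rw [abs_lt] at hw2
    have huw : u = w := cell_unique hu1 hu2 (by linarith [hw2.1]) (by linarith [hw2.2])
    subst huw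
    refine ⟨_, hu4, ?_, ?_⟩
    · rw [sem_k1 hj8 h hS hP hu4, wval_word _ _ hu]
      have e : wval (I.succ.eval (I.pred.eval (word I.n u))) = Sn I (Pn I u) := by
        unfold Sn Pn; rw [word_wval _ _ (eval_length _ _ hP _)]
      rw [e]
      rcases sgn3_cases (Sn I (Pn I u)) u with ⟨_, hs⟩ | ⟨hh, _⟩ | ⟨_, hs⟩
      · rw [hs]; norm_num
      · exact absurd hh hw1
      · rw [hs]; norm_num
    · rw [sem_k6 hj8 h hu4, wval_word _ _ hu]
      rcases sgn3_cases u 0 with ⟨_, hs⟩ | ⟨hh, _⟩ | ⟨hh, _⟩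
      · rw [hs]; norm_num
      · exact absurd hh hw0
      · omega
  · left
    have hav : a = v := by
      rcases hv2 with hv2 | ⟨hv2, hx0⟩
      · rw [abs_lt] at hv2
        exact cell_unique ha1 ha2 (by linarith [hv2.1]) (by linarith [hv2.2])
      · have : (a : ℝ) < 1 := by linarith
        have : a < 1 := by exact_mod_cast this
        omega
    subst hav
    refine ⟨_, ha4, ?_⟩
    rw [sem_k0 hj8 h hS hP ha4, wval_word _ _ ha]
    have e : wval (I.pred.eval (I.succ.eval (word I.n a))) = Pn I (Sn I a) := by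
      unfold Sn Pn; rw [word_wval _ _ (eval_length _ _ hS _)]
    rw [e]
    rcases sgn3_cases (Pn I (Sn I a)) a with ⟨_, hs⟩ | ⟨hh, _⟩ | ⟨_, hs⟩
    · rw [hs]; norm_num
    · exact absurd hh hv1
    · rw [hs]; norm_num

theorem exact0_solves (hI : I.Valid) (h : IsSol (net I) z) {j : ℕ} (hj : j < 8) {w : List Bool}
    (hw : Exact I z j 0 w) (hne : z [7, j, 0, 0] ≠ 0) : I.Solves w := by
  refine ⟨hw.1, Or.inl ?_⟩
  intro he
  apply hne
  rw [sem_k0 hj h hI.1 hI.2.1 hw, he]
  simp [sgn3]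

theorem exact1_solves (hI : I.Valid) (h : IsSol (net I) z) {j : ℕ} (hj : j < 8) {w : List Bool}
    (hw : Exact I z j 1 w) (hne : z [7, j, 1, 0] ≠ 0) (hne' : z [7, j, 6, 0] ≠ 0) : I.Solves w := by
  refine ⟨hw.1, Or.inr ⟨?_, ?_⟩⟩
  · intro he
    apply hne
    rw [sem_k1 hj h hI.1 hI.2.1 hw, he]
    simp [sgn3]
  · intro he
    apply hne'
    rw [sem_k6 hj h hw, he]
    unfold zeroWord
    rw [wval_replicate_false]
    simp [sgn3]

end

end Pool.Agent.Helper58
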