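import Pool.Agent.Helper58.PanSem

set_option autoImplicit false

namespace Pool.Agent.Helper58

open List

/-! ### nodup bookkeeping -/

lemma nodup_append_key {β : Type} (key : Nm → ℕ) (a : ℕ) {l1 l2 : List (Nm × β)}
    (h1 : (l1.map Prod.fst).Nodup) (h2 : (l2.map Prod.fst).Nodup)
    (k1 : ∀ g ∈ l1, key g.1 = a) (k2 : ∀ g ∈ l2, a < key g.1) :
    ((l1 ++ l2).map Prod.fst).Nodup := by
  rw [List.map_append, List.nodup_append]
  refine ⟨h1, h2, ?_⟩
  intro x hx y hy hxy
  subst hxy
  rw [List.mem_map] at hx hy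
  obtain ⟨g, hg, rfl⟩ := hx
  obtain ⟨g', hg', he⟩ := hy
  have := k1 g hg
  have h3 := k2 g' hg'
  rw [he, this] at h3
  exact lt_irrefl _ h3

lemma nodup_flatMap_key {α β γ : Type} (l : List α) (f : α → List (Nm × β)) (key : Nm → γ)
    (e : α → γ) (hl : (l.map e).Nodup)
    (h : ∀ a ∈ l, ((f a).map Prod.fst).Nodup) (hk : ∀ a ∈ l, ∀ g ∈ f a, key g.1 = e a) :
    ((l.flatMap f).map Prod.fst).Nodup := by
  induction l with
  | nil => simp
  | cons a l ih =>
    rw [List.flatMap_cons, List.map_append, List.nodup_append]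
    rw [List.map_cons, List.nodup_cons] at hl
    refine ⟨h a (by simp), ih hl.2 (fun b hb => h b (by simp [hb]))
      (fun b hb => hk b (by simp [hb])), ?_⟩
    intro x hx y hy hxy
    subst hxy
    rw [List.mem_map] at hx hy
    obtain ⟨g, hg, rfl⟩ := hx
    obtain ⟨g', hg', he⟩ := hy
    rw [List.mem_flatMap] at hg'
    obtain ⟨b, hb, hg'b⟩ := hg'
    have h1 := hk a (by simp) g hg
    have h2 := hk b (by simp [hb]) g' hg'b
    rw [he, h1] at h2
    apply hl.1
    rw [h2]
    exact List.mem_map_of_mem hb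

lemma nodup_map_range {β : Type} (n : ℕ) (f : ℕ → Nm × β) (h : ∀ a b, (f a).1 = (f b).1 → a = b) :
    (((List.range n).map f).map Prod.fst).Nodup := by
  rw [List.map_map]
  apply List.Nodup.map _ List.nodup_range
  intro a b hab
  exact h a b hab

lemma nodup_map_zipIdx {α β : Type} (l : List α) (f : α × ℕ → Nm × β)
    (h : ∀ a b, (f a).1 = (f b).1 → a.2 = b.2) :
    ((l.zipIdx.map f).map Prod.fst).Nodup := by
  rw [List.map_map]
  have hn : (l.zipIdx.map Prod.snd).Nodup := by
    rw [List.zipIdx_map_snd, ← List.range_eq_range']; exact List.nodup_range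
  have := List.Nodup.of_map _ hn
  rw [List.nodup_map_iff_inj_on this]
  intro a ha b hb hab
  have h1 := h a b hab
  have ha' := List.mem_zipIdx_iff_getElem?.1 ha
  have hb' := List.mem_zipIdx_iff_getElem?.1 hb
  rw [h1, hb'] at ha'
  exact Prod.ext (by simpa using ha'.symm) h1

lemma nodup_cons_fst {β : Type} (p : Nm × β) (l : List (Nm × β)) (h1 : (l.map Prod.fst).Nodup)
    (h2 : ∀ g ∈ l, g.1 ≠ p.1) : ((p :: l).map Prod.fst).Nodup := by
  rw [List.map_cons, List.nodup_cons]
  refine ⟨?_, h1⟩
  intro hm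
  rw [List.mem_map] at hm
  obtain ⟨g, hg, he⟩ := hm
  exact h2 g hg he

lemma nodup_gHalf (n : ℕ) : ((gHalf n).map Prod.fst).Nodup := by
  unfold gHalf
  apply nodup_cons_fst
  · apply nodup_map_range
    intro a b hab; simpa using hab
  · intro g hg
    rw [List.mem_map] at hg
    obtain ⟨k, _, rfl⟩ := hg
    simp

lemma nodup_gDig (n j s : ℕ) : ((gDig n j s).map Prod.fst).Nodup := by
  unfold gDig
  apply nodup_cons_fst
  · apply nodup_flatMap_key (key := fun x => if x.getD 0 0 = 4 then x.getD 3 0 else x.getD 3 0 - 1)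
      (e := id)
    · simpa using List.nodup_range
    · intro i _
      apply nodup_cons_fst
      · apply nodup_cons_fst
        · apply nodup_map_range
          intro a b hab; simpa using hab
        · intro g hg
          rw [List.mem_map] at hg
          obtain ⟨k, _, rfl⟩ := hg
          simp
      · intro g hg
        rw [List.mem_cons, List.mem_map] at hg
        rcases hg with rfl | ⟨k, _, rfl⟩ <;> simp
    · intro i _ g hg
      rw [List.mem_cons, List.mem_cons, List.mem_map] at hg
      rcases hg with rfl | rfl | ⟨k, _, rfl⟩ <;> simp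
  · intro g hg
    rw [List.mem_flatMap] at hg
    obtain ⟨i, _, hg⟩ := hg
    rw [List.mem_cons, List.mem_cons, List.mem_map] at hg
    rcases hg with rfl | rfl | ⟨k, _, rfl⟩ <;> simp

lemma nodup_gCirc (n j c : ℕ) (a b : List ℕ) (C : Circuit) :
    ((gCirc n j c a b C).map Prod.fst).Nodup := by
  unfold gCirc
  apply nodup_append_key (fun x => if x.getD 0 0 = 5 then (if x.getD 3 0 < n then 0 else 1) else 2) 0
  · apply nodup_map_range
    intro a b hab; simpa using hab
  · apply nodup_append_key (fun x => x.getD 0 0) 5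
    · apply nodup_map_zipIdx
      intro a b hab; simpa using hab
    · apply nodup_map_zipIdx
      intro a b hab; simpa using hab
    · intro g hg
      rw [List.mem_map] at hg
      obtain ⟨k, _, rfl⟩ := hg
      simp
    · intro g hg
      rw [List.mem_map] at hg
      obtain ⟨k, _, rfl⟩ := hg
      simp
  · intro g hg
    rw [List.mem_map] at hg
    obtain ⟨k, hk, rfl⟩ := hg
    rw [List.mem_range] at hk
    simp [hk]
  · intro g hg
    rw [List.mem_append, List.mem_map, List.mem_map] at hg
    rcases hg with ⟨k, _, rfl⟩ | ⟨k, _, rfl⟩ <;> simp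

lemma nodup_gCmp (n j c : ℕ) (a b a' b' : List ℕ) : ((gCmp n j c a b a' b').map Prod.fst).Nodup := by
  unfold gCmp
  apply nodup_cons_fst
  · apply nodup_map_range
    intro a b hab; simpa using hab
  · intro g hg
    rw [List.mem_map] at hg
    obtain ⟨k, hk, rfl⟩ := hg
    rw [List.mem_range] at hk
    simp; omega

lemma nodup_gCmpZ (n j c : ℕ) (a b : List ℕ) : ((gCmpZ n j c a b).map Prod.fst).Nodup := by
  unfold gCmpZ
  apply nodup_cons_fst
  · apply nodup_map_range
    intro a b hab; simpa using hab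
  · intro g hg
    rw [List.mem_map] at hg
    obtain ⟨k, hk, rfl⟩ := hg
    rw [List.mem_range] at hk
    simp; omega

lemma nodup_gMisc (n j : ℕ) : ((gMisc n j).map Prod.fst).Nodup := by
  simp [gMisc]

lemma nodup_gWave (j : ℕ) : ((gWave j).map Prod.fst).Nodup := by
  simp [gWave]

/-- key separating the parts of a sample -/
def partKey (x : Nm) : ℕ :=
  if x.getD 0 0 ≤ 4 then x.getD 2 0 else
  if x.getD 0 0 ≤ 6 then 2 + x.getD 2 0 else
  if x.getD 0 0 = 7 then 6 + x.getD 2 0 else
  if x.getD 0 0 = 8 then 20 else 21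

lemma key_gDig (n j s : ℕ) : ∀ g ∈ gDig n j s, partKey g.1 = s := by
  intro g hg
  unfold gDig at hg
  rw [List.mem_cons, List.mem_flatMap] at hg
  rcases hg with rfl | ⟨i, _, hg⟩
  · simp [partKey]
  · rw [List.mem_cons, List.mem_cons, List.mem_map] at hg
    rcases hg with rfl | rfl | ⟨k, _, rfl⟩ <;> simp [partKey]

lemma key_gCirc (n j c : ℕ) (a b : List ℕ) (C : Circuit) : ∀ g ∈ gCirc n j c a b C, partKey g.1 = 2 + c := by
  intro g hg
  unfold gCirc at hg
  rw [List.mem_append, List.mem_append, List.mem_map, List.mem_map, List.mem_map] at hg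
  rcases hg with ⟨k, _, rfl⟩ | ⟨k, _, rfl⟩ | ⟨k, _, rfl⟩ <;> simp [partKey]

lemma key_gCmp (n j c : ℕ) (a b a' b' : List ℕ) : ∀ g ∈ gCmp n j c a b a' b', partKey g.1 = 6 + c := by
  intro g hg
  unfold gCmp at hg
  rw [List.mem_cons, List.mem_map] at hg
  rcases hg with rfl | ⟨k, _, rfl⟩ <;> simp [partKey]

lemma key_gCmpZ (n j c : ℕ) (a b : List ℕ) : ∀ g ∈ gCmpZ n j c a b, partKey g.1 = 6 + c := by
  intro g hg
  unfold gCmpZ at hg
  rw [List.mem_cons, List.mem_map] at hg
  rcases hg with rfl | ⟨k, _, rfl⟩ <;> simp [partKey]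

lemma key_gMisc (n j : ℕ) : ∀ g ∈ gMisc n j, partKey g.1 = 20 := by
  intro g hg
  simp only [gMisc, List.mem_cons, List.not_mem_nil, or_false] at hg
  rcases hg with rfl | rfl | rfl | rfl | rfl | rfl | rfl | rfl | rfl | rfl | rfl | rfl <;> simp [partKey]

lemma key_gWave (j : ℕ) : ∀ g ∈ gWave j, partKey g.1 = 21 := by
  intro g hg
  simp only [gWave, List.mem_cons, List.not_mem_nil, or_false] at hg
  rcases hg with rfl | rfl | rfl | rfl | rfl | rfl | rfl | rfl | rfl | rfl | rfl | rfl | rfl | rfl |
    rfl | rfl <;> simp [partKey]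

lemma forall_mem_append_lt {β : Type} {key : Nm → ℕ} {a b : ℕ} {l1 l2 : List (Nm × β)}
    (h1 : ∀ g ∈ l1, key g.1 = b) (hab : a < b) (h2 : ∀ g ∈ l2, b < key g.1) :
    ∀ g ∈ l1 ++ l2, a < key g.1 := by
  intro g hg
  rw [List.mem_append] at hg
  rcases hg with hg | hg
  · rw [h1 g hg]; exact hab
  · exact hab.trans (h2 g hg)

/-- a list of parts with increasing keys -/
lemma nodup_parts (parts : List (ℕ × List Gate))
    (hnd : ∀ p ∈ parts, (p.2.map Prod.fst).Nodup)
    (hkey : ∀ p ∈ parts, ∀ g ∈ p.2, partKey g.1 = p.1)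
    (hinc : (parts.map Prod.fst).Pairwise (· < ·)) :
    ((parts.flatMap Prod.snd).map Prod.fst).Nodup := by
  apply nodup_flatMap_key (key := partKey) (e := Prod.fst)
  · exact hinc.imp (fun h => ne_of_lt h)
  · exact hnd
  · exact hkey

lemma gSample_eq (I : EOLData) (j : ℕ) : gSample I j =
    ([ (0, gDig I.n j 0), (1, gDig I.n j 1),
      (2, gCirc I.n j 0 [4, j, 0] [I.n + 14] I.succ),
      (3, gCirc I.n j 1 [6, j, 0] [] I.pred),
      (4, gCirc I.n j 2 [4, j, 1] [I.n + 14] I.pred),
      (5, gCirc I.n j 3 [6, j, 2] [] I.succ),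
      (6, gCmp I.n j 0 [6, j, 1] [] [4, j, 0] [I.n + 14]),
      (7, gCmp I.n j 1 [6, j, 3] [] [4, j, 1] [I.n + 14]),
      (8, gCmp I.n j 2 [6, j, 0] [] [4, j, 1] [I.n + 14]),
      (9, gCmp I.n j 3 [6, j, 2] [] [4, j, 0] [I.n + 14]),
      (10, gCmp I.n j 4 [4, j, 0] [I.n + 14] [4, j, 1] [I.n + 14]),
      (11, gCmpZ I.n j 5 [4, j, 0] [I.n + 14]),
      (12, gCmpZ I.n j 6 [4, j, 1] [I.n + 14]),
      (20, gMisc I.n j), (21, gWave j) ] : List (ℕ × List Gate)).flatMap Prod.snd := by
  simp only [gSample, List.flatMap_cons, List.flatMap_nil, List.append_nil]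

lemma nodup_gSample (I : EOLData) (j : ℕ) : ((gSample I j).map Prod.fst).Nodup := by
  rw [gSample_eq]
  apply nodup_parts
  · intro p hp
    simp only [List.mem_cons, List.not_mem_nil, or_false] at hp
    rcases hp with rfl | rfl | rfl | rfl | rfl | rfl | rfl | rfl | rfl | rfl | rfl | rfl | rfl | rfl | rfl
    · exact nodup_gDig _ _ _
    · exact nodup_gDig _ _ _
    · exact nodup_gCirc _ _ _ _ _ _
    · exact nodup_gCirc _ _ _ _ _ _
    · exact nodup_gCirc _ _ _ _ _ _
    · exact nodup_gCirc _ _ _ _ _ _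
    · exact nodup_gCmp _ _ _ _ _ _ _
    · exact nodup_gCmp _ _ _ _ _ _ _
    · exact nodup_gCmp _ _ _ _ _ _ _
    · exact nodup_gCmp _ _ _ _ _ _ _
    · exact nodup_gCmp _ _ _ _ _ _ _
    · exact nodup_gCmpZ _ _ _ _ _
    · exact nodup_gCmpZ _ _ _ _ _
    · exact nodup_gMisc _ _
    · exact nodup_gWave _
  · intro p hp
    simp only [List.mem_cons, List.not_mem_nil, or_false] at hp
    rcases hp with rfl | rfl | rfl | rfl | rfl | rfl | rfl | rfl | rfl | rfl | rfl | rfl | rfl | rfl | rfl
    · exact key_gDig _ _ _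
    · exact key_gDig _ _ _
    · exact key_gCirc _ _ _ _ _ _
    · exact key_gCirc _ _ _ _ _ _
    · exact key_gCirc _ _ _ _ _ _
    · exact key_gCirc _ _ _ _ _ _
    · exact key_gCmp _ _ _ _ _ _ _
    · exact key_gCmp _ _ _ _ _ _ _
    · exact key_gCmp _ _ _ _ _ _ _
    · exact key_gCmp _ _ _ _ _ _ _
    · exact key_gCmp _ _ _ _ _ _ _
    · exact key_gCmpZ _ _ _ _ _
    · exact key_gCmpZ _ _ _ _ _
    · exact key_gMisc _ _
    · exact key_gWave _
  · simp [List.pairwise_cons]

/-- every name in a sample starts with a tag at least 3, followed by the sample index -/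
lemma sample_names (I : EOLData) (j : ℕ) : ∀ g ∈ gSample I j, 3 ≤ g.1.getD 0 0 ∧ g.1.getD 1 0 = j := by
  intro g hg
  rw [gSample_eq, List.mem_flatMap] at hg
  obtain ⟨p, hp, hg⟩ := hg
  have hD : ∀ s, ∀ g ∈ gDig I.n j s, 3 ≤ g.1.getD 0 0 ∧ g.1.getD 1 0 = j := by
    intro s g hg
    unfold gDig at hg
    rw [List.mem_cons, List.mem_flatMap] at hg
    rcases hg with rfl | ⟨i, _, hg⟩
    · simp
    · rw [List.mem_cons, List.mem_cons, List.mem_map] at hg
      rcases hg with rfl | rfl | ⟨k, _, rfl⟩ <;> simp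
  have hC : ∀ c a b C, ∀ g ∈ gCirc I.n j c a b C, 3 ≤ g.1.getD 0 0 ∧ g.1.getD 1 0 = j := by
    intro c a b C g hg
    unfold gCirc at hg
    rw [List.mem_append, List.mem_append, List.mem_map, List.mem_map, List.mem_map] at hg
    rcases hg with ⟨k, _, rfl⟩ | ⟨k, _, rfl⟩ | ⟨k, _, rfl⟩ <;> simp
  have hP : ∀ c a b a' b', ∀ g ∈ gCmp I.n j c a b a' b', 3 ≤ g.1.getD 0 0 ∧ g.1.getD 1 0 = j := by
    intro c a b a' b' g hg
    unfold gCmp at hg
    rw [List.mem_cons, List.mem_map] at hg
    rcases hg with rfl | ⟨k, _, rfl⟩ <;> simp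
  have hZ : ∀ c a b, ∀ g ∈ gCmpZ I.n j c a b, 3 ≤ g.1.getD 0 0 ∧ g.1.getD 1 0 = j := by
    intro c a b g hg
    unfold gCmpZ at hg
    rw [List.mem_cons, List.mem_map] at hg
    rcases hg with rfl | ⟨k, _, rfl⟩ <;> simp
  simp only [List.mem_cons, List.not_mem_nil, or_false] at hp
  rcases hp with rfl | rfl | rfl | rfl | rfl | rfl | rfl | rfl | rfl | rfl | rfl | rfl | rfl | rfl | rfl
  · exact hD _ g hg
  · exact hD _ g hg
  · exact hC _ _ _ _ g hg
  · exact hC _ _ _ _ g hg
  · exact hC _ _ _ _ g hg
  · exact hC _ _ _ _ g hg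
  · exact hP _ _ _ _ _ g hg
  · exact hP _ _ _ _ _ g hg
  · exact hP _ _ _ _ _ g hg
  · exact hP _ _ _ _ _ g hg
  · exact hP _ _ _ _ _ g hg
  · exact hZ _ _ _ g hg
  · exact hZ _ _ _ g hg
  · simp only [gMisc, List.mem_cons, List.not_mem_nil, or_false] at hg
    rcases hg with rfl | rfl | rfl | rfl | rfl | rfl | rfl | rfl | rfl | rfl | rfl | rfl <;> simp
  · simp only [gWave, List.mem_cons, List.not_mem_nil, or_false] at hg
    rcases hg with rfl | rfl | rfl | rfl | rfl | rfl | rfl | rfl | rfl | rfl | rfl | rfl | rfl | rfl |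
      rfl | rfl <;> simp

lemma half_names (n : ℕ) : ∀ g ∈ gHalf n, g.1.getD 0 0 = 2 := by
  intro g hg
  unfold gHalf at hg
  rw [List.mem_cons, List.mem_map] at hg
  rcases hg with rfl | ⟨k, _, rfl⟩ <;> simp

lemma net_names (I : EOLData) : ∀ g ∈ net I, 1 ≤ g.1.getD 0 0 := by
  intro g hg
  simp only [net, List.mem_cons, List.mem_append, List.mem_flatMap] at hg
  rcases hg with rfl | rfl | hg | ⟨j, _, hg⟩
  · simp [gMain]
  · simp [gMain]
  · rw [half_names _ g hg]; norm_num
  · have := (sample_names I j g hg).1; omega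

lemma nodup_net (I : EOLData) : ((net I).map Prod.fst).Nodup := by
  have hrest : ∀ g ∈ gHalf I.n ++ (List.range 8).flatMap (gSample I), 2 ≤ g.1.getD 0 0 := by
    intro g hg
    rw [List.mem_append, List.mem_flatMap] at hg
    rcases hg with hg | ⟨j, _, hg⟩
    · rw [half_names _ g hg]
    · have := (sample_names I j g hg).1; omega
  unfold net
  apply nodup_cons_fst
  · apply nodup_cons_fst
    · apply nodup_append_key (fun x => x.getD 0 0) 2
      · exact nodup_gHalf _
      · apply nodup_flatMap_key (key := fun x => x.getD 1 0) (e := id)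
        · simpa using List.nodup_range
        · intro j _; exact nodup_gSample I j
        · intro j _ g hg; exact (sample_names I j g hg).2
      · exact half_names _
      · intro g hg
        rw [List.mem_flatMap] at hg
        obtain ⟨j, _, hg⟩ := hg
        have := (sample_names I j g hg).1
        show 2 < g.1.getD 0 0
        omega
    · intro g hg he
      have := hrest g hg
      rw [he] at this; simp [gMain] at this
  · intro g hg he
    rw [List.mem_cons] at hg
    rcases hg with rfl | hg
    · simp [gMain] at he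
    · have := hrest g hg
      rw [he] at this; simp [gMain] at this

lemma net_ne_zero (I : EOLData) : ∀ g ∈ net I, g.1 ≠ [0] := by
  intro g hg he
  have := net_names I g hg
  rw [he] at this; simp at this

/-! ### nodes -/

lemma mem_gateNodes {g : Gate} {p : Node} : p ∈ gateNodes g ↔
    p = (0 :: g.1, [[0, 0], 1 :: g.1]) ∨ p = (1 :: g.1, [[0, 0], 2 :: g.1]) ∨
    p = (2 :: g.1, [0, 0] :: (g.2.zipIdx.map (fun l => inpNode g.1 l.2))) ∨
    ∃ l ∈ g.2.zipIdx, p = (inpNode g.1 l.2, [[4, 4], litNode l.1]) := by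
  unfold gateNodes
  simp only [List.mem_cons, List.mem_map]
  constructor
  · rintro (h | h | h | ⟨l, h1, h2⟩)
    · exact Or.inl h
    · exact Or.inr (Or.inl h)
    · exact Or.inr (Or.inr (Or.inl h))
    · exact Or.inr (Or.inr (Or.inr ⟨l, h1, h2.symm⟩))
  · rintro (h | h | h | ⟨l, h1, h2⟩)
    · exact Or.inl h
    · exact Or.inr (Or.inl h)
    · exact Or.inr (Or.inr (Or.inl h))
    · exact Or.inr (Or.inr (Or.inr ⟨l, h1, h2.symm⟩))

/-- the gate to which a node belongs -/
def gateOf : Nm → Nm
  | 3 :: _ :: N => N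
  | _ :: N => N
  | [] => []

lemma gateOf_node {g : Gate} {p : Node} (h : p ∈ gateNodes g) : gateOf p.1 = g.1 := by
  rw [mem_gateNodes] at h
  rcases h with rfl | rfl | rfl | ⟨l, _, rfl⟩
  · simp [gateOf]
  · simp [gateOf]
  · simp [gateOf]
  · simp [gateOf, inpNode]

lemma nodup_gateNodes (g : Gate) : ((gateNodes g).map Prod.fst).Nodup := by
  unfold gateNodes
  apply nodup_cons_fst
  · apply nodup_cons_fst
    · apply nodup_cons_fst
      · apply nodup_map_zipIdx
        intro a b hab; simpa [inpNode] using hab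
      · intro g hg
        rw [List.mem_map] at hg
        obtain ⟨l, _, rfl⟩ := hg
        simp [inpNode]
    · intro g hg
      rw [List.mem_cons, List.mem_map] at hg
      rcases hg with rfl | ⟨l, _, rfl⟩ <;> simp [inpNode]
  · intro g hg
    rw [List.mem_cons, List.mem_cons, List.mem_map] at hg
    rcases hg with rfl | rfl | ⟨l, _, rfl⟩ <;> simp [inpNode]

lemma nodup_nodes (I : EOLData) : ((nodes I).map Prod.fst).Nodup := by
  unfold nodes
  rw [List.map_append, List.nodup_append]
  refine ⟨by simp [baseNodes], ?_, ?_⟩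
  · apply nodup_flatMap_key (key := gateOf) (e := Prod.fst)
    · exact nodup_net I
    · intro g _; exact nodup_gateNodes g
    · intro g _ p hp; exact gateOf_node hp
  · intro x hx y hy hxy
    subst hxy
    rw [List.mem_map] at hy
    obtain ⟨p, hp, rfl⟩ := hy
    rw [List.mem_flatMap] at hp
    obtain ⟨g, hg, hp⟩ := hp
    have hne := net_ne_zero I g hg
    rw [mem_gateNodes] at hp
    simp only [baseNodes, List.map_cons, List.map_nil, List.mem_cons, List.not_mem_nil, or_false] at hx
    rcases hp with rfl | rfl | rfl | ⟨l, _, rfl⟩ <;> simp [inpNode] at hx <;> exact hne hx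

/-- level of a node name -/
def level (x : Nm) : ℕ :=
  if x = [0, 0] then 4 else if x = [1, 0] then 5 else
  if x = [4, 0] then 6 else if x = [4, 1] then 7 else if x = [4, 2] then 8 else
  if x = [4, 3] then 9 else if x = [4, 4] then 10 else x.getD 0 0

/-- allowed level pairs of edges -/
def levelPairs : List (ℕ × ℕ) :=
  [(6, 7), (7, 8), (8, 6), (9, 6), (9, 7), (4, 9), (10, 9), (5, 4), (5, 10), (0, 4), (0, 1), (1, 4),
    (1, 2), (2, 4), (2, 3), (3, 10), (3, 0), (3, 1), (3, 4), (3, 5)]

lemma levelPairs_asymm : ∀ p ∈ levelPairs, (p.2, p.1) ∉ levelPairs := by decide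

lemma level_head {h : ℕ} {N : Nm} (hN : N ≠ [0]) (hh : h < 4) : level (h :: N) = h := by
  unfold level
  have e1 : (h :: N) ≠ [0, 0] := by simp [hN]
  have e2 : (h :: N) ≠ [1, 0] := by simp [hN]
  have e3 : ∀ k, (h :: N) ≠ [4, k] := by intro k; simp; omega
  rw [if_neg e1, if_neg e2, if_neg (e3 _), if_neg (e3 _), if_neg (e3 _), if_neg (e3 _), if_neg (e3 _)]
  simp

lemma level_inp (N : Nm) (k : ℕ) : level (inpNode N k) = 3 := by
  unfold level inpNode
  simp

lemma level_lit (l : Lit) : level (litNode l) = 0 ∨ level (litNode l) = 1 ∨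
    level (litNode l) = 4 ∨ level (litNode l) = 5 := by
  unfold litNode
  by_cases h : l.2 = [0]
  · rw [h]
    split_ifs
    · right; right; left; simp [level]
    · right; right; right; simp [level]
  · split_ifs
    · left; exact level_head h (by norm_num)
    · right; left; exact level_head h (by norm_num)

lemma edge_level (I : EOLData) {p : Node} (hp : p ∈ nodes I) {Y : Nm} (hY : Y ∈ p.2) :
    (level p.1, level Y) ∈ levelPairs := by
  unfold nodes at hp
  rw [List.mem_append] at hp
  rcases hp with hp | hp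
  · simp only [baseNodes, List.mem_cons, List.not_mem_nil, or_false] at hp
    rcases hp with rfl | rfl | rfl | rfl | rfl | rfl | rfl
    · simp only [List.mem_cons, List.not_mem_nil, or_false] at hY
      subst hY; decide
    · simp only [List.mem_cons, List.not_mem_nil, or_false] at hY
      subst hY; decide
    · simp only [List.mem_cons, List.not_mem_nil, or_false] at hY
      subst hY; decide
    · simp only [List.mem_cons, List.not_mem_nil, or_false] at hY
      rcases hY with rfl | rfl <;> decide
    · simp only [List.mem_cons, List.not_mem_nil, or_false] at hY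
      subst hY; decide
    · simp only [List.mem_cons, List.not_mem_nil, or_false] at hY
      subst hY; decide
    · simp only [List.mem_cons, List.not_mem_nil, or_false] at hY
      rcases hY with rfl | rfl <;> decide
  · rw [List.mem_flatMap] at hp
    obtain ⟨g, hg, hp⟩ := hp
    have hne := net_ne_zero I g hg
    have l00 : level [0, 0] = 4 := by decide
    have l44 : level [4, 4] = 10 := by decide
    rw [mem_gateNodes] at hp
    rcases hp with rfl | rfl | rfl | ⟨l, _, rfl⟩
    · simp only [List.mem_cons, List.not_mem_nil, or_false] at hY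
      rw [level_head hne (by norm_num)]
      rcases hY with rfl | rfl
      · rw [l00]; decide
      · rw [level_head hne (by norm_num)]; decide
    · simp only [List.mem_cons, List.not_mem_nil, or_false] at hY
      rw [level_head hne (by norm_num)]
      rcases hY with rfl | rfl
      · rw [l00]; decide
      · rw [level_head hne (by norm_num)]; decide
    · rw [List.mem_cons, List.mem_map] at hY
      rw [level_head hne (by norm_num)]
      rcases hY with rfl | ⟨l, _, rfl⟩
      · rw [l00]; decide
      · rw [level_inp]; decide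
    · simp only [List.mem_cons, List.not_mem_nil, or_false] at hY
      rw [level_inp]
      rcases hY with rfl | rfl
      · rw [l44]; decide
      · rcases level_lit l.1 with h | h | h | h <;> rw [h] <;> decide

theorem goodNodes (I : EOLData) : GoodNodes (nodes I) where
  nodup := nodup_nodes I
  other := by
    intro p hp
    have m : ∀ p ∈ baseNodes, p ∈ nodes I := fun p hp => List.mem_append_left _ hp
    have h00 : (([0, 0], [[4, 3]]) : Node) ∈ nodes I := m _ (by simp [baseNodes])
    have h44 : (([4, 4], [[4, 3]]) : Node) ∈ nodes I := m _ (by simp [baseNodes])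
    have h40 : (([4, 0], [[4, 1]]) : Node) ∈ nodes I := m _ (by simp [baseNodes])
    have h41 : (([4, 1], [[4, 2]]) : Node) ∈ nodes I := m _ (by simp [baseNodes])
    have h42 : (([4, 2], [[4, 0]]) : Node) ∈ nodes I := m _ (by simp [baseNodes])
    have h43 : (([4, 3], [[4, 0], [4, 1]]) : Node) ∈ nodes I := m _ (by simp [baseNodes])
    unfold nodes at hp
    rw [List.mem_append] at hp
    rcases hp with hp | hp
    · simp only [baseNodes, List.mem_cons, List.not_mem_nil, or_false] at hp
      rcases hp with rfl | rfl | rfl | rfl | rfl | rfl | rfl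
      · exact ⟨_, h41, by simp⟩
      · exact ⟨_, h42, by simp⟩
      · exact ⟨_, h40, by simp⟩
      · exact ⟨_, h40, by simp⟩
      · exact ⟨_, h43, by simp⟩
      · exact ⟨_, h43, by simp⟩
      · exact ⟨_, h00, by simp⟩
    · rw [List.mem_flatMap] at hp
      obtain ⟨g, _, hp⟩ := hp
      rw [mem_gateNodes] at hp
      rcases hp with rfl | rfl | rfl | ⟨l, _, rfl⟩
      · exact ⟨_, h00, by simp⟩
      · exact ⟨_, h00, by simp⟩
      · exact ⟨_, h00, by simp⟩
      · exact ⟨_, h44, by simp⟩
  nocyc := by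
    intro p hp q hq h1 h2
    have e1 := edge_level I hp h1
    have e2 := edge_level I hq h2
    exact levelPairs_asymm _ e1 e2

lemma nb_nodup (I : EOLData) {p : Node} (hp : p ∈ nodes I) : p.2.Nodup := by
  unfold nodes at hp
  rw [List.mem_append] at hp
  rcases hp with hp | hp
  · simp only [baseNodes, List.mem_cons, List.not_mem_nil, or_false] at hp
    rcases hp with rfl | rfl | rfl | rfl | rfl | rfl | rfl <;> simp
  · rw [List.mem_flatMap] at hp
    obtain ⟨g, hg, hp⟩ := hp
    have hne := net_ne_zero I g hg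
    rw [mem_gateNodes] at hp
    rcases hp with rfl | rfl | rfl | ⟨l, _, rfl⟩
    · simp
    · simp
    · rw [List.nodup_cons]
      constructor
      · rw [List.mem_map]
        rintro ⟨l, _, h⟩
        simp [inpNode] at h
      · have : g.2.zipIdx.map (fun l => inpNode g.1 l.2)
            = ((g.2.zipIdx.map (fun l => (inpNode g.1 l.2, ()))).map Prod.fst) := by
          rw [List.map_map]; rfl
        rw [this]
        apply nodup_map_zipIdx
        intro a b hab; simpa [inpNode] using hab
    · simp only [List.nodup_cons, List.mem_cons, List.not_mem_nil, or_false, not_false_eq_true,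
        List.nodup_nil, and_true]
      intro h
      unfold litNode at h
      split_ifs at h <;> simp at h

lemma absent_names (I : EOLData) (M : Nm) (h0 : M ≠ [0]) (hM : M ∉ (net I).map Prod.fst) (b : ℕ)
    (hb : b < 2) : (b :: M) ∉ (nodes I).map Prod.fst := by
  intro h
  unfold nodes at h
  rw [List.map_append, List.mem_append] at h
  rcases h with h | h
  · simp only [baseNodes, List.map_cons, List.map_nil, List.mem_cons, List.not_mem_nil, or_false] at h
    simp [h0] at h
    omega
  · rw [List.mem_map] at h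
    obtain ⟨p, hp, he⟩ := h
    rw [List.mem_flatMap] at hp
    obtain ⟨g, hg, hp⟩ := hp
    apply hM
    have : g.1 = M := by
      rw [← gateOf_node hp, he]
      interval_cases b <;> simp [gateOf]
    rw [← this]
    exact List.mem_map_of_mem hg

/-- from a panchromatic vertex to a solution of the network -/
theorem sol_of_panchromatic (I : EOLData) {v : Fin (nodes I).length → ℝ}
    (hv : (mkPan (nodes I)).Panchromatic v) :
    IsSol (net I) (fun N => nval (nodes I) v (0 :: N)) := by
  have hg := goodNodes I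
  have heq : ∀ p ∈ nodes I, NEq (nval (nodes I) v) p.1 p.2 := by
    intro p hp
    exact nval_eq hg hv (X := p.1) (nb := p.2) hp (nb_nodup I hp)
  apply isSol_of_eqs (net I) (nval (nodes I) v)
  · intro p hp
    exact heq p (List.mem_append_left _ hp)
  · intro g hgm p hp
    exact heq p (List.mem_append_right _ (List.mem_flatMap.2 ⟨g, hgm, hp⟩))
  · intro M h0 hM
    exact ⟨nval_absent v _ (absent_names I M h0 hM 0 (by norm_num)),
      nval_absent v _ (absent_names I M h0 hM 1 (by norm_num))⟩

theorem valid_mkPan (I : EOLData) : (mkPan (nodes I)).Valid := by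
  apply valid_of_graph (graph_mkPan (goodNodes I))
  show 0 < (nodes I).length
  simp [nodes, baseNodes]

end Pool.Agent.Helper58
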