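import Pool.Agent.Helper58.PolyNet
import Pool.Agent.Helper58.NetMain
import Pool.Agent.Helper58.PanGood

set_option autoImplicit false

namespace Pool.Agent.Helper58

open Function

instance encRat : Enc ℚ := ⟨DTree.ofRat, ofRat_inj⟩

section

variable {α β γ : Type} [Enc α] [Enc β] [Enc γ]

lemma sz_zip_le (l : List α) (m : List β) : sz (l.zip m) ≤ sz l + sz m := by
  induction l generalizing m with
  | nil => simp [sz_lnil]
  | cons a l ih =>
    cases m with
    | nil => simp [sz_lnil]
    | cons b m =>
      rw [List.zip_cons_cons, sz_lcons, sz_lcons, sz_lcons, sz_pair]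
      have := ih m
      omega

/-- step of the zip computation -/
def zipStep (s : List (α × β) × List β) (a : α) : List (α × β) × List β :=
  lcase s.2 (s.1, []) (fun b t => (s.1 ++ [(a, b)], t))

omit [Enc α] [Enc β] in
lemma foldl_zipStep (l : List α) (m : List β) (acc : List (α × β)) :
    l.foldl zipStep (acc, m) = (acc ++ l.zip m, m.drop l.length) := by
  induction l generalizing m acc with
  | nil => simp
  | cons a l ih =>
    rw [List.foldl_cons]
    cases m with
    | nil => simp [zipStep, lcase, ih]
    | cons b m => simp [zipStep, lcase, ih]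

@[fun_prop] theorem PTf.zip {l : γ → List α} {m : γ → List β} (hl : PTf l) (hm : PTf m) :
    PTf (fun x => (l x).zip (m x)) := by
  have := PTf.foldl (step := fun _ s a => zipStep s a) (init := fun x => (([] : List (α × β)), m x))
    (B := fun x => sz (l x) + sz (m x) + sz (m x) + 1) hl (by fun_prop)
    (by unfold zipStep; fun_prop)
    (((hl.sz_le.add hm.sz_le).add hm.sz_le).add (PB.const 1)) (by
      intro x i
      rw [foldl_zipStep, sz_pair, List.nil_append]
      have h1 := sz_zip_le ((l x).take i) (m x)
      have h2 := sz_take_le (l x) i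
      have h3 := sz_drop_le (m x) ((l x).take i).length
      omega)
  exact (PTf.fst this).congr (fun x => by rw [foldl_zipStep]; simp)

end

/-- value of the first element with a given key -/
def lookup (ns : List Nm) (v : List ℚ) (N : Nm) : ℚ :=
  lcase ((ns.zip v).filter (fun p => decide (p.1 = N))) 0 (fun p _ => p.2)

/-- value of the name `N` of the network under the vector `v` -/
def zval (I : EOLData) (v : List ℚ) (N : Nm) : ℚ := lookup ((nodes I).map (fun p => p.1)) v (0 :: N)

/-- the word read off from sample `j` and side `s` -/
def sideWord (I : EOLData) (v : List ℚ) (j s : ℕ) : List Bool :=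
  (List.range I.n).map (fun i => decide (zval I v (bitN I.n j s i) = 1))

/-- all bits of the sample are clean -/
def sideOK (I : EOLData) (v : List ℚ) (j s : ℕ) : Bool :=
  (List.range I.n).all (fun i => decide (zval I v (bitN I.n j s i) = 1) ||
    decide (zval I v (bitN I.n j s i) = -1))

/-- the candidates read off from the vector -/
def cands (I : EOLData) (v : List ℚ) : List (List Bool) :=
  (List.range 8).flatMap (fun j =>
    (bif sideOK I v j 0 && !(decide (zval I v [7, j, 0, 0] = 0)) then [sideWord I v j 0] else []) ++
    (bif sideOK I v j 1 && (!(decide (zval I v [7, j, 1, 0] = 0)) &&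
      !(decide (zval I v [7, j, 6, 0] = 0))) then [sideWord I v j 1] else []))

/-- the solution of End of the Line read off from a panchromatic vertex -/
def decodeSol (p : EOLData × List ℚ) : List Bool :=
  lcase (cands p.1 p.2) [] (fun w _ => w)

section

variable {γ : Type} [Enc γ]

@[fun_prop] theorem PTf.lookup {ns : γ → List Nm} {v : γ → List ℚ} {N : γ → Nm} (hns : PTf ns)
    (hv : PTf v) (hN : PTf N) : PTf (fun x => lookup (ns x) (v x) (N x)) := by
  unfold Helper58.lookup; fun_prop

@[fun_prop] theorem PTf.zval {I : γ → EOLData} {v : γ → List ℚ} {N : γ → Nm} (hI : PTf I)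
    (hv : PTf v) (hN : PTf N) : PTf (fun x => zval (I x) (v x) (N x)) := by
  unfold Helper58.zval; fun_prop

@[fun_prop] theorem PTf.sideWord {I : γ → EOLData} {v : γ → List ℚ} {j s : γ → ℕ} (hI : PTf I)
    (hv : PTf v) (hj : PTf j) (hs : PTf s) : PTf (fun x => sideWord (I x) (v x) (j x) (s x)) := by
  unfold Helper58.sideWord; fun_prop

@[fun_prop] theorem PTf.sideOK {I : γ → EOLData} {v : γ → List ℚ} {j s : γ → ℕ} (hI : PTf I)
    (hv : PTf v) (hj : PTf j) (hs : PTf s) : PTf (fun x => sideOK (I x) (v x) (j x) (s x)) := by
  unfold Helper58.sideOK; fun_prop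

@[fun_prop] theorem PTf.cands {I : γ → EOLData} {v : γ → List ℚ} (hI : PTf I) (hv : PTf v) :
    PTf (fun x => cands (I x) (v x)) := by
  unfold Helper58.cands; fun_prop

theorem ptf_decodeSol : PTf decodeSol := by
  unfold Helper58.decodeSol; fun_prop

end

/-! ### correctness -/

lemma lookup_eq (ns : List Nm) (v : List ℚ) (N : Nm) (hn : ns.Nodup) (hl : v.length = ns.length) :
    ((lookup ns v N : ℚ) : ℝ) = ∑ j : Fin ns.length, if ns[j] = N then ((v.getD j 0 : ℚ) : ℝ) else 0 := by
  unfold lookup
  induction ns generalizing v with
  | nil => simp [lcase]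
  | cons a ns ih =>
    cases v with
    | nil => simp at hl
    | cons q v =>
      rw [List.nodup_cons] at hn
      have ih' := ih v hn.2 (by simpa using hl)
      rw [List.zip_cons_cons, List.filter_cons]
      have hs := Fin.sum_univ_succ (n := ns.length)
        (fun j : Fin (ns.length + 1) => if (a :: ns)[j] = N then (((q :: v).getD j 0 : ℚ) : ℝ) else 0)
      refine Eq.trans ?_ hs.symm
      by_cases ha : a = N
      · subst ha
        simp only [decide_true, if_true, lcase]
        have : (∑ i : Fin ns.length, if (a :: ns)[(Fin.succ i : Fin (ns.length + 1))] = a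
            then (((q :: v).getD (Fin.succ i : Fin (ns.length + 1)) 0 : ℚ) : ℝ) else 0) = 0 := by
          apply Finset.sum_eq_zero
          intro i _
          rw [if_neg]
          intro h
          apply hn.1
          have h2 : (a :: ns)[(Fin.succ i : Fin (ns.length + 1))] = ns[i] := by simp
          rw [h2] at h
          rw [← h]
          exact List.getElem_mem _
        rw [this]
        simp
      · have hd : decide (a = N) = false := decide_eq_false ha
        simp only [hd, Bool.false_eq_true, if_false]
        rw [ih']
        have : (a :: ns)[(0 : Fin (ns.length + 1))] = a := rfl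
        rw [this, if_neg ha, zero_add]
        rfl

lemma zval_eq (I : EOLData) (v : List ℚ) (hl : v.length = (nodes I).length) (N : Nm) :
    ((zval I v N : ℚ) : ℝ) = nval (nodes I) (fun i => ((v.getD i 0 : ℚ) : ℝ)) (0 :: N) := by
  unfold zval nval
  rw [lookup_eq _ _ _ (nodup_nodes I) (by simpa using hl)]
  have e : ((nodes I).map (fun p => p.1)).length = (nodes I).length := List.length_map _
  refine Fintype.sum_equiv (finCongr e) _ _ ?_
  intro j
  simp

theorem decode_correct (I : EOLData) (hI : I.Valid) (v : List ℚ) (hl : v.length = (nodes I).length)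
    (hv : (mkPan (nodes I)).Panchromatic (fun i => ((v.getD i 0 : ℚ) : ℝ))) :
    I.Solves (decodeSol (I, v)) := by
  have hz := sol_of_panchromatic I hv
  set z : Nm → ℝ := fun N => nval (nodes I) (fun i => ((v.getD i 0 : ℚ) : ℝ)) (0 :: N) with hzdef
  have hzv : ∀ N, ((zval I v N : ℚ) : ℝ) = z N := fun N => zval_eq I v hl N
  have h1 : ∀ N, zval I v N = 1 ↔ z N = 1 := by
    intro N; rw [← hzv]; norm_cast
  have h2 : ∀ N, zval I v N = -1 ↔ z N = -1 := by
    intro N; rw [← hzv]; norm_cast
  have h3 : ∀ N, zval I v N = 0 ↔ z N = 0 := by
    intro N; rw [← hzv]; norm_cast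
  have hex : ∀ j s, sideOK I v j s = true → Exact I z j s (sideWord I v j s) := by
    intro j s hok
    refine ⟨by simp [sideWord], ?_⟩
    intro i hi
    unfold sideOK at hok
    rw [List.all_eq_true] at hok
    have := hok i (List.mem_range.2 hi)
    simp only [Bool.or_eq_true, decide_eq_true_eq, h1, h2] at this
    have hw : (sideWord I v j s).getD i false = decide (zval I v (bitN I.n j s i) = 1) := by
      unfold sideWord
      rw [List.getD_eq_getElem _ _ (by simpa using hi)]
      simp
    rw [hw]
    rcases this with h | h
    · have : zval I v (bitN I.n j s i) = 1 := (h1 _).2 h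
      rw [h, decide_eq_true this]; rfl
    · have : ¬ zval I v (bitN I.n j s i) = 1 := by
        rw [h1, h]; norm_num
      rw [h, decide_eq_false this]; simp [sg]
  have hok : ∀ j s w, Exact I z j s w → sideOK I v j s = true := by
    intro j s w hw
    unfold sideOK
    rw [List.all_eq_true]
    intro i hi
    have := hw.2 i (List.mem_range.1 hi)
    simp only [Bool.or_eq_true, decide_eq_true_eq, h1, h2]
    rw [this]
    cases w.getD i false
    · right; simp [sg]
    · left; rfl
  have hall : ∀ w ∈ cands I v, I.Solves w := by
    intro w hw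
    unfold cands at hw
    rw [List.mem_flatMap] at hw
    obtain ⟨j, hj, hw⟩ := hw
    have hj8 := List.mem_range.1 hj
    rcases List.mem_append.1 hw with hw | hw
    · by_cases hc : (sideOK I v j 0 && !(decide (zval I v [7, j, 0, 0] = 0))) = true
      · rw [hc] at hw
        simp only [cond_true, List.mem_singleton] at hw
        subst hw
        rw [Bool.and_eq_true, Bool.not_eq_true', decide_eq_false_iff_not, h3] at hc
        exact exact0_solves hI hz hj8 (hex _ _ hc.1) hc.2
      · rw [Bool.not_eq_true] at hc
        rw [hc] at hw
        simp at hw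
    · by_cases hc : (sideOK I v j 1 && (!(decide (zval I v [7, j, 1, 0] = 0)) &&
          !(decide (zval I v [7, j, 6, 0] = 0)))) = true
      · rw [hc] at hw
        simp only [cond_true, List.mem_singleton] at hw
        subst hw
        rw [Bool.and_eq_true, Bool.and_eq_true, Bool.not_eq_true', Bool.not_eq_true',
          decide_eq_false_iff_not, decide_eq_false_iff_not, h3, h3] at hc
        exact exact1_solves hI hz hj8 (hex _ _ hc.1) hc.2.1 hc.2.2
      · rw [Bool.not_eq_true] at hc
        rw [hc] at hw
        simp at hw
  have hne : cands I v ≠ [] := by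
    obtain ⟨j, hj, hd⟩ := net_decode hI hz
    intro h0
    unfold cands at h0
    rw [List.flatMap_eq_nil_iff] at h0
    have h4 := h0 j (List.mem_range.2 hj)
    rw [List.append_eq_nil_iff] at h4
    rcases hd with ⟨w, hw, hne⟩ | ⟨w, hw, hne, hne'⟩
    · have hc : (sideOK I v j 0 && !(decide (zval I v [7, j, 0, 0] = 0))) = true := by
        rw [Bool.and_eq_true, Bool.not_eq_true', decide_eq_false_iff_not, h3]
        exact ⟨hok _ _ _ hw, hne⟩
      rw [hc] at h4
      simp at h4
    · have hc : (sideOK I v j 1 && (!(decide (zval I v [7, j, 1, 0] = 0)) &&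
          !(decide (zval I v [7, j, 6, 0] = 0)))) = true := by
        rw [Bool.and_eq_true, Bool.and_eq_true, Bool.not_eq_true', Bool.not_eq_true',
          decide_eq_false_iff_not, decide_eq_false_iff_not, h3, h3]
        exact ⟨hok _ _ _ hw, hne, hne'⟩
      rw [hc] at h4
      simp at h4
  show I.Solves (lcase (cands I v) [] (fun w _ => w))
  obtain ⟨w, t, hwt⟩ := List.exists_cons_of_ne_nil hne
  rw [hwt]
  exact hall w (by rw [hwt]; exact List.mem_cons_self)

end Pool.Agent.Helper58
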