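import Pool.Agent.Helper58.Trees

set_option autoImplicit false

namespace Pool.Agent.Helper58

open Function

lemma DTree.ofNat_inj : Injective DTree.ofNat := by
  intro a
  induction a with
  | zero => intro b h; cases b with
    | zero => rfl
    | succ b => simp [DTree.ofNat] at h
  | succ a ih => intro b h; cases b with
    | zero => simp [DTree.ofNat] at h
    | succ b =>
      simp only [DTree.ofNat, DTree.cons.injEq, true_and] at h
      rw [ih h]

lemma DTree.ofBool_inj : Injective DTree.ofBool := by
  intro a b h
  cases a <;> cases b <;> simp_all [DTree.ofBool]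

lemma DTree.ofList_inj {α : Type} {f : α → DTree} (hf : Injective f) :
    Injective (DTree.ofList f) := by
  intro a
  induction a with
  | nil => intro b h; cases b with
    | nil => rfl
    | cons b m => simp [DTree.ofList] at h
  | cons a l ih => intro b h; cases b with
    | nil => simp [DTree.ofList] at h
    | cons b m =>
      simp only [DTree.ofList, DTree.cons.injEq] at h
      rw [hf h.1, ih h.2]

lemma DTree.code_append_inj : ∀ (x y : DTree) (l m : List Bool),
    x.code ++ l = y.code ++ m → x = y ∧ l = m := by
  intro x
  induction x with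
  | nil =>
    intro y l m h
    cases y with
    | nil => exact ⟨rfl, by simpa [DTree.code] using h⟩
    | cons c d => simp [DTree.code] at h
  | cons a b iha ihb =>
    intro y l m h
    cases y with
    | nil => simp [DTree.code] at h
    | cons c d =>
      simp only [DTree.code, List.cons_append, List.append_assoc, List.cons.injEq, true_and] at h
      obtain ⟨h1, h2⟩ := iha c _ _ h
      obtain ⟨h3, h4⟩ := ihb d _ _ h2
      exact ⟨by rw [h1, h3], h4⟩

lemma DTree.code_inj : Injective DTree.code := by
  intro x y h
  exact (DTree.code_append_inj x y [] [] (by rw [h])).1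

lemma ofPair_inj {α β : Type} {f : α → DTree} {g : β → DTree} (hf : Injective f) (hg : Injective g) :
    Injective (DTree.ofPair f g) := by
  rintro ⟨a, b⟩ ⟨c, d⟩ h
  simp only [DTree.ofPair, DTree.cons.injEq] at h
  rw [hf h.1, hg h.2]

lemma Circuit.tree_inj : Injective Circuit.tree := by
  rintro ⟨a, b⟩ ⟨c, d⟩ h
  simp only [Circuit.tree, DTree.cons.injEq] at h
  rw [DTree.ofList_inj (ofPair_inj DTree.ofNat_inj DTree.ofNat_inj) h.1,
    DTree.ofList_inj DTree.ofNat_inj h.2]

lemma EOLData.tree_inj : Injective EOLData.tree := by
  rintro ⟨a, b, c⟩ ⟨a', b', c'⟩ h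
  simp only [EOLData.tree, DTree.cons.injEq] at h
  rw [DTree.ofNat_inj h.1, Circuit.tree_inj h.2.1, Circuit.tree_inj h.2.2]

lemma bits_inj : Injective Nat.bits := by
  have h : ∀ n : ℕ, (Nat.bits n).foldr (fun b m => Nat.bit b m) 0 = n := by
    intro n
    induction n using Nat.binaryRec' with
    | zero => simp
    | bit b n hn ih =>
      rw [Nat.bits_append_bit n b hn, List.foldr_cons, ih]
  intro a b hab
  rw [← h a, ← h b, hab]

lemma ofRat_inj : Injective DTree.ofRat := by
  intro p q h
  simp only [DTree.ofRat, DTree.cons.injEq] at h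
  obtain ⟨h1, h2, h3⟩ := h
  have h1' := DTree.ofBool_inj h1
  have h2' := bits_inj (DTree.ofList_inj DTree.ofBool_inj h2)
  have h3' := bits_inj (DTree.ofList_inj DTree.ofBool_inj h3)
  have h4 : (p.num < 0 ↔ q.num < 0) := by
    rwa [decide_eq_decide] at h1'
  refine Rat.ext ?_ h3'
  omega

lemma PanData.tree_inj : Injective PanData.tree := by
  rintro ⟨n, A, c⟩ ⟨m, B, d⟩ h
  simp only [PanData.tree, DTree.cons.injEq] at h
  obtain ⟨h1, h2, h3, h4⟩ := h
  have hn : n = m := DTree.ofNat_inj h1
  subst hn
  have h2' := DTree.ofList_inj (DTree.ofList_inj DTree.ofBool_inj) h2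
  have h3' := DTree.ofList_inj DTree.ofNat_inj h3
  have h4' := DTree.ofList_inj DTree.ofNat_inj h4
  have hA : A = B := by
    funext i j
    exact congrFun (List.ofFn_injective (congrFun (List.ofFn_injective h2') i)) j
  have hc : c = d := by
    funext k
    rcases k with i | i
    · exact Fin.ext (congrFun (List.ofFn_injective h3') i)
    · exact Fin.ext (congrFun (List.ofFn_injective h4') i)
  rw [hA, hc]

end Pool.Agent.Helper58
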