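import Pool.Agent.Helper58.Search
import Pool.Agent.Helper58.TreeInj

set_option autoImplicit false

namespace Pool.Agent.Helper58

open Function

/-- End of the Line, the problem that defines the class PPAD: an instance consists of two circuits
`succ` and `pred` mapping `n` bits to `n` bits with `pred(0ⁿ) = 0ⁿ ≠ succ(0ⁿ)`, a solution is an
`n`-bit string `x` with `pred(succ x) ≠ x` or `succ(pred x) ≠ x ≠ 0ⁿ`. -/
def EndOfLine : SearchProblem where
  Inst := {I : EOLData // I.Valid}
  Sol := List Bool
  encI := fun I => I.1.tree.code
  encS := fun x => x
  encI_inj := fun _ _ h => Subtype.ext (EOLData.tree_inj (DTree.code_inj h))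
  encS_inj := fun _ _ h => h
  rel := fun I x => I.1.Solves x

/-- The problem of finding a panchromatic vertex: an instance is a square 0-1 matrix with a valid
colouring of the facets of the polyhedron `P`, a solution is a list of rational numbers which
is (the coordinate vector of) a panchromatic vertex of `P`. -/
def PanchromaticVertex : SearchProblem where
  Inst := {D : PanData // D.Valid}
  Sol := List ℚ
  encI := fun D => D.1.tree.code
  encS := fun v => (DTree.ofList DTree.ofRat v).code
  encI_inj := fun _ _ h => Subtype.ext (PanData.tree_inj (DTree.code_inj h))
  encS_inj := fun _ _ h => DTree.ofList_inj ofRat_inj (DTree.code_inj h)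
  rel := fun D v => v.length = D.1.n ∧ D.1.Panchromatic (fun i => ((v.getD i 0 : ℚ) : ℝ))

/-- `R` is PPAD-hard: End of the Line reduces to `R` in polynomial time, and so does every search
problem that reduces to End of the Line, that is, every problem of the class PPAD. -/
def PPADHard (R : SearchProblem) : Prop :=
  Reduces EndOfLine R ∧ ∀ Q : SearchProblem, Reduces Q EndOfLine → Reduces Q R

end Pool.Agent.Helper58
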