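import Pool.Agent.Helper58.Equiv
import Pool.Agent.Helper58.Problems
import Pool.Agent.Helper58.PolyDecode

set_option autoImplicit false

namespace Pool.Agent.Helper58

open Function

/-- pairs of bits representing the letters of the alphabet with two copies of each bit -/
def tagOf : Bool ⊕ Bool → Bool × Bool := Sum.elim (fun b => (false, b)) (fun b => (true, b))

lemma tagOf_inj : Injective tagOf := by
  rintro (a | a) (b | b) h <;> simp_all [tagOf]

instance encSum : Enc (Bool ⊕ Bool) where
  enc x := enc (tagOf x)
  inj := fun _ _ h => tagOf_inj (Enc.inj h)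

/-- first component -/
def lefts (l : List (Bool × Bool)) : List Bool := l.flatMap (fun p => bif p.1 then [] else [p.2])

/-- second component -/
def rights (l : List (Bool × Bool)) : List Bool := l.flatMap (fun p => bif p.1 then [p.2] else [])

section

variable {α β γ : Type} [Enc γ]

lemma lefts_pairCode (ea : α → List Bool) (eb : β → List Bool) (p : α × β) :
    lefts ((pairCode ea eb p).map tagOf) = ea p.1 := by
  unfold lefts pairCode
  rw [List.map_append, List.flatMap_append, List.map_map, List.map_map, List.flatMap_map,
    List.flatMap_map]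
  have h1 : ∀ l : List Bool, l.flatMap (fun a => bif ((tagOf ∘ Sum.inl) a).1 then []
      else [((tagOf ∘ Sum.inl) a).2]) = l := by
    intro l
    induction l with
    | nil => rfl
    | cons a l ih => rw [List.flatMap_cons, ih]; rfl
  have h2 : ∀ l : List Bool, l.flatMap (fun a => bif ((tagOf ∘ Sum.inr) a).1 then []
      else [((tagOf ∘ Sum.inr) a).2]) = [] := by
    intro l
    induction l with
    | nil => rfl
    | cons a l ih => rw [List.flatMap_cons, ih]; rfl
  rw [h1, h2, List.append_nil]

lemma rights_pairCode (ea : α → List Bool) (eb : β → List Bool) (p : α × β) :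
    rights ((pairCode ea eb p).map tagOf) = eb p.2 := by
  unfold rights pairCode
  rw [List.map_append, List.flatMap_append, List.map_map, List.map_map, List.flatMap_map,
    List.flatMap_map]
  have h1 : ∀ l : List Bool, l.flatMap (fun a => bif ((tagOf ∘ Sum.inl) a).1 then
      [((tagOf ∘ Sum.inl) a).2] else []) = [] := by
    intro l
    induction l with
    | nil => rfl
    | cons a l ih => rw [List.flatMap_cons, ih]; rfl
  have h2 : ∀ l : List Bool, l.flatMap (fun a => bif ((tagOf ∘ Sum.inr) a).1 then
      [((tagOf ∘ Sum.inr) a).2] else []) = l := by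
    intro l
    induction l with
    | nil => rfl
    | cons a l ih => rw [List.flatMap_cons, ih]; rfl
  rw [h1, h2, List.nil_append]

lemma pairTag_inj {ea : α → List Bool} {eb : β → List Bool} (ha : Injective ea) (hb : Injective eb) :
    Injective (fun p : α × β => (pairCode ea eb p).map tagOf) := by
  intro p q h
  simp only at h
  have h1 := lefts_pairCode ea eb p
  have h2 := rights_pairCode ea eb p
  rw [h, lefts_pairCode] at h1
  rw [h, rights_pairCode] at h2
  exact Prod.ext (ha h1.symm) (hb h2.symm)

lemma pairCode_inj {ea : α → List Bool} {eb : β → List Bool} (ha : Injective ea) (hb : Injective eb) :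
    Injective (pairCode ea eb) := by
  intro p q h
  apply pairTag_inj ha hb
  simp only [h]

@[fun_prop] theorem PTf.lefts {l : γ → List (Bool × Bool)} (hl : PTf l) : PTf (fun x => lefts (l x)) := by
  unfold Helper58.lefts; fun_prop

@[fun_prop] theorem PTf.rights {l : γ → List (Bool × Bool)} (hl : PTf l) :
    PTf (fun x => rights (l x)) := by
  unfold Helper58.rights; fun_prop

lemma tag1_inj {ea : α → List Bool} (ha : Injective ea) :
    Injective (fun a => (ea a).map (fun b => (false, b))) := by
  intro a b h
  apply ha
  have := congrArg (List.map (fun p : Bool × Bool => p.2)) h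
  simpa [List.map_map, Function.comp_def] using this

end

/-- the reduction, composed with a given reduction to End of the Line -/
theorem reduces_of_reduces (Q : SearchProblem) (h : Reduces Q EndOfLine) :
    Reduces Q PanchromaticVertex := by
  obtain ⟨f1, g1, hf1, hg1, hrel⟩ := h
  have F1 : PTf (fun x : Coded Q.encI Q.encI_inj => (f1 x.val).1) :=
    PTf.of_code (ptf_of_polyTime Q.encI EndOfLine.encI Q.encI_inj hf1)
  refine ⟨fun x => ⟨mkPan (nodes (f1 x).1), valid_mkPan (f1 x).1⟩,
    fun p => g1 (p.1, decodeSol ((f1 p.1).1, p.2)), ?_, ?_, ?_⟩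
  · refine polyTime_of_ptf Q.encI (fun b => (false, b)) (tag1_inj Q.encI_inj) _ ?_
    have h0 : PTf (fun x : Coded (fun a => (Q.encI a).map (fun b => (false, b)))
        (tag1_inj Q.encI_inj) => (Q.encI x.val).map (fun b => (false, b))) :=
      PTf.of_enc_eq (fun _ => rfl)
    have h1 : PTf (fun x : Coded (fun a => (Q.encI a).map (fun b => (false, b)))
        (tag1_inj Q.encI_inj) => (⟨x.val⟩ : Coded Q.encI Q.encI_inj)) := by
      have h2 : PTf (fun x : Coded (fun a => (Q.encI a).map (fun b => (false, b)))
        (tag1_inj Q.encI_inj) => ((Q.encI x.val).map (fun b => (false, b))).map (fun p => p.2)) := by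
        fun_prop
      refine h2.recode (i := fun c => c) (fun _ => rfl) (fun x => ?_)
      show enc (Q.encI x.val) = _
      rw [List.map_map]
      congr 1
      simp [Function.comp_def]
    have h3 := PTf.comp F1 h1
    have h4 : PTf (fun x : Coded (fun a => (Q.encI a).map (fun b => (false, b)))
        (tag1_inj Q.encI_inj) => panCode (nodes (f1 x.val).1)) := by fun_prop
    refine h4.code.congr (fun x => ?_)
    show (mkPan (nodes (f1 x.val).1)).tree.code = _
    rw [tree_mkPan]
  · set hj := pairTag_inj Q.encI_inj PanchromaticVertex.encS_inj with hjdef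
    refine polyTime_of_ptf (pairCode Q.encI PanchromaticVertex.encS) tagOf hj Q.encS ?_
    have h0 : PTf (fun x : Coded (fun p => (pairCode Q.encI PanchromaticVertex.encS p).map tagOf) hj =>
        (pairCode Q.encI PanchromaticVertex.encS x.val).map tagOf) := PTf.of_enc_eq (fun _ => rfl)
    have hb : PTf (fun x : Coded (fun p => (pairCode Q.encI PanchromaticVertex.encS p).map tagOf) hj =>
        Q.encI x.val.1) :=
      (PTf.lefts h0).congr (fun x => (lefts_pairCode _ _ _).symm)
    have hc : PTf (fun x : Coded (fun p => (pairCode Q.encI PanchromaticVertex.encS p).map tagOf) hj =>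
        PanchromaticVertex.encS x.val.2) :=
      (PTf.rights h0).congr (fun x => (rights_pairCode _ _ _).symm)
    have hd : PTf (β := List ℚ)
        (fun x : Coded (fun p => (pairCode Q.encI PanchromaticVertex.encS p).map tagOf) hj =>
          x.val.2) := PTf.of_code (β := List ℚ) hc
    have he : PTf (fun x : Coded (fun p => (pairCode Q.encI PanchromaticVertex.encS p).map tagOf) hj =>
        (⟨x.val.1⟩ : Coded Q.encI Q.encI_inj)) :=
      hb.recode (i := fun c => c) (fun _ => rfl) (fun _ => rfl)
    have hf := PTf.comp F1 he
    have hg : PTf (fun x : Coded (fun p => (pairCode Q.encI PanchromaticVertex.encS p).map tagOf) hj =>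
        decodeSol ((f1 x.val.1).1, x.val.2)) :=
      PTf.comp ptf_decodeSol (PTf.pair hf hd)
    have hinl : PTf (fun b : Bool => (Sum.inl b : Bool ⊕ Bool)) := PTf.ofFinite _
    have hinr : PTf (fun b : Bool => (Sum.inr b : Bool ⊕ Bool)) := PTf.ofFinite _
    have hh : PTf (fun x : Coded (fun p => (pairCode Q.encI PanchromaticVertex.encS p).map tagOf) hj =>
        pairCode Q.encI EndOfLine.encS (x.val.1, decodeSol ((f1 x.val.1).1, x.val.2))) :=
      PTf.append (PTf.map hb (PTf.comp hinl (PTf.snd PTf.id)))
        (PTf.map hg (PTf.comp hinr (PTf.snd PTf.id)))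
    have G1 := ptf_of_polyTime (pairCode Q.encI EndOfLine.encS) Q.encS
      (pairCode_inj Q.encI_inj EndOfLine.encS_inj) hg1
    have hk : PTf (fun x : Coded (fun p => (pairCode Q.encI PanchromaticVertex.encS p).map tagOf) hj =>
        (⟨(x.val.1, decodeSol ((f1 x.val.1).1, x.val.2))⟩ : Coded (pairCode Q.encI EndOfLine.encS)
          (pairCode_inj Q.encI_inj EndOfLine.encS_inj))) :=
      hh.recode (i := fun c => c) (fun _ => rfl) (fun _ => rfl)
    exact PTf.comp (g := fun y : Coded (pairCode Q.encI EndOfLine.encS)
      (pairCode_inj Q.encI_inj EndOfLine.encS_inj) => Q.encS (g1 y.val)) G1 hk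
  · rintro x v ⟨h1, h2⟩
    exact hrel x _ (decode_correct (f1 x).1 (f1 x).2 v h1 h2)

end Pool.Agent.Helper58
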