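import Pool.Agent.Helper58.Topo

set_option autoImplicit false

namespace Pool.Agent.Helper58

noncomputable section

open Finset

/-- contribution of the wire leaving column cell `a` -/
def locA (S P : ℕ → ℕ) (a : ℕ) (x y : ℝ) : ℝ :=
  if P (S a) = a then max (tp a x y) (tt (S a) y) else 1

/-- contribution of the wire entering row cell `u` -/
def locB (S P : ℕ → ℕ) (a u : ℕ) (y : ℝ) : ℝ :=
  if S (P u) = u ∧ a < P u then tt u y else 1

/-- contribution of the fixed wire of column cell `a` -/
def locC (a : ℕ) (x y : ℝ) : ℝ := if a ≠ 0 then max (tt a x) (tt a y) else 1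

/-- contribution of the fixed wire of row cell `u` -/
def locD (a u : ℕ) (y : ℝ) : ℝ := if a < u then tt u y else 1

lemma max_pm {s t : ℝ} (hs : s = 1 ∨ s = -1) (ht : t = 1 ∨ t = -1) : max s t = 1 ∨ max s t = -1 := by
  rcases hs with rfl | rfl <;> rcases ht with rfl | rfl <;> norm_num

lemma tt_off {v a : ℕ} {x : ℝ} (h : v ≠ a) (h1 : (a : ℝ) ≤ x) (h2 : x ≤ a + 1) :
    (v < a ∧ tt v x = 1) ∨ (a < v ∧ tt v x = -1) := by
  rcases lt_or_gt_of_ne h with h' | h'
  · left; refine ⟨h', ?_⟩
    have : (v : ℝ) + 1 ≤ a := by exact_mod_cast h'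
    exact tt_right (by linarith)
  · right; refine ⟨h', ?_⟩
    have : (a : ℝ) + 1 ≤ v := by exact_mod_cast h'
    exact tt_left (by linarith)

lemma tp_off {v a : ℕ} {x y : ℝ} (h : v ≠ a) (h1 : (a : ℝ) ≤ x) (h2 : x ≤ a + 1) :
    (v < a ∧ tp v x y = 1) ∨ (a < v ∧ tp v x y = -1) := by
  unfold tp
  split_ifs with hv
  · left
    have ha : 0 < a := by omega
    refine ⟨by omega, ?_⟩
    have : (1 : ℝ) ≤ a := by exact_mod_cast ha
    apply clamp_of_ge
    have : min y (1/2) ≤ 1/2 := min_le_right _ _
    linarith
  · exact tt_off h h1 h2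

theorem psi_local (M : ℕ) (S P : ℕ → ℕ) (hP : ∀ v < M, P v < M)
    (a u : ℕ) (ha : a < M) (hu : u < M) (x y : ℝ) (hx1 : (a : ℝ) ≤ x) (hx2 : x ≤ a + 1)
    (hy1 : (u : ℝ) ≤ y) (hy2 : y ≤ u + 1) :
    ((Psi M S P x y : ℝ) : Circ2)
      = ((locC a x y + locD a u y - locA S P a x y - locB S P a u y : ℝ) : Circ2) := by
  have mV : ∀ v, v ∈ Vset M S P ↔ (v < M ∧ P (S v) = v) := by
    intro v; simp [Vset]
  have mW : ∀ v, v ∈ Wset M ↔ (v < M ∧ v ≠ 0) := by
    intro v; simp [Wset]
  have hV : ∀ v ∈ Vset M S P, ((1 - max (tp v x y) (tt (S v) y) : ℝ) : Circ2)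
      = (if v = a then ((1 - locA S P a x y : ℝ) : Circ2) else 0)
        + (if v = P u then ((1 - locB S P a u y : ℝ) : Circ2) else 0) := by
    intro v hv
    have hv' := (mV v).1 hv
    by_cases hva : v = a
    · subst hva
      rw [if_pos rfl]
      have h1 : locA S P v x y = max (tp v x y) (tt (S v) y) := by
        unfold locA; rw [if_pos hv'.2]
      rw [h1]
      split_ifs with h2
      · have : locB S P v u y = 1 := by
          unfold locB; rw [if_neg]; rintro ⟨_, h3⟩; omega
        rw [this, sub_self, AddCircle.coe_zero, add_zero]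
      · rw [add_zero]
    · rw [if_neg hva, zero_add]
      rcases tp_off (y := y) hva hx1 hx2 with ⟨h1, h2⟩ | ⟨h1, h2⟩
      · rw [h2, max_eq_left (tt_le _ _), sub_self, AddCircle.coe_zero]
        split_ifs with h3
        · have : locB S P a u y = 1 := by
            unfold locB; rw [if_neg]; rintro ⟨_, h4⟩; omega
          rw [this, sub_self, AddCircle.coe_zero]
        · rfl
      · rw [h2, max_eq_right (le_tt _ _)]
        by_cases hSv : S v = u
        · have hPu : v = P u := by rw [← hSv, hv'.2]
          rw [if_pos hPu]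
          have : locB S P a u y = tt u y := by
            unfold locB; rw [if_pos]
            rw [← hPu]; exact ⟨hSv, h1⟩
          rw [this, hSv]
        · have hev : tt (S v) y = 1 ∨ tt (S v) y = -1 := by
            rcases tt_off hSv hy1 hy2 with ⟨_, h⟩ | ⟨_, h⟩
            · exact Or.inl h
            · exact Or.inr h
          rw [coe_one_sub_pm hev]
          split_ifs with h3
          · have : locB S P a u y = 1 := by
              unfold locB; rw [if_neg]
              rintro ⟨h4, _⟩
              rw [← h3] at h4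
              exact hSv h4
            rw [this, sub_self, AddCircle.coe_zero]
          · rfl
  have hW : ∀ v ∈ Wset M, ((1 - max (tt v x) (tt v y) : ℝ) : Circ2)
      = (if v = a then ((1 - locC a x y : ℝ) : Circ2) else 0)
        + (if v = u then ((1 - locD a u y : ℝ) : Circ2) else 0) := by
    intro v hv
    have hv' := (mW v).1 hv
    by_cases hva : v = a
    · subst hva
      rw [if_pos rfl]
      have h1 : locC v x y = max (tt v x) (tt v y) := by
        unfold locC; rw [if_pos hv'.2]
      rw [h1]
      split_ifs with h2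
      · have : locD v u y = 1 := by
          unfold locD; rw [if_neg]; omega
        rw [this, sub_self, AddCircle.coe_zero, add_zero]
      · rw [add_zero]
    · rw [if_neg hva, zero_add]
      rcases tt_off hva hx1 hx2 with ⟨h1, h2⟩ | ⟨h1, h2⟩
      · rw [h2, max_eq_left (tt_le _ _), sub_self, AddCircle.coe_zero]
        split_ifs with h3
        · have : locD a u y = 1 := by
            unfold locD; rw [if_neg]; omega
          rw [this, sub_self, AddCircle.coe_zero]
        · rfl
      · rw [h2, max_eq_right (le_tt _ _)]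
        by_cases hvu : v = u
        · rw [if_pos hvu]
          have : locD a u y = tt u y := by
            unfold locD; rw [if_pos]; omega
          rw [this, hvu]
        · rw [if_neg hvu]
          have hev : tt v y = 1 ∨ tt v y = -1 := by
            rcases tt_off hvu hy1 hy2 with ⟨_, h⟩ | ⟨_, h⟩
            · exact Or.inl h
            · exact Or.inr h
          exact coe_one_sub_pm hev
  rw [coe_Psi, Finset.sum_congr rfl hV, Finset.sum_congr rfl hW]
  rw [Finset.sum_add_distrib, Finset.sum_add_distrib]
  rw [Finset.sum_ite_eq', Finset.sum_ite_eq', Finset.sum_ite_eq', Finset.sum_ite_eq']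
  have e1 : (if a ∈ Vset M S P then ((1 - locA S P a x y : ℝ) : Circ2) else 0)
      = ((1 - locA S P a x y : ℝ) : Circ2) := by
    split_ifs with h
    · rfl
    · have : locA S P a x y = 1 := by
        unfold locA; rw [if_neg]; intro h'; exact h ((mV a).2 ⟨ha, h'⟩)
      rw [this, sub_self, AddCircle.coe_zero]
  have e2 : (if P u ∈ Vset M S P then ((1 - locB S P a u y : ℝ) : Circ2) else 0)
      = ((1 - locB S P a u y : ℝ) : Circ2) := by
    split_ifs with h
    · rfl
    · have : locB S P a u y = 1 := by
        unfold locB; rw [if_neg]; rintro ⟨h', _⟩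
        exact h ((mV _).2 ⟨hP u hu, by rw [h']⟩)
      rw [this, sub_self, AddCircle.coe_zero]
  have e3 : (if a ∈ Wset M then ((1 - locC a x y : ℝ) : Circ2) else 0)
      = ((1 - locC a x y : ℝ) : Circ2) := by
    split_ifs with h
    · rfl
    · have : locC a x y = 1 := by
        unfold locC; rw [if_neg]; intro h'; exact h ((mW a).2 ⟨ha, h'⟩)
      rw [this, sub_self, AddCircle.coe_zero]
  have e4 : (if u ∈ Wset M then ((1 - locD a u y : ℝ) : Circ2) else 0)
      = ((1 - locD a u y : ℝ) : Circ2) := by
    split_ifs with h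
    · rfl
    · have : locD a u y = 1 := by
        unfold locD; rw [if_neg]; intro h'; exact h ((mW _).2 ⟨hu, by omega⟩)
      rw [this, sub_self, AddCircle.coe_zero]
  rw [e1, e2, e3, e4, ← AddCircle.coe_add, ← AddCircle.coe_add, ← AddCircle.coe_sub]
  congr 1
  ring

end

end Pool.Agent.Helper58
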