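import Pool.Agent.Helper58.Words
import Pool.Agent.Helper58.CircuitDefs

set_option autoImplicit false

namespace Pool.Agent.Helper58

/-- names of nodes -/
abbrev Nm := List ℕ

/-- a signed input -/
abbrev Lit := Bool × Nm

/-- a gate: its name and its signed inputs -/
abbrev Gate := Nm × List Lit

def lp (N : Nm) : Lit := (true, N)
def ln (N : Nm) : Lit := (false, N)

/-- name of the `i`-th bit extracted from sample `j`, side `s` -/
def bitN (n j s i : ℕ) : Nm := [4, j, s, i, n + 14]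

def gHalf (n : ℕ) : List Gate :=
  ([2, 0], [lp [0]]) :: (List.range (n + 12)).map (fun k => ([2, k + 1], [lp [2, k], ln [2, k + 1]]))

def gDig (n j s : ℕ) : List Gate :=
  ([3, j, s, 0], lp [1, s] :: List.replicate j (lp [2, n + 12])) ::
  (List.range n).flatMap (fun i =>
    ([4, j, s, i, 0], [lp [3, j, s, i]]) ::
    ([3, j, s, i + 1], [lp [3, j, s, i], lp [3, j, s, i], ln (bitN n j s i)]) ::
    (List.range (n + 14)).map (fun k => ([4, j, s, i, k + 1], [lp [4, j, s, i, k], lp [4, j, s, i, k]])))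

/-- gates of a circuit copy whose inputs are read from the names `a ++ [i] ++ b` -/
def gCirc (n j c : ℕ) (a b : List ℕ) (C : Circuit) : List Gate :=
  (List.range n).map (fun i => ([5, j, c, i], [lp (a ++ i :: b)])) ++
  (C.gates.zipIdx.map (fun g => ([5, j, c, n + g.2], [lp [0], ln [5, j, c, g.1.1], ln [5, j, c, g.1.2]])) ++
  C.outs.zipIdx.map (fun w => ([6, j, c, w.2], [lp [5, j, c, w.1]])))

/-- gates of a comparator of the words with names `a ++ [i] ++ b` and `a' ++ [i] ++ b'` -/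
def gCmp (n j c : ℕ) (a b a' b' : List ℕ) : List Gate :=
  ([7, j, c, n], []) :: (List.range n).map (fun i =>
    ([7, j, c, i], [lp [7, j, c, i + 1], lp (a ++ i :: b), ln (a' ++ i :: b')]))

/-- gates of a comparator of the word with names `a ++ [i] ++ b` and the zero word -/
def gCmpZ (n j c : ℕ) (a b : List ℕ) : List Gate :=
  ([7, j, c, n], []) :: (List.range n).map (fun i =>
    ([7, j, c, i], [lp [7, j, c, i + 1], lp (a ++ i :: b), lp [0]]))

def rp (k : ℕ) (l : Lit) : List Lit := List.replicate k l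

def gMisc (n j : ℕ) : List Gate :=
  [ ([8, j, 0], [ln [3, j, 1, n], ln [7, j, 6, 0], ln [7, j, 5, 0], ln [0]]),
    ([8, j, 1], rp 4 (lp [3, j, 0, n]) ++ (rp 4 (lp [8, j, 0]) ++ rp 4 (lp [0]))),
    ([8, j, 2], rp 4 (lp [3, j, 1, n]) ++ rp 5 (ln [7, j, 2, 0])),
    ([8, j, 3], [lp [8, j, 2], ln [8, j, 1], ln [0]]),
    ([8, j, 4], [ln [7, j, 0, 0], ln [7, j, 0, 0], ln [0]]),
    ([8, j, 5], [lp [8, j, 1], lp [0], lp [8, j, 3], lp [0], lp [0], lp [7, j, 0, 0], lp [7, j, 0, 0],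
        lp [8, j, 4], lp [8, j, 4]]),
    ([8, j, 6], [ln [7, j, 1, 0], ln [7, j, 1, 0], ln [0]]),
    ([8, j, 7], rp 4 (lp [3, j, 1, n]) ++ (rp 10 (lp [0]) ++ (rp 5 (ln [7, j, 3, 0]) ++
        (rp 5 (lp [7, j, 1, 0]) ++ rp 5 (lp [8, j, 6]))))),
    ([8, j, 8], rp 4 (lp [3, j, 1, n]) ++ rp 5 (ln [7, j, 4, 0])),
    ([8, j, 9], [lp [8, j, 8], ln [8, j, 1], ln [0]]),
    ([8, j, 10], [lp [8, j, 1], lp [0], lp [8, j, 9], lp [0], lp [0], ln [7, j, 5, 0], ln [7, j, 5, 0]]),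
    ([8, j, 11], rp 4 (lp [3, j, 1, n]) ++ (rp 5 (lp [0]) ++ rp 5 (lp [7, j, 4, 0]))) ]

/-- the literals summing to `4 ψ` -/
def psi4 (j : ℕ) : List Lit :=
  rp 4 (lp [8, j, 10]) ++ (rp 4 (lp [8, j, 11]) ++ (rp 4 (ln [8, j, 5]) ++ rp 4 (ln [8, j, 7])))

def gWave (j : ℕ) : List Gate :=
  [ ([9, j, 0, 0], psi4 j ++ rp 13 (lp [0])), ([9, j, 0, 1], psi4 j ++ rp 9 (lp [0])),
    ([9, j, 0, 2], psi4 j ++ rp 5 (lp [0])), ([9, j, 0, 3], psi4 j ++ rp 1 (lp [0])),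
    ([9, j, 0, 4], psi4 j ++ rp 3 (ln [0])), ([9, j, 0, 5], psi4 j ++ rp 7 (ln [0])),
    ([9, j, 0, 6], psi4 j ++ rp 11 (ln [0])), ([9, j, 0, 7], psi4 j ++ rp 15 (ln [0])),
    ([9, j, 1, 0], psi4 j ++ rp 15 (lp [0])), ([9, j, 1, 1], psi4 j ++ rp 11 (lp [0])),
    ([9, j, 1, 2], psi4 j ++ rp 7 (lp [0])), ([9, j, 1, 3], psi4 j ++ rp 3 (lp [0])),
    ([9, j, 1, 4], psi4 j ++ rp 1 (ln [0])), ([9, j, 1, 5], psi4 j ++ rp 5 (ln [0])),
    ([9, j, 1, 6], psi4 j ++ rp 9 (ln [0])), ([9, j, 1, 7], psi4 j ++ rp 13 (ln [0])) ]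

/-- the literals summing to the wave value of sample `j` on side `s` -/
def waveL (s j : ℕ) : List Lit :=
  [ln [0], lp [9, j, s, 0], ln [9, j, s, 1], lp [9, j, s, 2], ln [9, j, s, 3],
    lp [9, j, s, 4], ln [9, j, s, 5], lp [9, j, s, 6], ln [9, j, s, 7]]

def gMain (s : ℕ) : Gate := ([1, s], lp [1, s] :: (List.range 8).flatMap (waveL s))

def gSample (I : EOLData) (j : ℕ) : List Gate :=
  gDig I.n j 0 ++ (gDig I.n j 1 ++
  (gCirc I.n j 0 [4, j, 0] [I.n + 14] I.succ ++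
  (gCirc I.n j 1 [6, j, 0] [] I.pred ++
  (gCirc I.n j 2 [4, j, 1] [I.n + 14] I.pred ++
  (gCirc I.n j 3 [6, j, 2] [] I.succ ++
  (gCmp I.n j 0 [6, j, 1] [] [4, j, 0] [I.n + 14] ++
  (gCmp I.n j 1 [6, j, 3] [] [4, j, 1] [I.n + 14] ++
  (gCmp I.n j 2 [6, j, 0] [] [4, j, 1] [I.n + 14] ++
  (gCmp I.n j 3 [6, j, 2] [] [4, j, 0] [I.n + 14] ++
  (gCmp I.n j 4 [4, j, 0] [I.n + 14] [4, j, 1] [I.n + 14] ++
  (gCmpZ I.n j 5 [4, j, 0] [I.n + 14] ++
  (gCmpZ I.n j 6 [4, j, 1] [I.n + 14] ++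
  (gMisc I.n j ++ gWave j)))))))))))))

/-- all gates of the network of the instance `I` -/
def net (I : EOLData) : List Gate :=
  gMain 0 :: gMain 1 :: (gHalf I.n ++ (List.range 8).flatMap (gSample I))

noncomputable section

/-- signed value -/
def lval (z : Nm → ℝ) (l : Lit) : ℝ := if l.1 then z l.2 else - z l.2

/-- solutions of a clamped linear network -/
def IsSol (gs : List Gate) (z : Nm → ℝ) : Prop :=
  z [0] = 1 ∧ ∀ g ∈ gs, z g.1 = clamp ((g.2.map (lval z)).sum)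

lemma lval_lp (z : Nm → ℝ) (N : Nm) : lval z (lp N) = z N := rfl
lemma lval_ln (z : Nm → ℝ) (N : Nm) : lval z (ln N) = - z N := by simp [lval, ln]

lemma sum_rp (z : Nm → ℝ) (k : ℕ) (l : Lit) : ((rp k l).map (lval z)).sum = k * lval z l := by
  simp [rp]

end

end Pool.Agent.Helper58
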