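import Pool.Agent.Helper58.Net
import Pool.Agent.Helper58.Local

set_option autoImplicit false

namespace Pool.Agent.Helper58

noncomputable section

/-! ### small gate lemmas -/

lemma clamp_double (t : ℝ) : clamp (clamp t + clamp t) = clamp (2 * t) := by
  rcases clamp_cases t with ⟨h1, h2⟩ | ⟨h1, h2⟩ | ⟨h1, h1', h2⟩
  · rw [h2, clamp_of_ge (by norm_num), clamp_of_ge (by linarith)]
  · rw [h2, clamp_of_le (by norm_num), clamp_of_le (by linarith)]
  · rw [h2]; congr 1; ring

lemma half_gate {c w : ℝ} (h0 : 0 ≤ c) (h1 : c ≤ 1) (h : w = clamp (c - w)) : w = c / 2 := by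
  rcases clamp_cases (c - w) with ⟨g1, g2⟩ | ⟨g1, g2⟩ | ⟨g1, g1', g2⟩
  · rw [g2] at h; rw [h] at g1; linarith
  · rw [g2] at h; rw [h] at g1; linarith
  · rw [g2] at h; linarith

lemma max_gate {s t : ℝ} (hs : -1 ≤ s) (_hs1 : s ≤ 1) (_ht : -1 ≤ t) (ht1 : t ≤ 1) :
    s + 1 + clamp (t - s - 1) = max s t := by
  rcases le_total t s with h | h
  · rw [clamp_of_le (by linarith), max_eq_left h]; ring
  · rw [clamp_of_mem (by linarith) (by linarith), max_eq_right h]; ring

lemma sgn3_cases (p q : ℕ) :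
    (q < p ∧ sgn3 p q = 1) ∨ (p = q ∧ sgn3 p q = 0) ∨ (p < q ∧ sgn3 p q = -1) := by
  unfold sgn3
  rcases lt_trichotomy p q with h | h | h
  · right; right; refine ⟨h, ?_⟩; rw [if_neg (by omega), if_neg (by omega)]
  · right; left; refine ⟨h, ?_⟩; rw [if_neg (by omega), if_pos h]
  · left; refine ⟨h, ?_⟩; rw [if_pos h]

lemma tau_gate {w u : ℕ} {y ρ : ℝ} (hy : y = u + (ρ + 1) / 2) (h1 : -1 ≤ ρ) (h2 : ρ ≤ 1) :
    clamp (4 * ρ - 5 * sgn3 w u) = tt w y := by
  unfold tt
  rcases sgn3_cases w u with ⟨h, hs⟩ | ⟨h, hs⟩ | ⟨h, hs⟩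
  · rw [hs, clamp_of_le (by linarith)]
    rw [clamp_of_le]
    have : (u : ℝ) + 1 ≤ w := by exact_mod_cast h
    rw [hy]; linarith
  · rw [hs, hy, h]; congr 1; ring
  · rw [hs, clamp_of_ge (by linarith)]
    rw [clamp_of_ge]
    have : (w : ℝ) + 1 ≤ u := by exact_mod_cast h
    rw [hy]; linarith

lemma tp_gate {a u : ℕ} {x y ρx ρy : ℝ} (hx : x = a + (ρx + 1) / 2) (hy : y = u + (ρy + 1) / 2)
    (_hx1 : -1 ≤ ρx) (_hx2 : ρx ≤ 1) (hy1 : -1 ≤ ρy) (_hy2 : ρy ≤ 1) :
    clamp (4 * ρx + 4 * clamp (-ρy - sgn3 u 0 - sgn3 a 0 - 1) + 4) = tp a x y := by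
  unfold tp
  by_cases ha : a = 0
  · rw [if_pos ha]
    have hsa : sgn3 a 0 = 0 := by rw [ha]; simp [sgn3]
    rw [hsa]
    by_cases hu : u = 0
    · have hsu : sgn3 u 0 = 0 := by rw [hu]; simp [sgn3]
      rw [hsu]
      rcases le_total ρy 0 with h | h
      · rw [clamp_of_mem (show -1 ≤ -ρy - 0 - 0 - 1 by linarith) (by linarith)]
        rw [min_eq_left (by rw [hy, hu]; push_cast; linarith)]
        congr 1; rw [hx, hy, ha, hu]; push_cast; ring
      · rw [clamp_of_le (show -ρy - 0 - 0 - 1 ≤ -1 by linarith)]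
        rw [min_eq_right (by rw [hy, hu]; push_cast; linarith)]
        congr 1; rw [hx, ha]; push_cast; ring
    · have hsu : sgn3 u 0 = 1 := by
        unfold sgn3; rw [if_pos (Nat.pos_of_ne_zero hu)]
      rw [hsu, clamp_of_le (show -ρy - 1 - 0 - 1 ≤ -1 by linarith)]
      have h1 : (1 : ℝ) ≤ u := by exact_mod_cast Nat.pos_of_ne_zero hu
      rw [min_eq_right (by rw [hy]; linarith)]
      congr 1; rw [hx, ha]; push_cast; ring
  · rw [if_neg ha]
    have hsa : sgn3 a 0 = 1 := by
      unfold sgn3; rw [if_pos (Nat.pos_of_ne_zero ha)]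
    have hsu : 0 ≤ sgn3 u 0 := by
      rcases sgn3_cases u 0 with ⟨_, h⟩ | ⟨_, h⟩ | ⟨h, _⟩
      · rw [h]; norm_num
      · rw [h]
      · omega
    rw [hsa, clamp_of_le (show -ρy - sgn3 u 0 - 1 - 1 ≤ -1 by linarith)]
    unfold tt
    congr 1; rw [hx]; ring

lemma absc_gate (c : ℝ) (h : c = 1 ∨ c = 0 ∨ c = -1) : 1 + c + clamp (-c - c - 1) = |c| := by
  rcases h with rfl | rfl | rfl
  · rw [clamp_of_le (by norm_num)]; norm_num
  · rw [clamp_of_le (by norm_num)]; norm_num
  · rw [clamp_of_ge (by norm_num)]; norm_num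

lemma sgn3_mem (p q : ℕ) : sgn3 p q = 1 ∨ sgn3 p q = 0 ∨ sgn3 p q = -1 := by
  rcases sgn3_cases p q with h | h | h
  · exact Or.inl h.2
  · exact Or.inr (Or.inl h.2)
  · exact Or.inr (Or.inr h.2)

/-! ### circuits -/

lemma wires_append (g1 g2 : List (ℕ × ℕ)) (o : List ℕ) (x : List Bool) :
    Circuit.wires ⟨g1 ++ g2, o⟩ x = Circuit.wires ⟨g2, o⟩ (Circuit.wires ⟨g1, o⟩ x) := by
  simp [Circuit.wires, List.foldl_append]

lemma wires_length (g : List (ℕ × ℕ)) (o : List ℕ) (x : List Bool) :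
    (Circuit.wires ⟨g, o⟩ x).length = x.length + g.length := by
  induction g generalizing x with
  | nil => simp [Circuit.wires]
  | cons a g ih =>
    have := ih (x ++ [!(x.getD a.1 false && x.getD a.2 false)])
    simp only [Circuit.wires, List.foldl_cons] at this ⊢
    rw [this]; simp; ring

lemma eval_length (C : Circuit) (n : ℕ) (h : C.WellFormed n) (x : List Bool) :
    (C.eval x).length = n := by
  simp [Circuit.eval, h.2.2]

lemma circ_sem (n j c : ℕ) (a b : List ℕ) (C : Circuit) (hC : C.WellFormed n) (z : Nm → ℝ)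
    (h1 : z [0] = 1) (w : List Bool) (hw : w.length = n)
    (hin : ∀ i < n, z (a ++ i :: b) = sg (w.getD i false))
    (heq : ∀ g ∈ gCirc n j c a b C, z g.1 = clamp ((g.2.map (lval z)).sum)) :
    ∀ i < n, z [6, j, c, i] = sg ((C.eval w).getD i false) := by
  obtain ⟨gs, outs⟩ := C
  have sgc : ∀ b : Bool, clamp (sg b) = sg b := by
    intro b; cases b
    · rw [sg_false]; exact clamp_of_le le_rfl
    · rw [sg_true]; exact clamp_of_ge le_rfl
  have key : ∀ m ≤ gs.length, ∀ i < n + m,
      z [5, j, c, i] = sg ((Circuit.wires ⟨gs.take m, outs⟩ w).getD i false) := by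
    intro m
    induction m with
    | zero =>
      intro _ i hi
      have hi' : i < n := by omega
      have := heq ([5, j, c, i], [lp (a ++ i :: b)]) (by
        simp only [gCirc, List.mem_append, List.mem_map, List.mem_range]
        left; exact ⟨i, hi', rfl⟩)
      simp only [List.map_cons, List.map_nil, List.sum_cons, List.sum_nil, add_zero, lval_lp] at this
      rw [this, hin i hi', sgc]
      simp [Circuit.wires]
    | succ m ih =>
      intro hm i hi
      have hm' : m < gs.length := by omega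
      have ht : gs.take (m + 1) = gs.take m ++ [gs[m]] := by
        rw [List.take_succ_eq_append_getElem hm']
      rw [ht, wires_append]
      have hlen : (Circuit.wires ⟨gs.take m, outs⟩ w).length = n + m := by
        rw [wires_length, hw]; simp [List.length_take]; omega
      set W := Circuit.wires ⟨gs.take m, outs⟩ w with hW
      have hs : Circuit.wires ⟨[gs[m]], outs⟩ W = W ++ [!(W.getD gs[m].1 false && W.getD gs[m].2 false)] := by
        simp [Circuit.wires]
      rw [hs]
      by_cases hi2 : i < n + m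
      · rw [ih (by omega) i hi2]
        congr 1
        rw [List.getD_append _ _ _ _ (by omega)]
      · have hi3 : i = n + m := by omega
        subst hi3
        have hwf := hC.1 m gs[m].1 gs[m].2 (by simp [List.getElem?_eq_getElem hm'])
        have := heq ([5, j, c, n + m], [lp [0], ln [5, j, c, gs[m].1], ln [5, j, c, gs[m].2]]) (by
          simp only [gCirc, List.mem_append, List.mem_map]
          right; left
          refine ⟨(gs[m], m), ?_, rfl⟩
          rw [List.mem_zipIdx_iff_getElem?]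
          simp [List.getElem?_eq_getElem hm'])
        simp only [List.map_cons, List.map_nil, List.sum_cons, List.sum_nil, add_zero, lval_lp,
          lval_ln] at this
        rw [this, h1, ih (by omega) _ hwf.1, ih (by omega) _ hwf.2]
        rw [List.getD_append_right _ _ _ _ (by omega), hlen]
        simp only [Nat.sub_self, List.getD_cons_zero]
        rw [← nand_gate]
        congr 1; ring
  intro i hi
  have hi' : i < outs.length := by rw [hC.2.2]; exact hi
  have := heq ([6, j, c, i], [lp [5, j, c, outs[i]]]) (by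
    simp only [gCirc, List.mem_append, List.mem_map]
    right; right
    refine ⟨(outs[i], i), ?_, rfl⟩
    rw [List.mem_zipIdx_iff_getElem?]
    simp [List.getElem?_eq_getElem hi'])
  simp only [List.map_cons, List.map_nil, List.sum_cons, List.sum_nil, add_zero, lval_lp] at this
  have ho := hC.2.1 outs[i] (List.getElem_mem hi')
  rw [this, key gs.length le_rfl _ ho, sgc]
  simp only [List.take_length]
  congr 1
  simp [Circuit.eval, List.getD_eq_getElem?_getD, List.getElem?_map, List.getElem?_eq_getElem hi']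

lemma cmp_sem_aux (n j c : ℕ) (z : Nm → ℝ) (s t : List Bool) (hs : s.length = n) (ht : t.length = n)
    (h0 : z [7, j, c, n] = 0)
    (heq : ∀ i < n, z [7, j, c, i] = clamp (z [7, j, c, i + 1] + sg (s.getD i false) - sg (t.getD i false))) :
    z [7, j, c, 0] = sgn3 (wval s) (wval t) := by
  have key : ∀ m ≤ n, z [7, j, c, n - m] = sgn3 (wval (s.drop (n - m))) (wval (t.drop (n - m))) := by
    intro m
    induction m with
    | zero =>
      intro _
      rw [Nat.sub_zero, h0, List.drop_of_length_le (by omega), List.drop_of_length_le (by omega)]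
      simp [sgn3, wval]
    | succ m ih =>
      intro hm
      have hi : n - (m + 1) < n := by omega
      have e : n - (m + 1) + 1 = n - m := by omega
      rw [heq _ hi, e, ih (by omega)]
      have d1 : s.drop (n - (m + 1)) = s.getD (n - (m + 1)) false :: s.drop (n - m) := by
        rw [← e, List.drop_eq_getElem_cons (by omega)]
        congr 1
        rw [List.getD_eq_getElem _ _ (by omega)]
      have d2 : t.drop (n - (m + 1)) = t.getD (n - (m + 1)) false :: t.drop (n - m) := by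
        rw [← e, List.drop_eq_getElem_cons (by omega)]
        congr 1
        rw [List.getD_eq_getElem _ _ (by omega)]
      rw [d1, d2]
      apply sgn3_step
      simp [hs, ht]
  have := key n le_rfl
  simpa using this

lemma cmp_sem (n j c : ℕ) (a b a' b' : List ℕ) (z : Nm → ℝ) (s t : List Bool)
    (hs : s.length = n) (ht : t.length = n)
    (hins : ∀ i < n, z (a ++ i :: b) = sg (s.getD i false))
    (hint : ∀ i < n, z (a' ++ i :: b') = sg (t.getD i false))
    (heq : ∀ g ∈ gCmp n j c a b a' b', z g.1 = clamp ((g.2.map (lval z)).sum)) :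
    z [7, j, c, 0] = sgn3 (wval s) (wval t) := by
  apply cmp_sem_aux n j c z s t hs ht
  · have := heq ([7, j, c, n], []) (by simp [gCmp])
    simp only [List.map_nil, List.sum_nil] at this
    rw [this]; exact clamp_of_mem (by norm_num) (by norm_num)
  · intro i hi
    have := heq ([7, j, c, i], [lp [7, j, c, i + 1], lp (a ++ i :: b), ln (a' ++ i :: b')]) (by
      simp only [gCmp, List.mem_cons, List.mem_map, List.mem_range]
      right; exact ⟨i, hi, rfl⟩)
    simp only [List.map_cons, List.map_nil, List.sum_cons, List.sum_nil, add_zero, lval_lp,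
      lval_ln] at this
    rw [this, hins i hi, hint i hi]; congr 1; ring

lemma cmpZ_sem (n j c : ℕ) (a b : List ℕ) (z : Nm → ℝ) (h1 : z [0] = 1) (s : List Bool)
    (hs : s.length = n)
    (hins : ∀ i < n, z (a ++ i :: b) = sg (s.getD i false))
    (heq : ∀ g ∈ gCmpZ n j c a b, z g.1 = clamp ((g.2.map (lval z)).sum)) :
    z [7, j, c, 0] = sgn3 (wval s) 0 := by
  have := cmp_sem_aux n j c z s (List.replicate n false) hs (by simp) ?_ ?_
  · rw [this, wval_replicate_false]
  · have := heq ([7, j, c, n], []) (by simp [gCmpZ])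
    simp only [List.map_nil, List.sum_nil] at this
    rw [this]; exact clamp_of_mem (by norm_num) (by norm_num)
  · intro i hi
    have := heq ([7, j, c, i], [lp [7, j, c, i + 1], lp (a ++ i :: b), lp [0]]) (by
      simp only [gCmpZ, List.mem_cons, List.mem_map, List.mem_range]
      right; exact ⟨i, hi, rfl⟩)
    simp only [List.map_cons, List.map_nil, List.sum_cons, List.sum_nil, add_zero, lval_lp] at this
    rw [this, hins i hi, h1]
    have e : (List.replicate n false).getD i false = false := by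
      rw [List.getD_eq_getElem _ _ (by simpa using hi)]; simp
    rw [e, sg_false]; congr 1; ring

/-! ### structure of the network -/

variable {I : EOLData} {z : Nm → ℝ}

lemma IsSol.bound (h : IsSol (net I) z) {g : Gate} (hg : g ∈ net I) : -1 ≤ z g.1 ∧ z g.1 ≤ 1 := by
  rw [h.2 g hg]; exact ⟨neg_one_le_clamp _, clamp_le_one _⟩

lemma sample_mem {j : ℕ} (hj : j < 8) {g : Gate} (hg : g ∈ gSample I j) : g ∈ net I := by
  simp only [net, List.mem_cons, List.mem_append, List.mem_flatMap, List.mem_range]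
  right; right; right; exact ⟨j, hj, hg⟩

lemma half_val (h : IsSol (net I) z) : ∀ k ≤ I.n + 12, z [2, k] = 1 / 2 ^ k := by
  intro k
  induction k with
  | zero =>
    intro _
    have := h.2 ([2, 0], [lp [0]]) (by simp [net, gHalf])
    simp only [List.map_cons, List.map_nil, List.sum_cons, List.sum_nil, add_zero, lval_lp] at this
    rw [this, h.1, clamp_of_ge le_rfl]; norm_num
  | succ k ih =>
    intro hk
    have := h.2 ([2, k + 1], [lp [2, k], ln [2, k + 1]]) (by
      simp only [net, gHalf, List.mem_cons, List.mem_append, List.mem_map, List.mem_range]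
      right; right; left; right; exact ⟨k, by omega, rfl⟩)
    simp only [List.map_cons, List.map_nil, List.sum_cons, List.sum_nil, add_zero, lval_lp,
      lval_ln] at this
    rw [ih (by omega)] at this
    have h2 : (0:ℝ) < 1 / 2 ^ k := by positivity
    have h3 : (1:ℝ) / 2 ^ k ≤ 1 := by
      rw [div_le_one (by positivity)]; exact one_le_pow₀ (by norm_num)
    rw [← sub_eq_add_neg] at this
    rw [half_gate h2.le h3 this, pow_succ]
    field_simp

lemma dig_mem {j s : ℕ} (hs : s < 2) {g : Gate} (hg : g ∈ gDig I.n j s) : g ∈ gSample I j := by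
  simp only [gSample, List.mem_append]
  interval_cases s
  · left; exact hg
  · right; left; exact hg

lemma dig_start (h : IsSol (net I) z) {j s : ℕ} (hj : j < 8) (hs : s < 2) :
    z [3, j, s, 0] = clamp (z [1, s] + j * (1 / 2 ^ (I.n + 12))) := by
  have := h.2 ([3, j, s, 0], lp [1, s] :: List.replicate j (lp [2, I.n + 12]))
    (sample_mem hj (dig_mem hs (by simp [gDig])))
  simp only [List.map_cons, List.map_replicate, List.sum_cons, List.sum_replicate, lval_lp,
    nsmul_eq_mul] at this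
  rw [this, half_val h _ le_rfl]

lemma amp_val (h : IsSol (net I) z) {j s i : ℕ} (hj : j < 8) (hs : s < 2) (hi : i < I.n) :
    ∀ k ≤ I.n + 14, z [4, j, s, i, k] = clamp (2 ^ k * z [3, j, s, i]) := by
  intro k
  induction k with
  | zero =>
    intro _
    have := h.2 ([4, j, s, i, 0], [lp [3, j, s, i]]) (sample_mem hj (dig_mem hs (by
      simp only [gDig, List.mem_cons, List.mem_flatMap, List.mem_range]
      right; exact ⟨i, hi, Or.inl rfl⟩)))
    simp only [List.map_cons, List.map_nil, List.sum_cons, List.sum_nil, add_zero, lval_lp] at this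
    rw [this]; simp
  | succ k ih =>
    intro hk
    have := h.2 ([4, j, s, i, k + 1], [lp [4, j, s, i, k], lp [4, j, s, i, k]])
      (sample_mem hj (dig_mem hs (by
      simp only [gDig, List.mem_cons, List.mem_flatMap, List.mem_range, List.mem_map]
      right; exact ⟨i, hi, Or.inr (Or.inr ⟨k, by omega, rfl⟩)⟩)))
    simp only [List.map_cons, List.map_nil, List.sum_cons, List.sum_nil, add_zero, lval_lp] at this
    rw [this, ih (by omega), clamp_double]; congr 1; rw [pow_succ]; ring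

lemma dig_step (h : IsSol (net I) z) {j s i : ℕ} (hj : j < 8) (hs : s < 2) (hi : i < I.n) :
    z [3, j, s, i + 1] = clamp (2 * z [3, j, s, i] - z (bitN I.n j s i)) := by
  have := h.2 ([3, j, s, i + 1], [lp [3, j, s, i], lp [3, j, s, i], ln (bitN I.n j s i)])
    (sample_mem hj (dig_mem hs (by
      simp only [gDig, List.mem_cons, List.mem_flatMap, List.mem_range]
      right; exact ⟨i, hi, Or.inr (Or.inl rfl)⟩)))
  simp only [List.map_cons, List.map_nil, List.sum_cons, List.sum_nil, add_zero, lval_lp,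
    lval_ln] at this
  rw [this]; congr 1; ring

/-- side-`s` bits of sample `j` are exactly the word `w` -/
def Exact (I : EOLData) (z : Nm → ℝ) (j s : ℕ) (w : List Bool) : Prop :=
  w.length = I.n ∧ ∀ i < I.n, z (bitN I.n j s i) = sg (w.getD i false)

section exact
variable {j : ℕ} (hj : j < 8) (h : IsSol (net I) z)
  (hS : I.succ.WellFormed I.n) (hP : I.pred.WellFormed I.n)
include hj h hS hP

omit hP in
lemma sem_c0 {w : List Bool} (hw : Exact I z j 0 w) :
    ∀ i < I.n, z [6, j, 0, i] = sg ((I.succ.eval w).getD i false) := by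
  apply circ_sem I.n j 0 [4, j, 0] [I.n + 14] I.succ hS z h.1 w hw.1
  · intro i hi; exact hw.2 i hi
  · intro g hg; apply h.2; apply sample_mem hj
    simp only [gSample, List.mem_append]; tauto

lemma sem_c1 {w : List Bool} (hw : Exact I z j 0 w) :
    ∀ i < I.n, z [6, j, 1, i] = sg ((I.pred.eval (I.succ.eval w)).getD i false) := by
  apply circ_sem I.n j 1 [6, j, 0] [] I.pred hP z h.1 (I.succ.eval w) (eval_length _ _ hS _)
  · intro i hi; exact sem_c0 hj h hS hw i hi
  · intro g hg; apply h.2; apply sample_mem hj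
    simp only [gSample, List.mem_append]; tauto

omit hS in
lemma sem_c2 {w : List Bool} (hw : Exact I z j 1 w) :
    ∀ i < I.n, z [6, j, 2, i] = sg ((I.pred.eval w).getD i false) := by
  apply circ_sem I.n j 2 [4, j, 1] [I.n + 14] I.pred hP z h.1 w hw.1
  · intro i hi; exact hw.2 i hi
  · intro g hg; apply h.2; apply sample_mem hj
    simp only [gSample, List.mem_append]; tauto

lemma sem_c3 {w : List Bool} (hw : Exact I z j 1 w) :
    ∀ i < I.n, z [6, j, 3, i] = sg ((I.succ.eval (I.pred.eval w)).getD i false) := by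
  apply circ_sem I.n j 3 [6, j, 2] [] I.succ hS z h.1 (I.pred.eval w) (eval_length _ _ hP _)
  · intro i hi; exact sem_c2 hj h hP hw i hi
  · intro g hg; apply h.2; apply sample_mem hj
    simp only [gSample, List.mem_append]; tauto

lemma sem_k0 {w : List Bool} (hw : Exact I z j 0 w) :
    z [7, j, 0, 0] = sgn3 (wval (I.pred.eval (I.succ.eval w))) (wval w) := by
  apply cmp_sem I.n j 0 [6, j, 1] [] [4, j, 0] [I.n + 14] z _ _ (eval_length _ _ hP _) hw.1
  · intro i hi; exact sem_c1 hj h hS hP hw i hi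
  · intro i hi; exact hw.2 i hi
  · intro g hg; apply h.2; apply sample_mem hj
    simp only [gSample, List.mem_append]; tauto

lemma sem_k1 {w : List Bool} (hw : Exact I z j 1 w) :
    z [7, j, 1, 0] = sgn3 (wval (I.succ.eval (I.pred.eval w))) (wval w) := by
  apply cmp_sem I.n j 1 [6, j, 3] [] [4, j, 1] [I.n + 14] z _ _ (eval_length _ _ hS _) hw.1
  · intro i hi; exact sem_c3 hj h hS hP hw i hi
  · intro i hi; exact hw.2 i hi
  · intro g hg; apply h.2; apply sample_mem hj
    simp only [gSample, List.mem_append]; tauto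

lemma sem_k2 {w w' : List Bool} (hw : Exact I z j 0 w) (hw' : Exact I z j 1 w') :
    z [7, j, 2, 0] = sgn3 (wval (I.succ.eval w)) (wval w') := by
  apply cmp_sem I.n j 2 [6, j, 0] [] [4, j, 1] [I.n + 14] z _ _ (eval_length _ _ hS _) hw'.1
  · intro i hi; exact sem_c0 hj h hS hw i hi
  · intro i hi; exact hw'.2 i hi
  · intro g hg; apply h.2; apply sample_mem hj
    simp only [gSample, List.mem_append]; tauto

lemma sem_k3 {w w' : List Bool} (hw : Exact I z j 0 w) (hw' : Exact I z j 1 w') :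
    z [7, j, 3, 0] = sgn3 (wval (I.pred.eval w')) (wval w) := by
  apply cmp_sem I.n j 3 [6, j, 2] [] [4, j, 0] [I.n + 14] z _ _ (eval_length _ _ hP _) hw.1
  · intro i hi; exact sem_c2 hj h hP hw' i hi
  · intro i hi; exact hw.2 i hi
  · intro g hg; apply h.2; apply sample_mem hj
    simp only [gSample, List.mem_append]; tauto

omit hS hP in
lemma sem_k4 {w w' : List Bool} (hw : Exact I z j 0 w) (hw' : Exact I z j 1 w') :
    z [7, j, 4, 0] = sgn3 (wval w) (wval w') := by
  apply cmp_sem I.n j 4 [4, j, 0] [I.n + 14] [4, j, 1] [I.n + 14] z _ _ hw.1 hw'.1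
  · intro i hi; exact hw.2 i hi
  · intro i hi; exact hw'.2 i hi
  · intro g hg; apply h.2; apply sample_mem hj
    simp only [gSample, List.mem_append]; tauto

omit hS hP in
lemma sem_k5 {w : List Bool} (hw : Exact I z j 0 w) : z [7, j, 5, 0] = sgn3 (wval w) 0 := by
  apply cmpZ_sem I.n j 5 [4, j, 0] [I.n + 14] z h.1 _ hw.1
  · intro i hi; exact hw.2 i hi
  · intro g hg; apply h.2; apply sample_mem hj
    simp only [gSample, List.mem_append]; tauto

omit hS hP in
lemma sem_k6 {w : List Bool} (hw : Exact I z j 1 w) : z [7, j, 6, 0] = sgn3 (wval w) 0 := by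
  apply cmpZ_sem I.n j 6 [4, j, 1] [I.n + 14] z h.1 _ hw.1
  · intro i hi; exact hw.2 i hi
  · intro g hg; apply h.2; apply sample_mem hj
    simp only [gSample, List.mem_append]; tauto

end exact

/-- successor map on numbers -/
def Sn (I : EOLData) (v : ℕ) : ℕ := wval (I.succ.eval (word I.n v))
/-- predecessor map on numbers -/
def Pn (I : EOLData) (v : ℕ) : ℕ := wval (I.pred.eval (word I.n v))

/-- angle value of sample `j` -/
def psiv (z : Nm → ℝ) (j : ℕ) : ℝ := z [8, j, 10] + z [8, j, 11] - z [8, j, 5] - z [8, j, 7]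

lemma misc_mem {j : ℕ} {g : Gate} (hg : g ∈ gMisc I.n j) : g ∈ gSample I j := by
  simp only [gSample, List.mem_append]; tauto

lemma wave_mem {j : ℕ} {g : Gate} (hg : g ∈ gWave j) : g ∈ gSample I j := by
  simp only [gSample, List.mem_append]; tauto

lemma misc_bound (h : IsSol (net I) z) {j : ℕ} (hj : j < 8) (k : ℕ) (hk : k < 12) :
    -1 ≤ z [8, j, k] ∧ z [8, j, k] ≤ 1 := by
  have : ∃ l, ([8, j, k], l) ∈ gMisc I.n j := by
    interval_cases k <;> (simp only [gMisc, List.mem_cons, Prod.mk.injEq]; simp)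
  obtain ⟨l, hl⟩ := this
  exact h.bound (sample_mem hj (misc_mem hl))

lemma psiv_bound (h : IsSol (net I) z) {j : ℕ} (hj : j < 8) : -4 ≤ psiv z j ∧ psiv z j ≤ 4 := by
  have h1 := misc_bound h hj 10 (by norm_num)
  have h2 := misc_bound h hj 11 (by norm_num)
  have h3 := misc_bound h hj 5 (by norm_num)
  have h4 := misc_bound h hj 7 (by norm_num)
  unfold psiv; constructor <;> linarith

lemma sum_psi4 (z : Nm → ℝ) (j : ℕ) : ((psi4 j).map (lval z)).sum = 4 * psiv z j := by
  unfold psi4 psiv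
  rw [List.map_append, List.map_append, List.map_append, List.sum_append, List.sum_append,
    List.sum_append, sum_rp, sum_rp, sum_rp, sum_rp, lval_lp, lval_lp, lval_ln, lval_ln]
  push_cast; ring

lemma wave_gate (h : IsSol (net I) z) {j : ℕ} (hj : j < 8) (N : Nm) (k : ℕ) (l : Lit)
    (hm : (N, psi4 j ++ rp k l) ∈ gWave j) : z N = clamp (4 * psiv z j + k * lval z l) := by
  have := h.2 _ (sample_mem hj (wave_mem hm))
  simp only [] at this
  rw [this, List.map_append, List.sum_append, sum_psi4, sum_rp]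

lemma waveL0 (h : IsSol (net I) z) {j : ℕ} (hj : j < 8) :
    ((waveL 0 j).map (lval z)).sum = waveC (psiv z j : Circ2) := by
  have hb := psiv_bound h hj
  rw [← sumC_eq _ hb.1 hb.2]
  have e0 := wave_gate h hj [9, j, 0, 0] 13 (lp [0]) (by simp [gWave])
  have e1 := wave_gate h hj [9, j, 0, 1] 9 (lp [0]) (by simp [gWave])
  have e2 := wave_gate h hj [9, j, 0, 2] 5 (lp [0]) (by simp [gWave])
  have e3 := wave_gate h hj [9, j, 0, 3] 1 (lp [0]) (by simp [gWave])
  have e4 := wave_gate h hj [9, j, 0, 4] 3 (ln [0]) (by simp [gWave])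
  have e5 := wave_gate h hj [9, j, 0, 5] 7 (ln [0]) (by simp [gWave])
  have e6 := wave_gate h hj [9, j, 0, 6] 11 (ln [0]) (by simp [gWave])
  have e7 := wave_gate h hj [9, j, 0, 7] 15 (ln [0]) (by simp [gWave])
  simp only [lval_lp, lval_ln, h.1] at e0 e1 e2 e3 e4 e5 e6 e7
  simp only [waveL, List.map_cons, List.map_nil, List.sum_cons, List.sum_nil, lval_lp, lval_ln, h.1]
  rw [e0, e1, e2, e3, e4, e5, e6, e7]
  unfold sumC
  have c0 : 4 * psiv z j + (13:ℕ) * (1:ℝ) = 4 * (psiv z j + 4) - 3 := by push_cast; ring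
  have c1 : 4 * psiv z j + (9:ℕ) * (1:ℝ) = 4 * (psiv z j + 4) - 7 := by push_cast; ring
  have c2 : 4 * psiv z j + (5:ℕ) * (1:ℝ) = 4 * (psiv z j + 2) - 3 := by push_cast; ring
  have c3 : 4 * psiv z j + (1:ℕ) * (1:ℝ) = 4 * (psiv z j + 2) - 7 := by push_cast; ring
  have c4 : 4 * psiv z j + (3:ℕ) * (-1:ℝ) = 4 * psiv z j - 3 := by push_cast; ring
  have c5 : 4 * psiv z j + (7:ℕ) * (-1:ℝ) = 4 * psiv z j - 7 := by push_cast; ring
  have c6 : 4 * psiv z j + (11:ℕ) * (-1:ℝ) = 4 * (psiv z j - 2) - 3 := by push_cast; ring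
  have c7 : 4 * psiv z j + (15:ℕ) * (-1:ℝ) = 4 * (psiv z j - 2) - 7 := by push_cast; ring
  rw [c0, c1, c2, c3, c4, c5, c6, c7]
  ring

lemma waveL1 (h : IsSol (net I) z) {j : ℕ} (hj : j < 8) :
    ((waveL 1 j).map (lval z)).sum = waveS (psiv z j : Circ2) := by
  have hb := psiv_bound h hj
  rw [← sumS_eq _ hb.1 hb.2]
  have e0 := wave_gate h hj [9, j, 1, 0] 15 (lp [0]) (by simp [gWave])
  have e1 := wave_gate h hj [9, j, 1, 1] 11 (lp [0]) (by simp [gWave])
  have e2 := wave_gate h hj [9, j, 1, 2] 7 (lp [0]) (by simp [gWave])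
  have e3 := wave_gate h hj [9, j, 1, 3] 3 (lp [0]) (by simp [gWave])
  have e4 := wave_gate h hj [9, j, 1, 4] 1 (ln [0]) (by simp [gWave])
  have e5 := wave_gate h hj [9, j, 1, 5] 5 (ln [0]) (by simp [gWave])
  have e6 := wave_gate h hj [9, j, 1, 6] 9 (ln [0]) (by simp [gWave])
  have e7 := wave_gate h hj [9, j, 1, 7] 13 (ln [0]) (by simp [gWave])
  simp only [lval_lp, lval_ln, h.1] at e0 e1 e2 e3 e4 e5 e6 e7
  simp only [waveL, List.map_cons, List.map_nil, List.sum_cons, List.sum_nil, lval_lp, lval_ln, h.1]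
  rw [e0, e1, e2, e3, e4, e5, e6, e7]
  unfold sumS
  have c0 : 4 * psiv z j + (15:ℕ) * (1:ℝ) = 4 * (psiv z j + 4) - 1 := by push_cast; ring
  have c1 : 4 * psiv z j + (11:ℕ) * (1:ℝ) = 4 * (psiv z j + 4) - 5 := by push_cast; ring
  have c2 : 4 * psiv z j + (7:ℕ) * (1:ℝ) = 4 * (psiv z j + 2) - 1 := by push_cast; ring
  have c3 : 4 * psiv z j + (3:ℕ) * (1:ℝ) = 4 * (psiv z j + 2) - 5 := by push_cast; ring
  have c4 : 4 * psiv z j + (1:ℕ) * (-1:ℝ) = 4 * psiv z j - 1 := by push_cast; ring
  have c5 : 4 * psiv z j + (5:ℕ) * (-1:ℝ) = 4 * psiv z j - 5 := by push_cast; ring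
  have c6 : 4 * psiv z j + (9:ℕ) * (-1:ℝ) = 4 * (psiv z j - 2) - 1 := by push_cast; ring
  have c7 : 4 * psiv z j + (13:ℕ) * (-1:ℝ) = 4 * (psiv z j - 2) - 5 := by push_cast; ring
  rw [c0, c1, c2, c3, c4, c5, c6, c7]
  ring

/-- value of the angle at a clean sample -/
lemma psiv_clean (h : IsSol (net I) z) (hS : I.succ.WellFormed I.n) (hP : I.pred.WellFormed I.n)
    {j : ℕ} (hj : j < 8) (a u : ℕ) (ha : a < 2 ^ I.n) (hu : u < 2 ^ I.n) (x y : ℝ)
    (hx1 : (a : ℝ) ≤ x) (hx2 : x ≤ a + 1) (hy1 : (u : ℝ) ≤ y) (hy2 : y ≤ u + 1)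
    (hrx : z [3, j, 0, I.n] = 2 * (x - a) - 1) (hry : z [3, j, 1, I.n] = 2 * (y - u) - 1)
    (hwa : Exact I z j 0 (word I.n a)) (hwu : Exact I z j 1 (word I.n u)) :
    psiv z j = locC a x y + locD a u y - locA (Sn I) (Pn I) a x y - locB (Sn I) (Pn I) a u y := by
  set ρx := z [3, j, 0, I.n] with hρx
  set ρy := z [3, j, 1, I.n] with hρy
  have hx : x = a + (ρx + 1) / 2 := by rw [hrx]; ring
  have hy : y = u + (ρy + 1) / 2 := by rw [hry]; ring
  have bx1 : -1 ≤ ρx := by rw [hrx]; linarith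
  have bx2 : ρx ≤ 1 := by rw [hrx]; linarith
  have by1 : -1 ≤ ρy := by rw [hry]; linarith
  have by2 : ρy ≤ 1 := by rw [hry]; linarith
  -- comparators
  have k0 : z [7, j, 0, 0] = sgn3 (Pn I (Sn I a)) a := by
    rw [sem_k0 hj h hS hP hwa, wval_word _ _ ha]
    unfold Pn Sn
    rw [word_wval _ _ (eval_length _ _ hS _)]
  have k1 : z [7, j, 1, 0] = sgn3 (Sn I (Pn I u)) u := by
    rw [sem_k1 hj h hS hP hwu, wval_word _ _ hu]
    unfold Pn Sn
    rw [word_wval _ _ (eval_length _ _ hP _)]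
  have k2 : z [7, j, 2, 0] = sgn3 (Sn I a) u := by
    rw [sem_k2 hj h hS hP hwa hwu, wval_word _ _ hu]; rfl
  have k3 : z [7, j, 3, 0] = sgn3 (Pn I u) a := by
    rw [sem_k3 hj h hS hP hwa hwu, wval_word _ _ ha]; rfl
  have k4 : z [7, j, 4, 0] = sgn3 a u := by
    rw [sem_k4 hj h hwa hwu, wval_word _ _ ha, wval_word _ _ hu]
  have k5 : z [7, j, 5, 0] = sgn3 a 0 := by
    rw [sem_k5 hj h hwa, wval_word _ _ ha]
  have k6 : z [7, j, 6, 0] = sgn3 u 0 := by
    rw [sem_k6 hj h hwu, wval_word _ _ hu]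
  have G : ∀ g ∈ gMisc I.n j, z g.1 = clamp ((g.2.map (lval z)).sum) := fun g hg =>
    h.2 g (sample_mem hj (misc_mem hg))
  simp only [gMisc, List.forall_mem_cons] at G
  obtain ⟨g0, g1, g2, g3, g4, g5, g6, g7, g8, g9, g10, g11, -⟩ := G
  simp only [List.map_cons, List.map_nil, List.sum_cons, List.sum_nil, List.map_append,
    List.sum_append, sum_rp, lval_lp, lval_ln, h.1, k0, k1, k2, k3, k4, k5, k6] at g0 g1 g2 g3 g4 g5 g6 g7 g8 g9 g10 g11
  rw [← hρx] at g1
  rw [← hρy] at g0 g2 g7 g8 g11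
  have v0 : z [8, j, 0] = clamp (-ρy - sgn3 u 0 - sgn3 a 0 - 1) := by rw [g0]; congr 1; ring
  have v1 : z [8, j, 1] = tp a x y := by
    rw [g1, v0, ← tp_gate hx hy bx1 bx2 by1 by2]; congr 1; push_cast; ring
  have v2 : z [8, j, 2] = tt (Sn I a) y := by
    rw [g2, ← tau_gate hy by1 by2]; congr 1; push_cast; ring
  have btp : -1 ≤ tp a x y ∧ tp a x y ≤ 1 := by
    unfold tp; split_ifs
    · exact ⟨neg_one_le_clamp _, clamp_le_one _⟩
    · exact ⟨le_tt _ _, tt_le _ _⟩
  have v3 : z [8, j, 3] = clamp (tt (Sn I a) y - tp a x y - 1) := by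
    rw [g3, v1, v2]; congr 1; ring
  have v4 : 1 + sgn3 (Pn I (Sn I a)) a + z [8, j, 4] = |sgn3 (Pn I (Sn I a)) a| := by
    rw [g4, ← absc_gate _ (sgn3_mem _ _)]; congr 2; ring
  have v5 : z [8, j, 5] = locA (Sn I) (Pn I) a x y := by
    rw [g5, v1, v3]
    have e : tp a x y + (1 + (clamp (tt (Sn I a) y - tp a x y - 1) + (1 + (1 +
        (sgn3 (Pn I (Sn I a)) a + (sgn3 (Pn I (Sn I a)) a + (z [8, j, 4] + (z [8, j, 4] + 0))))))))
        = max (tp a x y) (tt (Sn I a) y) + 2 * |sgn3 (Pn I (Sn I a)) a| := by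
      rw [← max_gate btp.1 btp.2 (le_tt _ _) (tt_le _ _), ← v4]; ring
    rw [e]
    have hm1 : -1 ≤ max (tp a x y) (tt (Sn I a) y) := le_max_of_le_left btp.1
    have hm2 : max (tp a x y) (tt (Sn I a) y) ≤ 1 := max_le btp.2 (tt_le _ _)
    unfold locA
    rcases sgn3_cases (Pn I (Sn I a)) a with ⟨hh, hs⟩ | ⟨hh, hs⟩ | ⟨hh, hs⟩
    · rw [hs, if_neg (by omega), clamp_of_ge (by norm_num; linarith)]
    · rw [hs, if_pos hh, abs_zero, mul_zero, add_zero, clamp_of_mem hm1 hm2]
    · rw [hs, if_neg (by omega), clamp_of_ge (by norm_num; linarith)]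
  have v6 : 1 + sgn3 (Sn I (Pn I u)) u + z [8, j, 6] = |sgn3 (Sn I (Pn I u)) u| := by
    rw [g6, ← absc_gate _ (sgn3_mem _ _)]; congr 2; ring
  have v7 : z [8, j, 7] = locB (Sn I) (Pn I) a u y := by
    rw [g7]
    have e : ((4:ℕ):ℝ) * ρy + (((10:ℕ):ℝ) * 1 + (((5:ℕ):ℝ) * -sgn3 (Pn I u) a +
        (((5:ℕ):ℝ) * sgn3 (Sn I (Pn I u)) u + ((5:ℕ):ℝ) * z [8, j, 6])))
        = 4 * ρy + 5 - 5 * sgn3 (Pn I u) a + 5 * |sgn3 (Sn I (Pn I u)) u| := by
      rw [← v6]; push_cast; ring
    rw [e]
    unfold locB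
    have ht : clamp (4 * ρy) = tt u y := by
      rw [← tau_gate (w := u) hy by1 by2]
      have : sgn3 u u = 0 := by simp [sgn3]
      rw [this]; congr 1; ring
    rcases sgn3_cases (Sn I (Pn I u)) u with ⟨hh, hs⟩ | ⟨hh, hs⟩ | ⟨hh, hs⟩
    · rw [hs, if_neg (by omega), clamp_of_ge]
      rcases sgn3_cases (Pn I u) a with ⟨_, hs'⟩ | ⟨_, hs'⟩ | ⟨_, hs'⟩ <;> rw [hs'] <;>
        norm_num <;> linarith
    · rw [hs]
      rcases sgn3_cases (Pn I u) a with ⟨hh', hs'⟩ | ⟨hh', hs'⟩ | ⟨hh', hs'⟩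
      · rw [hs', if_pos ⟨hh, hh'⟩, ← ht]; congr 1; norm_num
      · rw [hs', if_neg (by omega), clamp_of_ge (by norm_num; linarith)]
      · rw [hs', if_neg (by omega), clamp_of_ge (by norm_num; linarith)]
    · rw [hs, if_neg (by omega), clamp_of_ge]
      rcases sgn3_cases (Pn I u) a with ⟨_, hs'⟩ | ⟨_, hs'⟩ | ⟨_, hs'⟩ <;> rw [hs'] <;>
        norm_num <;> linarith
  have v8 : z [8, j, 8] = tt a y := by
    rw [g8, ← tau_gate hy by1 by2]; congr 1; push_cast; ring
  have v9 : z [8, j, 9] = clamp (tt a y - tp a x y - 1) := by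
    rw [g9, v8, v1]; congr 1; ring
  have v10 : z [8, j, 10] = locC a x y := by
    rw [g10, v1, v9]
    have e : tp a x y + (1 + (clamp (tt a y - tp a x y - 1) + (1 + (1 + (-sgn3 a 0 + (-sgn3 a 0 + 0))))))
        = max (tp a x y) (tt a y) + 2 - 2 * sgn3 a 0 := by
      rw [← max_gate btp.1 btp.2 (le_tt _ _) (tt_le _ _)]; ring
    rw [e]
    have hm1 : -1 ≤ max (tp a x y) (tt a y) := le_max_of_le_left btp.1
    have hm2 : max (tp a x y) (tt a y) ≤ 1 := max_le btp.2 (tt_le _ _)
    unfold locC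
    by_cases ha0 : a = 0
    · have : sgn3 a 0 = 0 := by rw [ha0]; simp [sgn3]
      rw [this, if_neg (by simpa using ha0), clamp_of_ge (by linarith)]
    · have : sgn3 a 0 = 1 := by unfold sgn3; rw [if_pos (Nat.pos_of_ne_zero ha0)]
      rw [this, if_pos ha0]
      have e2 : tp a x y = tt a x := by unfold tp; rw [if_neg ha0]
      rw [e2] at hm1 hm2 ⊢
      rw [show max (tt a x) (tt a y) + 2 - 2 * 1 = max (tt a x) (tt a y) by ring]
      exact clamp_of_mem hm1 hm2
  have v11 : z [8, j, 11] = locD a u y := by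
    rw [g11]
    have e : ((4:ℕ):ℝ) * ρy + (((5:ℕ):ℝ) * 1 + ((5:ℕ):ℝ) * sgn3 a u) = 4 * ρy + 5 + 5 * sgn3 a u := by
      push_cast; ring
    rw [e]
    have ht : clamp (4 * ρy) = tt u y := by
      rw [← tau_gate (w := u) hy by1 by2]
      have : sgn3 u u = 0 := by simp [sgn3]
      rw [this]; congr 1; ring
    unfold locD
    rcases sgn3_cases a u with ⟨hh, hs⟩ | ⟨hh, hs⟩ | ⟨hh, hs⟩
    · rw [hs, if_neg (by omega), clamp_of_ge (by linarith)]
    · rw [hs, if_neg (by omega), clamp_of_ge (by linarith)]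
    · rw [hs, if_pos hh, ← ht]; congr 1; ring
  unfold psiv
  rw [v5, v7, v10, v11]

end

end Pool.Agent.Helper58
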