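import Mathlib

set_option autoImplicit false

namespace Pool.Agent.Helper58

/-- Raw data of a square 0-1 instance: the matrix `A` (with `true` for the entry 1), and the
colour of each defining inequality of the polyhedron `P = {x : A x ≤ 1, x ≤ 1}`; `Sum.inl i` is the
inequality `(A x)_i ≤ 1` and `Sum.inr i` is the inequality `x_i ≤ 1`. -/
structure PanData where
  n : ℕ
  A : Fin n → Fin n → Bool
  colour : Fin n ⊕ Fin n → Fin n

/-- Left-hand side of a defining inequality. -/
def PanData.lhs (D : PanData) : Fin D.n ⊕ Fin D.n → (Fin D.n → ℝ) → ℝ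
  | Sum.inl i, x => ∑ j, if D.A i j then x j else 0
  | Sum.inr i, x => x i

/-- The polyhedron `P`. -/
def PanData.poly (D : PanData) : Set (Fin D.n → ℝ) := {x | ∀ k, D.lhs k x ≤ 1}

/-- The face of `P` cut out by making the inequality `k` tight. -/
def PanData.face (D : PanData) (k : Fin D.n ⊕ Fin D.n) : Set (Fin D.n → ℝ) :=
  {x | x ∈ D.poly ∧ D.lhs k x = 1}

/-- `F` is a facet of `P`: a nonempty face whose dimension is one less than that of `P`. -/
def IsFacet {n : ℕ} (P F : Set (Fin n → ℝ)) : Prop :=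
  IsExposed ℝ P F ∧ F.Nonempty ∧
  Module.finrank ℝ (vectorSpan ℝ F) + 1 = Module.finrank ℝ (vectorSpan ℝ P)

/-- The recession cone of `F`. -/
def recessionCone {n : ℕ} (F : Set (Fin n → ℝ)) : Set (Fin n → ℝ) :=
  {d | ∀ x ∈ F, ∀ t : ℝ, 0 ≤ t → x + t • d ∈ F}

/-- `d` spans an extreme ray of the cone `C`. -/
def SpansExtremeRay {n : ℕ} (C : Set (Fin n → ℝ)) (d : Fin n → ℝ) : Prop :=
  d ≠ 0 ∧ d ∈ C ∧ ∀ u ∈ C, ∀ v ∈ C, u + v = d →
    (∃ a : ℝ, 0 ≤ a ∧ u = a • d) ∧ (∃ b : ℝ, 0 ≤ b ∧ v = b • d)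

/-- `-e_i` is an extreme direction of `F`. -/
def IsExtremeDirection {n : ℕ} (F : Set (Fin n → ℝ)) (i : Fin n) : Prop :=
  SpansExtremeRay (recessionCone F) (-(Pi.single i 1))

/-- The colouring is a valid colouring of the facets of `P`: inequalities defining the same facet
have the same colour, no facet with `-e_i` as an extreme direction has colour `i`, and each colour
is assigned to exactly two facets. -/
structure PanData.Valid (D : PanData) : Prop where
  pos : 0 < D.n
  consistent : ∀ k k', IsFacet D.poly (D.face k) → D.face k = D.face k' → D.colour k = D.colour k'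
  avoid : ∀ k, IsFacet D.poly (D.face k) → ∀ i, IsExtremeDirection (D.face k) i → D.colour k ≠ i
  twice : ∀ i, {F | IsFacet D.poly F ∧ ∃ k, D.face k = F ∧ D.colour k = i}.ncard = 2

/-- `v` is a panchromatic vertex of `P`. -/
def PanData.Panchromatic (D : PanData) (v : Fin D.n → ℝ) : Prop :=
  v ∈ Set.extremePoints ℝ D.poly ∧
  ∀ i, ∃ k, IsFacet D.poly (D.face k) ∧ D.colour k = i ∧ v ∈ D.face k

end Pool.Agent.Helper58
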