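import Pool.Agent.Helper58.Net
import Pool.Agent.Helper58.PanDefs

set_option autoImplicit false

namespace Pool.Agent.Helper58

/-- a node with its list of neighbours -/
abbrev Node := Nm × List Nm

/-- the node carrying the value (positive literal) or minus the value (negative literal) -/
def litNode (l : Lit) : Nm := (if l.1 then 0 else 1) :: l.2

/-- name of the `k`-th private input node of the gate `N` -/
def inpNode (N : Nm) (k : ℕ) : Nm := 3 :: k :: N

/-- nodes realizing a gate -/
def gateNodes (g : Gate) : List Node :=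
  (0 :: g.1, [[0, 0], 1 :: g.1]) ::
  (1 :: g.1, [[0, 0], 2 :: g.1]) ::
  (2 :: g.1, [0, 0] :: (g.2.zipIdx.map (fun l => inpNode g.1 l.2))) ::
  g.2.zipIdx.map (fun l => (inpNode g.1 l.2, [[4, 4], litNode l.1]))

/-- nodes producing the constants -/
def baseNodes : List Node :=
  [([4, 0], [[4, 1]]), ([4, 1], [[4, 2]]), ([4, 2], [[4, 0]]), ([4, 3], [[4, 0], [4, 1]]),
    ([0, 0], [[4, 3]]), ([4, 4], [[4, 3]]), ([1, 0], [[0, 0], [4, 4]])]

/-- all nodes of the network of `I` -/
def nodes (I : EOLData) : List Node := baseNodes ++ (net I).flatMap gateNodes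

/-- the panchromatic instance of a list of nodes -/
def mkPan (L : List Node) : PanData where
  n := L.length
  A := fun i j => decide (L[j].1 = L[i].1 ∨ L[j].1 ∈ L[i].2)
  colour := Sum.elim id id

end Pool.Agent.Helper58
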