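import Pool.Agent.Helper58.PanDefs

set_option autoImplicit false

namespace Pool.Agent.Helper58

noncomputable section

open Finset

/-- graph instances: row `i` has support `{i} ∪ N i`, and both inequalities `i` have colour `i` -/
structure GraphInst (D : PanData) : Prop where
  diag : ∀ i, D.A i i = true
  other : ∀ i, ∃ j, j ≠ i ∧ D.A i j = true
  nocyc : ∀ i j, i ≠ j → D.A i j = true → D.A j i = true → False
  col1 : ∀ i, D.colour (Sum.inl i) = i
  col2 : ∀ i, D.colour (Sum.inr i) = i

variable {D : PanData}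

/-- support of row `i` -/
def supp (D : PanData) (i : Fin D.n) : Finset (Fin D.n) := univ.filter (fun j => D.A i j = true)

lemma mem_supp {i j : Fin D.n} : j ∈ supp D i ↔ D.A i j = true := by simp [supp]

lemma lhs_inl (i : Fin D.n) (x : Fin D.n → ℝ) : D.lhs (Sum.inl i) x = ∑ j ∈ supp D i, x j := by
  unfold supp
  rw [Finset.sum_filter]; rfl

lemma lhs_inr (i : Fin D.n) (x : Fin D.n → ℝ) : D.lhs (Sum.inr i) x = x i := rfl

/-- left-hand side as a linear map -/
def lhsL (D : PanData) (k : Fin D.n ⊕ Fin D.n) : (Fin D.n → ℝ) →ₗ[ℝ] ℝ where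
  toFun := D.lhs k
  map_add' := by
    intro x y
    rcases k with i | i
    · rw [lhs_inl, lhs_inl, lhs_inl, ← Finset.sum_add_distrib]; rfl
    · rfl
  map_smul' := by
    intro c x
    rcases k with i | i
    · rw [lhs_inl, lhs_inl, smul_eq_mul, Finset.mul_sum]; rfl
    · rfl

lemma lhsL_apply (k : Fin D.n ⊕ Fin D.n) (x : Fin D.n → ℝ) : lhsL D k x = D.lhs k x := rfl

lemma lhs_add (k : Fin D.n ⊕ Fin D.n) (x y : Fin D.n → ℝ) : D.lhs k (x + y) = D.lhs k x + D.lhs k y :=
  (lhsL D k).map_add x y

lemma lhs_smul (k : Fin D.n ⊕ Fin D.n) (c : ℝ) (x : Fin D.n → ℝ) : D.lhs k (c • x) = c * D.lhs k x :=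
  (lhsL D k).map_smul c x

/-- small steps stay inside -/
lemma small_step (ks : Finset (Fin D.n ⊕ Fin D.n)) (x d : Fin D.n → ℝ)
    (h : ∀ k ∈ ks, D.lhs k x < 1) : ∃ ε : ℝ, 0 < ε ∧ ∀ k ∈ ks, D.lhs k (x + ε • d) ≤ 1 := by
  classical
  induction ks using Finset.induction_on with
  | empty => exact ⟨1, one_pos, by simp⟩
  | insert a s ha ih =>
    obtain ⟨ε, hε, h1⟩ := ih (fun k hk => h k (Finset.mem_insert_of_mem hk))
    have h2 := h a (Finset.mem_insert_self a s)
    have hpos : 0 < |D.lhs a d| + 1 := by positivity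
    refine ⟨min ε ((1 - D.lhs a x) / (|D.lhs a d| + 1)), lt_min hε (div_pos (by linarith) hpos), ?_⟩
    intro k hk
    set δ := min ε ((1 - D.lhs a x) / (|D.lhs a d| + 1)) with hδ
    have hδ0 : 0 < δ := lt_min hε (div_pos (by linarith) hpos)
    have hδ1 : δ ≤ ε := min_le_left _ _
    have hδ2 : δ ≤ (1 - D.lhs a x) / (|D.lhs a d| + 1) := min_le_right _ _
    rw [Finset.mem_insert] at hk
    rcases hk with rfl | hk
    · rw [lhs_add, lhs_smul]
      rw [le_div_iff₀ hpos] at hδ2
      have h3 : D.lhs k d ≤ |D.lhs k d| := le_abs_self _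
      nlinarith
    · have h3 := h1 k hk
      have h4 := h k (Finset.mem_insert_of_mem hk)
      rw [lhs_add, lhs_smul] at h3 ⊢
      rcases le_total (D.lhs k d) 0 with h5 | h5
      · nlinarith
      · nlinarith

lemma vectorSpan_eq_ker (k : Fin D.n ⊕ Fin D.n) (x : Fin D.n → ℝ) (hx : D.lhs k x = 1)
    (h : ∀ k' ≠ k, D.lhs k' x < 1) : vectorSpan ℝ (D.face k) = LinearMap.ker (lhsL D k) := by
  classical
  apply le_antisymm
  · unfold vectorSpan
    rw [Submodule.span_le]
    rintro v ⟨a, ha, b, hb, rfl⟩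
    simp only [SetLike.mem_coe, LinearMap.mem_ker]
    show lhsL D k (a - b) = 0
    rw [map_sub, lhsL_apply, lhsL_apply, ha.2, hb.2, sub_self]
  · intro d hd
    rw [LinearMap.mem_ker, lhsL_apply] at hd
    obtain ⟨ε, hε, h1⟩ := small_step (univ.erase k) x d (fun k' hk' => h k' (Finset.ne_of_mem_erase hk'))
    have hxF : x ∈ D.face k := by
      refine ⟨fun k' => ?_, hx⟩
      by_cases hk : k' = k
      · rw [hk, hx]
      · exact (h k' hk).le
    have hyF : x + ε • d ∈ D.face k := by
      refine ⟨fun k' => ?_, ?_⟩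
      · by_cases hk : k' = k
        · rw [hk, lhs_add, lhs_smul, hd, hx]; linarith
        · exact h1 k' (Finset.mem_erase.2 ⟨hk, Finset.mem_univ _⟩)
      · rw [lhs_add, lhs_smul, hd, hx]; ring
    have := vsub_mem_vectorSpan ℝ hyF hxF
    rw [vsub_eq_sub, add_sub_cancel_left] at this
    have h2 := (vectorSpan ℝ (D.face k)).smul_mem ε⁻¹ this
    rwa [smul_smul, inv_mul_cancel₀ hε.ne', one_smul] at h2

lemma vectorSpan_poly : vectorSpan ℝ D.poly = ⊤ := by
  classical
  rw [eq_top_iff]
  intro d _
  have h0 : ∀ k, D.lhs k (fun _ => (-1 : ℝ)) < 1 := by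
    intro k
    rcases k with i | i
    · rw [lhs_inl]
      have : ∑ j ∈ supp D i, (-1 : ℝ) ≤ 0 := Finset.sum_nonpos (fun _ _ => by norm_num)
      linarith
    · rw [lhs_inr]; norm_num
  obtain ⟨ε, hε, h1⟩ := small_step univ (fun _ => (-1 : ℝ)) d (fun k _ => h0 k)
  have hx : (fun _ => (-1 : ℝ)) ∈ D.poly := fun k => (h0 k).le
  have hy : (fun _ => (-1 : ℝ)) + ε • d ∈ D.poly := fun k => h1 k (Finset.mem_univ _)
  have := vsub_mem_vectorSpan ℝ hy hx
  rw [vsub_eq_sub, add_sub_cancel_left] at this
  have h2 := (vectorSpan ℝ D.poly).smul_mem ε⁻¹ this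
  rwa [smul_smul, inv_mul_cancel₀ hε.ne', one_smul] at h2

lemma face_isExposed (k : Fin D.n ⊕ Fin D.n) : IsExposed ℝ D.poly (D.face k) := by
  rintro ⟨x0, hx0⟩
  refine ⟨LinearMap.toContinuousLinearMap (lhsL D k), ?_⟩
  ext x
  constructor
  · rintro ⟨h1, h2⟩
    refine ⟨h1, fun y hy => ?_⟩
    show D.lhs k y ≤ D.lhs k x
    rw [h2]; exact hy k
  · rintro ⟨h1, h2⟩
    refine ⟨h1, le_antisymm (h1 k) ?_⟩
    have := h2 x0 hx0.1
    have h3 : D.lhs k x0 ≤ D.lhs k x := this
    rwa [hx0.2] at h3

lemma facet_of_point (k : Fin D.n ⊕ Fin D.n) (x : Fin D.n → ℝ) (hx : D.lhs k x = 1)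
    (h : ∀ k' ≠ k, D.lhs k' x < 1) : IsFacet D.poly (D.face k) := by
  refine ⟨face_isExposed k, ⟨x, fun k' => ?_, hx⟩, ?_⟩
  · by_cases hk : k' = k
    · rw [hk, hx]
    · exact (h k' hk).le
  · rw [vectorSpan_eq_ker k x hx h, vectorSpan_poly, finrank_top]
    have hr : LinearMap.range (lhsL D k) = ⊤ := by
      rw [LinearMap.range_eq_top]
      intro c
      refine ⟨c • x, ?_⟩
      rw [map_smul, lhsL_apply, hx, smul_eq_mul, mul_one]
    have := LinearMap.finrank_range_add_finrank_ker (lhsL D k)
    rw [hr, finrank_top, Module.finrank_self] at this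
    omega

lemma point_inl (G : GraphInst D) (i : Fin D.n) : ∃ x : Fin D.n → ℝ, D.lhs (Sum.inl i) x = 1 ∧
    ∀ k' ≠ Sum.inl i, D.lhs k' x < 1 := by
  classical
  have hi : i ∈ supp D i := mem_supp.2 (G.diag i)
  obtain ⟨j0, hj0, hj0'⟩ := G.other i
  have hj : j0 ∈ supp D i := mem_supp.2 hj0'
  have hcard : 2 ≤ (supp D i).card := by
    have : ({i, j0} : Finset (Fin D.n)) ⊆ supp D i := by
      intro a ha; simp at ha; rcases ha with rfl | rfl <;> assumption
    have h2 := Finset.card_le_card this
    rwa [Finset.card_pair hj0.symm] at h2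
  have hc : (2:ℝ) ≤ (supp D i).card := by exact_mod_cast hcard
  have hcpos : (0:ℝ) < (supp D i).card := by linarith
  refine ⟨fun j => if j ∈ supp D i then 1 / ((supp D i).card : ℝ) else -2, ?_, ?_⟩
  · rw [lhs_inl, Finset.sum_congr rfl (g := fun _ => 1 / ((supp D i).card : ℝ)), Finset.sum_const,
      nsmul_eq_mul]
    · field_simp
    · intro j hj; rw [if_pos hj]
  · intro k' hk'
    rcases k' with i' | i'
    · have hne : i' ≠ i := fun h => hk' (by rw [h])
      rw [lhs_inl]
      by_cases hsub : supp D i' ⊆ supp D i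
      · have hss : supp D i' ⊂ supp D i := by
          refine ⟨hsub, fun h => ?_⟩
          have h1 : D.A i i' = true := mem_supp.1 (hsub (mem_supp.2 (G.diag i')))
          have h2 : D.A i' i = true := mem_supp.1 (h hi)
          exact G.nocyc i i' hne.symm h1 h2
        have hlt : ((supp D i').card : ℝ) < (supp D i).card := by
          exact_mod_cast Finset.card_lt_card hss
        rw [Finset.sum_congr rfl (g := fun _ => 1 / ((supp D i).card : ℝ)), Finset.sum_const,
          nsmul_eq_mul, mul_one_div, div_lt_one hcpos]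
        · exact hlt
        · intro j hj; rw [if_pos (hsub hj)]
      · rw [Finset.not_subset] at hsub
        obtain ⟨j, hj1, hj2⟩ := hsub
        rw [← Finset.add_sum_erase _ _ hj1, if_neg hj2]
        have hle : ∑ x ∈ (supp D i').erase j, (if x ∈ supp D i then 1 / ((supp D i).card : ℝ) else -2)
            ≤ 1 := by
          calc ∑ x ∈ (supp D i').erase j, (if x ∈ supp D i then 1 / ((supp D i).card : ℝ) else -2)
              ≤ ∑ x ∈ (supp D i').erase j, (if x ∈ supp D i then 1 / ((supp D i).card : ℝ) else 0) := by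
                apply Finset.sum_le_sum
                intro x _
                split_ifs
                · exact le_rfl
                · norm_num
            _ = ∑ x ∈ ((supp D i').erase j).filter (fun x => x ∈ supp D i), 1 / ((supp D i).card : ℝ) := by
                rw [Finset.sum_filter]
            _ ≤ ∑ x ∈ supp D i, 1 / ((supp D i).card : ℝ) := by
                apply Finset.sum_le_sum_of_subset_of_nonneg
                · intro x hx; exact (Finset.mem_filter.1 hx).2
                · intro _ _ _; positivity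
            _ = 1 := by rw [Finset.sum_const, nsmul_eq_mul]; field_simp
        linarith
    · rw [lhs_inr]
      split_ifs
      · rw [div_lt_one hcpos]; linarith
      · norm_num

lemma point_inr (G : GraphInst D) (i : Fin D.n) : ∃ x : Fin D.n → ℝ, D.lhs (Sum.inr i) x = 1 ∧
    ∀ k' ≠ Sum.inr i, D.lhs k' x < 1 := by
  classical
  refine ⟨fun j => if j = i then 1 else -2, ?_, ?_⟩
  · rw [lhs_inr, if_pos rfl]
  · intro k' hk'
    rcases k' with i' | i'
    · rw [lhs_inl]
      obtain ⟨j, hj1, hj2⟩ : ∃ j ∈ supp D i', j ≠ i := by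
        obtain ⟨j0, hj0, hj0'⟩ := G.other i'
        by_cases h : i' = i
        · exact ⟨j0, mem_supp.2 hj0', fun h' => hj0 (by rw [h', h])⟩
        · exact ⟨i', mem_supp.2 (G.diag i'), h⟩
      rw [← Finset.add_sum_erase _ _ hj1, if_neg hj2]
      have : ∑ x ∈ (supp D i').erase j, (if x = i then (1:ℝ) else -2) ≤ 1 := by
        calc ∑ x ∈ (supp D i').erase j, (if x = i then (1:ℝ) else -2)
            ≤ ∑ x ∈ (supp D i').erase j, (if x = i then (1:ℝ) else 0) := by
              apply Finset.sum_le_sum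
              intro x _
              split_ifs <;> norm_num
          _ ≤ 1 := by
              rw [Finset.sum_ite_eq']
              split_ifs <;> norm_num
      linarith
    · have hne : i' ≠ i := fun h => hk' (by rw [h])
      rw [lhs_inr, if_neg hne]; norm_num

lemma point_any (G : GraphInst D) (k : Fin D.n ⊕ Fin D.n) : ∃ x : Fin D.n → ℝ, D.lhs k x = 1 ∧
    ∀ k' ≠ k, D.lhs k' x < 1 := by
  rcases k with i | i
  · exact point_inl G i
  · exact point_inr G i

lemma facet_any (G : GraphInst D) (k : Fin D.n ⊕ Fin D.n) : IsFacet D.poly (D.face k) := by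
  obtain ⟨x, h1, h2⟩ := point_any G k
  exact facet_of_point k x h1 h2

lemma face_inj (G : GraphInst D) {k k' : Fin D.n ⊕ Fin D.n} (h : D.face k = D.face k') : k = k' := by
  by_contra hne
  obtain ⟨x, h1, h2⟩ := point_any G k
  have hx : x ∈ D.face k := by
    refine ⟨fun k'' => ?_, h1⟩
    by_cases hk : k'' = k
    · rw [hk, h1]
    · exact (h2 k'' hk).le
  rw [h] at hx
  have := h2 k' (fun h' => hne h'.symm)
  rw [hx.2] at this
  exact lt_irrefl _ this

theorem valid_of_graph (G : GraphInst D) (hn : 0 < D.n) : D.Valid where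
  pos := hn
  consistent := by
    intro k k' _ h
    rw [face_inj G h]
  avoid := by
    intro k hk i hdir hcol
    obtain ⟨_, hmem, _⟩ := hdir
    obtain ⟨_, ⟨x, hx⟩, _⟩ := hk
    have := hmem x hx 1 zero_le_one
    have h1 := this.2
    rw [one_smul, lhs_add, hx.2] at h1
    have h2 : D.lhs k (-(Pi.single i 1)) = 0 := by linarith
    rcases k with i' | i'
    · rw [G.col1] at hcol
      subst hcol
      rw [lhs_inl] at h2
      have h3 : ∑ j ∈ supp D i', (-(Pi.single i' (1:ℝ)) : Fin D.n → ℝ) j = -1 := by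
        rw [Finset.sum_eq_single_of_mem i' (mem_supp.2 (G.diag i'))]
        · simp
        · intro j _ hj
          simp [hj]
      rw [h3] at h2
      norm_num at h2
    · rw [G.col2] at hcol
      subst hcol
      rw [lhs_inr] at h2
      simp at h2
  twice := by
    intro i
    have : {F | IsFacet D.poly F ∧ ∃ k, D.face k = F ∧ D.colour k = i}
        = {D.face (Sum.inl i), D.face (Sum.inr i)} := by
      ext F
      simp only [Set.mem_ofPred_eq, Set.mem_insert_iff, Set.mem_singleton_iff]
      constructor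
      · rintro ⟨_, k, rfl, hk⟩
        rcases k with i' | i'
        · rw [G.col1] at hk; left; rw [hk]
        · rw [G.col2] at hk; right; rw [hk]
      · rintro (rfl | rfl)
        · exact ⟨facet_any G _, _, rfl, G.col1 i⟩
        · exact ⟨facet_any G _, _, rfl, G.col2 i⟩
    rw [this]
    apply Set.ncard_pair
    intro h
    have := face_inj G h
    simp at this

/-- a panchromatic vertex satisfies the fixed point equations -/
theorem fixpoint_of_panchromatic (G : GraphInst D) {v : Fin D.n → ℝ} (h : D.Panchromatic v)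
    (i : Fin D.n) : v i = min 1 (1 - ∑ j ∈ (supp D i).erase i, v j) := by
  classical
  have hP : v ∈ D.poly := h.1.1
  have h1 := hP (Sum.inr i)
  have h2 := hP (Sum.inl i)
  rw [lhs_inr] at h1
  rw [lhs_inl, ← Finset.add_sum_erase _ _ (mem_supp.2 (G.diag i))] at h2
  obtain ⟨k, _, hk2, hk3⟩ := h.2 i
  rcases k with i' | i'
  · rw [G.col1] at hk2
    subst hk2
    have h3 := hk3.2
    rw [lhs_inl, ← Finset.add_sum_erase _ _ (mem_supp.2 (G.diag i'))] at h3
    rw [min_eq_right (by linarith)]; linarith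
  · rw [G.col2] at hk2
    subst hk2
    have h3 := hk3.2
    rw [lhs_inr] at h3
    rw [min_eq_left (by linarith)]; exact h3

theorem fixpoint_of_panchromatic' (G : GraphInst D) {v : Fin D.n → ℝ} (h : D.Panchromatic v)
    (i : Fin D.n) : v i = min 1 (1 - ∑ j, if D.A i j = true ∧ j ≠ i then v j else 0) := by
  rw [fixpoint_of_panchromatic G h i, ← Finset.sum_filter]
  congr 2
  apply Finset.sum_congr _ (fun _ _ => rfl)
  ext j
  rw [Finset.mem_erase, mem_supp, Finset.mem_filter]
  simp [and_comm]

end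

end Pool.Agent.Helper58
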