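import Pool.Agent.Helper58.Nodes
import Pool.Agent.Helper58.PanGeom

set_option autoImplicit false

namespace Pool.Agent.Helper58

noncomputable section

open Finset

/-- value of a name under a vector indexed by the nodes -/
def nval (L : List Node) (v : Fin L.length → ℝ) (X : Nm) : ℝ :=
  ∑ j, if L[j].1 = X then v j else 0

/-- list conditions making `mkPan L` a graph instance -/
structure GoodNodes (L : List Node) : Prop where
  nodup : (L.map Prod.fst).Nodup
  other : ∀ p ∈ L, ∃ q ∈ L, q.1 ∈ p.2
  nocyc : ∀ p ∈ L, ∀ q ∈ L, q.1 ∈ p.2 → p.1 ∈ q.2 → False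

lemma name_inj {L : List Node} (h : (L.map Prod.fst).Nodup) {i j : Fin L.length}
    (he : L[i].1 = L[j].1) : i = j := by
  have := List.nodup_iff_injective_get.1 h
  have h2 : (⟨i, by simp⟩ : Fin (L.map Prod.fst).length) = ⟨j, by simp⟩ := by
    apply this
    simpa using he
  exact Fin.ext (by simpa using h2)

lemma graph_mkPan {L : List Node} (h : GoodNodes L) : GraphInst (mkPan L) where
  diag := by intro i; simp [mkPan]
  other := by
    intro i
    obtain ⟨q, hq, hq2⟩ := h.other L[i] (List.getElem_mem _)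
    obtain ⟨j, hj, rfl⟩ := List.getElem_of_mem hq
    refine ⟨⟨j, hj⟩, ?_, ?_⟩
    · rintro rfl
      exact h.nocyc _ (List.getElem_mem _) _ (List.getElem_mem _) hq2 hq2
    · simp only [mkPan, decide_eq_true_eq]
      right; exact hq2
  nocyc := by
    intro i j hne h1 h2
    simp only [mkPan, decide_eq_true_eq] at h1 h2
    rcases h1 with h1 | h1
    · exact hne (name_inj h.nodup h1).symm
    · rcases h2 with h2 | h2
      · exact hne (name_inj h.nodup h2)
      · exact h.nocyc _ (List.getElem_mem _) _ (List.getElem_mem _) h1 h2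
  col1 := by intro i; rfl
  col2 := by intro i; rfl

lemma nval_mem {L : List Node} (h : GoodNodes L) (v : Fin L.length → ℝ) (i : Fin L.length) :
    nval L v L[i].1 = v i := by
  unfold nval
  rw [Finset.sum_eq_single_of_mem i (Finset.mem_univ _)]
  · rw [if_pos rfl]
  · intro j _ hj
    rw [if_neg]
    intro he; exact hj (name_inj h.nodup he)

lemma nval_absent {L : List Node} (v : Fin L.length → ℝ) (X : Nm) (hX : X ∉ L.map Prod.fst) :
    nval L v X = 0 := by
  unfold nval
  apply Finset.sum_eq_zero
  intro j _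
  rw [if_neg]
  intro he
  apply hX
  rw [← he]
  exact List.mem_map_of_mem (List.getElem_mem _)

lemma sum_nval {L : List Node} (v : Fin L.length → ℝ) (nb : List Nm) (hnb : nb.Nodup) :
    (nb.map (nval L v)).sum = ∑ j ∈ univ.filter (fun j : Fin L.length => L[j].1 ∈ nb), v j := by
  induction nb with
  | nil => simp
  | cons X nb ih =>
    rw [List.nodup_cons] at hnb
    rw [List.map_cons, List.sum_cons, ih hnb.2]
    unfold nval
    rw [← Finset.sum_filter, ← Finset.sum_union]
    · congr 1
      ext j
      simp [Finset.mem_union, Finset.mem_filter]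
    · rw [Finset.disjoint_left]
      intro j hj1 hj2
      simp only [Finset.mem_filter] at hj1 hj2
      rw [hj1.2] at hj2
      exact hnb.1 hj2.2

lemma nval_eq {L : List Node} (h : GoodNodes L) {v : Fin L.length → ℝ}
    (hv : (mkPan L).Panchromatic v) {X : Nm} {nb : List Nm} (hm : (X, nb) ∈ L) (hnb : nb.Nodup) :
    nval L v X = min 1 (1 - (nb.map (nval L v)).sum) := by
  classical
  obtain ⟨i, hi, hie⟩ := List.getElem_of_mem hm
  have G := graph_mkPan h
  have hf : v ⟨i, hi⟩ = min 1 (1 - ∑ j : Fin L.length,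
      if decide (L[j].1 = L[i].1 ∨ L[j].1 ∈ L[i].2) = true ∧ j ≠ ⟨i, hi⟩ then v j else 0) :=
    fixpoint_of_panchromatic' G hv ⟨i, hi⟩
  have e1 : nval L v X = v ⟨i, hi⟩ := by
    have := nval_mem h v ⟨i, hi⟩
    simp only [Fin.getElem_fin, hie] at this
    exact this
  rw [e1, hf, sum_nval v nb hnb, ← Finset.sum_filter]
  congr 2
  apply Finset.sum_congr _ (fun _ _ => rfl)
  ext j
  rw [Finset.mem_filter, Finset.mem_filter, decide_eq_true_eq, hie]
  constructor
  · rintro ⟨_, h1 | h1, hne⟩
    · exfalso; apply hne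
      apply name_inj h.nodup
      simp only [Fin.getElem_fin, hie]; exact h1
    · exact ⟨Finset.mem_univ _, h1⟩
  · rintro ⟨_, h1⟩
    refine ⟨Finset.mem_univ _, Or.inr h1, ?_⟩
    intro he
    subst he
    simp only [Fin.getElem_fin, hie] at h1
    exact h.nocyc _ hm _ hm h1 h1

end

end Pool.Agent.Helper58
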