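import Pool.Agent.Helper58.PanNet

set_option autoImplicit false

namespace Pool.Agent.Helper58

noncomputable section

open Finset

lemma min_fix3 {a b c : ℝ} (h1 : a = min 1 (1 - b)) (h2 : b = min 1 (1 - c)) (h3 : c = min 1 (1 - a)) :
    a = 1/2 ∧ b = 1/2 ∧ c = 1/2 := by
  have a1 : a ≤ 1 := h1 ▸ min_le_left _ _
  have b1 : b ≤ 1 := h2 ▸ min_le_left _ _
  have c1 : c ≤ 1 := h3 ▸ min_le_left _ _
  have a0 : 0 ≤ a := by rw [h1]; exact le_min zero_le_one (by linarith)
  have b0 : 0 ≤ b := by rw [h2]; exact le_min zero_le_one (by linarith)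
  have c0 : 0 ≤ c := by rw [h3]; exact le_min zero_le_one (by linarith)
  rw [min_eq_right (by linarith)] at h1 h2 h3
  refine ⟨?_, ?_, ?_⟩ <;> linarith

/-- `NEq val X nb` : the fixed point equation at `X` -/
def NEq (val : Nm → ℝ) (X : Nm) (nb : List Nm) : Prop := val X = min 1 (1 - (nb.map val).sum)

lemma base_vals (val : Nm → ℝ) (h : ∀ p ∈ baseNodes, NEq val p.1 p.2) :
    val [0, 0] = 1 ∧ val [1, 0] = -1 ∧ val [4, 4] = 1 := by
  have e0 := h ([4, 0], [[4, 1]]) (by simp [baseNodes])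
  have e1 := h ([4, 1], [[4, 2]]) (by simp [baseNodes])
  have e2 := h ([4, 2], [[4, 0]]) (by simp [baseNodes])
  have e3 := h ([4, 3], [[4, 0], [4, 1]]) (by simp [baseNodes])
  have e4 := h ([0, 0], [[4, 3]]) (by simp [baseNodes])
  have e5 := h ([4, 4], [[4, 3]]) (by simp [baseNodes])
  have e6 := h ([1, 0], [[0, 0], [4, 4]]) (by simp [baseNodes])
  simp only [NEq, List.map_cons, List.map_nil, List.sum_cons, List.sum_nil, add_zero] at e0 e1 e2 e3 e4 e5 e6
  obtain ⟨h0, h1, h2⟩ := min_fix3 e0 e1 e2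
  rw [h0, h1] at e3
  norm_num at e3
  rw [e3] at e4 e5
  norm_num at e4 e5
  rw [e4, e5] at e6
  norm_num at e6
  exact ⟨e4, e6, e5⟩

lemma gate_vals (val : Nm → ℝ) (b1 : val [0, 0] = 1) (b2 : val [4, 4] = 1) (g : Gate)
    (h : ∀ p ∈ gateNodes g, NEq val p.1 p.2) :
    val (0 :: g.1) = - val (1 :: g.1) ∧ -1 ≤ val (0 :: g.1) ∧ val (0 :: g.1) ≤ 1 ∧
    val (0 :: g.1) = max (-1) (min 1 (-((g.2.zipIdx.map (fun l => inpNode g.1 l.2)).map val).sum)) ∧
    (∀ l ∈ g.2.zipIdx, val (inpNode g.1 l.2) = min 1 (- val (litNode l.1))) := by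
  have e1 := h (0 :: g.1, [[0, 0], 1 :: g.1]) (by simp [gateNodes])
  have e2 := h (1 :: g.1, [[0, 0], 2 :: g.1]) (by simp [gateNodes])
  have e3 := h (2 :: g.1, [0, 0] :: (g.2.zipIdx.map (fun l => inpNode g.1 l.2))) (by simp [gateNodes])
  simp only [NEq, List.map_cons, List.map_nil, List.sum_cons, List.sum_nil, add_zero, b1] at e1 e2 e3
  set σ := ((g.2.zipIdx.map (fun l => inpNode g.1 l.2)).map val).sum
  have f1 : val (0 :: g.1) = min 1 (- val (1 :: g.1)) := by
    rw [e1]; congr 1; ring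
  have f2 : val (1 :: g.1) = min 1 (- val (2 :: g.1)) := by
    rw [e2]; congr 1; ring
  have f3 : val (2 :: g.1) = min 1 (-σ) := by
    rw [e3]; congr 1; ring
  have g3 : val (2 :: g.1) ≤ 1 := f3 ▸ min_le_left _ _
  have g2 : val (1 :: g.1) ≤ 1 := f2 ▸ min_le_left _ _
  have g2' : -1 ≤ val (1 :: g.1) := by
    rw [f2]; exact le_min (by norm_num) (by linarith)
  have f1' : val (0 :: g.1) = - val (1 :: g.1) := by
    rw [f1, min_eq_right (by linarith)]
  refine ⟨f1', by linarith, by linarith, ?_, ?_⟩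
  · rw [f1', f2, f3]
    rcases le_total (min 1 (-σ)) (-1) with hh | hh
    · rw [max_eq_left hh, min_eq_left (by linarith)]
    · rw [max_eq_right hh, min_eq_right (by linarith)]; ring
  · intro l hl
    have e4 := h (inpNode g.1 l.2, [[4, 4], litNode l.1]) (by
      simp only [gateNodes, List.mem_cons, List.mem_map]
      right; right; right; exact ⟨l, hl, rfl⟩)
    simp only [NEq, List.map_cons, List.map_nil, List.sum_cons, List.sum_nil, add_zero, b2] at e4
    rw [e4]; congr 1; ring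

lemma isSol_of_eqs (gs : List Gate) (val : Nm → ℝ)
    (hb : ∀ p ∈ baseNodes, NEq val p.1 p.2)
    (hgs : ∀ g ∈ gs, ∀ p ∈ gateNodes g, NEq val p.1 p.2)
    (habs : ∀ M : Nm, M ≠ [0] → M ∉ gs.map Prod.fst → val (0 :: M) = 0 ∧ val (1 :: M) = 0) :
    IsSol gs (fun N => val (0 :: N)) := by
  obtain ⟨b1, b2, b3⟩ := base_vals val hb
  have hneg : ∀ M : Nm, val (1 :: M) = - val (0 :: M) ∧ -1 ≤ val (0 :: M) ∧ val (0 :: M) ≤ 1 := by
    intro M
    by_cases h0 : M = [0]
    · subst h0; rw [b1, b2]; norm_num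
    · by_cases h1 : M ∈ gs.map Prod.fst
      · rw [List.mem_map] at h1
        obtain ⟨g, hg, rfl⟩ := h1
        obtain ⟨a1, a2, a3, _, _⟩ := gate_vals val b1 b3 g (hgs g hg)
        exact ⟨by linarith, a2, a3⟩
      · obtain ⟨a1, a2⟩ := habs M h0 h1
        rw [a1, a2]; norm_num
  refine ⟨b1, ?_⟩
  intro g hg
  obtain ⟨_, _, _, a4, a5⟩ := gate_vals val b1 b3 g (hgs g hg)
  simp only []
  rw [a4]
  have hlit : ∀ l ∈ g.2.zipIdx, val (inpNode g.1 l.2) = - lval (fun N => val (0 :: N)) l.1 := by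
    intro l hl
    rw [a5 l hl]
    unfold litNode lval
    obtain ⟨h1, h2, h3⟩ := hneg l.1.2
    split_ifs
    · rw [min_eq_right (by linarith)]
    · rw [h1, min_eq_right (by linarith)]
  have hsum : ((g.2.zipIdx.map (fun l => inpNode g.1 l.2)).map val).sum
      = -((g.2.map (lval (fun N => val (0 :: N)))).sum) := by
    rw [List.map_map]
    have e1 : g.2.zipIdx.map (val ∘ fun l => inpNode g.1 l.2)
        = g.2.zipIdx.map (fun l => - lval (fun N => val (0 :: N)) l.1) := by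
      apply List.map_congr_left
      intro l hl
      exact hlit l hl
    have e2 : g.2.map (lval (fun N => val (0 :: N)))
        = g.2.zipIdx.map (fun l => lval (fun N => val (0 :: N)) l.1) := by
      conv_lhs => rw [← List.zipIdx_map_fst 0 g.2]
      rw [List.map_map]; rfl
    rw [e1, e2]
    generalize g.2.zipIdx = L
    induction L with
    | nil => simp
    | cons a L ih => simp only [List.map_cons, List.sum_cons, ih]; ring
  rw [hsum, neg_neg]
  rfl

end

end Pool.Agent.Helper58
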