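import Pool.Agent.Helper58.Gadgets
import Pool.Agent.Helper58.TreeInj

set_option autoImplicit false

namespace Pool.Agent.Helper58

open Function

/-- types whose elements are encoded as trees -/
class Enc (α : Type) where
  enc : α → DTree
  inj : Function.Injective enc

export Enc (enc)

/-- size of the code of an element -/
def sz {α : Type} [Enc α] (a : α) : ℕ := (enc a).code.length

lemma DTree.code_length_pos (x : DTree) : 1 ≤ x.code.length := by
  cases x <;> simp [DTree.code]

lemma sz_pos {α : Type} [Enc α] (a : α) : 1 ≤ sz a := DTree.code_length_pos _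

/-- polynomially bounded functions -/
def PB {α : Type} [Enc α] (g : α → ℕ) : Prop := ∃ k, ∀ a, g a ≤ (sz a + 1) ^ k

section PB

variable {α β : Type} [Enc α] [Enc β]

lemma two_le_base (a : α) : 2 ≤ sz a + 1 := by have := sz_pos a; omega

lemma PB.mono {f g : α → ℕ} (hg : PB g) (h : ∀ a, f a ≤ g a) : PB f := by
  obtain ⟨k, hk⟩ := hg
  exact ⟨k, fun a => (h a).trans (hk a)⟩

lemma PB.const (c : ℕ) : PB (fun _ : α => c) := by
  refine ⟨c, fun a => ?_⟩
  calc c ≤ 2 ^ c := Nat.lt_two_pow_self.le
    _ ≤ (sz a + 1) ^ c := Nat.pow_le_pow_left (two_le_base a) c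

lemma PB.size : PB (fun a : α => sz a) := ⟨1, fun a => by simp⟩

lemma PB.add {f g : α → ℕ} (hf : PB f) (hg : PB g) : PB (fun a => f a + g a) := by
  obtain ⟨k, hk⟩ := hf
  obtain ⟨l, hl⟩ := hg
  refine ⟨max k l + 1, fun a => ?_⟩
  have h2 := two_le_base a
  have h1 : (sz a + 1) ^ k ≤ (sz a + 1) ^ (max k l) := Nat.pow_le_pow_right (by omega) (le_max_left _ _)
  have h3 : (sz a + 1) ^ l ≤ (sz a + 1) ^ (max k l) := Nat.pow_le_pow_right (by omega) (le_max_right _ _)
  calc f a + g a ≤ (sz a + 1) ^ (max k l) + (sz a + 1) ^ (max k l) :=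
        Nat.add_le_add ((hk a).trans h1) ((hl a).trans h3)
    _ = (sz a + 1) ^ (max k l) * 2 := by ring
    _ ≤ (sz a + 1) ^ (max k l) * (sz a + 1) := Nat.mul_le_mul_left _ h2
    _ = (sz a + 1) ^ (max k l + 1) := by ring

lemma PB.mul {f g : α → ℕ} (hf : PB f) (hg : PB g) : PB (fun a => f a * g a) := by
  obtain ⟨k, hk⟩ := hf
  obtain ⟨l, hl⟩ := hg
  refine ⟨k + l, fun a => ?_⟩
  rw [pow_add]
  exact Nat.mul_le_mul (hk a) (hl a)

lemma PB.pow {f : α → ℕ} (hf : PB f) (k : ℕ) : PB (fun a => f a ^ k) := by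
  obtain ⟨l, hl⟩ := hf
  refine ⟨l * k, fun a => ?_⟩
  rw [pow_mul]
  exact Nat.pow_le_pow_left (hl a) k

lemma PB.comp {g : β → ℕ} {f : α → β} (hg : PB g) (hf : PB (fun a => sz (f a))) :
    PB (fun a => g (f a)) := by
  obtain ⟨k, hk⟩ := hg
  exact ((hf.add (PB.const 1)).pow k).mono (fun a => hk (f a))

end PB

/-- polynomial time computable functions, by stack programs -/
def PTf {α β : Type} [Enc α] [Enc β] (f : α → β) : Prop :=
  PB (fun a => sz (f a)) ∧
  ∃ (c : ℕ → Cmd) (w : ℕ) (T : α → ℕ), (∀ r, (c r).Below (r + w)) ∧ PB T ∧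
    ∀ (r : ℕ) (s : Stk) (a : α), s r = (enc a).code → (∀ j, r < j → s j = []) →
      ∃ t ≤ T a, Exec (c r) s (update s r (enc (f a)).code) t

/-- the semantic part -/
def Runs {α β : Type} [Enc α] [Enc β] (f : α → β) (c : ℕ → Cmd) (T : α → ℕ) : Prop :=
  ∀ (r : ℕ) (s : Stk) (a : α), ∃ t ≤ T a,
    Exec (c r) (st4 s r (enc a).code [] [] []) (st4 s r (enc (f a)).code [] [] []) t

lemma st4_above0 (s : Stk) (r : ℕ) (a : List Bool) {j : ℕ} (h : r < j) :
    st4 s r a [] [] [] j = [] := by
  unfold st4; split_ifs <;> first | rfl | omega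

lemma st4_above1 (s : Stk) (r : ℕ) (a b : List Bool) {j : ℕ} (h : r + 1 < j) :
    st4 s r a b [] [] j = [] := by
  unfold st4; split_ifs <;> first | rfl | omega

lemma ptf_iff {α β : Type} [Enc α] [Enc β] (f : α → β) : PTf f ↔
    PB (fun a => sz (f a)) ∧ ∃ (c : ℕ → Cmd) (w : ℕ) (T : α → ℕ), (∀ r, (c r).Below (r + w)) ∧
      PB T ∧ Runs f c T := by
  unfold PTf Runs
  refine and_congr_right (fun _ => exists_congr fun c => exists_congr fun w => exists_congr fun T =>
    and_congr_right (fun _ => and_congr_right (fun _ => ?_)))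
  constructor
  · intro h r s a
    obtain ⟨t, ht, he⟩ := h r (st4 s r (enc a).code [] [] []) a (st4_0 _ _ _ _ _ _)
      (fun j hj => st4_above0 _ _ _ hj)
    refine ⟨t, ht, he.of_eq ?_ rfl⟩
    rw [st4_u0]
  · intro h r s a hs hj
    obtain ⟨t, ht, he⟩ := h r s a
    rw [← hs, ← st4_init s r hj] at he
    refine ⟨t, ht, he.of_eq ?_ rfl⟩
    exact st4_final s r hj _

/-- running at offset `r + 1` -/
lemma Runs.run1 {α β : Type} [Enc α] [Enc β] {f : α → β} {c : ℕ → Cmd} {T : α → ℕ}
    (h : Runs f c T) (r : ℕ) (s : Stk) (u : List Bool) (a : α) :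
    ∃ t ≤ T a, Exec (c (r + 1)) (st4 s r u (enc a).code [] []) (st4 s r u (enc (f a)).code [] []) t := by
  obtain ⟨t, ht, he⟩ := h (r + 1) (st4 s r u (enc a).code [] []) a
  refine ⟨t, ht, ?_⟩
  have e1 : st4 (st4 s r u (enc a).code [] []) (r + 1) (enc a).code [] [] []
      = st4 s r u (enc a).code [] [] := by
    have := st4_init (st4 s r u (enc a).code [] []) (r + 1) (fun j hj => st4_above1 _ _ _ _ hj)
    rw [st4_1] at this
    exact this.symm
  have e2 : st4 (st4 s r u (enc a).code [] []) (r + 1) (enc (f a)).code [] [] []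
      = st4 s r u (enc (f a)).code [] [] := by
    rw [st4_final _ (r + 1) (fun j hj => st4_above1 _ _ _ _ hj), st4_u1]
  rw [e1, e2] at he
  exact he

/-! ### widths -/

lemma below_mv {k l N : ℕ} (h1 : k < N) (h2 : l < N) : (mv k l).Below N := by
  simp [mv, pop2, Cmd.Below, h1, h2]
lemma below_clr {k N : ℕ} (h1 : k < N) : (clr k).Below N := by
  simp [clr, pop2, Cmd.Below, h1]
lemma below_cp {k l m N : ℕ} (h1 : k < N) (h2 : l < N) (h3 : m < N) : (cp k l m).Below N := by
  simp [cp, pop2, Cmd.Below, h1, h2, h3]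
lemma below_dup {r N : ℕ} (h : r + 2 < N) : (dup r).Below N :=
  ⟨below_mv (by omega) (by omega), below_cp (by omega) (by omega) (by omega)⟩
lemma below_swp {r N : ℕ} (h : r + 3 < N) : (swp r).Below N :=
  ⟨below_mv (by omega) (by omega), below_mv (by omega) (by omega), below_mv (by omega) (by omega),
    below_mv (by omega) (by omega)⟩
lemma below_dwn {r N : ℕ} (h : r + 2 < N) : (dwn r).Below N :=
  ⟨below_mv (by omega) (by omega), below_mv (by omega) (by omega)⟩
lemma below_joinc {r N : ℕ} (h : r + 3 < N) : (joinc r).Below N :=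
  ⟨below_mv (by omega) (by omega), below_mv (by omega) (by omega), below_mv (by omega) (by omega),
    below_mv (by omega) (by omega), by show r < N; omega⟩
lemma below_extract {r N : ℕ} (h : r + 2 < N) : (extract r).Below N := by
  have h1 : r < N := by omega
  have h2 : r + 1 < N := by omega
  simp [extract, exBody, pop2, Cmd.Below, h, h1, h2]
lemma below_pushL {r N : ℕ} (h : r < N) : ∀ l, (pushL r l).Below N
  | [] => trivial
  | _ :: l => ⟨below_pushL h l, h⟩
lemma below_cmp {r N : ℕ} (h : r + 3 < N) : (Cmd.loop (r + 1) (cmpBody r)).Below N := by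
  have h1 : r + 2 < N := by omega
  have h2 : r + 1 < N := by omega
  simp [cmpBody, pop2, Cmd.Below, h, h1, h2]

/-! ### closure properties -/

section closure

variable {α β γ δ : Type} [Enc α] [Enc β] [Enc γ] [Enc δ]

lemma PTf.sz_le {f : α → β} (hf : PTf f) : PB (fun a => sz (f a)) := hf.1

/-- maps that do not change the code -/
theorem PTf.of_enc_eq {f : α → β} (h : ∀ a, enc (f a) = enc a) : PTf f := by
  rw [ptf_iff]
  refine ⟨PB.size.mono (fun a => by unfold sz; rw [h a]), fun _ => Cmd.skip, 0, fun _ => 0,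
    fun _ => trivial, PB.const 0, ?_⟩
  intro r s a
  refine ⟨0, le_rfl, ?_⟩
  rw [h a]
  exact Exec.skip _

theorem PTf.id : PTf (fun a : α => a) := PTf.of_enc_eq (fun _ => rfl)

theorem PTf.comp {g : β → γ} {f : α → β} (hg : PTf g) (hf : PTf f) : PTf (fun a => g (f a)) := by
  rw [ptf_iff] at hf hg ⊢
  obtain ⟨hsf, cf, wf, Tf, hbf, hTf, hrf⟩ := hf
  obtain ⟨hsg, cg, wg, Tg, hbg, hTg, hrg⟩ := hg
  refine ⟨hsg.comp hsf, fun r => Cmd.seq (cf r) (cg r), max wf wg, fun a => Tf a + Tg (f a), ?_,
    hTf.add (hTg.comp hsf), ?_⟩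
  · intro r
    exact ⟨(hbf r).mono (by omega), (hbg r).mono (by omega)⟩
  · intro r s a
    obtain ⟨t1, h1, e1⟩ := hrf r s a
    obtain ⟨t2, h2, e2⟩ := hrg r s (f a)
    exact ⟨t1 + t2, Nat.add_le_add h1 h2, exec_seq e1 e2⟩

theorem PTf.const (b : β) : PTf (fun _ : α => b) := by
  rw [ptf_iff]
  refine ⟨PB.const _, fun r => Cmd.seq (clr r) (pushL r (enc b).code), 1, fun a => sz a + 1, ?_,
    PB.size.add (PB.const 1), ?_⟩
  · intro r
    exact ⟨below_clr (by omega), below_pushL (by omega) _⟩
  · intro r s a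
    have h1 := clr_exec (k := r) _ (st4 s r (enc a).code [] [] []) (st4_0 _ _ _ _ _ _)
    rw [st4_u0] at h1
    have h2 := pushL_exec s r (enc b).code []
    rw [List.append_nil] at h2
    exact ⟨_, le_rfl, (exec_seq h1 h2).of_eq rfl (by simp [sz])⟩

/-- functions whose value code is built from two computable codes -/
theorem PTf.of_cons {f : α → β} {g : α → γ} {h : α → δ} (hf : PTf f) (hg : PTf g)
    (e : ∀ a, enc (h a) = DTree.cons (enc (f a)) (enc (g a))) : PTf h := by
  rw [ptf_iff] at hf hg ⊢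
  obtain ⟨hsf, cf, wf, Tf, hbf, hTf, hrf⟩ := hf
  obtain ⟨hsg, cg, wg, Tg, hbg, hTg, hrg⟩ := hg
  refine ⟨((hsf.add hsg).add (PB.const 1)).mono ?_,
    fun r => Cmd.seq (dup r) (Cmd.seq (cf (r + 1)) (Cmd.seq (swp r) (Cmd.seq (cg (r + 1)) (joinc r)))),
    wf + wg + 5, fun a => (2 * sz a + 2) + (Tf a + ((2 * sz a + 2 * sz (f a) + 4) + (Tg a +
      (2 * sz (f a) + 2 * sz (g a) + 4)))), ?_, ?_, ?_⟩
  · intro a
    unfold sz
    rw [e a]
    simp only [DTree.code, List.length_cons, List.length_append]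
    exact le_rfl
  · intro r
    exact ⟨below_dup (by omega), (hbf _).mono (by omega), below_swp (by omega),
      (hbg _).mono (by omega), below_joinc (by omega)⟩
  · have h2 : PB (fun a : α => 2 * sz a) := (PB.const 2).mul PB.size
    have h2f : PB (fun a : α => 2 * sz (f a)) := (PB.const 2).mul hsf
    have h2g : PB (fun a : α => 2 * sz (g a)) := (PB.const 2).mul hsg
    exact (h2.add (PB.const 2)).add (hTf.add (((h2.add h2f).add (PB.const 4)).add
      (hTg.add ((h2f.add h2g).add (PB.const 4)))))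
  · intro r s a
    have h1 := dup_exec s r (enc a).code
    obtain ⟨t1, ht1, e1⟩ := hrf.run1 r s (enc a).code a
    have h2 := swp_exec s r (enc a).code (enc (f a)).code
    obtain ⟨t2, ht2, e2⟩ := hrg.run1 r s (enc (f a)).code a
    have h3 := joinc_exec s r (enc (f a)).code (enc (g a)).code
    refine ⟨_, ?_, (exec_seq h1 (exec_seq e1 (exec_seq h2 (exec_seq e2 h3)))).of_eq ?_ rfl⟩
    · beta_reduce; unfold sz; omega
    · rw [e a]; rfl

/-- functions whose value code is the left subtree (of a nontrivial code) -/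
theorem PTf.of_left {h : α → β} (e : ∀ a, ∃ y, enc a = DTree.cons (enc (h a)) y) : PTf h := by
  rw [ptf_iff]
  refine ⟨PB.size.mono ?_,
    fun r => Cmd.popCase r Cmd.skip Cmd.skip (Cmd.seq (extract r) (Cmd.seq (clr r) (mv (r + 1) r))),
    3, fun a => 3 * sz a + 3, ?_, ((PB.const 3).mul PB.size).add (PB.const 3), ?_⟩
  · intro a
    obtain ⟨y, hy⟩ := e a
    unfold sz
    rw [hy]
    simp only [DTree.code, List.length_cons, List.length_append]
    omega
  · intro r
    exact ⟨by omega, trivial, trivial, below_extract (by omega), below_clr (by omega),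
      below_mv (by omega) (by omega)⟩
  · intro r s a
    obtain ⟨y, hy⟩ := e a
    have h1 := extract_spec s r (enc (h a)) y.code
    have h2 := clr_exec (k := r) y.code (st4 s r y.code (enc (h a)).code.reverse [] [])
      (st4_0 _ _ _ _ _ _)
    rw [st4_u0] at h2
    have h3 := mv_exec (k := r + 1) (l := r) (by omega) (enc (h a)).code.reverse
      (st4 s r [] (enc (h a)).code.reverse [] []) (st4_1 _ _ _ _ _ _)
    rw [st4_0, st4_u0, st4_u1] at h3
    refine ⟨_, ?_, Exec.popT _ _ _ _ _ _ _ ((enc (h a)).code ++ y.code) ?_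
      ((exec_seq (n := (enc (h a)).code.length + 1) ?_ (exec_seq h2 h3)).of_eq ?_ rfl)⟩
    · simp only [List.length_reverse]
      unfold sz
      rw [hy]
      simp only [DTree.code, List.length_cons, List.length_append]
      omega
    · rw [st4_0, hy]; rfl
    · rw [st4_u0]; exact h1
    · simp

/-- functions whose value code is the right subtree (of a nontrivial code) -/
theorem PTf.of_right {h : α → β} (e : ∀ a, ∃ y, enc a = DTree.cons y (enc (h a))) : PTf h := by
  rw [ptf_iff]
  refine ⟨PB.size.mono ?_,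
    fun r => Cmd.popCase r Cmd.skip Cmd.skip (Cmd.seq (extract r) (clr (r + 1))),
    3, fun a => 2 * sz a + 2, ?_, ((PB.const 2).mul PB.size).add (PB.const 2), ?_⟩
  · intro a
    obtain ⟨y, hy⟩ := e a
    unfold sz
    rw [hy]
    simp only [DTree.code, List.length_cons, List.length_append]
    omega
  · intro r
    exact ⟨by omega, trivial, trivial, below_extract (by omega), below_clr (by omega)⟩
  · intro r s a
    obtain ⟨y, hy⟩ := e a
    have h1 := extract_spec s r y (enc (h a)).code
    have h2 := clr_exec (k := r + 1) y.code.reverse (st4 s r (enc (h a)).code y.code.reverse [] [])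
      (st4_1 _ _ _ _ _ _)
    rw [st4_u1] at h2
    refine ⟨_, ?_, Exec.popT _ _ _ _ _ _ _ (y.code ++ (enc (h a)).code) ?_
      (exec_seq (n := y.code.length + 1) ?_ h2)⟩
    · simp only [List.length_reverse]
      unfold sz
      rw [hy]
      simp only [DTree.code, List.length_cons, List.length_append]
      omega
    · rw [st4_0, hy]; rfl
    · rw [st4_u0]; exact h1

instance encSub (p : α → Prop) : Enc {a : α // p a} where
  enc a := enc a.1
  inj := fun _ _ h => Subtype.ext (Enc.inj h)

lemma sz_sub (p : α → Prop) (a : {a : α // p a}) : sz a = sz a.1 := rfl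

/-- case distinction on whether a code is `nil` -/
theorem PTf.ite_nil {t : α → β} {p : α → Prop} (ht : PTf t) (hp : ∀ a, p a ↔ enc (t a) = DTree.nil)
    {h : α → γ} (hf : PTf (fun a : {a : α // p a} => h a.1))
    (hg : PTf (fun a : {a : α // ¬ p a} => h a.1)) : PTf h := by
  classical
  rw [ptf_iff] at ht hf hg ⊢
  obtain ⟨hst, ct, wt, Tt, hbt, hTt, hrt⟩ := ht
  obtain ⟨hsf, cf, wf, Tf, hbf, hTf, hrf⟩ := hf
  obtain ⟨hsg, cg, wg, Tg, hbg, hTg, hrg⟩ := hg
  obtain ⟨kf, hkf⟩ := hTf
  obtain ⟨kg, hkg⟩ := hTg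
  obtain ⟨lf, hlf⟩ := hsf
  obtain ⟨lg, hlg⟩ := hsg
  refine ⟨PB.mono (g := fun a => (sz a + 1) ^ lf + (sz a + 1) ^ lg) ?_ ?_,
    fun r => Cmd.seq (dup r) (Cmd.seq (ct (r + 1))
      (Cmd.popCase (r + 1) Cmd.skip (cf r) (Cmd.seq (clr (r + 1)) (cg r)))),
    wt + wf + wg + 4, fun a => (2 * sz a + 2) + (Tt a + ((sz (t a) + 1) + ((sz a + 1) ^ kf +
      (sz a + 1) ^ kg))), ?_, ?_, ?_⟩
  · exact ((PB.size.add (PB.const 1)).pow lf).add ((PB.size.add (PB.const 1)).pow lg)
  · intro a
    by_cases hpa : p a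
    · exact (hlf ⟨a, hpa⟩).trans (Nat.le_add_right _ _)
    · exact (hlg ⟨a, hpa⟩).trans (Nat.le_add_left _ _)
  · intro r
    exact ⟨below_dup (by omega), (hbt _).mono (by omega), by omega, trivial, (hbf _).mono (by omega),
      below_clr (by omega), (hbg _).mono (by omega)⟩
  · have h2 : PB (fun a : α => 2 * sz a) := (PB.const 2).mul PB.size
    exact (h2.add (PB.const 2)).add (hTt.add ((hst.add (PB.const 1)).add
      (((PB.size.add (PB.const 1)).pow kf).add ((PB.size.add (PB.const 1)).pow kg))))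
  · intro r s a
    have h1 := dup_exec s r (enc a).code
    obtain ⟨t1, ht1, e1⟩ := hrt.run1 r s (enc a).code a
    by_cases hpa : p a
    · obtain ⟨t2, ht2, e2⟩ := hrf r s ⟨a, hpa⟩
      have e3 : Exec (Cmd.popCase (r + 1) Cmd.skip (cf r) (Cmd.seq (clr (r + 1)) (cg r)))
          (st4 s r (enc a).code (enc (t a)).code [] []) (st4 s r (enc (h a)).code [] [] []) t2 := by
        apply Exec.popF _ _ _ _ _ _ _ []
        · rw [st4_1, (hp a).1 hpa]; rfl
        · rw [st4_u1]; exact e2
      refine ⟨_, ?_, exec_seq h1 (exec_seq e1 e3)⟩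
      have := hkf ⟨a, hpa⟩
      rw [sz_sub] at this
      have h5 : sz (t a) = 1 := by
        unfold sz; rw [(hp a).1 hpa]; simp [DTree.code]
      have h6 : sz a = (enc a).code.length := rfl
      have h7 : (⟨a, hpa⟩ : {a : α // p a}).1 = a := rfl
      rw [h7] at this
      beta_reduce
      omega
    · obtain ⟨t2, ht2, e2⟩ := hrg r s ⟨a, hpa⟩
      have hne : enc (t a) ≠ DTree.nil := fun hh => hpa ((hp a).2 hh)
      obtain ⟨x, y, hxy⟩ : ∃ x y, enc (t a) = DTree.cons x y := by
        cases h0 : enc (t a) with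
        | nil => exact absurd h0 hne
        | cons x y => exact ⟨x, y, rfl⟩
      have h4 := clr_exec (k := r + 1) (x.code ++ y.code)
        (st4 s r (enc a).code (x.code ++ y.code) [] []) (st4_1 _ _ _ _ _ _)
      rw [st4_u1] at h4
      have e3 : Exec (Cmd.popCase (r + 1) Cmd.skip (cf r) (Cmd.seq (clr (r + 1)) (cg r)))
          (st4 s r (enc a).code (enc (t a)).code [] []) (st4 s r (enc (h a)).code [] [] [])
          ((x.code ++ y.code).length + 1 + t2) := by
        apply Exec.popT _ _ _ _ _ _ _ (x.code ++ y.code)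
        · rw [st4_1, hxy]; rfl
        · rw [st4_u1]; exact exec_seq h4 e2
      refine ⟨_, ?_, exec_seq h1 (exec_seq e1 e3)⟩
      have := hkg ⟨a, hpa⟩
      rw [sz_sub] at this
      have h5 : sz (t a) = (x.code ++ y.code).length + 1 := by
        unfold sz; rw [hxy]; simp [DTree.code]
      have h6 : sz a = (enc a).code.length := rfl
      have h7 : (⟨a, hpa⟩ : {a : α // ¬ p a}).1 = a := rfl
      rw [h7] at this
      beta_reduce
      omega

/-- bounded iteration -/
theorem PTf.iterSz {f : α → α} {n : γ → β} {init : γ → α} (hf : PTf f) (hn : PTf n)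
    (hi : PTf init) {B : γ → ℕ} (hB : PB B)
    (hb : ∀ x, ∀ i ≤ sz (n x), sz (f^[i] (init x)) ≤ B x) :
    PTf (fun x => f^[sz (n x)] (init x)) := by
  rw [ptf_iff] at hf hn hi ⊢
  obtain ⟨hsf, cf, wf, Tf, hbf, hTf, hrf⟩ := hf
  obtain ⟨hsn, cn, wn, Tn, hbn, hTn, hrn⟩ := hn
  obtain ⟨hsi, ci, wi, Ti, hbi, hTi, hri⟩ := hi
  obtain ⟨k, hk⟩ := hTf
  refine ⟨hB.mono (fun a => hb a _ le_rfl),
    fun r => Cmd.seq (dup r) (Cmd.seq (cn (r + 1)) (Cmd.seq (swp r) (Cmd.seq (ci (r + 1))
      (Cmd.seq (Cmd.loop r (Cmd.popCase r Cmd.skip (cf (r + 1)) (cf (r + 1)))) (dwn r))))),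
    wf + wn + wi + 5, fun a => (2 * sz a + 2) + (Tn a + ((2 * sz a + 2 * sz (n a) + 4) + (Ti a +
      ((sz (n a) * ((B a + 1) ^ k + 1) + 1) + (2 * B a + 2))))), ?_, ?_, ?_⟩
  · intro r
    exact ⟨below_dup (by omega), (hbn _).mono (by omega), below_swp (by omega),
      (hbi _).mono (by omega),
      ⟨by omega, by omega, trivial, (hbf _).mono (by omega), (hbf _).mono (by omega)⟩,
      below_dwn (by omega)⟩
  · have h2 : PB (fun a : γ => 2 * sz a) := (PB.const 2).mul PB.size
    exact (h2.add (PB.const 2)).add (hTn.add (((h2.add ((PB.const 2).mul hsn)).add (PB.const 4)).add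
      (hTi.add (((hsn.mul (((hB.add (PB.const 1)).pow k).add (PB.const 1))).add (PB.const 1)).add
        (((PB.const 2).mul hB).add (PB.const 2))))))
  · intro r s a
    have h1 := dup_exec s r (enc a).code
    obtain ⟨t1, ht1, e1⟩ := hrn.run1 r s (enc a).code a
    have h2 := swp_exec s r (enc a).code (enc (n a)).code
    obtain ⟨t0, ht0, e0⟩ := hri.run1 r s (enc (n a)).code a
    have key : ∀ (l : List Bool) (i : ℕ), i + l.length = sz (n a) →
        ∃ t ≤ l.length * ((B a + 1) ^ k + 1) + 1,
        Exec (Cmd.loop r (Cmd.popCase r Cmd.skip (cf (r + 1)) (cf (r + 1))))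
          (st4 s r l (enc (f^[i] (init a))).code [] [])
          (st4 s r [] (enc (f^[sz (n a)] (init a))).code [] []) t := by
      intro l
      induction l with
      | nil =>
        intro i hi
        have : i = sz (n a) := by simpa using hi
        subst this
        exact ⟨1, by simp, Exec.loopE _ _ _ (st4_0 _ _ _ _ _ _)⟩
      | cons b l ih =>
        intro i hi
        obtain ⟨t, ht, he⟩ := ih (i + 1) (by rw [← hi]; simp; omega)
        obtain ⟨t', ht', he'⟩ := hrf.run1 r s l (f^[i] (init a))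
        rw [← iterate_succ_apply' f i (init a)] at he'
        have h3 : Exec (Cmd.popCase r Cmd.skip (cf (r + 1)) (cf (r + 1)))
            (st4 s r (b :: l) (enc (f^[i] (init a))).code [] [])
            (st4 s r l (enc (f^[i + 1] (init a))).code [] []) t' := by
          cases b
          · apply Exec.popF _ _ _ _ _ _ _ l (st4_0 _ _ _ _ _ _)
            rw [st4_u0]; exact he'
          · apply Exec.popT _ _ _ _ _ _ _ l (st4_0 _ _ _ _ _ _)
            rw [st4_u0]; exact he'
        refine ⟨t' + t + 1, ?_, Exec.loopS _ _ _ _ _ _ _ (by rw [st4_0]; simp) h3 he⟩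
        have h4 : Tf (f^[i] (init a)) ≤ (B a + 1) ^ k := by
          refine (hk _).trans (Nat.pow_le_pow_left ?_ k)
          have := hb a i (by rw [← hi]; omega)
          omega
        have h5 : (b :: l).length * ((B a + 1) ^ k + 1) + 1
            = l.length * ((B a + 1) ^ k + 1) + 1 + ((B a + 1) ^ k + 1) := by
          simp only [List.length_cons]; ring
        omega
    obtain ⟨t2, ht2, e2⟩ := key (enc (n a)).code 0 (by unfold sz; simp)
    have h3 := dwn_exec s r (enc (f^[sz (n a)] (init a))).code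
    refine ⟨_, ?_, exec_seq h1 (exec_seq e1 (exec_seq h2 (exec_seq e0 (exec_seq e2 h3))))⟩
    have h6 := hb a _ le_rfl
    have h7 : (enc (f^[sz (n a)] (init a))).code.length = sz (f^[sz (n a)] (init a)) := rfl
    have h8 : (enc a).code.length = sz a := rfl
    have h9 : (enc (n a)).code.length = sz (n a) := rfl
    rw [h9] at ht2
    rw [h7, h8, h9]
    beta_reduce
    omega

/-- tests whether the two subtrees of a code are equal -/
theorem PTf.of_eq_test {h : α → Bool} (e : ∀ a, ∃ x y, enc a = DTree.cons x y ∧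
    (h a = true ↔ x = y)) [Enc Bool] (ht : enc true = DTree.cons DTree.nil DTree.nil)
    (hf : enc false = DTree.nil) : PTf h := by
  rw [ptf_iff]
  have hsz : ∀ a, (enc (h a)).code.length ≤ 3 := by
    intro a
    cases h a
    · rw [hf]; simp [DTree.code]
    · rw [ht]; simp [DTree.code]
  refine ⟨(PB.const 3).mono hsz,
    fun r => Cmd.popCase r Cmd.skip Cmd.skip (Cmd.seq (extract r) (Cmd.seq (mv (r + 1) (r + 3))
      (Cmd.seq (mv r (r + 2)) (Cmd.seq (mv (r + 2) (r + 1)) (Cmd.seq (Cmd.loop (r + 1) (cmpBody r))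
      (Cmd.seq (clr (r + 3)) (Cmd.popCase (r + 2) (pushL r [true, false, false]) Cmd.skip
        (Cmd.seq (clr (r + 2)) (pushL r [false]))))))))),
    5, fun a => 7 * sz a + 7, ?_, ((PB.const 7).mul PB.size).add (PB.const 7), ?_⟩
  · intro r
    exact ⟨by omega, trivial, trivial, below_extract (by omega), below_mv (by omega) (by omega),
      below_mv (by omega) (by omega), below_mv (by omega) (by omega), below_cmp (by omega),
      below_clr (by omega), by omega, below_pushL (by omega) _, trivial, below_clr (by omega),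
      below_pushL (by omega) _⟩
  · intro r s a
    obtain ⟨x, y, hxy, hh⟩ := e a
    have h1 := extract_spec s r x y.code
    have h2 := mv_exec (k := r + 1) (l := r + 3) (by omega) x.code.reverse
      (st4 s r y.code x.code.reverse [] []) (st4_1 _ _ _ _ _ _)
    rw [st4_3, st4_u3, st4_u1, List.reverse_reverse, List.append_nil] at h2
    have h3 := mv_exec (k := r) (l := r + 2) (by omega) y.code
      (st4 s r y.code [] [] x.code) (st4_0 _ _ _ _ _ _)
    rw [st4_2, st4_u2, st4_u0, List.append_nil] at h3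
    have h4 := mv_exec (k := r + 2) (l := r + 1) (by omega) y.code.reverse
      (st4 s r [] [] y.code.reverse x.code) (st4_2 _ _ _ _ _ _)
    rw [st4_1, st4_u1, st4_u2, List.reverse_reverse, List.append_nil] at h4
    obtain ⟨k', h5, h6, h7⟩ := cmp_exec s r [] y.code x.code 0
    have h8 := clr_exec (k := r + 3) _
      (st4 s r [] [] (List.replicate k' true) (List.drop y.code.length x.code)) (st4_3 _ _ _ _ _ _)
    rw [st4_u3] at h8
    have hsza : sz a = x.code.length + y.code.length + 1 := by
      unfold sz; rw [hxy]; simp [DTree.code]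
    have h9 : ∃ t ≤ y.code.length + 1, Exec (Cmd.popCase (r + 2) (pushL r [true, false, false]) Cmd.skip
        (Cmd.seq (clr (r + 2)) (pushL r [false]))) (st4 s r [] [] (List.replicate k' true) [])
        (st4 s r (enc (h a)).code [] [] []) t := by
      rcases Nat.eq_zero_or_pos k' with h0 | h0
      · refine ⟨0, by omega, ?_⟩
        have hx : h a = true := by
          rw [hh]
          obtain ⟨_, m, hm⟩ := h6.1 h0
          have := DTree.code_append_inj y x m [] (by rw [hm]; simp)
          exact this.1.symm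
        subst h0
        apply Exec.popE _ _ _ _ _ _ _ (by rw [st4_2]; rfl)
        have := pushL_exec s r [true, false, false] []
        rw [hx, ht]
        exact this
      · have hx : h a = false := by
          rw [← Bool.not_eq_true, hh]
          intro hxy'
          subst hxy'
          have := h6.2 ⟨rfl, List.prefix_rfl⟩
          omega
        obtain ⟨k'', rfl⟩ : ∃ k'', k' = k'' + 1 := ⟨k' - 1, by omega⟩
        have g1 := clr_exec (k := r + 2) _
          (st4 s r [] [] (List.replicate k'' true) []) (st4_2 _ _ _ _ _ _)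
        rw [st4_u2] at g1
        have g2 := pushL_exec s r [false] []
        rw [hx, hf]
        refine ⟨(List.replicate k'' true).length + 1 + 0, ?_,
          Exec.popT _ _ _ _ _ _ _ (List.replicate k'' true) (by rw [st4_2]; rfl) ?_⟩
        · simp only [List.length_replicate]; omega
        · rw [st4_u2]; exact exec_seq g1 g2
    obtain ⟨t, ht', h10⟩ := h9
    refine ⟨_, ?_, Exec.popT _ _ _ _ _ _ _ (x.code ++ y.code) ?_
      (exec_seq (n := x.code.length + 1) ?_ (exec_seq h2 (exec_seq h3 (exec_seq h4 (exec_seq h5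
        (exec_seq h8 h10))))))⟩
    · simp only [List.length_reverse, List.length_drop]
      omega
    · rw [st4_0, hxy]; rfl
    · rw [st4_u0]; exact h1

end closure

end Pool.Agent.Helper58
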