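import Pool.Agent.Helper58.DTree
import Pool.Agent.Helper58.CircuitDefs
import Pool.Agent.Helper58.PanDefs

set_option autoImplicit false

namespace Pool.Agent.Helper58

/-- Pairs. -/
def DTree.ofPair {α β : Type} (f : α → DTree) (g : β → DTree) (p : α × β) : DTree :=
  DTree.cons (f p.1) (g p.2)

/-- Rational numbers: sign bit, binary digits of the numerator, binary digits of the denominator. -/
def DTree.ofRat (q : ℚ) : DTree :=
  DTree.cons (DTree.ofBool (decide (q.num < 0)))
    (DTree.cons (DTree.ofList DTree.ofBool q.num.natAbs.bits) (DTree.ofList DTree.ofBool q.den.bits))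

/-- The list of gates and the list of output wires. -/
def Circuit.tree (C : Circuit) : DTree :=
  DTree.cons (DTree.ofList (DTree.ofPair DTree.ofNat DTree.ofNat) C.gates)
    (DTree.ofList DTree.ofNat C.outs)

/-- The number `n` in unary and the two circuits. -/
def EOLData.tree (I : EOLData) : DTree :=
  DTree.cons (DTree.ofNat I.n) (DTree.cons I.succ.tree I.pred.tree)

/-- The number `n` in unary, the rows of the matrix, the colours of the `n` inequalities
`(A x)_i ≤ 1`, and the colours of the `n` inequalities `x_i ≤ 1`. -/
def PanData.tree (D : PanData) : DTree :=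
  DTree.cons (DTree.ofNat D.n) (DTree.cons
    (DTree.ofList (DTree.ofList DTree.ofBool) (List.ofFn fun i => List.ofFn fun j => D.A i j))
    (DTree.cons (DTree.ofList DTree.ofNat (List.ofFn fun i => (D.colour (Sum.inl i) : ℕ)))
      (DTree.ofList DTree.ofNat (List.ofFn fun i => (D.colour (Sum.inr i) : ℕ)))))

end Pool.Agent.Helper58
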