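import Pool.Agent.Helper58.PolyLib
import Pool.Agent.Helper58.Trees
import Pool.Agent.Helper58.Nodes

set_option autoImplicit false

namespace Pool.Agent.Helper58

open Function

instance encCircuit : Enc Circuit := ⟨Circuit.tree, Circuit.tree_inj⟩
instance encEOL : Enc EOLData := ⟨EOLData.tree, EOLData.tree_inj⟩

section

variable {γ : Type} [Enc γ]

@[fun_prop] theorem PTf.gates {f : γ → Circuit} (hf : PTf f) : PTf (fun x => (f x).gates) :=
  PTf.comp (g := fun C : Circuit => C.gates) (PTf.of_left (fun a => ⟨enc a.outs, rfl⟩)) hf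

@[fun_prop] theorem PTf.outs {f : γ → Circuit} (hf : PTf f) : PTf (fun x => (f x).outs) :=
  PTf.comp (g := fun C : Circuit => C.outs) (PTf.of_right (fun a => ⟨enc a.gates, rfl⟩)) hf

@[fun_prop] theorem PTf.eoln {f : γ → EOLData} (hf : PTf f) : PTf (fun x => (f x).n) :=
  PTf.comp (g := fun C : EOLData => C.n) (PTf.of_left (fun a => ⟨enc (a.succ, a.pred), rfl⟩)) hf

theorem ptf_eol2 : PTf (fun C : EOLData => (C.succ, C.pred)) :=
  PTf.of_right (fun a => ⟨enc a.n, rfl⟩)

@[fun_prop] theorem PTf.eolsucc {f : γ → EOLData} (hf : PTf f) : PTf (fun x => (f x).succ) :=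
  PTf.fst (PTf.comp ptf_eol2 hf)

@[fun_prop] theorem PTf.eolpred {f : γ → EOLData} (hf : PTf f) : PTf (fun x => (f x).pred) :=
  PTf.snd (PTf.comp ptf_eol2 hf)

@[fun_prop] theorem PTf.lp {N : γ → Nm} (hN : PTf N) : PTf (fun x => lp (N x)) := by
  unfold Helper58.lp; fun_prop

@[fun_prop] theorem PTf.ln {N : γ → Nm} (hN : PTf N) : PTf (fun x => ln (N x)) := by
  unfold Helper58.ln; fun_prop

@[fun_prop] theorem PTf.rp {k : γ → ℕ} {l : γ → Lit} (hk : PTf k) (hl : PTf l) :
    PTf (fun x => rp (k x) (l x)) := by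
  unfold Helper58.rp; fun_prop

@[fun_prop] theorem PTf.bitN {n j s i : γ → ℕ} (hn : PTf n) (hj : PTf j) (hs : PTf s) (hi : PTf i) :
    PTf (fun x => bitN (n x) (j x) (s x) (i x)) := by
  unfold Helper58.bitN; fun_prop

@[fun_prop] theorem PTf.gHalf {n : γ → ℕ} (hn : PTf n) : PTf (fun x => gHalf (n x)) := by
  unfold Helper58.gHalf; fun_prop

@[fun_prop] theorem PTf.gDig {n j s : γ → ℕ} (hn : PTf n) (hj : PTf j) (hs : PTf s) :
    PTf (fun x => gDig (n x) (j x) (s x)) := by
  unfold Helper58.gDig; fun_prop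

@[fun_prop] theorem PTf.gCirc {n j c : γ → ℕ} {a b : γ → List ℕ} {C : γ → Circuit} (hn : PTf n)
    (hj : PTf j) (hc : PTf c) (ha : PTf a) (hb : PTf b) (hC : PTf C) :
    PTf (fun x => gCirc (n x) (j x) (c x) (a x) (b x) (C x)) := by
  unfold Helper58.gCirc; fun_prop

@[fun_prop] theorem PTf.gCmp {n j c : γ → ℕ} {a b a' b' : γ → List ℕ} (hn : PTf n)
    (hj : PTf j) (hc : PTf c) (ha : PTf a) (hb : PTf b) (ha' : PTf a') (hb' : PTf b') :
    PTf (fun x => gCmp (n x) (j x) (c x) (a x) (b x) (a' x) (b' x)) := by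
  unfold Helper58.gCmp; fun_prop

@[fun_prop] theorem PTf.gCmpZ {n j c : γ → ℕ} {a b : γ → List ℕ} (hn : PTf n)
    (hj : PTf j) (hc : PTf c) (ha : PTf a) (hb : PTf b) :
    PTf (fun x => gCmpZ (n x) (j x) (c x) (a x) (b x)) := by
  unfold Helper58.gCmpZ; fun_prop

@[fun_prop] theorem PTf.gMisc {n j : γ → ℕ} (hn : PTf n) (hj : PTf j) :
    PTf (fun x => gMisc (n x) (j x)) := by
  unfold Helper58.gMisc; fun_prop

@[fun_prop] theorem PTf.psi4 {j : γ → ℕ} (hj : PTf j) : PTf (fun x => psi4 (j x)) := by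
  unfold Helper58.psi4; fun_prop

@[fun_prop] theorem PTf.gWave {j : γ → ℕ} (hj : PTf j) : PTf (fun x => gWave (j x)) := by
  unfold Helper58.gWave; fun_prop

@[fun_prop] theorem PTf.waveL {s j : γ → ℕ} (hs : PTf s) (hj : PTf j) :
    PTf (fun x => waveL (s x) (j x)) := by
  unfold Helper58.waveL; fun_prop

@[fun_prop] theorem PTf.gMain {s : γ → ℕ} (hs : PTf s) : PTf (fun x => gMain (s x)) := by
  unfold Helper58.gMain; fun_prop

@[fun_prop] theorem PTf.gSample {I : γ → EOLData} {j : γ → ℕ} (hI : PTf I) (hj : PTf j) :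
    PTf (fun x => gSample (I x) (j x)) := by
  unfold Helper58.gSample; fun_prop

@[fun_prop] theorem PTf.net {I : γ → EOLData} (hI : PTf I) : PTf (fun x => net (I x)) := by
  unfold Helper58.net; fun_prop

@[fun_prop] theorem PTf.litNode {l : γ → Lit} (hl : PTf l) : PTf (fun x => litNode (l x)) := by
  unfold Helper58.litNode
  have : PTf (fun x => (bif (l x).1 then 0 else 1) :: (l x).2) := by fun_prop
  refine this.congr (fun x => ?_)
  cases (l x).1 <;> rfl

@[fun_prop] theorem PTf.inpNode {N : γ → Nm} {k : γ → ℕ} (hN : PTf N) (hk : PTf k) :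
    PTf (fun x => inpNode (N x) (k x)) := by
  unfold Helper58.inpNode; fun_prop

@[fun_prop] theorem PTf.gateNodes {g : γ → Gate} (hg : PTf g) : PTf (fun x => gateNodes (g x)) := by
  unfold Helper58.gateNodes; fun_prop

@[fun_prop] theorem PTf.nodes {I : γ → EOLData} (hI : PTf I) : PTf (fun x => nodes (I x)) := by
  unfold Helper58.nodes; fun_prop

/-- the matrix rows of the instance, as lists -/
def rowsOf (L : List Node) : List (List Bool) :=
  L.map (fun p => L.map (fun q => decide (q.1 = p.1) || p.2.any (fun m => decide (q.1 = m))))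

@[fun_prop] theorem PTf.rowsOf {L : γ → List Node} (hL : PTf L) : PTf (fun x => rowsOf (L x)) := by
  unfold Helper58.rowsOf; fun_prop

/-- code of the instance of a list of nodes -/
def panCode (L : List Node) : ℕ × (List (List Bool) × (List ℕ × List ℕ)) :=
  (L.length, (rowsOf L, (List.range L.length, List.range L.length)))

@[fun_prop] theorem PTf.panCode {L : γ → List Node} (hL : PTf L) : PTf (fun x => panCode (L x)) := by
  unfold Helper58.panCode; fun_prop

end

lemma ofFn_eq_map {α β : Type} (L : List α) (f : α → β) :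
    (List.ofFn fun i : Fin L.length => f L[i]) = L.map f := by
  apply List.ext_getElem
  · simp
  · intro i h1 h2
    simp

theorem tree_mkPan (L : List Node) : (mkPan L).tree = enc (panCode L) := by
  have h1 : (List.ofFn fun i : Fin L.length => List.ofFn fun j : Fin L.length =>
      decide (L[j].1 = L[i].1 ∨ L[j].1 ∈ L[i].2)) = rowsOf L := by
    have h2 : ∀ p : Node, (List.ofFn fun j : Fin L.length => decide (L[j].1 = p.1 ∨ L[j].1 ∈ p.2))
        = L.map (fun q => decide (q.1 = p.1 ∨ q.1 ∈ p.2)) := fun p =>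
      ofFn_eq_map L (fun q => decide (q.1 = p.1 ∨ q.1 ∈ p.2))
    have h3 := ofFn_eq_map L (fun p => L.map (fun q => decide (q.1 = p.1 ∨ q.1 ∈ p.2)))
    unfold rowsOf
    refine Eq.trans ?_ (h3.trans ?_)
    · congr 1
      funext i
      exact h2 _
    · refine List.map_congr_left (fun p _ => List.map_congr_left (fun q _ => ?_))
      rw [Bool.decide_or]
      congr 1
      rw [eq_comm, Bool.eq_iff_iff]
      simp only [List.any_eq_true, decide_eq_true_eq]
      constructor
      · rintro ⟨x, hx, rfl⟩; exact hx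
      · intro h; exact ⟨_, h, rfl⟩
  have h4 : (List.ofFn fun i : Fin L.length => (i : ℕ)) = List.range L.length := by
    apply List.ext_getElem
    · simp
    · intro i h1 h2
      simp
  show DTree.cons (DTree.ofNat L.length) (DTree.cons (DTree.ofList (DTree.ofList DTree.ofBool)
    (List.ofFn fun i : Fin L.length => List.ofFn fun j : Fin L.length =>
      decide (L[j].1 = L[i].1 ∨ L[j].1 ∈ L[i].2)))
    (DTree.cons (DTree.ofList DTree.ofNat (List.ofFn fun i : Fin L.length => (i : ℕ)))
      (DTree.ofList DTree.ofNat (List.ofFn fun i : Fin L.length => (i : ℕ))))) = _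
  rw [h1, h4]
  rfl

end Pool.Agent.Helper58
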