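import Pool.Agent.Helper58.Problems
import Pool.Agent.Helper58.PolyDecode
import Pool.Agent.Helper58.PolyBridge
import Pool.Agent.Helper58.Unpack

set_option autoImplicit false

namespace Pool.Agent.Helper58

open Function

/-- from stack programs to Mathlib's machines, for functions whose values are bit strings -/
theorem PTf.polyTimeBits {α α' A : Type} [Enc α] [Fintype A] (ea : α' → List A)
    (F : α' → List Bool) (φ : A → Bool) (pre : List Bool) {f : α → List Bool} (hf : PTf f)
    (i : α' → α) (hi : ∀ x, (enc (i x)).code = pre ++ (ea x).map φ)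
    (ho : ∀ x, F x = f (i x)) : PolyTime ea (fun x : List Bool => x) F := by
  rw [ptf_iff] at hf
  obtain ⟨⟨l, hl⟩, c, w, T, hb, ⟨k, hk⟩, hr⟩ := hf
  refine ToTM.computable (N := w + 2) ea (fun x => x) F φ
    (Cmd.seq (mv 1 0) (Cmd.seq (pushL 0 pre) (Cmd.seq (c 0) (unpack 0)))) (by omega) ?_
    (Polynomial.X + 4 + (Polynomial.X + Polynomial.C pre.length + 1) ^ k
      + (Polynomial.X + Polynomial.C pre.length + 1) ^ l) ?_
  · exact ⟨below_mv (by omega) (by omega), below_pushL (by omega) _, (hb 0).mono (by omega),
      below_unpack (by omega)⟩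
  · intro x s hs1 hs2
    have h1 := mv_exec (k := 1) (l := 0) (by omega) _ s hs1
    have e1 : update (update s 0 ((((ea x).map φ).reverse).reverse ++ s 0)) 1 []
        = st4 (fun _ => []) 0 ((ea x).map φ) [] [] [] := by
      funext j
      by_cases h1 : j = 1
      · subst h1; rw [update_self]; simp [st4]
      · rw [update_of_ne h1]
        by_cases h0 : j = 0
        · subst h0; rw [update_self, hs2 0 (by omega)]; simp [st4]
        · rw [update_of_ne h0, hs2 j h1]
          unfold st4
          split_ifs <;> rfl
    rw [e1] at h1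
    have h2 := pushL_exec (fun _ => []) 0 pre ((ea x).map φ)
    rw [← hi x] at h2
    obtain ⟨t, ht, h3⟩ := hr 0 (fun _ => []) (i x)
    have h3' := unpack_exec (fun _ => []) 0 (f (i x))
    refine ⟨_, _, ?_, exec_seq h1 (exec_seq h2 (exec_seq h3 h3')), ?_, ?_⟩
    · have h4 : sz (i x) = pre.length + (ea x).length := by
        unfold sz; rw [hi]; simp
      have h5 := hk (i x)
      have h7 : sz (f (i x)) ≤ (sz (i x) + 1) ^ l := hl (i x)
      have h8 := length_lt_sz (f (i x))
      rw [h4] at h5 h7
      simp only [List.length_reverse, List.length_map, Polynomial.eval_add, Polynomial.eval_X,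
        Polynomial.eval_one, Polynomial.eval_pow, Polynomial.eval_C, Polynomial.eval_ofNat]
      have h6 : (pre.length + (ea x).length + 1) = ((ea x).length + pre.length + 1) := by ring
      rw [h6] at h5 h7
      omega
    · rw [st4_0, ho]
    · intro j hj
      unfold st4
      split_ifs <;> rfl

theorem reduces_core : Reduces EndOfLine PanchromaticVertex := by
  refine ⟨fun I => ⟨mkPan (nodes I.1), valid_mkPan I.1⟩, fun p => decodeSol (p.1.1, p.2), ?_, ?_, ?_⟩
  · have h : PTf (fun I : EOLData => panCode (nodes I)) := by fun_prop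
    refine h.polyTime _ _ _ (fun b => b) [] (fun I => I.1) ?_ ?_
    · intro x
      show (enc x.1).code = [] ++ List.map (fun b => b) (x.1.tree.code)
      simp only [List.nil_append, List.map_id']
      rfl
    · intro x
      show (mkPan (nodes x.1)).tree.code = _
      rw [tree_mkPan]
  · refine ptf_decodeSol.polyTimeBits _ _ (Sum.elim (fun b => b) (fun b => b)) [true]
      (fun p : {I : EOLData // I.Valid} × List ℚ => ((p.1.1, p.2) : EOLData × List ℚ)) ?_
      (fun _ => rfl)
    rintro ⟨I, v⟩
    have key : ∀ (a : EOLData) (b : List ℚ), (enc (a, b)).code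
        = [true] ++ (((enc a).code.map Sum.inl : List (Bool ⊕ Bool)) ++ (enc b).code.map Sum.inr).map
          (Sum.elim (fun b => b) (fun b => b)) := by
      intro a b
      rw [enc_pair]
      simp [DTree.code, Function.comp_def]
    exact key I.1 v
  · rintro I v ⟨h1, h2⟩
    exact decode_correct I.1 I.2 v h1 h2

end Pool.Agent.Helper58
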