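import Pool.Agent.Helper58.PolyLib

set_option autoImplicit false

namespace Pool.Agent.Helper58

open Function Turing

/-! ### growth of the stacks -/

/-- number of push instructions -/
def Cmd.pushes : Cmd → ℕ
  | Cmd.skip => 0
  | Cmd.push _ _ => 1
  | Cmd.popCase _ e f t => e.pushes + (f.pushes + t.pushes)
  | Cmd.seq c d => c.pushes + d.pushes
  | Cmd.loop _ c => c.pushes

lemma exec_growth {c : Cmd} {s s' : Stk} {t : ℕ} (h : Exec c s s' t) (j : ℕ) :
    (s' j).length ≤ (s j).length + c.pushes * (t + 1) := by
  induction h with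
  | skip s => simp
  | push k b s =>
    simp only [Cmd.pushes, zero_add, mul_one, update_apply]
    split_ifs with hj
    · subst hj; simp
    · omega
  | popE k e f t s s' n h he ih =>
    refine ih.trans (Nat.add_le_add_left (Nat.mul_le_mul_right _ ?_) _)
    simp only [Cmd.pushes]; omega
  | popF k e f t s s' n l h he ih =>
    refine ih.trans (Nat.add_le_add ?_ (Nat.mul_le_mul_right _ ?_))
    · rw [update_apply]; split_ifs with hj
      · subst hj; rw [h]; simp
      · exact le_rfl
    · simp only [Cmd.pushes]; omega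
  | popT k e f t s s' n l h he ih =>
    refine ih.trans (Nat.add_le_add ?_ (Nat.mul_le_mul_right _ ?_))
    · rw [update_apply]; split_ifs with hj
      · subst hj; rw [h]; simp
      · exact le_rfl
    · simp only [Cmd.pushes]; omega
  | seq c d s s' s'' n m h1 h2 ih1 ih2 =>
    refine ih2.trans ?_
    have e1 : c.pushes * (n + 1) ≤ c.pushes * (n + m + 1) := Nat.mul_le_mul_left _ (by omega)
    have e2 : d.pushes * (m + 1) ≤ d.pushes * (n + m + 1) := Nat.mul_le_mul_left _ (by omega)
    have e3 : (Cmd.seq c d).pushes * (n + m + 1) = c.pushes * (n + m + 1) + d.pushes * (n + m + 1) := by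
      simp only [Cmd.pushes]; ring
    omega
  | loopE k c s h => simp
  | loopS k c s s' s'' n m h h1 h2 ih1 ih2 =>
    refine ih2.trans ?_
    have e3 : (Cmd.loop k c).pushes * (n + m + 1 + 1) = c.pushes * (n + 1) + c.pushes * (m + 1) := by
      simp only [Cmd.pushes]; ring
    have e4 : (Cmd.loop k c).pushes * (m + 1) = c.pushes * (m + 1) := rfl
    omega

theorem PTf.intro {α β : Type} [Enc α] [Enc β] {f : α → β} (c : ℕ → Cmd) (w : ℕ) (T : α → ℕ)
    (hb : ∀ r, (c r).Below (r + w)) (hT : PB T) (hr : Runs f c T) : PTf f := by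
  rw [ptf_iff]
  refine ⟨?_, c, w, T, hb, hT, hr⟩
  refine PB.mono (PB.size.add ((PB.const (c 0).pushes).mul (hT.add (PB.const 1)))) ?_
  intro a
  obtain ⟨t, ht, he⟩ := hr 0 (fun _ => []) a
  have := exec_growth he 0
  rw [st4_0, st4_0] at this
  refine this.trans (Nat.add_le_add_left (Nat.mul_le_mul_left _ (by omega)) _)

lemma PB.poly {α : Type} [Enc α] {g : α → ℕ} (hg : PB g) (p : Polynomial ℕ) :
    PB (fun a => p.eval (g a)) := by
  induction p using Polynomial.induction_on' with
  | add p q hp hq =>
    simp only [Polynomial.eval_add]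
    exact hp.add hq
  | monomial n c =>
    simp only [Polynomial.eval_monomial]
    exact (PB.const c).mul (hg.pow n)

/-! ### popping a number -/

/-- code of a number -/
def uw (i : ℕ) : List Bool := (DTree.ofNat i).code

lemma uw_zero : uw 0 = [false] := rfl
lemma uw_succ (i : ℕ) : uw (i + 1) = true :: false :: uw i := rfl

/-- pop a number below the bound from a stack and branch -/
def popNat (k : ℕ) : ℕ → (ℕ → Cmd) → Cmd
  | 0, _ => Cmd.skip
  | n + 1, br => Cmd.popCase k Cmd.skip (br 0) (pop2 k (popNat k n (fun i => br (i + 1))) Cmd.skip)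

lemma popNat_exec (k : ℕ) : ∀ (n : ℕ) (br : ℕ → Cmd) (i : ℕ) (s s' : Stk) (t : ℕ) (rest : List Bool),
    i < n → s k = uw i ++ rest → Exec (br i) (update s k rest) s' t →
      Exec (popNat k n br) s s' t := by
  intro n
  induction n with
  | zero => intro br i s s' t rest hi; omega
  | succ n ih =>
    intro br i s s' t rest hi hs he
    cases i with
    | zero =>
      rw [uw_zero] at hs
      exact Exec.popF _ _ _ _ _ _ _ rest hs he
    | succ i =>
      rw [uw_succ] at hs
      refine Exec.popT _ _ _ _ _ _ _ (false :: (uw i ++ rest)) hs ?_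
      refine Exec.popF _ _ _ _ _ _ _ (uw i ++ rest) (update_self _ _ _) ?_
      rw [update_idem]
      refine ih (fun i => br (i + 1)) i _ s' t rest (by omega) (update_self _ _ _) ?_
      rw [update_idem]
      exact he

lemma below_popNat {k N : ℕ} (hk : k < N) : ∀ (n : ℕ) (br : ℕ → Cmd), (∀ i, (br i).Below N) →
    (popNat k n br).Below N := by
  intro n
  induction n with
  | zero => intro br _; trivial
  | succ n ih =>
    intro br h
    exact ⟨hk, trivial, h 0, ⟨hk, trivial, ih _ (fun i => h (i + 1)), trivial⟩⟩

lemma pushes_popNat {k k' : ℕ} : ∀ (n : ℕ) (br br' : ℕ → Cmd), (∀ i, (br i).pushes = (br' i).pushes) →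
    (popNat k n br).pushes = (popNat k' n br').pushes := by
  intro n
  induction n with
  | zero => intro br br' _; rfl
  | succ n ih =>
    intro br br' h
    simp only [popNat, pop2, Cmd.pushes]
    rw [h 0, ih (fun i => br (i + 1)) (fun i => br' (i + 1)) (fun i => h (i + 1))]

lemma pushes_pushL (k : ℕ) (l : List Bool) : (pushL k l).pushes = l.length := by
  induction l with
  | nil => rfl
  | cons b l ih => simp [pushL, Cmd.pushes, ih]

lemma pushL_exec' (k : ℕ) (s : Stk) (l : List Bool) :
    Exec (pushL k l) s (update s k (l ++ s k)) 0 := by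
  induction l with
  | nil => rw [List.nil_append, update_eq_self]; exact Exec.skip _
  | cons b l ih =>
    refine exec_seq (n := 0) (m := 0) ih ?_
    apply exec_push
    rw [update_self, update_idem]; rfl

/-! ### simulation of machines -/

noncomputable section

/-- codes of the stack symbols in use -/
structure Coding {K : Type} (Γ : K → Type) where
  n : K → ℕ
  e : ∀ k, Γ k → ℕ
  d : ∀ k, ℕ → Option (Γ k)
  T : ∀ k, Set (Γ k)
  lt : ∀ k, ∀ a ∈ T k, e k a < n k
  dec : ∀ k, ∀ a ∈ T k, d k (e k a) = some a

section sim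

variable {K : Type} [DecidableEq K] [Fintype K] {Γ : K → Type} {Λ σ : Type} (C : Coding Γ)
  (qe : Λ × σ → ℕ)

/-- position of a stack -/
def pos (k : K) : ℕ := (Fintype.equivFin K k : ℕ)

omit [DecidableEq K] in
lemma pos_lt (k : K) : pos k < Fintype.card K := (Fintype.equivFin K k).2

omit [DecidableEq K] in
lemma pos_inj {k k' : K} (h : pos k = pos k') : k = k' :=
  (Fintype.equivFin K).injective (Fin.ext h)

/-- code of a stack -/
def codeS (k : K) (l : List (Γ k)) : List Bool := (enc (l.map (C.e k))).code

omit [DecidableEq K] [Fintype K] in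
lemma codeS_nil (k : K) : codeS C k [] = [false] := rfl

omit [DecidableEq K] [Fintype K] in
lemma codeS_cons (k : K) (a : Γ k) (l : List (Γ k)) :
    codeS C k (a :: l) = true :: (uw (C.e k a) ++ codeS C k l) := rfl

/-- the state of the stacks during the simulation -/
def rst (s : Stk) (r : ℕ) (pc : List Bool) (S : ∀ k, List (Γ k)) : Stk := fun j =>
  if j < r then s j else if j = r then pc else
  if h : j - (r + 1) < Fintype.card K then
    codeS C ((Fintype.equivFin K).symm ⟨j - (r + 1), h⟩) (S _) else []

omit [DecidableEq K] in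
lemma rst_pc (s : Stk) (r : ℕ) (pc : List Bool) (S : ∀ k, List (Γ k)) : rst C s r pc S r = pc := by
  simp [rst]

omit [DecidableEq K] in
lemma rst_at (s : Stk) (r : ℕ) (pc : List Bool) (S : ∀ k, List (Γ k)) (k : K) :
    rst C s r pc S (r + 1 + pos k) = codeS C k (S k) := by
  unfold rst
  have h1 : ¬ r + 1 + pos k < r := by omega
  have h2 : ¬ r + 1 + pos k = r := by omega
  have h3 : r + 1 + pos k - (r + 1) < Fintype.card K := by
    rw [Nat.add_sub_cancel_left]; exact pos_lt k
  rw [if_neg h1, if_neg h2, dif_pos h3]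
  have h4 : (Fintype.equivFin K).symm ⟨r + 1 + pos k - (r + 1), h3⟩ = k := by
    rw [Equiv.symm_apply_eq]
    apply Fin.ext
    show r + 1 + pos k - (r + 1) = pos k
    omega
  exact congrArg (fun x => codeS C x (S x)) h4

omit [DecidableEq K] in
lemma rst_upc (s : Stk) (r : ℕ) (pc pc' : List Bool) (S : ∀ k, List (Γ k)) :
    update (rst C s r pc S) r pc' = rst C s r pc' S := by
  funext j
  rw [update_apply]
  unfold rst
  split_ifs <;> first | rfl | omega

lemma rst_upd (s : Stk) (r : ℕ) (pc : List Bool) (S : ∀ k, List (Γ k)) (k : K) (l : List (Γ k)) :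
    update (rst C s r pc S) (r + 1 + pos k) (codeS C k l) = rst C s r pc (update S k l) := by
  funext j
  by_cases hj : j = r + 1 + pos k
  · subst hj
    rw [update_self, rst_at, update_self]
  · rw [update_of_ne hj]
    unfold rst
    by_cases h1 : j < r
    · rw [if_pos h1, if_pos h1]
    · rw [if_neg h1, if_neg h1]
      by_cases h2 : j = r
      · rw [if_pos h2, if_pos h2]
      · rw [if_neg h2, if_neg h2]
        by_cases h3 : j - (r + 1) < Fintype.card K
        · rw [dif_pos h3, dif_pos h3, update_of_ne]
          intro h4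
          apply hj
          rw [Equiv.symm_apply_eq] at h4
          have := congrArg Fin.val h4
          simp only at this
          unfold pos
          omega
        · rw [dif_neg h3, dif_neg h3]

/-- all pushed symbols have codes -/
def StIn : TM2.Stmt Γ Λ σ → Prop
  | TM2.Stmt.push k f q => (∀ v, f v ∈ C.T k) ∧ StIn q
  | TM2.Stmt.peek _ _ q => StIn q
  | TM2.Stmt.pop _ _ q => StIn q
  | TM2.Stmt.load _ q => StIn q
  | TM2.Stmt.branch _ q1 q2 => StIn q1 ∧ StIn q2
  | TM2.Stmt.goto _ => True
  | TM2.Stmt.halt => True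

/-- program of a statement in a given state -/
def simSt (r : ℕ) : TM2.Stmt Γ Λ σ → σ → Cmd
  | TM2.Stmt.push k f q, v =>
    Cmd.seq (pushL (r + 1 + pos k) (true :: uw (C.e k (f v)))) (simSt r q v)
  | TM2.Stmt.peek k f q, v =>
    Cmd.popCase (r + 1 + pos k) Cmd.skip
      (Cmd.seq (Cmd.push (r + 1 + pos k) false) (simSt r q (f v none)))
      (popNat (r + 1 + pos k) (C.n k) (fun i =>
        Cmd.seq (pushL (r + 1 + pos k) (true :: uw i)) (simSt r q (f v (C.d k i)))))
  | TM2.Stmt.pop k f q, v =>
    Cmd.popCase (r + 1 + pos k) Cmd.skip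
      (Cmd.seq (Cmd.push (r + 1 + pos k) false) (simSt r q (f v none)))
      (popNat (r + 1 + pos k) (C.n k) (fun i => simSt r q (f v (C.d k i))))
  | TM2.Stmt.load a q, v => simSt r q (a v)
  | TM2.Stmt.branch p q1 q2, v => if p v then simSt r q1 v else simSt r q2 v
  | TM2.Stmt.goto l, v => pushL r (uw (qe (l v, v)))
  | TM2.Stmt.halt, _ => Cmd.skip

omit [DecidableEq K] in
lemma below_simSt (r N : ℕ) (hN : r + 1 + Fintype.card K ≤ N) : ∀ (q : TM2.Stmt Γ Λ σ) (v : σ),
    (simSt C qe r q v).Below N := by
  have hk : ∀ k : K, r + 1 + pos k < N := fun k => by have := pos_lt k; omega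
  intro q
  induction q with
  | push k f q ih => intro v; exact ⟨below_pushL (hk k) _, ih v⟩
  | peek k f q ih =>
    intro v
    exact ⟨hk k, trivial, ⟨hk k, ih _⟩, below_popNat (hk k) _ _ (fun i => ⟨below_pushL (hk k) _, ih _⟩)⟩
  | pop k f q ih =>
    intro v
    exact ⟨hk k, trivial, ⟨hk k, ih _⟩, below_popNat (hk k) _ _ (fun i => ih _)⟩
  | load a q ih => intro v; exact ih _
  | branch p q1 q2 ih1 ih2 =>
    intro v
    simp only [simSt]
    split_ifs
    · exact ih1 v
    · exact ih2 v
  | goto l => intro v; exact below_pushL (by omega) _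
  | halt => intro v; trivial

omit [DecidableEq K] in
lemma pushes_simSt (r r' : ℕ) : ∀ (q : TM2.Stmt Γ Λ σ) (v : σ),
    (simSt C qe r q v).pushes = (simSt C qe r' q v).pushes := by
  intro q
  induction q with
  | push k f q ih => intro v; simp only [simSt, Cmd.pushes, pushes_pushL, ih v]
  | peek k f q ih =>
    intro v
    simp only [simSt, Cmd.pushes, ih (f v none)]
    rw [pushes_popNat (k := r + 1 + pos k) (k' := r' + 1 + pos k)]
    intro i
    simp only [Cmd.pushes, pushes_pushL, ih _]
  | pop k f q ih =>
    intro v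
    simp only [simSt, Cmd.pushes, ih (f v none)]
    rw [pushes_popNat (k := r + 1 + pos k) (k' := r' + 1 + pos k)]
    intro i
    exact ih _
  | load a q ih => intro v; exact ih _
  | branch p q1 q2 ih1 ih2 =>
    intro v
    simp only [simSt]
    split_ifs
    · exact ih1 v
    · exact ih2 v
  | goto l => intro v; simp only [simSt, pushes_pushL]
  | halt => intro v; rfl

/-- code of the program counter -/
def pcode : Option Λ → σ → List Bool
  | none, _ => []
  | some l, v => uw (qe (l, v))

/-- stacks representing a configuration -/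
def repc (s : Stk) (r : ℕ) (c : TM2.Cfg Γ Λ σ) : Stk := rst C s r (pcode qe c.l c.var) c.stk

/-- all symbols of a configuration have codes -/
def InT (S : ∀ k, List (Γ k)) : Prop := ∀ k, ∀ a ∈ S k, a ∈ C.T k

lemma simSt_exec (s : Stk) (r : ℕ) : ∀ (q : TM2.Stmt Γ Λ σ) (v : σ) (S : ∀ k, List (Γ k)),
    StIn C q → InT C S →
    Exec (simSt C qe r q v) (rst C s r [] S) (repc C qe s r (TM2.stepAux q v S)) 0 ∧
      InT C (TM2.stepAux q v S).stk := by
  intro q
  induction q with
  | push k f q ih =>
    intro v S hq hS
    have hS' : InT C (update S k (f v :: S k)) := by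
      intro k' a ha
      by_cases hk : k' = k
      · subst hk
        rw [update_self] at ha
        rcases List.mem_cons.1 ha with ha | ha
        · rw [ha]; exact hq.1 v
        · exact hS _ _ ha
      · rw [update_of_ne hk] at ha; exact hS _ _ ha
    obtain ⟨h1, h2⟩ := ih v _ hq.2 hS'
    refine ⟨?_, h2⟩
    refine exec_seq (n := 0) (m := 0) ?_ h1
    have := pushL_exec' (r + 1 + pos k) (rst C s r [] S) (true :: uw (C.e k (f v)))
    rw [rst_at, List.cons_append, ← codeS_cons, rst_upd] at this
    exact this
  | peek k f q ih =>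
    intro v S hq hS
    obtain ⟨h1, h2⟩ := ih (f v (S k).head?) S hq hS
    refine ⟨?_, h2⟩
    have hat := rst_at C s r [] S k
    cases hk : S k with
    | nil =>
      rw [hk, codeS_nil] at hat
      refine Exec.popF _ _ _ _ _ _ _ [] hat ?_
      refine exec_seq (n := 0) (m := 0) (s' := rst C s r [] S) ?_ ?_
      · apply exec_push
        rw [update_self, update_idem, ← hat, update_eq_self]
      · show Exec _ _ (repc C qe s r (TM2.stepAux q (f v (S k).head?) S)) 0
        rw [hk] at h1 ⊢
        exact h1
    | cons a l =>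
      rw [hk, codeS_cons] at hat
      have haT : a ∈ C.T k := hS k a (by rw [hk]; exact List.mem_cons_self)
      refine Exec.popT _ _ _ _ _ _ _ (uw (C.e k a) ++ codeS C k l) hat ?_
      refine popNat_exec _ _ _ (C.e k a) _ _ _ (codeS C k l) (C.lt k a haT) (update_self _ _ _) ?_
      rw [update_idem]
      refine exec_seq (n := 0) (m := 0) (s' := rst C s r [] S) ?_ ?_
      · have := pushL_exec' (r + 1 + pos k) (update (rst C s r [] S) (r + 1 + pos k) (codeS C k l))
          (true :: uw (C.e k a))
        rw [update_self, update_idem, List.cons_append, ← hat, update_eq_self] at this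
        exact this
      · rw [C.dec k a haT]
        show Exec _ _ (repc C qe s r (TM2.stepAux q (f v (S k).head?) S)) 0
        rw [hk] at h1 ⊢
        exact h1
  | pop k f q ih =>
    intro v S hq hS
    have hS' : InT C (update S k (S k).tail) := by
      intro k' a ha
      by_cases hk : k' = k
      · subst hk
        rw [update_self] at ha
        exact hS _ _ (List.mem_of_mem_tail ha)
      · rw [update_of_ne hk] at ha; exact hS _ _ ha
    obtain ⟨h1, h2⟩ := ih (f v (S k).head?) _ hq hS'
    refine ⟨?_, h2⟩
    have hat := rst_at C s r [] S k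
    show Exec _ _ (repc C qe s r (TM2.stepAux q (f v (S k).head?) (update S k (S k).tail))) 0
    cases hk : S k with
    | nil =>
      rw [hk, codeS_nil] at hat
      refine Exec.popF _ _ _ _ _ _ _ [] hat ?_
      refine exec_seq (n := 0) (m := 0) (s' := rst C s r [] S) ?_ ?_
      · apply exec_push
        rw [update_self, update_idem, ← hat, update_eq_self]
      · rw [hk] at h1
        have e : update S k ([] : List (Γ k)).tail = S := by
          rw [List.tail_nil, ← hk, update_eq_self]
        rw [e] at h1 ⊢
        exact h1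
    | cons a l =>
      rw [hk, codeS_cons] at hat
      have haT : a ∈ C.T k := hS k a (by rw [hk]; exact List.mem_cons_self)
      refine Exec.popT _ _ _ _ _ _ _ (uw (C.e k a) ++ codeS C k l) hat ?_
      refine popNat_exec _ _ _ (C.e k a) _ _ _ (codeS C k l) (C.lt k a haT) (update_self _ _ _) ?_
      rw [update_idem, rst_upd, C.dec k a haT]
      rw [hk] at h1
      exact h1
  | load a q ih =>
    intro v S hq hS
    exact ih (a v) S hq hS
  | branch p q1 q2 ih1 ih2 =>
    intro v S hq hS
    cases hp : p v with
    | true =>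
      have := ih1 v S hq.1 hS
      simp only [simSt, TM2.stepAux, hp, if_true, cond_true]
      exact this
    | false =>
      have := ih2 v S hq.2 hS
      simp only [simSt, TM2.stepAux, hp, Bool.false_eq_true, if_false, cond_false]
      exact this
  | goto l =>
    intro v S _ hS
    refine ⟨?_, hS⟩
    have := pushL_exec' r (rst C s r [] S) (uw (qe (l v, v)))
    rw [rst_pc, List.append_nil, rst_upc] at this
    exact this
  | halt =>
    intro v S _ hS
    exact ⟨Exec.skip _, hS⟩

/-- the main loop of the simulation -/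
def mainLoop (m : Λ → TM2.Stmt Γ Λ σ) (qd : ℕ → Option (Λ × σ)) (NQ : ℕ) (r : ℕ) : Cmd :=
  Cmd.loop r (popNat r NQ (fun i => match qd i with
    | some (l, v) => simSt C qe r (m l) v
    | none => Cmd.skip))

omit [DecidableEq K] in
lemma below_mainLoop (m : Λ → TM2.Stmt Γ Λ σ) (qd : ℕ → Option (Λ × σ)) (NQ : ℕ) (r N : ℕ)
    (hN : r + 1 + Fintype.card K ≤ N) : (mainLoop C qe m qd NQ r).Below N := by
  refine ⟨by omega, below_popNat (by omega) _ _ (fun i => ?_)⟩
  cases h : qd i with
  | none => simp only [h]; trivial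
  | some x => simp only [h]; exact below_simSt C qe r N hN _ _

omit [DecidableEq K] in
lemma pushes_mainLoop (m : Λ → TM2.Stmt Γ Λ σ) (qd : ℕ → Option (Λ × σ)) (NQ : ℕ) (r r' : ℕ) :
    (mainLoop C qe m qd NQ r).pushes = (mainLoop C qe m qd NQ r').pushes := by
  simp only [mainLoop, Cmd.pushes]
  apply pushes_popNat
  intro i
  cases h : qd i with
  | none => rfl
  | some x => simp only [h]; exact pushes_simSt C qe r r' _ _

lemma mainLoop_exec (m : Λ → TM2.Stmt Γ Λ σ) (qd : ℕ → Option (Λ × σ)) (NQ : ℕ)
    (hqd : ∀ x, qd (qe x) = some x) (hNQ : ∀ x, qe x < NQ) (hm : ∀ l, StIn C (m l))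
    (s : Stk) (r : ℕ) : ∀ (n : ℕ) (c c' : TM2.Cfg Γ Λ σ),
    (flip bind (TM2.step m))^[n] (some c) = some c' → c'.l = none → InT C c.stk →
    ∃ t ≤ n + 1, Exec (mainLoop C qe m qd NQ r) (repc C qe s r c) (repc C qe s r c') t ∧
      InT C c'.stk := by
  intro n
  induction n with
  | zero =>
    intro c c' h hl hin
    have : c = c' := by simpa using h
    subst this
    refine ⟨1, le_rfl, Exec.loopE _ _ _ ?_, hin⟩
    unfold repc
    rw [rst_pc, hl]; rfl
  | succ n ih =>
    intro c c' h hl hin
    rw [iterate_succ_apply] at h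
    obtain ⟨l, v, S⟩ := c
    cases l with
    | none =>
      exfalso
      have e : (flip bind (TM2.step m)) (some (⟨none, v, S⟩ : TM2.Cfg Γ Λ σ)) = none := rfl
      rw [e] at h
      have : ∀ n, (flip bind (TM2.step m))^[n] (none : Option (TM2.Cfg Γ Λ σ)) = none := by
        intro n
        induction n with
        | zero => rfl
        | succ n ih => rw [iterate_succ_apply']; rw [ih]; rfl
      rw [this] at h
      exact absurd h (by simp)
    | some l =>
      have e : (flip bind (TM2.step m)) (some (⟨some l, v, S⟩ : TM2.Cfg Γ Λ σ))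
          = some (TM2.stepAux (m l) v S) := rfl
      rw [e] at h
      obtain ⟨h1, h2⟩ := simSt_exec C qe s r (m l) v S (hm l) hin
      obtain ⟨t, ht, h3, h4⟩ := ih _ c' h hl h2
      refine ⟨0 + t + 1, by omega, ?_, h4⟩
      refine Exec.loopS _ _ _ _ _ _ _ ?_ ?_ h3
      · unfold repc
        rw [rst_pc]
        exact List.ne_nil_of_length_pos (DTree.code_length_pos _)
      · refine popNat_exec _ _ _ (qe (l, v)) _ _ _ [] (hNQ _) ?_ ?_
        · unfold repc
          rw [rst_pc, List.append_nil]; rfl
        · rw [hqd]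
          unfold repc at h1 ⊢
          rw [rst_upc]
          exact h1

end sim

end

end Pool.Agent.Helper58
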