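import Pool.Agent.Helper58.Sim
import Pool.Agent.Helper58.Search

set_option autoImplicit false

namespace Pool.Agent.Helper58

open Function Turing

noncomputable section

section prog

variable {K : Type} [DecidableEq K] [Fintype K] {Γ : K → Type} {Λ σ : Type} (C : Coding Γ)
  (qe : Λ × σ → ℕ)

/-- put the empty list on the given stacks -/
def initL (r : ℕ) : List K → Cmd
  | [] => Cmd.skip
  | k :: ks => Cmd.seq (Cmd.push (r + 1 + pos k) false) (initL r ks)

/-- clear the given stacks -/
def clearL (r : ℕ) : List K → Cmd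
  | [] => Cmd.skip
  | k :: ks => Cmd.seq (clr (r + 1 + pos k)) (clearL r ks)

omit [DecidableEq K] in
lemma initL_exec (r : ℕ) : ∀ (ks : List K) (s : Stk), ks.Nodup →
    (∀ k ∈ ks, s (r + 1 + pos k) = []) →
    Exec (initL r ks) s (fun j => open Classical in
      if ∃ k ∈ ks, j = r + 1 + pos k then [false] else s j) 0 := by
  classical
  intro ks
  induction ks with
  | nil =>
    intro s _ _
    simp only [List.not_mem_nil, false_and, exists_false, if_false]
    exact Exec.skip _
  | cons k ks ih =>
    intro s hn hs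
    rw [List.nodup_cons] at hn
    have h1 := ih (update s (r + 1 + pos k) [false]) hn.2 (by
      intro k' hk'
      rw [update_of_ne]
      · exact hs k' (List.mem_cons_of_mem _ hk')
      · intro h
        have := pos_inj (K := K) (k := k') (k' := k) (by omega)
        subst this
        exact hn.1 hk')
    refine (exec_seq (n := 0) (m := 0) ?_ h1).of_eq ?_ rfl
    · apply exec_push
      rw [hs k List.mem_cons_self]
    · funext j
      by_cases hj : j = r + 1 + pos k
      · have h2 : ¬ ∃ k' ∈ ks, j = r + 1 + pos k' := by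
          rintro ⟨k', hk', h⟩
          have := pos_inj (K := K) (k := k') (k' := k) (by omega)
          subst this
          exact hn.1 hk'
        have h3 : ∃ k' ∈ k :: ks, j = r + 1 + pos k' := ⟨k, List.mem_cons_self, hj⟩
        rw [if_neg h2, if_pos h3, hj, update_self]
      · by_cases h2 : ∃ k' ∈ ks, j = r + 1 + pos k'
        · have h3 : ∃ k' ∈ k :: ks, j = r + 1 + pos k' := by
            obtain ⟨k', hk', h⟩ := h2
            exact ⟨k', List.mem_cons_of_mem _ hk', h⟩
          rw [if_pos h2, if_pos h3]
        · have h3 : ¬ ∃ k' ∈ k :: ks, j = r + 1 + pos k' := by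
            rintro ⟨k', hk', h⟩
            rcases List.mem_cons.1 hk' with h4 | h4
            · subst h4; exact hj h
            · exact h2 ⟨k', h4, h⟩
          rw [if_neg h2, if_neg h3, update_of_ne hj]

omit [DecidableEq K] in
lemma clearL_exec (r : ℕ) : ∀ (ks : List K) (s : Stk), ks.Nodup →
    (∀ k ∈ ks, s (r + 1 + pos k) = [false]) →
    Exec (clearL r ks) s (fun j => open Classical in
      if ∃ k ∈ ks, j = r + 1 + pos k then [] else s j) (2 * ks.length) := by
  classical
  intro ks
  induction ks with
  | nil =>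
    intro s _ _
    simp only [List.not_mem_nil, false_and, exists_false, if_false]
    exact Exec.skip _
  | cons k ks ih =>
    intro s hn hs
    rw [List.nodup_cons] at hn
    have h1 := ih (update s (r + 1 + pos k) []) hn.2 (by
      intro k' hk'
      rw [update_of_ne]
      · exact hs k' (List.mem_cons_of_mem _ hk')
      · intro h
        have := pos_inj (K := K) (k := k') (k' := k) (by omega)
        subst this
        exact hn.1 hk')
    refine (exec_seq (clr_exec _ _ (hs k List.mem_cons_self)) h1).of_eq ?_ ?_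
    · funext j
      by_cases hj : j = r + 1 + pos k
      · have h2 : ¬ ∃ k' ∈ ks, j = r + 1 + pos k' := by
          rintro ⟨k', hk', h⟩
          have := pos_inj (K := K) (k := k') (k' := k) (by omega)
          subst this
          exact hn.1 hk'
        have h3 : ∃ k' ∈ k :: ks, j = r + 1 + pos k' := ⟨k, List.mem_cons_self, hj⟩
        rw [if_neg h2, if_pos h3, hj, update_self]
      · by_cases h2 : ∃ k' ∈ ks, j = r + 1 + pos k'
        · have h3 : ∃ k' ∈ k :: ks, j = r + 1 + pos k' := by
            obtain ⟨k', hk', h⟩ := h2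
            exact ⟨k', List.mem_cons_of_mem _ hk', h⟩
          rw [if_pos h2, if_pos h3]
        · have h3 : ¬ ∃ k' ∈ k :: ks, j = r + 1 + pos k' := by
            rintro ⟨k', hk', h⟩
            rcases List.mem_cons.1 hk' with h4 | h4
            · subst h4; exact hj h
            · exact h2 ⟨k', h4, h⟩
          rw [if_neg h2, if_neg h3, update_of_ne hj]
    · simp only [List.length_cons, List.length_nil]; omega

omit [DecidableEq K] in
lemma below_initL (r N : ℕ) (hN : r + 1 + Fintype.card K ≤ N) : ∀ ks : List K, (initL r ks).Below N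
  | [] => trivial
  | k :: ks => ⟨by have := pos_lt k; show r + 1 + pos k < N; omega, below_initL r N hN ks⟩

omit [DecidableEq K] in
lemma below_clearL (r N : ℕ) (hN : r + 1 + Fintype.card K ≤ N) : ∀ ks : List K, (clearL r ks).Below N
  | [] => trivial
  | k :: ks => ⟨below_clr (by have := pos_lt k; omega), below_clearL r N hN ks⟩

/-- state with one nonempty machine stack -/
def xst (s : Stk) (r : ℕ) (k : K) (L : List Bool) : Stk := fun j =>
  if j < r then s j else if j = r + 1 + pos k then L else []

omit [DecidableEq K] in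
lemma move_in (s : Stk) (r : ℕ) (k : K) (L : List Bool) :
    Exec (Cmd.seq (mv r (r + 1 + Fintype.card K)) (mv (r + 1 + Fintype.card K) (r + 1 + pos k)))
      (st4 s r L [] [] []) (xst s r k L) (2 * L.length + 2) := by
  have hp := pos_lt k
  have h0 : ∀ j, r < j → st4 s r L [] [] [] j = [] := fun j hj => st4_above0 s r L hj
  have h1 := mv_exec (k := r) (l := r + 1 + Fintype.card K) (by omega) L (st4 s r L [] [] [])
    (st4_0 _ _ _ _ _ _)
  have h2 := mv_exec (k := r + 1 + Fintype.card K) (l := r + 1 + pos k) (by omega) L.reverse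
    (update (update (st4 s r L [] [] []) (r + 1 + Fintype.card K)
      (L.reverse ++ st4 s r L [] [] [] (r + 1 + Fintype.card K))) r []) (by
      rw [update_of_ne (by omega), update_self, h0 _ (by omega), List.append_nil])
  refine (exec_seq h1 h2).of_eq ?_ (by simp; omega)
  funext j
  unfold xst
  rw [update_apply]
  by_cases e1 : j = r + 1 + Fintype.card K
  · rw [if_pos e1, if_neg (by omega), if_neg (by omega)]
  · rw [if_neg e1, update_apply]
    by_cases e2 : j = r + 1 + pos k
    · rw [if_pos e2, if_neg (by omega), if_pos e2, List.reverse_reverse, update_of_ne (by omega),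
        update_of_ne (by omega), h0 _ (by omega), List.append_nil]
    · rw [if_neg e2, update_apply]
      by_cases e3 : j = r
      · rw [if_pos e3, if_neg (by omega), if_neg e2]
      · rw [if_neg e3, update_of_ne e1]
        by_cases e4 : j < r
        · rw [if_pos e4]; unfold st4; rw [if_pos e4]
        · rw [if_neg e4, if_neg e2, h0 j (by omega)]

omit [DecidableEq K] in
lemma move_out (s : Stk) (r : ℕ) (k : K) (L : List Bool) :
    Exec (Cmd.seq (mv (r + 1 + pos k) (r + 1 + Fintype.card K)) (mv (r + 1 + Fintype.card K) r))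
      (xst s r k L) (st4 s r L [] [] []) (2 * L.length + 2) := by
  have hp := pos_lt k
  have h0 : ∀ j, ¬ j < r → j ≠ r + 1 + pos k → xst s r k L j = [] := by
    intro j hj hj2
    unfold xst
    rw [if_neg hj, if_neg hj2]
  have h1 := mv_exec (k := r + 1 + pos k) (l := r + 1 + Fintype.card K) (by omega) L (xst s r k L)
    (by unfold xst; rw [if_neg (by omega), if_pos rfl])
  have h2 := mv_exec (k := r + 1 + Fintype.card K) (l := r) (by omega) L.reverse
    (update (update (xst s r k L) (r + 1 + Fintype.card K)
      (L.reverse ++ xst s r k L (r + 1 + Fintype.card K))) (r + 1 + pos k) []) (by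
      rw [update_of_ne (by omega), update_self, h0 _ (by omega) (by omega), List.append_nil])
  refine (exec_seq h1 h2).of_eq ?_ (by simp; omega)
  funext j
  rw [update_apply]
  by_cases e1 : j = r + 1 + Fintype.card K
  · rw [if_pos e1, st4_above0 _ _ _ (by omega)]
  · rw [if_neg e1, update_apply]
    by_cases e2 : j = r
    · rw [if_pos e2, List.reverse_reverse, update_of_ne (by omega), update_of_ne (by omega),
        h0 _ (by omega) (by omega), List.append_nil, e2, st4_0]
    · rw [if_neg e2, update_apply]
      by_cases e3 : j = r + 1 + pos k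
      · rw [if_pos e3, st4_above0 _ _ _ (by omega)]
      · rw [if_neg e3, update_of_ne e1]
        by_cases e4 : j < r
        · unfold st4 xst; rw [if_pos e4, if_pos e4]
        · rw [h0 j e4 e3, st4_above0 _ _ _ (by omega)]

omit [DecidableEq K] in
lemma index_cases (K : Type) [Fintype K] (r j : ℕ) : j < r ∨ j = r ∨ (∃ k : K, j = r + 1 + pos k) ∨
    r + 1 + Fintype.card K ≤ j := by
  by_cases h1 : j < r
  · left; exact h1
  · by_cases h2 : j = r
    · right; left; exact h2
    · by_cases h3 : j - (r + 1) < Fintype.card K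
      · right; right; left
        refine ⟨(Fintype.equivFin K).symm ⟨j - (r + 1), h3⟩, ?_⟩
        unfold pos
        rw [Equiv.apply_symm_apply]
        show j = r + 1 + (j - (r + 1))
        omega
      · right; right; right; omega

omit [DecidableEq K] in
lemma rst_below (s : Stk) (r : ℕ) (pc : List Bool) (S : ∀ k, List (Γ k)) (j : ℕ) (h : j < r) :
    rst C s r pc S j = s j := by
  unfold rst; rw [if_pos h]

omit [DecidableEq K] in
lemma rst_above (s : Stk) (r : ℕ) (pc : List Bool) (S : ∀ k, List (Γ k)) (j : ℕ)
    (h : r + 1 + Fintype.card K ≤ j) : rst C s r pc S j = [] := by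
  unfold rst; rw [if_neg (by omega), if_neg (by omega), dif_neg (by omega)]

/-- one nonempty stack -/
def single (k : K) (l : List (Γ k)) : ∀ k, List (Γ k) := update (fun _ => []) k l

lemma init_state (s : Stk) (r : ℕ) (k : K) (l : List (Γ k)) (ks : List K)
    (hks : ∀ k', k' ∈ ks ↔ k' ≠ k) :
    (fun j => open Classical in if ∃ k' ∈ ks, j = r + 1 + pos k' then [false] else
      xst s r k (codeS C k l) j) = rst C s r [] (single k l) := by
  classical
  funext j
  rcases index_cases K r j with h | h | ⟨k', h⟩ | h
  · rw [rst_below _ _ _ _ _ _ h, if_neg]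
    · unfold xst; rw [if_pos h]
    · rintro ⟨k', _, h'⟩; omega
  · subst h
    rw [rst_pc, if_neg]
    · unfold xst; rw [if_neg (by omega), if_neg (by omega)]
    · rintro ⟨k', _, h'⟩; omega
  · subst h
    rw [rst_at]
    by_cases hk : k' = k
    · subst hk
      rw [if_neg]
      · unfold xst single; rw [if_neg (by omega), if_pos rfl, update_self]
      · rintro ⟨k'', hk'', h'⟩
        have := pos_inj (K := K) (k := k') (k' := k'') (by omega)
        subst this
        exact (hks _).1 hk'' rfl
    · rw [if_pos ⟨k', (hks _).2 hk, rfl⟩]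
      unfold single
      rw [update_of_ne hk]; rfl
  · rw [rst_above _ _ _ _ _ _ h, if_neg]
    · have := pos_lt k
      unfold xst; rw [if_neg (by omega), if_neg (by omega)]
    · rintro ⟨k', _, h'⟩
      have := pos_lt k'
      omega

lemma final_state (s : Stk) (r : ℕ) (k : K) (l : List (Γ k)) (ks : List K)
    (hks : ∀ k', k' ∈ ks ↔ k' ≠ k) :
    (fun j => open Classical in if ∃ k' ∈ ks, j = r + 1 + pos k' then [] else
      rst C s r [] (single k l) j) = xst s r k (codeS C k l) := by
  classical
  funext j
  rcases index_cases K r j with h | h | ⟨k', h⟩ | h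
  · rw [rst_below _ _ _ _ _ _ h, if_neg]
    · unfold xst; rw [if_pos h]
    · rintro ⟨k', _, h'⟩; omega
  · subst h
    rw [rst_pc, if_neg]
    · unfold xst; rw [if_neg (by omega), if_neg (by omega)]
    · rintro ⟨k', _, h'⟩; omega
  · subst h
    rw [rst_at]
    by_cases hk : k' = k
    · subst hk
      rw [if_neg]
      · unfold xst single; rw [if_neg (by omega), if_pos rfl, update_self]
      · rintro ⟨k'', hk'', h'⟩
        have := pos_inj (K := K) (k := k') (k' := k'') (by omega)
        subst this
        exact (hks _).1 hk'' rfl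
    · rw [if_pos ⟨k', (hks _).2 hk, rfl⟩]
      unfold xst
      rw [if_neg (by omega), if_neg]
      intro h'
      exact hk (pos_inj (by omega))
  · rw [rst_above _ _ _ _ _ _ h, if_neg]
    · have := pos_lt k
      unfold xst; rw [if_neg (by omega), if_neg (by omega)]
    · rintro ⟨k', _, h'⟩
      have := pos_lt k'
      omega

/-- a machine run gives a stack program -/
theorem ptf_of_run {D : Type} [Enc D] (k₀ k₁ : K) (m : Λ → TM2.Stmt Γ Λ σ) (l0 : Λ) (v0 : σ)
    (qd : ℕ → Option (Λ × σ)) (NQ : ℕ) (hqd : ∀ x, qd (qe x) = some x) (hNQ : ∀ x, qe x < NQ)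
    (hm : ∀ l, StIn C (m l)) (inp : D → List (Γ k₀)) (out : D → List (Γ k₁))
    (hin : ∀ x, enc x = enc ((inp x).map (C.e k₀))) (hT : ∀ x, ∀ a ∈ inp x, a ∈ C.T k₀)
    (τ : D → ℕ) (hτ : PB τ)
    (hrun : ∀ x, ∃ n ≤ τ x, (flip bind (TM2.step m))^[n]
      (some (⟨some l0, v0, single k₀ (inp x)⟩ : TM2.Cfg Γ Λ σ))
        = some ⟨none, v0, single k₁ (out x)⟩) :
    PTf (fun x => (out x).map (C.e k₁)) := by
  classical
  set ks0 := (Finset.univ.erase k₀).toList with hks0
  set ks1 := (Finset.univ.erase k₁).toList with hks1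
  have hk0 : ∀ k', k' ∈ ks0 ↔ k' ≠ k₀ := by intro k'; rw [hks0]; simp
  have hk1 : ∀ k', k' ∈ ks1 ↔ k' ≠ k₁ := by intro k'; rw [hks1]; simp
  have hn0 : ks0.Nodup := Finset.nodup_toList _
  have hn1 : ks1.Nodup := Finset.nodup_toList _
  set P := (mainLoop C qe m qd NQ 0).pushes with hP
  refine PTf.intro (fun r => Cmd.seq (Cmd.seq (mv r (r + 1 + Fintype.card K))
      (mv (r + 1 + Fintype.card K) (r + 1 + pos k₀)))
    (Cmd.seq (initL r ks0) (Cmd.seq (pushL r (uw (qe (l0, v0)))) (Cmd.seq (mainLoop C qe m qd NQ r)
    (Cmd.seq (clearL r ks1) (Cmd.seq (mv (r + 1 + pos k₁) (r + 1 + Fintype.card K))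
      (mv (r + 1 + Fintype.card K) r))))))) (2 + Fintype.card K)
    (fun x => (2 * sz x + 2) + (0 + (0 + ((τ x + 1) + (2 * ks1.length +
      (2 * (sz x + P * (τ x + 2)) + 2)))))) ?_ ?_ ?_
  · intro r
    have h0 := pos_lt k₀
    have h1 := pos_lt k₁
    exact ⟨⟨below_mv (by omega) (by omega), below_mv (by omega) (by omega)⟩,
      below_initL r _ (by omega) _, below_pushL (by omega) _, below_mainLoop C qe m qd NQ r _ (by omega),
      below_clearL r _ (by omega) _, below_mv (by omega) (by omega), below_mv (by omega) (by omega)⟩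
  · exact (((PB.const 2).mul PB.size).add (PB.const 2)).add ((PB.const 0).add ((PB.const 0).add
      ((hτ.add (PB.const 1)).add ((PB.const _).add (((PB.const 2).mul (PB.size.add
        ((PB.const P).mul (hτ.add (PB.const 2))))).add (PB.const 2))))))
  · intro r s x
    obtain ⟨n, hn, hr⟩ := hrun x
    have h1 := move_in s r k₀ (enc x).code
    have e1 : (enc x).code = codeS C k₀ (inp x) := by rw [hin]; rfl
    have h2 := initL_exec r ks0 (xst s r k₀ (enc x).code) hn0 (by
      intro k hk
      unfold xst
      rw [if_neg (by omega), if_neg]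
      intro h
      exact (hk0 k).1 hk (pos_inj (by omega)))
    rw [e1, init_state C s r k₀ (inp x) ks0 hk0, ← e1] at h2
    have h3 := pushL_exec' r (rst C s r [] (single k₀ (inp x))) (uw (qe (l0, v0)))
    rw [rst_pc, List.append_nil, rst_upc] at h3
    have hInT : InT C (single k₀ (inp x)) := by
      intro k a ha
      unfold single at ha
      by_cases hk : k = k₀
      · subst hk; rw [update_self] at ha; exact hT x a ha
      · rw [update_of_ne hk] at ha; simp at ha
    obtain ⟨t, ht, h4, _⟩ := mainLoop_exec C qe m qd NQ hqd hNQ hm s r n _ _ hr rfl hInT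
    have h5 := clearL_exec r ks1 (rst C s r [] (single k₁ (out x))) hn1 (by
      intro k hk
      rw [rst_at]
      unfold single
      rw [update_of_ne ((hk1 k).1 hk)]; rfl)
    rw [final_state C s r k₁ (out x) ks1 hk1] at h5
    have h6 := move_out s r k₁ (codeS C k₁ (out x))
    have hg := exec_growth h4 (r + 1 + pos k₁)
    rw [pushes_mainLoop C qe m qd NQ r 0, ← hP] at hg
    have g1 : repc C qe s r (⟨none, v0, single k₁ (out x)⟩ : TM2.Cfg Γ Λ σ) (r + 1 + pos k₁)
        = codeS C k₁ (out x) := by
      unfold repc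
      rw [rst_at]
      show codeS C k₁ ((single k₁ (out x) : ∀ k, List (Γ k)) k₁) = _
      unfold single
      rw [update_self]
    have g2 : (repc C qe s r (⟨some l0, v0, single k₀ (inp x)⟩ : TM2.Cfg Γ Λ σ)
        (r + 1 + pos k₁)).length ≤ sz x := by
      unfold repc
      rw [rst_at]
      by_cases hk : k₁ = k₀
      · subst hk
        show (codeS C k₁ ((single k₁ (inp x) : ∀ k, List (Γ k)) k₁)).length ≤ sz x
        unfold single
        rw [update_self, ← e1]
        exact le_rfl
      · have : (single k₀ (inp x) : ∀ k, List (Γ k)) k₁ = [] := by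
          unfold single; rw [update_of_ne hk]
        show (codeS C k₁ ((single k₀ (inp x) : ∀ k, List (Γ k)) k₁)).length ≤ sz x
        rw [this]
        exact sz_pos x
    rw [g1] at hg
    have hout : (codeS C k₁ (out x)).length ≤ sz x + P * (τ x + 2) := by
      refine hg.trans (Nat.add_le_add g2 (Nat.mul_le_mul_left _ (by omega)))
    refine ⟨_, ?_, exec_seq h1 (exec_seq h2 (exec_seq h3 (exec_seq h4 (exec_seq h5 h6))))⟩
    have h7 : (enc x).code.length = sz x := rfl
    rw [h7]
    beta_reduce
    omega

end prog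

/-! ### codings of finite sets of symbols -/

lemma exists_code {α : Type} (T : Set α) (hT : T.Finite) :
    ∃ (n : ℕ) (e : α → ℕ) (d : ℕ → Option α), ∀ a ∈ T, e a < n ∧ d (e a) = some a := by
  classical
  refine ⟨hT.toFinset.toList.length, fun a => hT.toFinset.toList.idxOf a,
    fun i => hT.toFinset.toList[i]?, fun a ha => ?_⟩
  have hm : a ∈ hT.toFinset.toList := by simpa using ha
  have h1 := List.idxOf_lt_length_of_mem hm
  refine ⟨h1, ?_⟩
  beta_reduce
  rw [List.getElem?_eq_getElem h1, List.getElem_idxOf]

lemma exists_coding {K : Type} (Γ : K → Type) (S : Set (Σ k, Γ k)) (hS : S.Finite) :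
    ∃ C : Coding Γ, ∀ k a, (⟨k, a⟩ : Σ k, Γ k) ∈ S → a ∈ C.T k := by
  classical
  have hf : ∀ k, {a : Γ k | (⟨k, a⟩ : Σ k, Γ k) ∈ S}.Finite := by
    intro k
    exact hS.preimage (sigma_mk_injective.injOn)
  choose n e d h using fun k => exists_code _ (hf k)
  exact ⟨⟨n, e, d, fun k => {a : Γ k | (⟨k, a⟩ : Σ k, Γ k) ∈ S}, fun k a ha => (h k a ha).1,
    fun k a ha => (h k a ha).2⟩, fun k a ha => ha⟩

/-- the set of symbols pushed by a statement -/
def pushedS {K : Type} {Γ : K → Type} {Λ σ : Type} : TM2.Stmt Γ Λ σ → Set (Σ k, Γ k)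
  | TM2.Stmt.push k f q => Set.range (fun v => (⟨k, f v⟩ : Σ k, Γ k)) ∪ pushedS q
  | TM2.Stmt.peek _ _ q => pushedS q
  | TM2.Stmt.pop _ _ q => pushedS q
  | TM2.Stmt.load _ q => pushedS q
  | TM2.Stmt.branch _ q1 q2 => pushedS q1 ∪ pushedS q2
  | TM2.Stmt.goto _ => ∅
  | TM2.Stmt.halt => ∅

lemma pushedS_finite {K : Type} {Γ : K → Type} {Λ σ : Type} [Finite σ] (q : TM2.Stmt Γ Λ σ) :
    (pushedS q).Finite := by
  induction q with
  | push k f q ih => exact (Set.finite_range _).union ih
  | peek k f q ih => exact ih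
  | pop k f q ih => exact ih
  | load a q ih => exact ih
  | branch p q1 q2 ih1 ih2 => exact ih1.union ih2
  | goto l => exact Set.finite_empty
  | halt => exact Set.finite_empty

lemma stIn_of_pushed {K : Type} {Γ : K → Type} {Λ σ : Type} (C : Coding Γ) (q : TM2.Stmt Γ Λ σ)
    (h : ∀ k a, (⟨k, a⟩ : Σ k, Γ k) ∈ pushedS q → a ∈ C.T k) : StIn C q := by
  induction q with
  | push k f q ih =>
    exact ⟨fun v => h k (f v) (Or.inl ⟨v, rfl⟩), ih (fun k a ha => h k a (Or.inr ha))⟩
  | peek k f q ih => exact ih h
  | pop k f q ih => exact ih h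
  | load a q ih => exact ih h
  | branch p q1 q2 ih1 ih2 =>
    exact ⟨ih1 (fun k a ha => h k a (Or.inl ha)), ih2 (fun k a ha => h k a (Or.inr ha))⟩
  | goto l => trivial
  | halt => trivial

end

end Pool.Agent.Helper58
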