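import Pool.Agent.Helper58.Wave

set_option autoImplicit false

namespace Pool.Agent.Helper58

noncomputable section

open Finset

/-- step function of the wire with index `v` -/
def tt (v : ℕ) (q : ℝ) : ℝ := clamp (8 * (q - v) - 4)

/-- step function of the column `v`; the column of the source is bent into the corner -/
def tp (v : ℕ) (x y : ℝ) : ℝ := if v = 0 then clamp (8 * (x - min y (1/2))) else tt v x

/-- vertices with a valid outgoing edge -/
def Vset (M : ℕ) (S P : ℕ → ℕ) : Finset ℕ := (range M).filter (fun v => P (S v) = v)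

/-- nonzero vertices -/
def Wset (M : ℕ) : Finset ℕ := (range M).filter (fun v => v ≠ 0)

/-- the angle function -/
def Psi (M : ℕ) (S P : ℕ → ℕ) (x y : ℝ) : ℝ :=
  ∑ v ∈ Vset M S P, (1 - max (tp v x y) (tt (S v) y)) - ∑ v ∈ Wset M, (1 - max (tt v x) (tt v y))

lemma tt_left {v : ℕ} {q : ℝ} (h : q ≤ v + 3/8) : tt v q = -1 :=
  clamp_of_le (by linarith)

lemma tt_right {v : ℕ} {q : ℝ} (h : (v : ℝ) + 5/8 ≤ q) : tt v q = 1 :=
  clamp_of_ge (by linarith)

lemma tt_le (v : ℕ) (q : ℝ) : tt v q ≤ 1 := clamp_le_one _
lemma le_tt (v : ℕ) (q : ℝ) : -1 ≤ tt v q := neg_one_le_clamp _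

lemma tt_lip (v : ℕ) (q q' : ℝ) : |tt v q - tt v q'| ≤ 8 * |q - q'| := by
  unfold tt
  refine (abs_clamp_sub _ _).trans ?_
  rw [show 8 * (q - v) - 4 - (8 * (q' - v) - 4) = 8 * (q - q') by ring, abs_mul]
  norm_num

lemma tt_outside {v : ℕ} {q : ℝ} (h : 1/8 ≤ |q - v - 1/2|) : tt v q = 1 ∨ tt v q = -1 := by
  rcases abs_cases (q - v - 1/2) with ⟨h1, _⟩ | ⟨h1, _⟩
  · left; apply tt_right; linarith
  · right; apply tt_left; linarith

lemma sum_tt_le (M : ℕ) (q q' : ℝ) (h : |q - q'| ≤ 1/2) :
    ∑ v ∈ range M, |tt v q - tt v q'| ≤ 8 * |q - q'| := by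
  by_cases hex : ∃ v0 ∈ range M, tt v0 q ≠ tt v0 q'
  · obtain ⟨v0, hv0, hne⟩ := hex
    rw [Finset.sum_eq_single_of_mem v0 hv0]
    · exact tt_lip _ _ _
    · intro v _ hv
      by_contra hcon
      have hne' : tt v q ≠ tt v q' := by
        intro he; apply hcon; rw [he]; simp
      rw [abs_le] at h
      -- both bands meet the segment
      have key : ∀ w : ℕ, tt w q ≠ tt w q' →
          (min q q' < w + 5/8 ∧ (w : ℝ) + 3/8 < max q q') := by
        intro w hw
        constructor
        · by_contra hc
          push Not at hc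
          apply hw
          rw [tt_right (le_trans hc (min_le_left _ _)), tt_right (le_trans hc (min_le_right _ _))]
        · by_contra hc
          push Not at hc
          apply hw
          rw [tt_left (le_trans (le_max_left _ _) hc), tt_left (le_trans (le_max_right _ _) hc)]
      have k1 := key v0 hne
      have k2 := key v hne'
      have hmm : max q q' - min q q' ≤ 1/2 := by
        rcases le_total q q' with hq | hq
        · rw [max_eq_right hq, min_eq_left hq]; linarith
        · rw [max_eq_left hq, min_eq_right hq]; linarith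
      rcases lt_or_gt_of_ne hv with hlt | hgt
      · have : (v : ℝ) + 1 ≤ v0 := by exact_mod_cast hlt
        linarith [k1.2, k2.1]
      · have : (v0 : ℝ) + 1 ≤ v := by exact_mod_cast hgt
        linarith [k1.1, k2.2]
  · push Not at hex
    rw [Finset.sum_eq_zero]
    · positivity
    · intro v hv
      rw [hex v hv]; simp

lemma tp_lip (v : ℕ) (x y x' y' : ℝ) :
    |tp v x y - tp v x' y'| ≤ |tt v x - tt v x'| + (if v = 0 then 8 * (|x - x'| + |y - y'|) else 0) := by
  unfold tp
  split_ifs with h
  · refine (abs_clamp_sub _ _).trans ?_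
    have h1 : 8 * (x - min y (1/2)) - 8 * (x' - min y' (1/2))
        = 8 * ((x - x') - (min y (1/2) - min y' (1/2))) := by ring
    rw [h1, abs_mul]
    have h2 : |min y (1/2) - min y' (1/2)| ≤ |y - y'| := by
      have := abs_min_sub_min_le_max y (1/2) y' (1/2)
      simpa using this
    have h3 := abs_sub (x - x') (min y (1/2) - min y' (1/2))
    have h4 := abs_nonneg (tt v x - tt v x')
    rw [abs_of_pos (show (0:ℝ) < 8 by norm_num)]
    have h5 : |x - x' - (min y (1/2) - min y' (1/2))| ≤ |x - x'| + |min y (1/2) - min y' (1/2)| := h3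
    nlinarith
  · simp

lemma Psi_lip (M : ℕ) (S P : ℕ → ℕ) (hS : ∀ v < M, S v < M) (x y x' y' : ℝ)
    (hx : |x - x'| ≤ 1/2) (hy : |y - y'| ≤ 1/2) :
    |Psi M S P x y - Psi M S P x' y'| ≤ 24 * |x - x'| + 24 * |y - y'| := by
  have hX := sum_tt_le M x x' hx
  have hY := sum_tt_le M y y' hy
  -- first sum
  have hVsub : Vset M S P ⊆ range M := filter_subset _ _
  have hWsub : Wset M ⊆ range M := filter_subset _ _
  have hinj : Set.InjOn S (Vset M S P) := by
    intro v hv w hw he
    simp only [Vset, coe_filter, Set.mem_ofPred_eq] at hv hw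
    rw [← hv.2, ← hw.2, he]
  have s1 : |∑ v ∈ Vset M S P, (1 - max (tp v x y) (tt (S v) y))
      - ∑ v ∈ Vset M S P, (1 - max (tp v x' y') (tt (S v) y'))|
      ≤ (8 * |x - x'| + 8 * (|x - x'| + |y - y'|)) + 8 * |y - y'| := by
    rw [← Finset.sum_sub_distrib]
    refine (Finset.abs_sum_le_sum_abs _ _).trans ?_
    have hb : ∀ v ∈ Vset M S P,
        |(1 - max (tp v x y) (tt (S v) y)) - (1 - max (tp v x' y') (tt (S v) y'))|
        ≤ (|tt v x - tt v x'| + (if v = 0 then 8 * (|x - x'| + |y - y'|) else 0))
          + |tt (S v) y - tt (S v) y'| := by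
      intro v _
      rw [show (1 - max (tp v x y) (tt (S v) y)) - (1 - max (tp v x' y') (tt (S v) y'))
        = -(max (tp v x y) (tt (S v) y) - max (tp v x' y') (tt (S v) y')) by ring, abs_neg]
      refine (abs_max_sub _ _ _ _).trans ?_
      have := tp_lip v x y x' y'
      linarith
    refine (Finset.sum_le_sum hb).trans ?_
    rw [Finset.sum_add_distrib, Finset.sum_add_distrib]
    have b1 : ∑ v ∈ Vset M S P, |tt v x - tt v x'| ≤ 8 * |x - x'| :=
      (Finset.sum_le_sum_of_subset_of_nonneg hVsub (fun _ _ _ => abs_nonneg _)).trans hX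
    have b2 : ∑ v ∈ Vset M S P, (if v = 0 then 8 * (|x - x'| + |y - y'|) else 0)
        ≤ 8 * (|x - x'| + |y - y'|) := by
      rw [Finset.sum_ite_eq']
      split_ifs
      · exact le_rfl
      · positivity
    have b3 : ∑ v ∈ Vset M S P, |tt (S v) y - tt (S v) y'| ≤ 8 * |y - y'| := by
      have e : ∑ v ∈ Vset M S P, |tt (S v) y - tt (S v) y'|
          = ∑ w ∈ (Vset M S P).image S, |tt w y - tt w y'| := by
        rw [Finset.sum_image hinj]
      rw [e]
      refine (Finset.sum_le_sum_of_subset_of_nonneg ?_ (fun _ _ _ => abs_nonneg _)).trans hY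
      intro w hw
      rw [Finset.mem_image] at hw
      obtain ⟨v, hv, rfl⟩ := hw
      exact mem_range.2 (hS v (mem_range.1 (hVsub hv)))
    linarith
  have s2 : |∑ v ∈ Wset M, (1 - max (tt v x) (tt v y))
      - ∑ v ∈ Wset M, (1 - max (tt v x') (tt v y'))| ≤ 8 * |x - x'| + 8 * |y - y'| := by
    rw [← Finset.sum_sub_distrib]
    refine (Finset.abs_sum_le_sum_abs _ _).trans ?_
    have hb : ∀ v ∈ Wset M,
        |(1 - max (tt v x) (tt v y)) - (1 - max (tt v x') (tt v y'))|
        ≤ |tt v x - tt v x'| + |tt v y - tt v y'| := by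
      intro v _
      rw [show (1 - max (tt v x) (tt v y)) - (1 - max (tt v x') (tt v y'))
        = -(max (tt v x) (tt v y) - max (tt v x') (tt v y')) by ring, abs_neg]
      exact abs_max_sub _ _ _ _
    refine (Finset.sum_le_sum hb).trans ?_
    rw [Finset.sum_add_distrib]
    have b1 : ∑ v ∈ Wset M, |tt v x - tt v x'| ≤ 8 * |x - x'| :=
      (Finset.sum_le_sum_of_subset_of_nonneg hWsub (fun _ _ _ => abs_nonneg _)).trans hX
    have b2 : ∑ v ∈ Wset M, |tt v y - tt v y'| ≤ 8 * |y - y'| :=
      (Finset.sum_le_sum_of_subset_of_nonneg hWsub (fun _ _ _ => abs_nonneg _)).trans hY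
    linarith
  unfold Psi
  have e : ∀ A B A' B' : ℝ, |(A - B) - (A' - B')| ≤ |A - A'| + |B - B'| := by
    intro A B A' B'
    rw [show (A - B) - (A' - B') = (A - A') - (B - B') by ring]
    exact abs_sub _ _
  refine (e _ _ _ _).trans ?_
  linarith

lemma coe_one_sub_pm {t : ℝ} (h : t = 1 ∨ t = -1) : ((1 - t : ℝ) : Circ2) = 0 := by
  rcases h with h | h
  · rw [h, sub_self, AddCircle.coe_zero]
  · rw [h]
    have := coe_even 1
    rw [← this]; congr 1; norm_num

lemma coe_Psi (M : ℕ) (S P : ℕ → ℕ) (x y : ℝ) :
    ((Psi M S P x y : ℝ) : Circ2)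
      = ∑ v ∈ Vset M S P, ((1 - max (tp v x y) (tt (S v) y) : ℝ) : Circ2)
        - ∑ v ∈ Wset M, ((1 - max (tt v x) (tt v y) : ℝ) : Circ2) := by
  unfold Psi
  rw [AddCircle.coe_sub]
  congr 1
  · exact map_sum (QuotientAddGroup.mk' (AddSubgroup.zmultiples (2:ℝ))) _ _
  · exact map_sum (QuotientAddGroup.mk' (AddSubgroup.zmultiples (2:ℝ))) _ _

theorem topo (M : ℕ) (S P : ℕ → ℕ) (hM : 1 ≤ M) (hS : ∀ v < M, S v < M) (hP : ∀ v < M, P v < M)
    (h0 : P 0 = 0) (h1 : S 0 ≠ 0) (x y : ℝ) (hx0 : 0 ≤ x) (hy0 : 0 ≤ y)
    (hc1 : waveC (Psi M S P x y : Circ2) = 1 → x = M)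
    (hc2 : waveC (Psi M S P x y : Circ2) = -1 → x = 0)
    (hs1 : waveS (Psi M S P x y : Circ2) = 1 → y = M)
    (hs2 : waveS (Psi M S P x y : Circ2) = -1 → y = 0) :
    (x = 0 ∧ ∃ w < M, w ≠ 0 ∧ S (P w) ≠ w ∧ |y - w - 1/2| < 1/8) ∨
    (y = 0 ∧ ∃ v < M, P (S v) ≠ v ∧ (|x - v - 1/2| < 1/8 ∨ (v = 0 ∧ x = 0))) := by
  have hM' : (1:ℝ) ≤ M := by exact_mod_cast hM
  by_contra hcon
  push Not at hcon
  obtain ⟨hA, hB⟩ := hcon
  have mV : ∀ v, v ∈ Vset M S P ↔ (v < M ∧ P (S v) = v) := by
    intro v; simp [Vset]
  have mW : ∀ v, v ∈ Wset M ↔ (v < M ∧ v ≠ 0) := by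
    intro v; simp [Wset]
  -- the case x = 0
  have caseX : x = 0 → False := by
    intro hx
    have hA' := hA hx
    -- pointwise description
    have hVin : (Vset M S P).image S = (Wset M).filter (fun w => S (P w) = w) := by
      ext w
      simp only [mem_image, mem_filter, mV, mW]
      constructor
      · rintro ⟨v, ⟨hv, hv2⟩, rfl⟩
        refine ⟨⟨hS v hv, ?_⟩, by rw [hv2]⟩
        intro h
        rw [h, h0] at hv2
        rw [← hv2] at h
        exact h1 h
      · rintro ⟨⟨hw, hw0⟩, hw2⟩
        exact ⟨P w, ⟨hP w hw, by rw [hw2]⟩, hw2⟩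
    have hinj : Set.InjOn S (Vset M S P) := by
      intro v hv w hw he
      simp only [Vset, coe_filter, Set.mem_ofPred_eq] at hv hw
      rw [← hv.2, ← hw.2, he]
    -- second sum minus first sum is zero up to the correction
    have e2 : ∑ v ∈ Wset M, ((1 - max (tt v x) (tt v y) : ℝ) : Circ2)
        = ∑ w ∈ (Vset M S P).image S, ((1 - tt w y : ℝ) : Circ2) := by
      rw [hVin]
      rw [← Finset.sum_filter_add_sum_filter_not (Wset M) (fun w => S (P w) = w)]
      have : ∑ v ∈ (Wset M).filter (fun w => ¬ S (P w) = w), ((1 - max (tt v x) (tt v y) : ℝ) : Circ2) = 0 := by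
        apply Finset.sum_eq_zero
        intro w hw
        simp only [mem_filter, mW] at hw
        have hh := hA' w hw.1.1 hw.1.2 hw.2
        have h3 := tt_outside hh
        have h4 : tt w x = -1 := by
          apply tt_left; rw [hx]; positivity
        rw [h4, max_eq_right (le_tt _ _)]
        exact coe_one_sub_pm h3
      rw [this, add_zero]
      apply Finset.sum_congr rfl
      intro w hw
      have h4 : tt w x = -1 := by
        apply tt_left; rw [hx]; positivity
      rw [h4, max_eq_right (le_tt _ _)]
    rw [Finset.sum_image hinj] at e2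
    have e3 : ((Psi M S P x y : ℝ) : Circ2)
        = ∑ v ∈ Vset M S P, (((1 - max (tp v x y) (tt (S v) y) : ℝ) : Circ2)
            - ((1 - tt (S v) y : ℝ) : Circ2)) := by
      rw [coe_Psi, e2, Finset.sum_sub_distrib]
    have e4 : ∀ v ∈ Vset M S P, v ≠ 0 → (((1 - max (tp v x y) (tt (S v) y) : ℝ) : Circ2)
            - ((1 - tt (S v) y : ℝ) : Circ2)) = 0 := by
      intro v hv hv0
      have : tp v x y = -1 := by
        unfold tp; rw [if_neg hv0]; apply tt_left; rw [hx]; positivity
      rw [this, max_eq_right (le_tt _ _), sub_self]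
    by_cases hv0 : 0 ∈ Vset M S P
    · rw [Finset.sum_eq_single_of_mem 0 hv0 (fun v hv hne => e4 v hv hne)] at e3
      rcases le_total (1/8) y with hy | hy
      · -- zero
        have : tp 0 x y = -1 := by
          unfold tp; rw [if_pos rfl]; apply clamp_of_le; rw [hx]
          have : 1/8 ≤ min y (1/2) := le_min hy (by norm_num)
          linarith
        rw [this, max_eq_right (le_tt _ _), sub_self] at e3
        have := hs2 (by rw [e3, waveS_zero])
        linarith
      · have hmin : min y (1/2) = y := min_eq_left (by linarith)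
        have ht1 : tp 0 x y = -8 * y := by
          unfold tp; rw [if_pos rfl, hmin, hx]
          rw [show (8 : ℝ) * (0 - y) = -8 * y by ring]
          exact clamp_of_mem (by linarith) (by linarith)
        have ht2 : tt (S 0) y = -1 := by
          apply tt_left
          have : (1 : ℝ) ≤ S 0 := by exact_mod_cast Nat.one_le_iff_ne_zero.2 h1
          linarith
        rw [ht1, ht2, max_eq_left (by linarith)] at e3
        have e5 : ((Psi M S P x y : ℝ) : Circ2) = ((8 * y + 1 : ℝ) : Circ2) := by
          rw [e3, ← AddCircle.coe_sub]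
          have := coe_add_even (1 - -8 * y - (1 - -1)) 1
          rw [← this]; congr 1; push_cast; ring
        rcases le_total (8 * y + 1) (3/2) with h | h
        · have := hc1 (by
            rw [e5, waveC_formula _ (by linarith) (by linarith), clamp_of_ge (by linarith),
              clamp_of_le (by linarith)]; norm_num)
          linarith
        · have := hs2 (by
            rw [e5, waveS_formula _ (by linarith) (by linarith), clamp_of_ge (by linarith),
              clamp_of_ge (by linarith)]; norm_num)
          linarith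
    · rw [Finset.sum_eq_zero (fun v hv => e4 v hv (fun h => hv0 (h ▸ hv)))] at e3
      have hy := hs2 (by rw [e3, waveS_zero])
      have hnv : P (S 0) ≠ 0 := by
        intro h; exact hv0 ((mV 0).2 ⟨hM, h⟩)
      exact (hB hy 0 hM hnv).2 rfl hx
  -- the case y = 0
  have caseY : y = 0 → False := by
    intro hy
    have hB' := hB hy
    have ttv : ∀ v : ℕ, tt v y = -1 := by
      intro v; apply tt_left; rw [hy]; positivity
    have hsub : (Vset M S P).filter (fun v => v ≠ 0) = (Wset M).filter (fun v => P (S v) = v) := by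
      ext v
      simp only [mem_filter, mV, mW]
      tauto
    have e2 : ∑ v ∈ Wset M, ((1 - max (tt v x) (tt v y) : ℝ) : Circ2)
        = ∑ v ∈ (Vset M S P).filter (fun v => v ≠ 0), ((1 - tt v x : ℝ) : Circ2) := by
      rw [hsub, ← Finset.sum_filter_add_sum_filter_not (Wset M) (fun v => P (S v) = v)]
      have : ∑ v ∈ (Wset M).filter (fun v => ¬ P (S v) = v),
          ((1 - max (tt v x) (tt v y) : ℝ) : Circ2) = 0 := by
        apply Finset.sum_eq_zero
        intro w hw
        simp only [mem_filter, mW] at hw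
        have hh := (hB' w hw.1.1 hw.2).1
        rw [ttv, max_eq_left (le_tt _ _)]
        exact coe_one_sub_pm (tt_outside hh)
      rw [this, add_zero]
      apply Finset.sum_congr rfl
      intro w _
      rw [ttv, max_eq_left (le_tt _ _)]
    have e3 : ∑ v ∈ Vset M S P, ((1 - max (tp v x y) (tt (S v) y) : ℝ) : Circ2)
        = ∑ v ∈ (Vset M S P).filter (fun v => v ≠ 0), ((1 - tt v x : ℝ) : Circ2)
          + ∑ v ∈ (Vset M S P).filter (fun v => ¬ v ≠ 0), ((1 - tp v x y : ℝ) : Circ2) := by
      rw [← Finset.sum_filter_add_sum_filter_not (Vset M S P) (fun v => v ≠ 0)]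
      congr 1
      · apply Finset.sum_congr rfl
        intro v hv
        have hv0 := (mem_filter.1 hv).2
        rw [ttv]
        unfold tp
        rw [if_neg hv0, max_eq_left (le_tt _ _)]
      · apply Finset.sum_congr rfl
        intro v hv
        rw [ttv, max_eq_left]
        unfold tp
        split_ifs
        · exact neg_one_le_clamp _
        · exact le_tt _ _
    have e4 : ((Psi M S P x y : ℝ) : Circ2)
        = ∑ v ∈ (Vset M S P).filter (fun v => ¬ v ≠ 0), ((1 - tp v x y : ℝ) : Circ2) := by
      rw [coe_Psi, e2, e3]; abel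
    by_cases hv0 : 0 ∈ Vset M S P
    · have hs : (Vset M S P).filter (fun v => ¬ v ≠ 0) = {0} := by
        ext v; simp only [mem_filter, mem_singleton, not_not]
        constructor
        · exact fun h => h.2
        · rintro rfl; exact ⟨hv0, rfl⟩
      rw [hs, Finset.sum_singleton] at e4
      rcases le_total (1/8) x with hx | hx
      · have : tp 0 x y = 1 := by
          unfold tp; rw [if_pos rfl]; apply clamp_of_ge; rw [hy, min_eq_left (by norm_num)]; linarith
        rw [this, sub_self, AddCircle.coe_zero] at e4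
        have := hc2 (by rw [e4, waveC_zero])
        linarith
      · have ht : tp 0 x y = 8 * x := by
          unfold tp; rw [if_pos rfl, hy, min_eq_left (by norm_num)]
          rw [clamp_of_mem (by linarith) (by linarith)]; ring
        rw [ht] at e4
        rcases le_total (1 - 8 * x) (1/2) with h | h
        · have hxx := hc2 (by
            rw [e4, waveC_formula _ (by linarith) (by linarith), clamp_of_le (by linarith),
              clamp_of_le (by linarith)]; norm_num)
          rw [hxx] at h; linarith
        · have hyy := hs1 (by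
            rw [e4, waveS_formula _ (by linarith) (by linarith), clamp_of_ge (by linarith),
              clamp_of_le (by linarith)]; norm_num)
          linarith
    · have hs : (Vset M S P).filter (fun v => ¬ v ≠ 0) = ∅ := by
        ext v; simp only [mem_filter, not_not]
        constructor
        · rintro ⟨h, rfl⟩; exact absurd h hv0
        · intro h; simp at h
      rw [hs, Finset.sum_empty] at e4
      have hxx := hc2 (by rw [e4, waveC_zero])
      have hnv : P (S 0) ≠ 0 := by
        intro h; exact hv0 ((mV 0).2 ⟨hM, h⟩)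
      exact (hB hy 0 hM hnv).2 rfl hxx
  rcases wave_dichotomy (Psi M S P x y : Circ2) with (h | h) | (h | h)
  · have hx := hc1 h
    have e : Psi M S P x y = 0 := by
      unfold Psi
      have s1 : ∑ v ∈ Vset M S P, (1 - max (tp v x y) (tt (S v) y)) = 0 := by
        apply Finset.sum_eq_zero
        intro v hv
        have hvM : (v : ℝ) + 1 ≤ M := by exact_mod_cast ((mV v).1 hv).1
        have : tp v x y = 1 := by
          unfold tp
          split_ifs
          · apply clamp_of_ge
            have : min y (1/2) ≤ 1/2 := min_le_right _ _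
            linarith
          · apply tt_right; linarith
        rw [this, max_eq_left (tt_le _ _), sub_self]
      have s2 : ∑ v ∈ Wset M, (1 - max (tt v x) (tt v y)) = 0 := by
        apply Finset.sum_eq_zero
        intro v hv
        have hvM : (v : ℝ) + 1 ≤ M := by exact_mod_cast ((mW v).1 hv).1
        rw [tt_right (v := v) (q := x) (by linarith), max_eq_left (tt_le _ _), sub_self]
      rw [s1, s2, sub_self]
    rw [e, AddCircle.coe_zero, waveC_zero] at h
    norm_num at h
  · exact caseX (hc2 h)
  · have hy := hs1 h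
    have e : Psi M S P x y = 0 := by
      unfold Psi
      have s1 : ∑ v ∈ Vset M S P, (1 - max (tp v x y) (tt (S v) y)) = 0 := by
        apply Finset.sum_eq_zero
        intro v hv
        have hvM : ((S v : ℕ) : ℝ) + 1 ≤ M := by exact_mod_cast hS v ((mV v).1 hv).1
        rw [tt_right (v := S v) (q := y) (by linarith), max_eq_right, sub_self]
        unfold tp
        split_ifs
        · exact clamp_le_one _
        · exact tt_le _ _
      have s2 : ∑ v ∈ Wset M, (1 - max (tt v x) (tt v y)) = 0 := by
        apply Finset.sum_eq_zero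
        intro v hv
        have hvM : (v : ℝ) + 1 ≤ M := by exact_mod_cast ((mW v).1 hv).1
        rw [tt_right (v := v) (q := y) (by linarith), max_eq_right (tt_le _ _), sub_self]
      rw [s1, s2, sub_self]
    rw [e, AddCircle.coe_zero, waveS_zero] at h
    norm_num at h
  · exact caseY (hs2 h)

end

end Pool.Agent.Helper58
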