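import Mathlib

set_option autoImplicit false

namespace Pool.Agent.Helper58

noncomputable section

/-- truncation to the interval [-1,1] -/
def clamp (x : ℝ) : ℝ := max (-1) (min 1 x)

lemma clamp_le_one (x : ℝ) : clamp x ≤ 1 := by
  unfold clamp; exact max_le (by norm_num) (min_le_left _ _)

lemma neg_one_le_clamp (x : ℝ) : -1 ≤ clamp x := by
  unfold clamp; exact le_max_left _ _

lemma clamp_of_ge {x : ℝ} (h : 1 ≤ x) : clamp x = 1 := by
  unfold clamp; rw [min_eq_left h]; norm_num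

lemma clamp_of_le {x : ℝ} (h : x ≤ -1) : clamp x = -1 := by
  unfold clamp; rw [min_eq_right (by linarith), max_eq_left h]

lemma clamp_of_mem {x : ℝ} (h1 : -1 ≤ x) (h2 : x ≤ 1) : clamp x = x := by
  unfold clamp; rw [min_eq_right h2, max_eq_right h1]

lemma clamp_mono {x y : ℝ} (h : x ≤ y) : clamp x ≤ clamp y := by
  unfold clamp; exact max_le_max le_rfl (min_le_min le_rfl h)

lemma clamp_neg (x : ℝ) : clamp (-x) = - clamp x := by
  rcases le_total x (-1) with h | h
  · rw [clamp_of_le h, clamp_of_ge (by linarith)]; norm_num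
  · rcases le_total 1 x with h' | h'
    · rw [clamp_of_ge h', clamp_of_le (by linarith)]
    · rw [clamp_of_mem h h', clamp_of_mem (by linarith) (by linarith)]

lemma clamp_cases (x : ℝ) :
    (1 ≤ x ∧ clamp x = 1) ∨ (x ≤ -1 ∧ clamp x = -1) ∨ (-1 ≤ x ∧ x ≤ 1 ∧ clamp x = x) := by
  rcases le_total x (-1) with h | h
  · exact Or.inr (Or.inl ⟨h, clamp_of_le h⟩)
  · rcases le_total 1 x with h' | h'
    · exact Or.inl ⟨h', clamp_of_ge h'⟩
    · exact Or.inr (Or.inr ⟨h, h', clamp_of_mem h h'⟩)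

lemma abs_clamp_sub (x y : ℝ) : |clamp x - clamp y| ≤ |x - y| := by
  rcases clamp_cases x with ⟨h1, h2⟩ | ⟨h1, h2⟩ | ⟨h1, h1', h2⟩ <;>
  rcases clamp_cases y with ⟨g1, g2⟩ | ⟨g1, g2⟩ | ⟨g1, g1', g2⟩ <;>
  rw [h2, g2] <;> rcases abs_cases (x - y) with ⟨h, _⟩ | ⟨h, _⟩ <;> rw [h] <;>
  rw [abs_le] <;> constructor <;> linarith

lemma abs_max_sub (a b c d : ℝ) : |max a b - max c d| ≤ |a - c| + |b - d| := by
  have := abs_max_sub_max_le_max a b c d
  refine this.trans (max_le ?_ ?_)
  · linarith [abs_nonneg (b - d)]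
  · linarith [abs_nonneg (a - c)]

/-- the circle of circumference two -/
abbrev Circ2 := AddCircle (2 : ℝ)

/-- first wave -/
def waveC (a : Circ2) : ℝ := clamp (4 * ‖a - ((1/4 : ℝ) : Circ2)‖ - 2)

/-- second wave -/
def waveS (a : Circ2) : ℝ := clamp (4 * ‖a + ((1/4 : ℝ) : Circ2)‖ - 2)

lemma waveC_lip (a b : ℝ) : |waveC (a : Circ2) - waveC (b : Circ2)| ≤ 4 * |a - b| := by
  unfold waveC
  refine (abs_clamp_sub _ _).trans ?_
  have h1 : |‖(a : Circ2) - ((1/4 : ℝ) : Circ2)‖ - ‖(b : Circ2) - ((1/4 : ℝ) : Circ2)‖|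
      ≤ ‖((a : Circ2) - ((1/4 : ℝ) : Circ2)) - ((b : Circ2) - ((1/4 : ℝ) : Circ2))‖ :=
    abs_norm_sub_norm_le _ _
  have h2 : ((a : Circ2) - ((1/4 : ℝ) : Circ2)) - ((b : Circ2) - ((1/4 : ℝ) : Circ2))
      = ((a - b : ℝ) : Circ2) := by
    rw [AddCircle.coe_sub]; abel
  rw [h2] at h1
  have h3 : ‖((a - b : ℝ) : Circ2)‖ ≤ |a - b| := by
    rw [AddCircle.norm_eq]
    have := round_le ((2:ℝ)⁻¹ * (a - b)) 0
    have h4 : |a - b - (round ((2:ℝ)⁻¹ * (a - b)) : ℝ) * 2|
        = 2 * |(2:ℝ)⁻¹ * (a - b) - (round ((2:ℝ)⁻¹ * (a - b)) : ℝ)| := by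
      rw [← abs_of_pos (show (0:ℝ) < 2 by norm_num), ← abs_mul]
      congr 1
      rw [abs_of_pos (show (0:ℝ) < 2 by norm_num)]
      ring
    rw [h4]
    calc 2 * |(2:ℝ)⁻¹ * (a - b) - (round ((2:ℝ)⁻¹ * (a - b)) : ℝ)|
        ≤ 2 * |(2:ℝ)⁻¹ * (a - b) - ((0 : ℤ) : ℝ)| := by linarith
      _ = |a - b| := by
        rw [Int.cast_zero, sub_zero, abs_mul, abs_of_pos (show (0:ℝ) < (2:ℝ)⁻¹ by norm_num)]
        ring
  have h5 : 4 * ‖(a : Circ2) - ((1/4 : ℝ) : Circ2)‖ - 2 - (4 * ‖(b : Circ2) - ((1/4 : ℝ) : Circ2)‖ - 2)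
      = 4 * (‖(a : Circ2) - ((1/4 : ℝ) : Circ2)‖ - ‖(b : Circ2) - ((1/4 : ℝ) : Circ2)‖) := by ring
  rw [h5, abs_mul, abs_of_pos (show (0:ℝ) < 4 by norm_num)]
  linarith

lemma waveS_eq (a : Circ2) : waveS a = waveC (a + ((1/2 : ℝ) : Circ2)) := by
  unfold waveS waveC
  congr 3
  have : ((1/2 : ℝ) : Circ2) - ((1/4 : ℝ) : Circ2) = ((1/4 : ℝ) : Circ2) := by
    rw [← AddCircle.coe_sub]; norm_num
  rw [add_sub_assoc, this]

lemma waveS_lip (a b : ℝ) : |waveS (a : Circ2) - waveS (b : Circ2)| ≤ 4 * |a - b| := by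
  rw [waveS_eq, waveS_eq, ← AddCircle.coe_add, ← AddCircle.coe_add]
  refine (waveC_lip _ _).trans ?_
  rw [add_sub_add_right_eq_sub]

lemma norm_coe_of_abs_le {x : ℝ} (h : |x| ≤ 1) : ‖(x : Circ2)‖ = |x| := by
  rw [AddCircle.norm_coe_eq_abs_iff (2:ℝ) (by norm_num)]
  rw [abs_of_pos (show (0:ℝ) < 2 by norm_num)]; linarith

lemma waveC_formula (x : ℝ) (h0 : 0 ≤ x) (h2 : x ≤ 2) :
    waveC (x : Circ2) = clamp (4 * x - 3) - clamp (4 * x - 7) - 1 := by
  unfold waveC
  rw [← AddCircle.coe_sub]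
  rcases le_total x (5/4) with h | h
  · rw [norm_coe_of_abs_le (by rw [abs_le]; constructor <;> linarith)]
    rw [clamp_of_le (show 4 * x - 7 ≤ -1 by linarith)]
    rcases le_total x (1/4) with h' | h'
    · rw [abs_of_nonpos (by linarith), clamp_of_le (by linarith), clamp_of_le (by linarith)]; norm_num
    · rw [abs_of_nonneg (by linarith)]
      have : 4 * (x - 1/4) - 2 = 4 * x - 3 := by ring
      rw [this]; ring
  · have h3 : ((x - 1/4 : ℝ) : Circ2) = ((x - 1/4 - 2 : ℝ) : Circ2) := by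
      rw [AddCircle.coe_sub (p := (2:ℝ)) (x := x - 1/4) (y := 2)]
      rw [AddCircle.coe_period]; simp
    rw [h3, norm_coe_of_abs_le (by rw [abs_le]; constructor <;> linarith)]
    rw [clamp_of_ge (show 1 ≤ 4 * x - 3 by linarith)]
    rw [abs_of_nonpos (by linarith)]
    have : 4 * -(x - 1/4 - 2) - 2 = -(4 * x - 7) := by ring
    rw [this, clamp_neg]; ring

lemma waveS_formula (x : ℝ) (h0 : 0 ≤ x) (h2 : x ≤ 2) :
    waveS (x : Circ2) = clamp (4 * x - 1) - clamp (4 * x - 5) - 1 := by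
  rw [waveS_eq, ← AddCircle.coe_add]
  rcases le_total x (3/2) with h | h
  · rw [waveC_formula _ (by linarith) (by linarith)]
    have e1 : 4 * (x + 1/2) - 3 = 4 * x - 1 := by ring
    have e2 : 4 * (x + 1/2) - 7 = 4 * x - 5 := by ring
    rw [e1, e2]
  · have h3 : ((x + 1/2 : ℝ) : Circ2) = ((x + 1/2 - 2 : ℝ) : Circ2) := by
      rw [AddCircle.coe_sub (p := (2:ℝ)) (x := x + 1/2) (y := 2)]
      rw [AddCircle.coe_period]; simp
    rw [h3, waveC_formula _ (by linarith) (by linarith)]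
    rw [clamp_of_le (by linarith), clamp_of_le (by linarith), clamp_of_ge (by linarith),
      clamp_of_ge (by linarith)]
    norm_num

lemma coe_even (k : ℤ) : ((2 * k : ℝ) : Circ2) = 0 := by
  have : ((k • (2:ℝ) : ℝ) : Circ2) = 0 := by
    rw [AddCircle.coe_eq_zero_iff]; exact ⟨k, rfl⟩
  rw [← this]; congr 1; simp [mul_comm]

lemma coe_add_even (x : ℝ) (k : ℤ) : ((x + 2 * k : ℝ) : Circ2) = (x : Circ2) := by
  rw [AddCircle.coe_add, coe_even, add_zero]

lemma exists_rep (a : Circ2) : ∃ x : ℝ, 0 ≤ x ∧ x ≤ 2 ∧ (x : Circ2) = a := by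
  induction a using QuotientAddGroup.induction_on with
  | H z =>
    refine ⟨z - 2 * ⌊z / 2⌋, ?_, ?_, ?_⟩
    · have := Int.floor_le (z / 2); linarith
    · have := (Int.lt_floor_add_one (z / 2)).le; linarith
    · have h := coe_add_even z (-⌊z/2⌋)
      push_cast at h
      rw [show z - 2 * (⌊z / 2⌋ : ℝ) = z + 2 * -(⌊z/2⌋ : ℝ) by ring]
      exact h

lemma wave_dichotomy (a : Circ2) :
    (waveC a = 1 ∨ waveC a = -1) ∨ (waveS a = 1 ∨ waveS a = -1) := by
  obtain ⟨x, h0, h2, rfl⟩ := exists_rep a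
  rw [waveC_formula x h0 h2, waveS_formula x h0 h2]
  rcases le_total x (1/2) with h | h
  · left; right
    rw [clamp_of_le (show 4 * x - 3 ≤ -1 by linarith), clamp_of_le (show 4 * x - 7 ≤ -1 by linarith)]
    norm_num
  · rcases le_total x 1 with h' | h'
    · right; left
      rw [clamp_of_ge (show 1 ≤ 4 * x - 1 by linarith), clamp_of_le (show 4 * x - 5 ≤ -1 by linarith)]
      norm_num
    · rcases le_total x (3/2) with h'' | h''
      · left; left
        rw [clamp_of_ge (show 1 ≤ 4 * x - 3 by linarith), clamp_of_le (show 4 * x - 7 ≤ -1 by linarith)]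
        norm_num
      · right; right
        rw [clamp_of_ge (show 1 ≤ 4 * x - 1 by linarith), clamp_of_ge (show 1 ≤ 4 * x - 5 by linarith)]
        norm_num

lemma waveC_zero : waveC 0 = -1 := by
  have := waveC_formula 0 le_rfl (by norm_num)
  rw [AddCircle.coe_zero] at this
  rw [this, clamp_of_le (by norm_num), clamp_of_le (by norm_num)]; norm_num

lemma waveS_zero : waveS 0 = -1 := by
  have := waveS_formula 0 le_rfl (by norm_num)
  rw [AddCircle.coe_zero] at this
  rw [this, clamp_of_le (by norm_num), clamp_of_le (by norm_num)]; norm_num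

/-- the explicit formula used by the network for the first wave -/
def sumC (x : ℝ) : ℝ :=
  -1 + (clamp (4 * (x + 4) - 3) - clamp (4 * (x + 4) - 7))
     + (clamp (4 * (x + 2) - 3) - clamp (4 * (x + 2) - 7))
     + (clamp (4 * x - 3) - clamp (4 * x - 7))
     + (clamp (4 * (x - 2) - 3) - clamp (4 * (x - 2) - 7))

/-- the explicit formula used by the network for the second wave -/
def sumS (x : ℝ) : ℝ :=
  -1 + (clamp (4 * (x + 4) - 1) - clamp (4 * (x + 4) - 5))
     + (clamp (4 * (x + 2) - 1) - clamp (4 * (x + 2) - 5))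
     + (clamp (4 * x - 1) - clamp (4 * x - 5))
     + (clamp (4 * (x - 2) - 1) - clamp (4 * (x - 2) - 5))

lemma sumC_eq (x : ℝ) (h1 : -4 ≤ x) (h2 : x ≤ 4) : sumC x = waveC (x : Circ2) := by
  unfold sumC
  rcases le_total x (-2) with h | h
  · have e : (x : Circ2) = ((x + 4 : ℝ) : Circ2) := by
      have := coe_add_even x 2; push_cast at this; rw [← this]; congr 1; ring
    rw [e, waveC_formula (x + 4) (by linarith) (by linarith)]
    rw [clamp_of_le (show 4 * (x + 2) - 3 ≤ -1 by linarith),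
      clamp_of_le (show 4 * (x + 2) - 7 ≤ -1 by linarith),
      clamp_of_le (show 4 * x - 3 ≤ -1 by linarith),
      clamp_of_le (show 4 * x - 7 ≤ -1 by linarith),
      clamp_of_le (show 4 * (x - 2) - 3 ≤ -1 by linarith),
      clamp_of_le (show 4 * (x - 2) - 7 ≤ -1 by linarith)]
    ring
  · rcases le_total x 0 with h' | h'
    · have e : (x : Circ2) = ((x + 2 : ℝ) : Circ2) := by
        have := coe_add_even x 1; push_cast at this; rw [← this]; congr 1; ring
      rw [e, waveC_formula (x + 2) (by linarith) (by linarith)]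
      rw [clamp_of_ge (show 1 ≤ 4 * (x + 4) - 3 by linarith),
        clamp_of_ge (show 1 ≤ 4 * (x + 4) - 7 by linarith),
        clamp_of_le (show 4 * x - 3 ≤ -1 by linarith),
        clamp_of_le (show 4 * x - 7 ≤ -1 by linarith),
        clamp_of_le (show 4 * (x - 2) - 3 ≤ -1 by linarith),
        clamp_of_le (show 4 * (x - 2) - 7 ≤ -1 by linarith)]
      ring
    · rcases le_total x 2 with h'' | h''
      · rw [waveC_formula x (by linarith) (by linarith)]
        rw [clamp_of_ge (show 1 ≤ 4 * (x + 4) - 3 by linarith),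
          clamp_of_ge (show 1 ≤ 4 * (x + 4) - 7 by linarith),
          clamp_of_ge (show 1 ≤ 4 * (x + 2) - 3 by linarith),
          clamp_of_ge (show 1 ≤ 4 * (x + 2) - 7 by linarith),
          clamp_of_le (show 4 * (x - 2) - 3 ≤ -1 by linarith),
          clamp_of_le (show 4 * (x - 2) - 7 ≤ -1 by linarith)]
        ring
      · have e : (x : Circ2) = ((x - 2 : ℝ) : Circ2) := by
          have := coe_add_even x (-1); push_cast at this; rw [← this]; congr 1; ring
        rw [e, waveC_formula (x - 2) (by linarith) (by linarith)]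
        rw [clamp_of_ge (show 1 ≤ 4 * (x + 4) - 3 by linarith),
          clamp_of_ge (show 1 ≤ 4 * (x + 4) - 7 by linarith),
          clamp_of_ge (show 1 ≤ 4 * (x + 2) - 3 by linarith),
          clamp_of_ge (show 1 ≤ 4 * (x + 2) - 7 by linarith),
          clamp_of_ge (show 1 ≤ 4 * x - 3 by linarith),
          clamp_of_ge (show 1 ≤ 4 * x - 7 by linarith)]
        ring

lemma sumS_eq (x : ℝ) (h1 : -4 ≤ x) (h2 : x ≤ 4) : sumS x = waveS (x : Circ2) := by
  unfold sumS
  rcases le_total x (-2) with h | h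
  · have e : (x : Circ2) = ((x + 4 : ℝ) : Circ2) := by
      have := coe_add_even x 2; push_cast at this; rw [← this]; congr 1; ring
    rw [e, waveS_formula (x + 4) (by linarith) (by linarith)]
    rw [clamp_of_le (show 4 * (x + 2) - 1 ≤ -1 by linarith),
      clamp_of_le (show 4 * (x + 2) - 5 ≤ -1 by linarith),
      clamp_of_le (show 4 * x - 1 ≤ -1 by linarith),
      clamp_of_le (show 4 * x - 5 ≤ -1 by linarith),
      clamp_of_le (show 4 * (x - 2) - 1 ≤ -1 by linarith),
      clamp_of_le (show 4 * (x - 2) - 5 ≤ -1 by linarith)]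
    ring
  · rcases le_total x 0 with h' | h'
    · have e : (x : Circ2) = ((x + 2 : ℝ) : Circ2) := by
        have := coe_add_even x 1; push_cast at this; rw [← this]; congr 1; ring
      rw [e, waveS_formula (x + 2) (by linarith) (by linarith)]
      rw [clamp_of_ge (show 1 ≤ 4 * (x + 4) - 1 by linarith),
        clamp_of_ge (show 1 ≤ 4 * (x + 4) - 5 by linarith),
        clamp_of_le (show 4 * x - 1 ≤ -1 by linarith),
        clamp_of_le (show 4 * x - 5 ≤ -1 by linarith),
        clamp_of_le (show 4 * (x - 2) - 1 ≤ -1 by linarith),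
        clamp_of_le (show 4 * (x - 2) - 5 ≤ -1 by linarith)]
      ring
    · rcases le_total x 2 with h'' | h''
      · rw [waveS_formula x (by linarith) (by linarith)]
        rw [clamp_of_ge (show 1 ≤ 4 * (x + 4) - 1 by linarith),
          clamp_of_ge (show 1 ≤ 4 * (x + 4) - 5 by linarith),
          clamp_of_ge (show 1 ≤ 4 * (x + 2) - 1 by linarith),
          clamp_of_ge (show 1 ≤ 4 * (x + 2) - 5 by linarith),
          clamp_of_le (show 4 * (x - 2) - 1 ≤ -1 by linarith),
          clamp_of_le (show 4 * (x - 2) - 5 ≤ -1 by linarith)]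
        ring
      · have e : (x : Circ2) = ((x - 2 : ℝ) : Circ2) := by
          have := coe_add_even x (-1); push_cast at this; rw [← this]; congr 1; ring
        rw [e, waveS_formula (x - 2) (by linarith) (by linarith)]
        rw [clamp_of_ge (show 1 ≤ 4 * (x + 4) - 1 by linarith),
          clamp_of_ge (show 1 ≤ 4 * (x + 4) - 5 by linarith),
          clamp_of_ge (show 1 ≤ 4 * (x + 2) - 1 by linarith),
          clamp_of_ge (show 1 ≤ 4 * (x + 2) - 5 by linarith),
          clamp_of_ge (show 1 ≤ 4 * x - 1 by linarith),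
          clamp_of_ge (show 1 ≤ 4 * x - 5 by linarith)]
        ring

end

end Pool.Agent.Helper58
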