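import Pool.Agent.Helper58.Wave

set_option autoImplicit false

namespace Pool.Agent.Helper58

/-- value of a binary word, most significant bit first -/
def wval : List Bool → ℕ
  | [] => 0
  | b :: w => (if b then 2 ^ w.length else 0) + wval w

/-- the word of length `n` with value `v` -/
def word : ℕ → ℕ → List Bool
  | 0, _ => []
  | n + 1, v => decide (2 ^ n ≤ v) :: word n (if 2 ^ n ≤ v then v - 2 ^ n else v)

lemma word_length (n v : ℕ) : (word n v).length = n := by
  induction n generalizing v with
  | zero => rfl
  | succ n ih => simp [word, ih]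

lemma wval_lt (w : List Bool) : wval w < 2 ^ w.length := by
  induction w with
  | nil => simp [wval]
  | cons b w ih =>
    simp only [wval, List.length_cons, pow_succ]
    split_ifs <;> omega

lemma wval_word (n v : ℕ) (h : v < 2 ^ n) : wval (word n v) = v := by
  induction n generalizing v with
  | zero => simp [word, wval]; simp at h; exact h.symm
  | succ n ih =>
    simp only [word, wval, word_length]
    rw [pow_succ] at h
    by_cases hv : 2 ^ n ≤ v
    · simp only [hv, decide_true, if_true]
      rw [ih _ (by omega)]; omega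
    · simp only [hv, decide_false, if_false]
      rw [ih _ (by omega)]; simp

lemma word_wval (w : List Bool) (n : ℕ) (h : w.length = n) : word n (wval w) = w := by
  subst h
  induction w with
  | nil => rfl
  | cons b w ih =>
    have hlt := wval_lt w
    simp only [List.length_cons, word, wval]
    cases b
    · simp only [Bool.false_eq_true, if_false, zero_add]
      have : ¬ (2 ^ w.length ≤ wval w) := by omega
      simp [this, ih]
    · simp only [if_true]
      have : 2 ^ w.length ≤ 2 ^ w.length + wval w := by omega
      simp [this, ih]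

lemma wval_inj {w w' : List Bool} (h : w.length = w'.length) (h2 : wval w = wval w') : w = w' := by
  rw [← word_wval w _ rfl, ← word_wval w' _ rfl, h, h2]

/-- sign of a bit -/
noncomputable def sg (b : Bool) : ℝ := if b then 1 else -1

lemma sg_true : sg true = 1 := rfl
lemma sg_false : sg false = -1 := by simp [sg]

lemma sg_inj {a b : Bool} (h : sg a = sg b) : a = b := by
  cases a <;> cases b <;> simp [sg] at h ⊢ <;> norm_num at h

lemma nand_gate (a b : Bool) : clamp (1 - sg a - sg b) = sg (!(a && b)) := by
  cases a <;> cases b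
  · simp only [sg_false, Bool.and_false, Bool.not_false, sg_true]; exact clamp_of_ge (by norm_num)
  · simp only [sg_false, sg_true, Bool.and_true, Bool.not_false]; exact clamp_of_ge (by norm_num)
  · simp only [sg_false, sg_true, Bool.and_false, Bool.not_false]; exact clamp_of_ge (by norm_num)
  · simp only [sg_false, sg_true, Bool.and_true, Bool.not_true]; exact clamp_of_le (by norm_num)

/-- sign of a comparison -/
noncomputable def sgn3 (p q : ℕ) : ℝ := if q < p then 1 else if p = q then 0 else -1

lemma sgn3_step (a b : Bool) (s t : List Bool) (h : s.length = t.length) :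
    clamp (sgn3 (wval s) (wval t) + sg a - sg b) = sgn3 (wval (a :: s)) (wval (b :: t)) := by
  have h1 := wval_lt s
  have h2 := wval_lt t
  rw [h] at h1
  have hc : sgn3 (wval s) (wval t) ≤ 1 ∧ -1 ≤ sgn3 (wval s) (wval t) := by
    unfold sgn3; split_ifs <;> norm_num
  cases a <;> cases b
  · simp only [wval, Bool.false_eq_true, if_false, zero_add, sg_false]
    rw [show sgn3 (wval s) (wval t) + -1 - -1 = sgn3 (wval s) (wval t) by ring]
    exact clamp_of_mem hc.2 hc.1
  · simp only [wval, Bool.false_eq_true, if_false, if_true, zero_add, sg_false, sg_true]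
    rw [clamp_of_le (by linarith)]
    unfold sgn3
    rw [if_neg (by omega), if_neg (by omega)]
  · simp only [wval, Bool.false_eq_true, if_false, if_true, zero_add, sg_false, sg_true]
    rw [clamp_of_ge (by linarith)]
    unfold sgn3
    rw [← h] at h2
    rw [if_pos (by omega)]
  · simp only [wval, if_true, sg_true]
    rw [show sgn3 (wval s) (wval t) + 1 - 1 = sgn3 (wval s) (wval t) by ring]
    rw [clamp_of_mem hc.2 hc.1]
    unfold sgn3
    rw [h]
    have e1 : (2 ^ t.length + wval t < 2 ^ t.length + wval s) ↔ wval t < wval s := by omega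
    have e2 : (2 ^ t.length + wval s = 2 ^ t.length + wval t) ↔ wval s = wval t := by omega
    simp only [e1, e2]

lemma wval_replicate_false (n : ℕ) : wval (List.replicate n false) = 0 := by
  induction n with
  | zero => rfl
  | succ n ih => simp [List.replicate_succ, wval, ih]

/-- digit extraction at a clean point -/
lemma digits (n : ℕ) : ∀ (G q : ℝ) (r b : ℕ → ℝ), (2:ℝ) ^ (n + 14) ≤ G → 0 ≤ q → q ≤ 2 ^ n →
    (∀ k : ℕ, 0 < k → k < 2 ^ n → (2:ℝ) ^ (-15 : ℤ) ≤ |q - k|) →
    r 0 = 2 * q / 2 ^ n - 1 → (∀ i < n, b i = clamp (G * r i)) →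
    (∀ i < n, r (i + 1) = clamp (2 * r i - b i)) →
    ∃ a : ℕ, a < 2 ^ n ∧ (a : ℝ) ≤ q ∧ q ≤ a + 1 ∧ r n = 2 * (q - a) - 1 ∧
      ∀ i < n, b i = sg ((word n a).getD i false) := by
  induction n with
  | zero =>
    intro G q r b _ h0 h1 _ hr _ _
    refine ⟨0, by norm_num, by simpa using h0, by simpa using h1, ?_, by simp⟩
    rw [hr]; simp
  | succ n ih =>
    intro G q r b hG h0 h1 hclean hr hb hrr
    have hpow : (0:ℝ) < 2 ^ n := by positivity
    have hk := hclean (2 ^ n) (by positivity) (by rw [pow_succ]; have : 0 < 2 ^ n := by positivity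
                                                  omega)
    push_cast at hk
    have hr0 : r 0 = (q - 2 ^ n) / 2 ^ n := by
      rw [hr, pow_succ]; field_simp
    have hz : (2:ℝ) ^ (-15 : ℤ) = 1 / 2 ^ 15 := by norm_num
    rw [hz] at hk
    have hGn : (2:ℝ) ^ (n + 14) ≤ G := by
      refine le_trans ?_ hG
      exact pow_le_pow_right₀ (by norm_num) (by omega)
    have hG0 : 0 < G := lt_of_lt_of_le (by positivity) hGn
    have hGG : (2:ℝ) ^ 15 * 2 ^ n ≤ G := by
      refine le_trans (le_of_eq ?_) hG
      rw [← pow_add]; congr 1; ring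
    rcases lt_or_ge q (2 ^ n) with hq | hq
    · -- lower half
      rw [abs_of_neg (by linarith)] at hk
      have hb0 : b 0 = -1 := by
        rw [hb 0 (by omega), hr0]
        apply clamp_of_le
        rw [mul_div_assoc', div_le_iff₀ hpow]
        have : G * (q - 2 ^ n) ≤ (2 ^ 15 * 2 ^ n) * (q - 2 ^ n) := by
          apply mul_le_mul_of_nonpos_right hGG; linarith
        have h3 : (2 ^ 15 * 2 ^ n) * (q - 2 ^ n) ≤ (2 ^ 15 * 2 ^ n) * (-(1 / 2 ^ 15)) := by
          apply mul_le_mul_of_nonneg_left _ (by positivity); linarith
        have h4 : ((2:ℝ) ^ 15 * 2 ^ n) * (-(1 / 2 ^ 15)) = -1 * 2 ^ n := by field_simp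
        linarith
      have hr1 : r 1 = 2 * q / 2 ^ n - 1 := by
        rw [hrr 0 (by omega), hb0, hr0]
        have e : 2 * ((q - 2 ^ n) / 2 ^ n) - -1 = 2 * q / 2 ^ n - 1 := by field_simp; ring
        rw [e]
        apply clamp_of_mem
        · have : 0 ≤ 2 * q / 2 ^ n := by positivity
          linarith
        · have : 2 * q / 2 ^ n ≤ 2 := by
            rw [div_le_iff₀ hpow]; linarith
          linarith
      obtain ⟨a, ha, ha1, ha2, ha3, ha4⟩ := ih G q (fun i => r (i + 1)) (fun i => b (i + 1)) hGn h0
        (le_of_lt hq) (by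
          intro k hk0 hk1
          exact hclean k hk0 (by rw [pow_succ]; omega))
        hr1 (fun i hi => hb (i + 1) (by omega)) (fun i hi => hrr (i + 1) (by omega))
      refine ⟨a, by rw [pow_succ]; omega, ha1, ha2, ha3, ?_⟩
      intro i hi
      have hw : word (n + 1) a = false :: word n a := by
        have hna : ¬ 2 ^ n ≤ a := by omega
        simp [word, hna]
      rw [hw]
      cases i with
      | zero => rw [hb0]; simp [sg]
      | succ i => simpa using ha4 i (by omega)
    · -- upper half
      rw [abs_of_nonneg (by linarith)] at hk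
      have hb0 : b 0 = 1 := by
        rw [hb 0 (by omega), hr0]
        apply clamp_of_ge
        rw [mul_div_assoc', le_div_iff₀ hpow]
        have : (2 ^ 15 * 2 ^ n) * (q - 2 ^ n) ≤ G * (q - 2 ^ n) := by
          apply mul_le_mul_of_nonneg_right hGG; linarith
        have h3 : (2 ^ 15 * 2 ^ n) * (1 / 2 ^ 15) ≤ (2 ^ 15 * 2 ^ n) * (q - 2 ^ n) := by
          apply mul_le_mul_of_nonneg_left _ (by positivity); linarith
        have h4 : ((2:ℝ) ^ 15 * 2 ^ n) * (1 / 2 ^ 15) = 1 * 2 ^ n := by field_simp
        linarith
      have hq2 : q - 2 ^ n ≤ 2 ^ n := by rw [pow_succ] at h1; linarith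
      have hr1 : r 1 = 2 * (q - 2 ^ n) / 2 ^ n - 1 := by
        rw [hrr 0 (by omega), hb0, hr0]
        have e : 2 * ((q - 2 ^ n) / 2 ^ n) - 1 = 2 * (q - 2 ^ n) / 2 ^ n - 1 := by field_simp
        rw [e]
        apply clamp_of_mem
        · have : 0 ≤ 2 * (q - 2 ^ n) / 2 ^ n := by
            apply div_nonneg _ hpow.le; linarith
          linarith
        · have : 2 * (q - 2 ^ n) / 2 ^ n ≤ 2 := by
            rw [div_le_iff₀ hpow]; linarith
          linarith
      obtain ⟨a, ha, ha1, ha2, ha3, ha4⟩ := ih G (q - 2 ^ n) (fun i => r (i + 1)) (fun i => b (i + 1))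
        hGn (by linarith) hq2 (by
          intro k hk0 hk1
          have := hclean (2 ^ n + k) (by omega) (by rw [pow_succ]; omega)
          push_cast at this
          rwa [show q - 2 ^ n - k = q - (2 ^ n + k) by ring])
        hr1 (fun i hi => hb (i + 1) (by omega)) (fun i hi => hrr (i + 1) (by omega))
      refine ⟨2 ^ n + a, by rw [pow_succ]; omega, by push_cast; linarith, by push_cast; linarith, ?_, ?_⟩
      · push_cast
        rw [show r (n + 1) = _ from ha3]; ring
      · intro i hi
        have hw : word (n + 1) (2 ^ n + a) = true :: word n a := by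
          simp [word]
        rw [hw]
        cases i with
        | zero => rw [hb0]; simp [sg]
        | succ i => simpa using ha4 i (by omega)

end Pool.Agent.Helper58
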